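import Mathlib

/-!
# MP_ca1492_al, PA/Deriv: power series in X a - X b
-/

set_option autoImplicit false

namespace CA1492.PA

open MvPowerSeries

variable {σ : Type} [Finite σ] [DecidableEq σ]

omit [Finite σ] [DecidableEq σ] in
theorem Deriv_hasSubst (a b : σ) : PowerSeries.HasSubst (X a - X b : MvPowerSeries σ ℂ) :=
  PowerSeries.HasSubst.of_constantCoeff_zero (by simp)

omit [Finite σ] [DecidableEq σ] in
theorem Deriv_coe (a b : σ) (d : ℕ) : (X a - X b : MvPowerSeries σ ℂ) ^ d =
    (((MvPolynomial.X a - MvPolynomial.X b) ^ d : MvPolynomial σ ℂ) : MvPowerSeries σ ℂ) := by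
  rw [MvPolynomial.coe_pow, ← MvPolynomial.coeToMvPowerSeries.ringHom_apply, map_sub,
    MvPolynomial.coeToMvPowerSeries.ringHom_apply, MvPolynomial.coeToMvPowerSeries.ringHom_apply,
    MvPolynomial.coe_X, MvPolynomial.coe_X]

omit [Finite σ] [DecidableEq σ] in
theorem Deriv_hom (a b : σ) (e : σ →₀ ℕ) (d : ℕ) (h : e.degree ≠ d) :
    coeff e ((X a - X b : MvPowerSeries σ ℂ) ^ d) = 0 := by
  rw [Deriv_coe, MvPolynomial.coeff_coe]
  have h1 : ((MvPolynomial.X a - MvPolynomial.X b : MvPolynomial σ ℂ) ^ d).IsHomogeneous (1 * d) :=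
    ((MvPolynomial.isHomogeneous_X ℂ a).sub (MvPolynomial.isHomogeneous_X ℂ b)).pow d
  rw [one_mul] at h1
  exact h1.coeff_eq_zero h

omit [Finite σ] [DecidableEq σ] in
theorem Deriv_coeff (a b : σ) (G : PowerSeries ℂ) (e : σ →₀ ℕ) :
    coeff e (G.subst (X a - X b : MvPowerSeries σ ℂ)) =
      PowerSeries.coeff e.degree G * coeff e ((X a - X b : MvPowerSeries σ ℂ) ^ e.degree) := by
  rw [PowerSeries.coeff_subst (Deriv_hasSubst a b), finsum_eq_single _ e.degree, smul_eq_mul]
  intro d hd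
  rw [Deriv_hom a b e d (Ne.symm hd), smul_zero]

omit [Finite σ] [DecidableEq σ] in
theorem Deriv_degree (e : σ →₀ ℕ) (c : σ) : (e + Finsupp.single c 1).degree = e.degree + 1 := by
  rw [map_add, Finsupp.degree_single]

omit [Finite σ] [DecidableEq σ] in
theorem Deriv_pderiv (a b c : σ) (G : PowerSeries ℂ) (e : σ →₀ ℕ) :
    coeff e (pderiv ℂ c (G.subst (X a - X b : MvPowerSeries σ ℂ))) =
      PowerSeries.coeff (e.degree + 1) G *
        coeff e (pderiv ℂ c ((X a - X b : MvPowerSeries σ ℂ) ^ (e.degree + 1))) := by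
  rw [coeff_pderiv, coeff_pderiv, Deriv_coeff, Deriv_degree]
  ring

omit [Finite σ] [DecidableEq σ] in
theorem Deriv_kill {a b : σ} (G : PowerSeries ℂ) (c : σ) (ha : c ≠ a)
    (hb : c ≠ b) : pderiv ℂ c (G.subst (X a - X b : MvPowerSeries σ ℂ)) = 0 := by
  ext e
  rw [Deriv_pderiv, pderiv_pow, map_sub, pderiv_X_of_ne (Ne.symm ha), pderiv_X_of_ne (Ne.symm hb),
    sub_zero, mul_zero, map_zero, mul_zero]

omit [Finite σ] [DecidableEq σ] in
theorem Deriv_kill₂ {a b : σ} (hab : a ≠ b) (G : PowerSeries ℂ) :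
    pderiv ℂ a (G.subst (X a - X b : MvPowerSeries σ ℂ)) +
      pderiv ℂ b (G.subst (X a - X b : MvPowerSeries σ ℂ)) = 0 := by
  ext e
  rw [map_add, Deriv_pderiv, Deriv_pderiv, pderiv_pow, pderiv_pow, map_sub, map_sub,
    pderiv_X_of_ne (Ne.symm hab), pderiv_X_of_ne hab, pderiv_X_self, pderiv_X_self, sub_zero,
    zero_sub, ← mul_add, ← map_add, ← mul_add, add_neg_cancel, mul_zero, map_zero, mul_zero]

omit [Finite σ] [DecidableEq σ] in
theorem Deriv_top {a b : σ} (hab : a ≠ b) (m : ℕ) :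
    coeff (Finsupp.single a m) ((X a - X b : MvPowerSeries σ ℂ) ^ m) = 1 := by
  induction m with
  | zero => rw [pow_zero, Finsupp.single_zero, coeff_zero_one]
  | succ m ih =>
    have h1 := coeff_pderiv (i := a) ((X a - X b : MvPowerSeries σ ℂ) ^ (m + 1))
      (Finsupp.single a m)
    rw [pderiv_pow, map_sub, pderiv_X_self, pderiv_X_of_ne (Ne.symm hab), sub_zero, mul_one,
      Nat.add_sub_cancel, ← Finsupp.single_add, Finsupp.single_eq_same] at h1
    have h2 : (((m + 1 : ℕ) : ℂ)) ≠ 0 := Nat.cast_ne_zero.2 (Nat.succ_ne_zero m)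
    have h3 : coeff (Finsupp.single a m) (((m + 1 : ℕ) : MvPowerSeries σ ℂ) *
        (X a - X b : MvPowerSeries σ ℂ) ^ m) = ((m + 1 : ℕ) : ℂ) := by
      rw [← nsmul_eq_mul, map_nsmul, ih, nsmul_eq_mul, mul_one]
    rw [h3] at h1
    have h4 : ((m + 1 : ℕ) : ℂ) = (m : ℂ) + 1 := by push_cast; ring
    rw [← h4] at h1
    have h5 : coeff (Finsupp.single a (m + 1)) ((X a - X b : MvPowerSeries σ ℂ) ^ (m + 1)) *
        ((m + 1 : ℕ) : ℂ) = 1 * ((m + 1 : ℕ) : ℂ) := by rw [← h1, one_mul]
    exact mul_right_cancel₀ h2 h5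

omit [Finite σ] in
theorem Deriv_uniq {a b : σ} (hab : a ≠ b) (K : MvPowerSeries σ ℂ)
    (h1 : ∀ c, c ≠ a → c ≠ b → pderiv ℂ c K = 0) (h2 : pderiv ℂ a K + pderiv ℂ b K = 0)
    (h0 : ∀ m, coeff (Finsupp.single a m) K = 0) : K = 0 := by
  have hsub : ∀ (e : σ →₀ ℕ) (c : σ), e c ≠ 0 →
      (e - Finsupp.single c 1) + Finsupp.single c 1 = e := by
    intro e c hc
    refine tsub_add_cancel_of_le ?_
    rw [Finsupp.single_le_iff]
    omega
  have hne : ∀ n : ℕ, (n : ℂ) + 1 ≠ 0 := fun n => Nat.cast_add_one_ne_zero n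
  have main : ∀ (n : ℕ) (e : σ →₀ ℕ), e b = n → coeff e K = 0 := by
    intro n
    induction n with
    | zero =>
      intro e he
      by_cases hc : ∃ c, c ≠ a ∧ c ≠ b ∧ e c ≠ 0
      · obtain ⟨c, ha, hb, hc⟩ := hc
        have h3 := coeff_pderiv (i := c) K (e - Finsupp.single c 1)
        rw [h1 c ha hb, hsub e c hc, map_zero] at h3
        exact (mul_eq_zero.1 h3.symm).resolve_right (hne _)
      · push Not at hc
        have h3 : e = Finsupp.single a (e a) := by
          ext c
          by_cases hca : c = a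
          · rw [hca, Finsupp.single_eq_same]
          · rw [Finsupp.single_eq_of_ne hca]
            by_cases hcb : c = b
            · rw [hcb, he]
            · exact hc c hca hcb
        rw [h3]
        exact h0 _
    | succ n ih =>
      intro e he
      have hb0 : e b ≠ 0 := by omega
      have h3 := congrArg (coeff (e - Finsupp.single b 1)) h2
      rw [map_add, coeff_pderiv, coeff_pderiv, hsub e b hb0, map_zero] at h3
      have h4 : coeff (e - Finsupp.single b 1 + Finsupp.single a 1) K = 0 := by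
        refine ih _ ?_
        rw [Finsupp.add_apply, Finsupp.tsub_apply, Finsupp.single_eq_same,
          Finsupp.single_eq_of_ne (Ne.symm hab), he]
        omega
      rw [h4, zero_mul, zero_add] at h3
      exact (mul_eq_zero.1 h3).resolve_right (hne _)
  ext e
  exact main _ e rfl

/-- PROOF: put G_m = coefficient of (X a)^m in F, H = F - G(X a - X b). H is killed by the same
derivations (chain rule for `G.subst (X a - X b)`: check it on coefficients, or: the coefficient of
X^d in G.subst (X a - X b) is 0 if d is not supported on {a, b} and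
`G_(i+j) * (-1)^j * (i+j).choose j` for d = i e_a + j e_b, from `PowerSeries.coeff_subst` /
`finsum`, homogeneous components). So H has only terms in X a, X b, no terms with exponent 0 at b, and
`(j + 1) H_(i, j+1) = - (i + 1) H_(i+1, j)` (`coeff_pderiv`): H = 0 by induction on j. -/
theorem of_deriv {a b : σ} (hab : a ≠ b) (F : MvPowerSeries σ ℂ)
    (h1 : ∀ c, c ≠ a → c ≠ b → pderiv ℂ c F = 0) (h2 : pderiv ℂ a F + pderiv ℂ b F = 0) :
    ∃ G : PowerSeries ℂ, F = G.subst (X a - X b : MvPowerSeries σ ℂ) := by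
  refine ⟨PowerSeries.mk fun m => coeff (Finsupp.single a m) F, ?_⟩
  rw [← sub_eq_zero]
  refine Deriv_uniq hab _ (fun c ha hb => ?_) ?_ (fun m => ?_)
  · rw [map_sub, h1 c ha hb, Deriv_kill _ c ha hb, sub_zero]
  · rw [map_sub, map_sub, sub_add_sub_comm, h2, Deriv_kill₂ hab, sub_zero]
  · rw [map_sub, Deriv_coeff, Finsupp.degree_single, Deriv_top hab, mul_one,
      PowerSeries.coeff_mk, sub_self]

/-- PROOF: `of_deriv`, G = X^m * U (order), `PowerSeries.subst` is multiplicative
(`HasSubst` of X a - X b: constant coefficient 0). -/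
theorem of_deriv_unit {a b : σ} (hab : a ≠ b) (F : MvPowerSeries σ ℂ) (hF : F ≠ 0)
    (h1 : ∀ c, c ≠ a → c ≠ b → pderiv ℂ c F = 0) (h2 : pderiv ℂ a F + pderiv ℂ b F = 0) :
    ∃ (m : ℕ) (U : PowerSeries ℂ), PowerSeries.constantCoeff U ≠ 0 ∧
      F = (X a - X b) ^ m * U.subst (X a - X b : MvPowerSeries σ ℂ) := by
  obtain ⟨G, rfl⟩ := of_deriv hab F h1 h2
  have hG : G ≠ 0 := by
    rintro rfl
    apply hF
    rw [← PowerSeries.coe_substAlgHom (Deriv_hasSubst a b), map_zero]
  refine ⟨G.order.toNat, G.divXPowOrder, ?_, ?_⟩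
  · rw [Ne, PowerSeries.constantCoeff_divXPowOrder_eq_zero_iff]
    exact hG
  · conv_lhs => rw [← PowerSeries.X_pow_order_mul_divXPowOrder (f := G)]
    rw [PowerSeries.subst_mul (Deriv_hasSubst a b), PowerSeries.subst_pow (Deriv_hasSubst a b),
      PowerSeries.subst_X (Deriv_hasSubst a b)]

theorem subst_const {a b : σ} (U : PowerSeries ℂ) :
    constantCoeff (U.subst (X a - X b : MvPowerSeries σ ℂ)) = PowerSeries.constantCoeff U := by
  rw [← coeff_zero_eq_constantCoeff_apply, Deriv_coeff, map_zero, pow_zero, coeff_zero_one,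
    mul_one, PowerSeries.coeff_zero_eq_constantCoeff_apply]

theorem rename_subst {τ : Type} [Finite τ] {a b : σ} (e : σ ↪ τ) (U : PowerSeries ℂ) :
    rename e (U.subst (X a - X b : MvPowerSeries σ ℂ)) =
      U.subst (X (e a) - X (e b) : MvPowerSeries τ ℂ) := by
  rw [rename_eq_subst, PowerSeries.subst_def,
    subst_comp_subst_apply (Deriv_hasSubst a b).const (HasSubst.X_comp _), PowerSeries.subst_def]
  congr 1
  funext _
  rw [← rename_eq_subst, map_sub, rename_X, rename_X]

end CA1492.PA
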