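import Mathlib
import Pool.Agent.Lib.MP_ca1492_al.Alg.PBW

/-!
# MP_ca1492_al, algebra part (c) (architect helper31): definitions.

`O n = MvPowerSeries (Fin n) ℂ`.

* `PhiSys D n E θ Φ`: operators `Φ r` with `Φ r * θ f = θ (s_r f) * Φ r`, `Φ r ^ 2` = the KLR
  polynomial (1 for equal letters), braid relations, cancellation of nonzero power series on the
  right, and divisibility of `(1 - Φ r) E w` by `Y r - Y (r+1)` on the right for equal letters.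
  `phi_to_klr` (file PhiKLR.lean): then there are `S r` with `IsRep D n E Y S`.
* `CKLR D n A φ θ Ws`: completed KLR algebra: `φ : R D n → A`, `θ : O n → A`, and every element of
  `A` is a unique sum of elements `φ (CQ p) * θ (f p w) * φ (ew w)`, w in the set `Ws` of words.
  `fbc` (file FBC.lean): Ext over `A` and over `R D n` vanish simultaneously.
-/

namespace CA1492.PA

open MvPowerSeries

/-- Power series in n variables. -/
abbrev O (n : ℕ) : Type := MvPowerSeries (Fin n) ℂ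

/-- Renaming by the adjacent transposition. -/
noncomputable abbrev rs (n r : ℕ) : O n →ₐ[ℂ] O n := MvPowerSeries.rename (sw n r)

/-- Normalised intertwiners. -/
structure PhiSys (D : Dat) (n : ℕ) {A : Type*} [Ring A] [Algebra ℂ A]
    (E : Wd D n → A) (θ : O n →ₐ[ℂ] A) (Φ : ℕ → A) : Prop where
  Φ_out : ∀ r, ¬ (r + 1 < n) → Φ r = 0
  E_mul : ∀ w w', E w * E w' = if w = w' then E w else 0
  E_sum : ∑ w, E w = 1
  θ_E : ∀ f w, θ f * E w = E w * θ f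
  Φ_E : ∀ r w, Φ r * E w = E (w ∘ sw n r) * Φ r
  Φ_θ : ∀ r, r + 1 < n → ∀ f, Φ r * θ f = θ (rs n r f) * Φ r
  Φ_Φ : ∀ (r : ℕ) (h : r + 1 < n) (w : Wd D n),
    Φ r * Φ r * E w =
      if w ⟨r, by omega⟩ = w ⟨r + 1, h⟩ then E w
      else if D.arr (w ⟨r, by omega⟩) (w ⟨r + 1, h⟩) = true then
        θ (X ⟨r, by omega⟩ - X ⟨r + 1, h⟩) * E w
      else if D.arr (w ⟨r + 1, h⟩) (w ⟨r, by omega⟩) = true then
        θ (X ⟨r + 1, h⟩ - X ⟨r, by omega⟩) * E w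
      else E w
  Φ_far : ∀ r s, r + 1 < s → Φ r * Φ s = Φ s * Φ r
  Φ_braid : ∀ r, r + 2 < n → Φ (r + 1) * Φ r * Φ (r + 1) = Φ r * Φ (r + 1) * Φ r
  cancel : ∀ (f : O n) (a : A), f ≠ 0 → a * θ f = 0 → a = 0
  div : ∀ (r : ℕ) (h : r + 1 < n) (w : Wd D n), w ⟨r, by omega⟩ = w ⟨r + 1, h⟩ →
    ∃ z : A, z * θ (X ⟨r, by omega⟩ - X ⟨r + 1, h⟩) = (1 - Φ r) * E w

/-- The commutation rule of the `S r` with power series. -/
def SComm (D : Dat) (n : ℕ) {A : Type*} [Ring A] [Algebra ℂ A]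
    (E : Wd D n → A) (θ : O n →ₐ[ℂ] A) (S : ℕ → A) : Prop :=
  ∀ (r : ℕ) (h : r + 1 < n) (f f' : O n),
    (X ⟨r, by omega⟩ - X ⟨r + 1, h⟩) * f' = f - rs n r f →
    ∀ w : Wd D n, S r * θ f * E w = θ (rs n r f) * S r * E w +
      (if w ⟨r, by omega⟩ = w ⟨r + 1, h⟩ then θ f' * E w else 0)

/-- Completed KLR algebras, for a set of words closed under permutations. -/
structure CKLR (D : Dat) (n : ℕ) {A : Type*} [Ring A] [Algebra ℂ A]
    (φ : R D n →ₐ[ℂ] A) (θ : O n →ₐ[ℂ] A) (Ws : Set (Wd D n)) : Prop where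
  θ_X : ∀ k, θ (X k) = φ (yk k)
  θ_E : ∀ f w, θ f * φ (ew w) = φ (ew w) * θ f
  comm : SComm D n (fun w => φ (ew w)) θ (fun r => φ (ps r))
  Ws_sw : ∀ w ∈ Ws, ∀ r, w ∘ sw n r ∈ Ws
  E_out : ∀ w, w ∉ Ws → φ (ew w) = 0
  span : ∀ a : A, ∃ f : Sq n → Wd D n → O n, a = ∑ p, ∑ w, φ (CQ p) * θ (f p w) * φ (ew w)
  uniq : ∀ f : Sq n → Wd D n → O n, ∑ p, ∑ w, φ (CQ p) * θ (f p w) * φ (ew w) = 0 →
    ∀ p, ∀ w ∈ Ws, f p w = 0

end CA1492.PA
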