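import Mathlib
import Pool.Agent.Lib.MP_ca1492_al.PA.Defs

/-!
# MP_ca1492_al, PA/WSys: words

`ℓ : Wd D n` the letters of the strands `0, ..., n-1`. For every order `σ` of the strands (strand `σ k`
at position `k`) a module `I σ` with operators `g γ σ` (a group), `op σ f` (power series in variables
indexed by the STRANDS), `T σ σ'` (crossing of the strands at the positions `r`, `r+1`, only used for
`σ' = σ * sw n r`) and `S σ σ'` (renaming of strands, only used for `σ' = t * σ`, `ℓ ∘ t = ℓ`).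

`WW` = the families `F σ : I σ` with `S σ σ' (F σ) = F σ'` for `σ' = t * σ`, `ℓ ∘ t = ℓ`; it is isomorphic
to the sum of the `I σ_v` over the words `v`. `EqE` = the equivariant endomorphisms of `WW`;
`wE`, `wθ`, `wΦ` the idempotents, power series in the positions, crossings.
-/

set_option autoImplicit false

namespace CA1492.PA

open MvPowerSeries

variable {D : Dat} {n : ℕ}

theorem swj (n r : ℕ) (j : Fin n) : sw n r (sw n r j) = j := by
  unfold sw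
  split_ifs with h
  · simp
  · rfl

theorem sw_sq (n r : ℕ) : sw n r * sw n r = 1 := by
  refine Equiv.ext fun j => ?_
  rw [Equiv.Perm.mul_apply, swj]
  rfl

theorem sw_at {n r : ℕ} (h : r + 1 < n) : sw n r = Equiv.swap ⟨r, by omega⟩ ⟨r + 1, h⟩ := by
  unfold sw
  rw [dif_pos h]

theorem sw_l {n r : ℕ} (h : r + 1 < n) : sw n r ⟨r, by omega⟩ = ⟨r + 1, h⟩ := by
  rw [sw_at h, Equiv.swap_apply_left]

theorem sw_r {n r : ℕ} (h : r + 1 < n) : sw n r ⟨r + 1, h⟩ = ⟨r, by omega⟩ := by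
  rw [sw_at h, Equiv.swap_apply_right]

theorem sw_val {n r : ℕ} (h : r + 1 < n) (j : Fin n) : ((sw n r j : Fin n) : ℕ) =
    if (j : ℕ) = r then r + 1 else if (j : ℕ) = r + 1 then r else j := by
  rw [sw_at h]
  split_ifs with h1 h2
  · rw [show j = ⟨r, by omega⟩ from Fin.ext h1, Equiv.swap_apply_left]
  · rw [show j = ⟨r + 1, h⟩ from Fin.ext h2, Equiv.swap_apply_right]
  · rw [Equiv.swap_apply_of_ne_of_ne (fun e => h1 (congrArg Fin.val e))
      (fun e => h2 (congrArg Fin.val e))]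

theorem sw_far {n r s : ℕ} (h : r + 1 < s) (hs : s + 1 < n) :
    sw n r * sw n s = sw n s * sw n r := by
  refine Equiv.ext fun j => Fin.ext ?_
  rw [Equiv.Perm.mul_apply, Equiv.Perm.mul_apply, sw_val (by omega), sw_val hs, sw_val hs,
    sw_val (by omega)]
  split_ifs <;> omega

theorem sw_braid {n r : ℕ} (h : r + 2 < n) :
    sw n r * sw n (r + 1) * sw n r = sw n (r + 1) * sw n r * sw n (r + 1) := by
  refine Equiv.ext fun j => Fin.ext ?_
  simp only [Equiv.Perm.mul_apply, sw_val (show r + 1 < n by omega),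
    sw_val (show r + 1 + 1 < n by omega)]
  split_ifs <;> omega

/-- The KLR polynomial for the letters i, j and the variables a, b. -/
noncomputable def QQ (D : Dat) {n : ℕ} (i j : D.J) (a b : Fin n) : O n :=
  if i = j then 1 else if D.arr i j = true then X a - X b
  else if D.arr j i = true then X b - X a else 1

/-- renaming of the variables -/
noncomputable abbrev rn (t : Equiv.Perm (Fin n)) : O n →ₐ[ℂ] O n := MvPowerSeries.rename t

theorem rn_rn (s t : Equiv.Perm (Fin n)) (f : O n) : rn s (rn t f) = rn (s * t) f := by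
  unfold rn
  rw [rename_rename]
  rfl

theorem rn_one (f : O n) : rn 1 f = f := by
  unfold rn
  exact rename_id_apply f

theorem rn_X (t : Equiv.Perm (Fin n)) (k : Fin n) : rn t (X k) = X (t k) := by
  unfold rn
  rw [rename_X]

theorem rn_inj (t : Equiv.Perm (Fin n)) {f : O n} (h : rn t f = 0) : f = 0 := by
  have h1 : rn t⁻¹ (rn t f) = 0 := by rw [h, map_zero]
  rwa [rn_rn, inv_mul_cancel, rn_one] at h1

universe u
variable {Γ : Type*} {I : Equiv.Perm (Fin n) → Type u} [∀ σ, AddCommGroup (I σ)]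
  [∀ σ, Module ℂ (I σ)]

/-- The data for the orders of the strands. -/
structure WSys (D : Dat) (n : ℕ) (ℓ : Wd D n) {Γ : Type*}
    {I : Equiv.Perm (Fin n) → Type u} [∀ σ, AddCommGroup (I σ)] [∀ σ, Module ℂ (I σ)]
    (g : Γ → ∀ σ, I σ →ₗ[ℂ] I σ)
    (op : ∀ σ, O n →ₐ[ℂ] Module.End ℂ (I σ))
    (T S : ∀ σ σ', I σ →ₗ[ℂ] I σ') : Prop where
  g_op : ∀ γ σ f x, g γ σ (op σ f x) = op σ f (g γ σ x)
  g_T : ∀ γ (r : ℕ), r + 1 < n → ∀ σ σ', σ' = σ * sw n r →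
    ∀ x, T σ σ' (g γ σ x) = g γ σ' (T σ σ' x)
  g_S : ∀ γ (t : Equiv.Perm (Fin n)), ℓ ∘ t = ℓ → ∀ σ σ', σ' = t * σ →
    ∀ x, S σ σ' (g γ σ x) = g γ σ' (S σ σ' x)
  T_op : ∀ (r : ℕ), r + 1 < n → ∀ σ σ', σ' = σ * sw n r →
    ∀ f x, T σ σ' (op σ f x) = op σ' f (T σ σ' x)
  S_op : ∀ (t : Equiv.Perm (Fin n)), ℓ ∘ t = ℓ → ∀ σ σ', σ' = t * σ →
    ∀ f x, S σ σ' (op σ f x) = op σ' (rn t f) (S σ σ' x)
  S_one : ∀ σ x, S σ σ x = x
  S_S : ∀ (t t' : Equiv.Perm (Fin n)), ℓ ∘ t = ℓ → ℓ ∘ t' = ℓ → ∀ σ σ' σ'', σ' = t * σ →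
    σ'' = t' * σ' → ∀ x, S σ' σ'' (S σ σ' x) = S σ σ'' x
  S_T : ∀ (t : Equiv.Perm (Fin n)), ℓ ∘ t = ℓ → ∀ (r : ℕ), r + 1 < n →
    ∀ σ σ' σ₁ σ₁', σ' = σ * sw n r → σ₁ = t * σ → σ₁' = t * σ' →
    ∀ x, S σ' σ₁' (T σ σ' x) = T σ₁ σ₁' (S σ σ₁ x)
  T_T : ∀ (r : ℕ) (h : r + 1 < n), ∀ σ σ', σ' = σ * sw n r → ∀ x,
    T σ' σ (T σ σ' x) =
      op σ (QQ D (ℓ (σ ⟨r, by omega⟩)) (ℓ (σ ⟨r + 1, h⟩)) (σ ⟨r, by omega⟩) (σ ⟨r + 1, h⟩)) x
  far : ∀ (r s : ℕ), r + 1 < s → s + 1 < n → ∀ σ σ₁ σ₂ σ', σ₁ = σ * sw n r → σ' = σ₁ * sw n s →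
    σ₂ = σ * sw n s → σ' = σ₂ * sw n r → ∀ x, T σ₁ σ' (T σ σ₁ x) = T σ₂ σ' (T σ σ₂ x)
  braid : ∀ (r : ℕ), r + 2 < n → ∀ σ σ₁ σ₂ σ₃ σ₄ σ', σ₁ = σ * sw n r → σ₂ = σ₁ * sw n (r + 1) →
    σ' = σ₂ * sw n r → σ₃ = σ * sw n (r + 1) → σ₄ = σ₃ * sw n r → σ' = σ₄ * sw n (r + 1) →
    ∀ x, T σ₂ σ' (T σ₁ σ₂ (T σ σ₁ x)) = T σ₄ σ' (T σ₃ σ₄ (T σ σ₃ x))
  ker : ∀ (r : ℕ) (h : r + 1 < n), ∀ σ σ', σ' = σ * sw n r →
    ℓ (σ ⟨r, by omega⟩) = ℓ (σ ⟨r + 1, h⟩) →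
    ∀ x, op σ (X (σ ⟨r, by omega⟩) - X (σ ⟨r + 1, h⟩)) x = 0 → T σ σ' x = S σ σ' x
  surj : ∀ σ f, f ≠ 0 → Function.Surjective (op σ f)

/-- The module of the words. -/
def WW (ℓ : Wd D n) (S : ∀ σ σ', I σ →ₗ[ℂ] I σ') : Submodule ℂ (∀ σ, I σ) where
  carrier := {F | ∀ t : Equiv.Perm (Fin n), ℓ ∘ t = ℓ → ∀ σ σ', σ' = t * σ → S σ σ' (F σ) = F σ'}
  add_mem' := by
    intro F F' hF hF' t ht σ σ' hσ
    show S σ σ' (F σ + F' σ) = F σ' + F' σ'
    rw [map_add, hF t ht σ σ' hσ, hF' t ht σ σ' hσ]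
  zero_mem' := by
    intro t ht σ σ' hσ
    show S σ σ' 0 = 0
    rw [map_zero]
  smul_mem' := by
    intro c F hF t ht σ σ' hσ
    show S σ σ' (c • F σ) = c • F σ'
    rw [map_smul, hF t ht σ σ' hσ]

/-- The module of the words, as a type. -/
def WT (ℓ : Wd D n) (S : ∀ σ σ', I σ →ₗ[ℂ] I σ') : Type u := ↥(WW ℓ S)

noncomputable instance (ℓ : Wd D n) (S : ∀ σ σ', I σ →ₗ[ℂ] I σ') : AddCommGroup (WT ℓ S) :=
  inferInstanceAs (AddCommGroup ↥(WW ℓ S))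
noncomputable instance (ℓ : Wd D n) (S : ∀ σ σ', I σ →ₗ[ℂ] I σ') : Module ℂ (WT ℓ S) :=
  inferInstanceAs (Module ℂ ↥(WW ℓ S))

section
variable {ℓ : Wd D n} {g : Γ → ∀ σ, I σ →ₗ[ℂ] I σ} {op : ∀ σ, O n →ₐ[ℂ] Module.End ℂ (I σ)}
  {T S : ∀ σ σ', I σ →ₗ[ℂ] I σ'}

/-- a family -/
def fam (F : WT ℓ S) (σ : Equiv.Perm (Fin n)) : I σ := F.1 σ

theorem fam_add (F F' : WT ℓ S) (σ : Equiv.Perm (Fin n)) :
    fam (F + F') σ = fam F σ + fam F' σ := rfl

theorem fam_sub (F F' : WT ℓ S) (σ : Equiv.Perm (Fin n)) :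
    fam (F - F') σ = fam F σ - fam F' σ := rfl

theorem fam_smul (c : ℂ) (F : WT ℓ S) (σ : Equiv.Perm (Fin n)) :
    fam (c • F) σ = c • fam F σ := rfl

theorem fam_zero (σ : Equiv.Perm (Fin n)) : fam (0 : WT ℓ S) σ = 0 := rfl

theorem fam_S (F : WT ℓ S) (t : Equiv.Perm (Fin n)) (ht : ℓ ∘ t = ℓ) (σ σ' : Equiv.Perm (Fin n))
    (e : σ' = t * σ) : S σ σ' (fam F σ) = fam F σ' := F.2 t ht σ σ' e

/-- a member from a family -/
def mkW (F : ∀ σ, I σ) (hF : ∀ t : Equiv.Perm (Fin n), ℓ ∘ t = ℓ → ∀ σ σ', σ' = t * σ →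
    S σ σ' (F σ) = F σ') : WT ℓ S := ⟨F, hF⟩

theorem fam_mkW (F : ∀ σ, I σ) (hF : ∀ t : Equiv.Perm (Fin n), ℓ ∘ t = ℓ → ∀ σ σ', σ' = t * σ →
    S σ σ' (F σ) = F σ') (σ : Equiv.Perm (Fin n)) : fam (mkW F hF) σ = F σ := rfl

theorem fam_ext {F F' : WT ℓ S} (e : ∀ σ, fam F σ = fam F' σ) : F = F' :=
  Subtype.ext (funext e)

/-- linear endomorphisms from families of maps -/
def mkEnd (a : (∀ σ, I σ) → ∀ σ, I σ)
    (hadd : ∀ F F' σ, a (fun τ => F τ + F' τ) σ = a F σ + a F' σ)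
    (hsmul : ∀ (c : ℂ) F σ, a (fun τ => c • F τ) σ = c • a F σ)
    (hS : ∀ F : WT ℓ S, ∀ t : Equiv.Perm (Fin n), ℓ ∘ t = ℓ → ∀ σ σ', σ' = t * σ →
      S σ σ' (a (fam F) σ) = a (fam F) σ') : Module.End ℂ (WT ℓ S) where
  toFun F := mkW (a (fam F)) (hS F)
  map_add' F F' := fam_ext fun σ => hadd (fam F) (fam F') σ
  map_smul' c F := fam_ext fun σ => hsmul c (fam F) σ

theorem mkEnd_apply (a : (∀ σ, I σ) → ∀ σ, I σ)
    (hadd : ∀ F F' σ, a (fun τ => F τ + F' τ) σ = a F σ + a F' σ)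
    (hsmul : ∀ (c : ℂ) F σ, a (fun τ => c • F τ) σ = c • a F σ)
    (hS : ∀ F : WT ℓ S, ∀ t : Equiv.Perm (Fin n), ℓ ∘ t = ℓ → ∀ σ σ', σ' = t * σ →
      S σ σ' (a (fam F) σ) = a (fam F) σ') (F : WT ℓ S) (σ : Equiv.Perm (Fin n)) :
    fam (mkEnd a hadd hsmul hS F) σ = a (fam F) σ := rfl

/-- the group -/
noncomputable def gW (h : WSys D n ℓ g op T S) (γ : Γ) : Module.End ℂ (WT ℓ S) :=
  mkEnd (fun F σ => g γ σ (F σ)) (fun F F' σ => map_add (g γ σ) (F σ) (F' σ))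
    (fun c F σ => map_smul (g γ σ) c (F σ)) (by
      intro F t ht σ σ' hσ
      rw [h.g_S γ t ht σ σ' hσ, fam_S F t ht σ σ' hσ])

theorem gW_apply (h : WSys D n ℓ g op T S) (γ : Γ) (F : WT ℓ S) (σ : Equiv.Perm (Fin n)) :
    fam (gW h γ F) σ = g γ σ (fam F σ) := rfl

/-- the equivariant endomorphisms -/
noncomputable def EqE (h : WSys D n ℓ g op T S) : Subalgebra ℂ (Module.End ℂ (WT ℓ S)) where
  carrier := {a | ∀ γ x, a (gW h γ x) = gW h γ (a x)}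
  mul_mem' := by
    intro a b ha hb γ x
    rw [Module.End.mul_apply, Module.End.mul_apply, hb, ha]
  add_mem' := by
    intro a b ha hb γ x
    rw [LinearMap.add_apply, LinearMap.add_apply, ha, hb, map_add]
  algebraMap_mem' := by
    intro c γ x
    rw [Module.algebraMap_end_apply, Module.algebraMap_end_apply, map_smul]

theorem mem_EqE (h : WSys D n ℓ g op T S) (a : Module.End ℂ (WT ℓ S)) :
    a ∈ EqE h ↔ ∀ γ x, a (gW h γ x) = gW h γ (a x) := Iff.rfl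

/-- idempotents -/
noncomputable def wE (h : WSys D n ℓ g op T S) (w : Wd D n) : EqE h :=
  ⟨mkEnd (fun F σ => if ℓ ∘ σ = w then F σ else 0) (by
      intro F F' σ
      dsimp only
      split_ifs <;> simp) (by
      intro c F σ
      dsimp only
      split_ifs <;> simp) (by
      intro F t ht σ σ' hσ
      have e : ℓ ∘ σ' = ℓ ∘ σ := by
        rw [hσ]
        funext k
        exact congrFun ht (σ k)
      rw [e]
      split_ifs
      · exact fam_S F t ht σ σ' hσ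
      · rw [map_zero]), by
    intro γ F
    refine fam_ext fun σ => ?_
    show (if ℓ ∘ σ = w then g γ σ (fam F σ) else 0) = g γ σ (if ℓ ∘ σ = w then fam F σ else 0)
    split_ifs <;> simp⟩

theorem wE_apply (h : WSys D n ℓ g op T S) (w : Wd D n) (F : WT ℓ S)
    (σ : Equiv.Perm (Fin n)) : fam ((wE h w).1 F) σ = if ℓ ∘ σ = w then fam F σ else 0 := rfl

/-- power series in the positions, as a linear map -/
noncomputable def wθ0 (h : WSys D n ℓ g op T S) (f : O n) : EqE h :=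
  ⟨mkEnd (fun F σ => op σ (rn σ f) (F σ)) (fun F F' σ => map_add (op σ (rn σ f)) (F σ) (F' σ))
    (fun c F σ => map_smul (op σ (rn σ f)) c (F σ)) (by
      intro F t ht σ σ' hσ
      rw [h.S_op t ht σ σ' hσ, rn_rn, fam_S F t ht σ σ' hσ, hσ]), by
    intro γ F
    refine fam_ext fun σ => ?_
    exact (h.g_op γ σ (rn σ f) (fam F σ)).symm⟩

theorem wθ0_apply (h : WSys D n ℓ g op T S) (f : O n) (F : WT ℓ S)
    (σ : Equiv.Perm (Fin n)) : fam ((wθ0 h f).1 F) σ = op σ (rn σ f) (fam F σ) := rfl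

/-- power series in the positions -/
noncomputable def wθ (h : WSys D n ℓ g op T S) : O n →ₐ[ℂ] EqE h where
  toFun := wθ0 h
  map_one' := by
    refine Subtype.ext (LinearMap.ext fun F => fam_ext fun σ => ?_)
    rw [wθ0_apply, map_one, map_one]
    rfl
  map_mul' f f' := by
    refine Subtype.ext (LinearMap.ext fun F => fam_ext fun σ => ?_)
    rw [wθ0_apply, map_mul, map_mul]
    rfl
  map_zero' := by
    refine Subtype.ext (LinearMap.ext fun F => fam_ext fun σ => ?_)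
    rw [wθ0_apply, map_zero, map_zero]
    rfl
  map_add' f f' := by
    refine Subtype.ext (LinearMap.ext fun F => fam_ext fun σ => ?_)
    rw [wθ0_apply, map_add, map_add]
    rfl
  commutes' c := by
    refine Subtype.ext (LinearMap.ext fun F => fam_ext fun σ => ?_)
    rw [wθ0_apply, AlgHom.commutes, AlgHom.commutes]
    rfl

theorem wθ_apply (h : WSys D n ℓ g op T S) (f : O n) (F : WT ℓ S)
    (σ : Equiv.Perm (Fin n)) : fam ((wθ h f).1 F) σ = op σ (rn σ f) (fam F σ) := rfl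

theorem ssq (σ : Equiv.Perm (Fin n)) (r : ℕ) : σ = σ * sw n r * sw n r := by
  rw [mul_assoc, sw_sq, mul_one]

/-- crossings, in range -/
noncomputable def wΦ0 (h : WSys D n ℓ g op T S) (r : ℕ) (hr : r + 1 < n) : EqE h :=
  ⟨mkEnd (fun F σ => T (σ * sw n r) σ (F (σ * sw n r)))
    (fun F F' σ => map_add (T (σ * sw n r) σ) (F (σ * sw n r)) (F' (σ * sw n r)))
    (fun c F σ => map_smul (T (σ * sw n r) σ) c (F (σ * sw n r))) (by
      intro F t ht σ σ' hσ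
      rw [h.S_T t ht r hr (σ * sw n r) σ (σ' * sw n r) σ' (ssq σ r)
        (by rw [hσ, mul_assoc]) hσ,
        fam_S F t ht (σ * sw n r) (σ' * sw n r) (by rw [hσ, mul_assoc])]), by
    intro γ F
    refine fam_ext fun σ => ?_
    exact h.g_T γ r hr (σ * sw n r) σ (ssq σ r) (fam F (σ * sw n r))⟩

/-- crossings -/
noncomputable def wΦ (h : WSys D n ℓ g op T S) (r : ℕ) : EqE h :=
  if hr : r + 1 < n then wΦ0 h r hr else 0

theorem wΦ_apply (h : WSys D n ℓ g op T S) (r : ℕ) (hr : r + 1 < n) (F : WT ℓ S)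
    (σ : Equiv.Perm (Fin n)) :
    fam ((wΦ h r).1 F) σ = T (σ * sw n r) σ (fam F (σ * sw n r)) := by
  unfold wΦ
  rw [dif_pos hr]
  rfl

end

end CA1492.PA
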