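import Mathlib

/-!
# MP_ca1492_al, PA/Coll: the element X a - X b of a power series ring

`coll a b` = the substitution X a ↦ X b (other variables fixed).
-/

set_option autoImplicit false

namespace CA1492.PA

open MvPowerSeries

variable {σ : Type} [Finite σ] [DecidableEq σ]

/-- the substitution X a ↦ X b -/
noncomputable def coll (a b : σ) : MvPowerSeries σ ℂ →ₐ[ℂ] MvPowerSeries σ ℂ :=
  rename (Function.update id a b)

theorem coll_X (a b c : σ) : coll a b (X c : MvPowerSeries σ ℂ) = X (if c = a then b else c) := by
  rw [coll, rename_X]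
  congr 1
  simp [Function.update_apply]

omit [Finite σ] in
theorem Coll_map (a b : σ) (x : σ →₀ ℕ) :
    Finsupp.mapDomain (Function.update id a b) x = x.erase a + Finsupp.single b (x a) := by
  have h1 : x = x.erase a + Finsupp.single a (x a) := by
    rw [Finsupp.erase_add_single]
  conv_lhs => rw [h1]
  rw [Finsupp.mapDomain_add, Finsupp.mapDomain_single, Function.update_self]
  congr 1
  have h2 : Finsupp.mapDomain (Function.update id a b) (x.erase a) =
      Finsupp.mapDomain id (x.erase a) := by
    apply Finsupp.mapDomain_congr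
    intro c hc
    have hca : c ≠ a := by
      rintro rfl
      simp at hc
    rw [Function.update_of_ne hca]
  rw [h2, Finsupp.mapDomain_id]

/-- the exponents `e + i a - i b` -/
noncomputable def Coll_sh (a b : σ) (e : σ →₀ ℕ) (i : ℕ) : σ →₀ ℕ :=
  e + Finsupp.single a i - Finsupp.single b i

omit [Finite σ] in
theorem Coll_sh_apply {a b : σ} (hab : a ≠ b) (e : σ →₀ ℕ) (i : ℕ) (c : σ) :
    Coll_sh a b e i c = if c = a then e a + i else if c = b then e b - i else e c := by
  simp only [Coll_sh, Finsupp.tsub_apply, Finsupp.add_apply, Finsupp.single_apply]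
  by_cases h1 : c = a
  · subst h1
    simp [Ne.symm hab]
  · by_cases h2 : c = b
    · subst h2
      simp [h1, Ne.symm h1]
    · simp [h1, h2, Ne.symm h1, Ne.symm h2]

omit [Finite σ] in
theorem Coll_fib {a b : σ} (hab : a ≠ b) (e x : σ →₀ ℕ) :
    Finsupp.mapDomain (Function.update id a b) x = e ↔
      e a = 0 ∧ x ∈ (Finset.range (e b + 1)).image (Coll_sh a b e) := by
  rw [Coll_map]
  constructor
  · rintro rfl
    constructor
    · simp [hab]
    · rw [Finset.mem_image]
      refine ⟨x a, ?_, ?_⟩
      · simp [hab.symm]
      · ext c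
        rw [Coll_sh_apply hab]
        by_cases h1 : c = a
        · subst h1
          simp [hab]
        · by_cases h2 : c = b
          · subst h2
            simp [h1]
          · simp [h1, h2]
  · rintro ⟨h0, h1⟩
    rw [Finset.mem_image] at h1
    obtain ⟨i, hi, rfl⟩ := h1
    rw [Finset.mem_range] at hi
    ext c
    by_cases h1 : c = a
    · subst h1
      simp [hab, h0]
    · by_cases h2 : c = b
      · subst h2
        simp only [Finsupp.add_apply, Finsupp.erase_ne h1, Finsupp.single_eq_same,
          Coll_sh_apply hab, if_neg h1, if_true, h0]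
        omega
      · simp only [Finsupp.add_apply, Finsupp.erase_ne h1,
          Coll_sh_apply hab, if_neg h1, if_neg h2, Finsupp.single_apply, if_neg (Ne.symm h2)]
        omega

omit [Finite σ] in
theorem Coll_inj {a b : σ} (hab : a ≠ b) (e : σ →₀ ℕ) : Function.Injective (Coll_sh a b e) := by
  intro i j h
  have := DFunLike.congr_fun h a
  rw [Coll_sh_apply hab, Coll_sh_apply hab] at this
  simpa using this

theorem Coll_coeff {a b : σ} (hab : a ≠ b) (f : MvPowerSeries σ ℂ) (e : σ →₀ ℕ) :
    coeff e (coll a b f) = if e a = 0 then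
      ∑ i ∈ Finset.range (e b + 1), coeff (Coll_sh a b e i) f else 0 := by
  rw [coll, coeff_rename]
  split_ifs with h
  · rw [← Finset.sum_image (f := fun x => coeff x f) (Coll_inj hab e).injOn]
    refine Finset.sum_congr ?_ fun _ _ => rfl
    ext x
    rw [Set.Finite.mem_toFinset]
    change Finsupp.mapDomain _ x = e ↔ _
    rw [Coll_fib hab]
    exact ⟨fun h => h.2, fun h' => ⟨h, h'⟩⟩
  · apply Finset.sum_eq_zero
    intro x hx
    rw [Set.Finite.mem_toFinset] at hx
    have hx' : Finsupp.mapDomain (Function.update id a b) x = e := hx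
    exact absurd ((Coll_fib hab e x).1 hx').1 h

/-- the quotient of `f - coll f` by `X a - X b` -/
noncomputable def Coll_q (a b : σ) (f : MvPowerSeries σ ℂ) : MvPowerSeries σ ℂ :=
  fun e => ∑ i ∈ Finset.range (e b + 1),
    coeff (e + Finsupp.single a (i + 1) - Finsupp.single b i) f

omit [Finite σ] in
theorem Coll_coeff_X (a : σ) (f : MvPowerSeries σ ℂ) (e : σ →₀ ℕ) :
    coeff e (X a * f) = if e a = 0 then 0 else coeff (e - Finsupp.single a 1) f := by
  rw [X, coeff_monomial_mul, one_mul]
  by_cases h : e a = 0
  · rw [if_pos h, if_neg]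
    intro h1
    have := h1 a
    rw [Finsupp.single_eq_same, h] at this
    omega
  · rw [if_neg h, if_pos]
    intro c
    by_cases hc : c = a
    · subst hc
      rw [Finsupp.single_eq_same]
      omega
    · rw [Finsupp.single_apply, if_neg (Ne.symm hc)]
      omega

theorem Coll_ne {a b : σ} (hab : a ≠ b) (f : MvPowerSeries σ ℂ) :
    (X a - X b) * Coll_q a b f = f - coll a b f := by
  ext e
  have hA : coeff e (X a * Coll_q a b f) = if e a = 0 then 0 else
      ∑ i ∈ Finset.range (e b + 1), coeff (Coll_sh a b e i) f := by
    rw [Coll_coeff_X]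
    split_ifs with h
    · rfl
    · change (∑ i ∈ Finset.range ((e - Finsupp.single a 1 : σ →₀ ℕ) b + 1), _) = _
      have h1 : (e - Finsupp.single a 1 : σ →₀ ℕ) b = e b := by
        rw [Finsupp.tsub_apply, Finsupp.single_apply, if_neg hab]
        omega
      rw [h1]
      refine Finset.sum_congr rfl fun i _ => ?_
      congr 2
      ext c
      rw [Coll_sh_apply hab]
      simp only [Finsupp.tsub_apply, Finsupp.add_apply, Finsupp.single_apply]
      by_cases h2 : c = a
      · subst h2
        simp only [if_true, if_neg (Ne.symm hab)]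
        omega
      · by_cases h3 : c = b
        · subst h3
          simp [h2, Ne.symm h2]
        · simp [h2, h3, Ne.symm h2, Ne.symm h3]
  have hB : coeff e (X b * Coll_q a b f) =
      ∑ i ∈ Finset.range (e b), coeff (Coll_sh a b e (i + 1)) f := by
    rw [Coll_coeff_X]
    split_ifs with h
    · rw [h]
      simp
    · change (∑ i ∈ Finset.range ((e - Finsupp.single b 1 : σ →₀ ℕ) b + 1), _) = _
      have h1 : (e - Finsupp.single b 1 : σ →₀ ℕ) b + 1 = e b := by
        rw [Finsupp.tsub_apply, Finsupp.single_eq_same]
        omega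
      rw [h1]
      refine Finset.sum_congr rfl fun i _ => ?_
      congr 2
      ext c
      rw [Coll_sh_apply hab]
      simp only [Finsupp.tsub_apply, Finsupp.add_apply, Finsupp.single_apply]
      by_cases h2 : c = a
      · subst h2
        simp only [if_true, if_neg (Ne.symm hab)]
        omega
      · by_cases h3 : c = b
        · subst h3
          simp only [if_true, if_neg h2, if_neg hab]
          omega
        · simp [h2, h3, Ne.symm h2, Ne.symm h3]
  have h0 : Coll_sh a b e 0 = e := by
    simp [Coll_sh]
  rw [sub_mul, map_sub, map_sub, hA, hB, Coll_coeff hab]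
  split_ifs with h
  · rw [Finset.sum_range_succ' _ (e b), h0]
    ring
  · rw [Finset.sum_range_succ' _ (e b), h0]
    ring

/-- PROOF: for polynomials clear (induction). Power series: let J be the ideal generated by X a - X b, M the
maximal ideal. f = h + t with h a polynomial and t in M ^ K, so `f - coll f ∈ J ⊔ M ^ K` for all K, and
J is closed by Krull's intersection theorem for the module `O / J`
(`Ideal.iInf_pow_smul_eq_bot_of_isLocalRing`, O is noetherian: instance
`MvPowerSeries.isNoetherianRing`). Alternative: the quotient q has the coefficients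
`q_e = ∑ (i from e_a + 1 to e_a + e_b + 1) f_(a ↦ i, b ↦ e_a + e_b + 1 - i, rest as e)`. -/
theorem dvd_sub_coll (a b : σ) (f : MvPowerSeries σ ℂ) :
    (X a - X b : MvPowerSeries σ ℂ) ∣ f - coll a b f := by
  by_cases hab : a = b
  · subst hab
    have h1 : coll a a f = f := by
      rw [coll]
      have h2 : Function.update (id : σ → σ) a a = id := by
        ext c
        by_cases hc : c = a
        · subst hc
          simp
        · simp [hc]
      simp only [h2]
      exact rename_id_apply f
    rw [h1, sub_self f]
    exact dvd_zero _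
  · exact ⟨Coll_q a b f, (Coll_ne hab f).symm⟩

theorem coll_eq_zero_iff (a b : σ) (f : MvPowerSeries σ ℂ) :
    coll a b f = 0 ↔ (X a - X b : MvPowerSeries σ ℂ) ∣ f := by
  constructor
  · intro h
    have h1 := dvd_sub_coll a b f
    rwa [h, sub_zero] at h1
  · rintro ⟨g, rfl⟩
    rw [map_mul, map_sub, coll_X, coll_X, if_pos rfl]
    by_cases hab : b = a
    · rw [if_pos hab, sub_self, zero_mul]
    · rw [if_neg hab, sub_self, zero_mul]

theorem sub_ne_zero' {a b : σ} (hab : a ≠ b) : (X a - X b : MvPowerSeries σ ℂ) ≠ 0 := by
  intro h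
  exact hab (X_inj.1 (sub_eq_zero.1 h))

/-- PROOF: if (X a - X b) ∣ f * g then coll f * coll g = 0, domain, `coll_eq_zero_iff`; not a unit:
constant coefficient 0. -/
theorem prime_sub {a b : σ} (hab : a ≠ b) : Prime (X a - X b : MvPowerSeries σ ℂ) := by
  refine ⟨sub_ne_zero' hab, ?_, ?_⟩
  · intro h
    have h1 := h.map (constantCoeff (σ := σ) (R := ℂ))
    rw [map_sub, constantCoeff_X, constantCoeff_X, sub_self] at h1
    exact not_isUnit_zero h1
  · intro f g h
    rw [← coll_eq_zero_iff, map_mul] at h
    rcases mul_eq_zero.1 h with h1 | h1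
    · exact Or.inl ((coll_eq_zero_iff a b f).1 h1)
    · exact Or.inr ((coll_eq_zero_iff a b g).1 h1)

theorem coll_swap (a b : σ) (f : MvPowerSeries σ ℂ) :
    coll a b (rename (Equiv.swap a b) f) = coll a b f := by
  rw [coll, rename_rename]
  have h : Function.update id a b ∘ Equiv.swap a b = Function.update id a b := by
    ext c
    rw [Function.comp_apply]
    by_cases h1 : c = a
    · subst h1
      rw [Equiv.swap_apply_left, Function.update_self]
      by_cases h2 : b = c
      · rw [h2, Function.update_self]
      · rw [Function.update_of_ne h2]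
        rfl
    · by_cases h2 : c = b
      · subst h2
        rw [Equiv.swap_apply_right, Function.update_self, Function.update_of_ne h1]
        rfl
      · rw [Equiv.swap_apply_of_ne_of_ne h1 h2]
  simp only [h]

theorem dvd_sub_swap (a b : σ) (f : MvPowerSeries σ ℂ) :
    (X a - X b : MvPowerSeries σ ℂ) ∣ f - rename (Equiv.swap a b) f := by
  rw [← coll_eq_zero_iff, map_sub, coll_swap, sub_self]

/-- the operator f ↦ coll f as a retraction: f is in the range iff it is fixed -/
theorem coll_coll {a b : σ} (hab : a ≠ b) (f : MvPowerSeries σ ℂ) : coll a b (coll a b f) = coll a b f := by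
  have h := dvd_sub_coll a b f
  rw [← coll_eq_zero_iff, map_sub, sub_eq_zero] at h
  exact h.symm

end CA1492.PA
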