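import Mathlib

/-!
# MP_ca1492_al, PA/Sqrt: square roots of power series in finitely many variables
-/

set_option autoImplicit false

namespace CA1492.PA

open MvPowerSeries

variable {σ : Type} [Finite σ]

omit [Finite σ] in
theorem Sqrt_exists_aux (u : MvPowerSeries σ ℂ) (hu : constantCoeff u = 0) :
    ∃ G : MvPowerSeries σ ℂ, G ^ 2 = 1 + u ∧ constantCoeff G = 1 := by
  have ha : PowerSeries.HasSubst u := PowerSeries.HasSubst.of_constantCoeff_zero hu
  let B : PowerSeries ℂ := PowerSeries.binomialSeries ℂ (1 / 2 : ℚ)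
  have hB : B * B = 1 + PowerSeries.X := by
    have h := PowerSeries.binomialSeries_add (A := ℂ) (1 / 2 : ℚ) (1 / 2 : ℚ)
    have h1 : (1 / 2 : ℚ) + 1 / 2 = ((1 : ℕ) : ℚ) := by norm_num
    rw [h1, PowerSeries.binomialSeries_nat, pow_one] at h
    exact h.symm
  have hB0 : PowerSeries.constantCoeff B = 1 := PowerSeries.binomialSeries_constantCoeff _
  refine ⟨PowerSeries.substAlgHom (R := ℂ) ha B, ?_, ?_⟩
  · rw [← map_pow, pow_two, hB, map_add, map_one, PowerSeries.substAlgHom_X]
  · have h1 : PowerSeries.constantCoeff (B - 1) = 0 := by rw [map_sub, hB0, map_one, sub_self]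
    have h2 := PowerSeries.constantCoeff_subst_eq_zero hu (B - 1) h1
    rw [← PowerSeries.coe_substAlgHom ha, map_sub, map_one, map_sub, map_one, sub_eq_zero] at h2
    exact h2

/-- PROOF: Hensel's lemma: `MvPowerSeries σ ℂ` is complete for the ideal generated by the variables
(instance in Mathlib/RingTheory/AdicCompletion/Completeness.lean), `IsAdicComplete.henselianRing`,
polynomial `X ^ 2 - C F`, approximate root `C c`. -/
theorem sqrt_exists (F : MvPowerSeries σ ℂ) {c : ℂ} (hc : c ≠ 0) (h : constantCoeff F = c ^ 2) :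
    ∃ G : MvPowerSeries σ ℂ, G ^ 2 = F ∧ constantCoeff G = c := by
  obtain ⟨G, hG, hG0⟩ := Sqrt_exists_aux (C ((c ^ 2)⁻¹) * F - 1) (by
    rw [map_sub, map_mul, constantCoeff_C, h, map_one, inv_mul_cancel₀ (pow_ne_zero 2 hc),
      sub_self])
  refine ⟨C c * G, ?_, ?_⟩
  · rw [mul_pow, hG, ← map_pow, add_sub_cancel, ← mul_assoc, ← map_mul,
      mul_inv_cancel₀ (pow_ne_zero 2 hc), map_one, one_mul]
  · rw [map_mul, constantCoeff_C, hG0, mul_one]

omit [Finite σ] in
/-- PROOF: (G - H) (G + H) = 0 and G + H is not 0 (constant coefficient). -/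
theorem sqrt_unique {G H : MvPowerSeries σ ℂ} (h : G ^ 2 = H ^ 2)
    (h1 : constantCoeff G = constantCoeff H) (h2 : constantCoeff G ≠ 0) : G = H := by
  have h3 : (G - H) * (G + H) = 0 := by ring_nf; rw [h]; ring
  rcases mul_eq_zero.mp h3 with h4 | h4
  · exact sub_eq_zero.mp h4
  · exfalso
    have h5 := congrArg constantCoeff h4
    rw [map_add, ← h1, map_zero, ← two_mul] at h5
    rcases mul_eq_zero.mp h5 with h6 | h6
    · norm_num at h6
    · exact h2 h6

open Classical in
/-- the square root with constant coefficient 1 of a power series with constant coefficient 1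
(the value is 1 for other power series) -/
noncomputable def sq1 (F : MvPowerSeries σ ℂ) : MvPowerSeries σ ℂ :=
  if h : constantCoeff F = 1 then
    (sqrt_exists F (c := 1) one_ne_zero (by rw [h, one_pow])).choose else 1

theorem sq1_sq {F : MvPowerSeries σ ℂ} (h : constantCoeff F = 1) : sq1 F ^ 2 = F := by
  rw [sq1, dif_pos h]
  exact (sqrt_exists F (c := 1) one_ne_zero (by rw [h, one_pow])).choose_spec.1

theorem sq1_const (F : MvPowerSeries σ ℂ) : constantCoeff (sq1 F) = 1 := by
  by_cases h : constantCoeff F = 1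
  · rw [sq1, dif_pos h]
    exact (sqrt_exists F (c := 1) one_ne_zero (by rw [h, one_pow])).choose_spec.2
  · rw [sq1, dif_neg h, map_one]

theorem sq1_unique {F G : MvPowerSeries σ ℂ} (h : G ^ 2 = F) (h1 : constantCoeff G = 1) :
    G = sq1 F := by
  have hF : constantCoeff F = 1 := by rw [← h, map_pow, h1, one_pow]
  refine sqrt_unique ?_ ?_ ?_
  · rw [h, sq1_sq hF]
  · rw [h1, sq1_const]
  · rw [h1]; exact one_ne_zero

/-- compatibility with algebra homomorphisms which preserve the constant coefficient (for example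
`rename`, `coll`). PROOF: `sq1_unique`. -/
theorem sq1_hom {τ : Type} [Finite τ] (g : MvPowerSeries σ ℂ →ₐ[ℂ] MvPowerSeries τ ℂ)
    (hg : ∀ F, constantCoeff (g F) = constantCoeff F) (F : MvPowerSeries σ ℂ) :
    g (sq1 F) = sq1 (g F) := by
  by_cases h : constantCoeff F = 1
  · refine sq1_unique ?_ ?_
    · rw [← map_pow, sq1_sq h]
    · rw [hg, sq1_const]
  · have h' : ¬ constantCoeff (g F) = 1 := by rw [hg]; exact h
    rw [sq1, dif_neg h, map_one, sq1, dif_neg h']

theorem sq1_mul {F G : MvPowerSeries σ ℂ} (hF : constantCoeff F = 1) (hG : constantCoeff G = 1) :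
    sq1 (F * G) = sq1 F * sq1 G := by
  refine (sq1_unique ?_ ?_).symm
  · rw [mul_pow, sq1_sq hF, sq1_sq hG]
  · rw [map_mul, sq1_const, sq1_const, one_mul]

end CA1492.PA
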