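import Mathlib

/-!
# MP_ca1492_al, PA/Ord: power series without terms of small degree

`HO K f` : f has no terms of degree < K (finitely many variables, coefficients in ℂ).
Proofs: `MvPowerSeries.order` (`nat_le_order`, `coeff_of_lt_order`, `le_order_mul`, `order_mul`,
`min_order_le_add`, `order_neg`, `order_eq_top_iff`), `MvPowerSeries.truncTotal`.
-/

set_option autoImplicit false

namespace CA1492.PA

open MvPowerSeries

variable {σ : Type*}

/-- f has no terms of degree < K -/
def HO (K : ℕ) (f : MvPowerSeries σ ℂ) : Prop := (K : ℕ∞) ≤ f.order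

theorem HO_iff {K : ℕ} {f : MvPowerSeries σ ℂ} :
    HO K f ↔ ∀ d : σ →₀ ℕ, d.degree < K → coeff d f = 0 := by
  constructor
  · intro h d hd
    exact coeff_of_lt_order (lt_of_lt_of_le (by exact_mod_cast hd) h)
  · intro h
    exact nat_le_order h

theorem HO_zero (K : ℕ) : HO K (0 : MvPowerSeries σ ℂ) := by
  rw [HO_iff]
  intro d _
  exact map_zero _

theorem HO_nat_zero (f : MvPowerSeries σ ℂ) : HO 0 f := by
  rw [HO_iff]
  intro d hd
  exact absurd hd (Nat.not_lt_zero _)

theorem HO_add {K : ℕ} {f g : MvPowerSeries σ ℂ} (hf : HO K f) (hg : HO K g) : HO K (f + g) := by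
  rw [HO_iff] at *
  intro d hd
  rw [map_add, hf d hd, hg d hd, add_zero]

theorem HO_neg {K : ℕ} {f : MvPowerSeries σ ℂ} (hf : HO K f) : HO K (-f) := by
  rw [HO_iff] at *
  intro d hd
  rw [map_neg, hf d hd, neg_zero]

theorem HO_sub {K : ℕ} {f g : MvPowerSeries σ ℂ} (hf : HO K f) (hg : HO K g) : HO K (f - g) := by
  rw [HO_iff] at *
  intro d hd
  rw [map_sub, hf d hd, hg d hd, sub_zero]

theorem HO_sum {K : ℕ} {ι : Type*} (s : Finset ι) {f : ι → MvPowerSeries σ ℂ}
    (hf : ∀ i ∈ s, HO K (f i)) : HO K (∑ i ∈ s, f i) := by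
  rw [HO_iff]
  intro d hd
  rw [map_sum]
  exact Finset.sum_eq_zero fun i hi => HO_iff.1 (hf i hi) d hd

theorem HO_mul {K L : ℕ} {f g : MvPowerSeries σ ℂ} (hf : HO K f) (hg : HO L g) :
    HO (K + L) (f * g) := by
  unfold HO at *
  rw [Nat.cast_add]
  exact (add_le_add hf hg).trans le_order_mul

theorem HO_mul_left {K : ℕ} {f : MvPowerSeries σ ℂ} (g : MvPowerSeries σ ℂ) (hf : HO K f) :
    HO K (g * f) := by
  have h := HO_mul (HO_nat_zero g) hf
  rwa [zero_add] at h

theorem HO_mul_right {K : ℕ} {f : MvPowerSeries σ ℂ} (g : MvPowerSeries σ ℂ) (hf : HO K f) :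
    HO K (f * g) := by
  have h := HO_mul hf (HO_nat_zero g)
  rwa [add_zero] at h

theorem HO_mono {K L : ℕ} (h : K ≤ L) {f : MvPowerSeries σ ℂ} (hf : HO L f) : HO K f := by
  rw [HO_iff] at *
  exact fun d hd => hf d (lt_of_lt_of_le hd h)

theorem HO_eq_zero {f : MvPowerSeries σ ℂ} (h : ∀ K, HO K f) : f = 0 := by
  ext d
  rw [map_zero]
  exact HO_iff.1 (h (d.degree + 1)) d (Nat.lt_succ_self _)

theorem HO_rename [Finite σ] (e : Equiv.Perm σ) {K : ℕ} {f : MvPowerSeries σ ℂ} (hf : HO K f) :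
    HO K (rename e f) := by
  rw [HO_iff] at *
  intro d hd
  rw [coeff_rename]
  refine Finset.sum_eq_zero fun y hy => hf y ?_
  have h1 : Finsupp.mapDomain e y = d := by simpa using hy
  rw [← h1, Finsupp.degree_mapDomain] at hd
  exact hd

theorem HO_div {a b : σ} (hab : a ≠ b) {K : ℕ} {g : MvPowerSeries σ ℂ}
    (h : HO (K + 1) ((X a - X b) * g)) : HO K g := by
  classical
  have h1 : (X a - X b : MvPowerSeries σ ℂ).order ≤ 1 := by
    have h2 : coeff (Finsupp.single a 1) (X a - X b : MvPowerSeries σ ℂ) ≠ 0 := by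
      rw [map_sub, coeff_index_single_self_X, coeff_index_single_X, if_neg hab, sub_zero]
      exact one_ne_zero
    have h3 := order_le h2
    rw [Finsupp.degree_single] at h3
    exact_mod_cast h3
  unfold HO at *
  rw [order_mul, Nat.cast_add, Nat.cast_one, add_comm (K : ℕ∞) 1] at h
  have h4 : (1 : ℕ∞) + (K : ℕ∞) ≤ 1 + g.order := h.trans (add_le_add_left h1 _)
  exact (ENat.add_le_add_iff_left ENat.one_ne_top).1 h4

theorem HO_trunc [Finite σ] (K : ℕ) (f : MvPowerSeries σ ℂ) :
    ∃ h : MvPolynomial σ ℂ, HO K (f - (h : MvPowerSeries σ ℂ)) := by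
  refine ⟨truncTotal K f, ?_⟩
  rw [HO_iff]
  intro d hd
  rw [map_sub, MvPolynomial.coeff_coe, coeff_truncTotal _ hd, sub_self]

/-- PROOF: choose for every d with `K ≤ d.degree` some `m ≤ d` of degree K and put into `t m` the terms
of f with chosen m, shifted by m. Or induction on K: a power series without constant term is
`∑ k, X k * t k` (induction over the variables, or the ideal `idealOfVars`, see
Mathlib/RingTheory/MvPowerSeries/Equiv.lean `truncTotal_sub_truncTotal_mem_pow_idealOfVars`). -/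
theorem HO_decomp [Finite σ] (K : ℕ) {f : MvPowerSeries σ ℂ} (hf : HO K f) :
    ∃ (s : Finset (σ →₀ ℕ)) (t : (σ →₀ ℕ) → MvPowerSeries σ ℂ), (∀ d ∈ s, d.degree = K) ∧
      f = ∑ d ∈ s, t d * monomial d (1 : ℂ) := by
  classical
  have hc : ∀ d : σ →₀ ℕ, ∃ m : σ →₀ ℕ, K ≤ d.degree → m ≤ d ∧ m.degree = K := by
    intro d
    by_cases h : K ≤ d.degree
    · obtain ⟨m, h1, h2⟩ := Finsupp.exists_le_degree_eq d K h
      exact ⟨m, fun _ => ⟨h1, h2⟩⟩
    · exact ⟨0, fun h' => absurd h' h⟩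
  choose c hc using hc
  have hfin : {d : σ →₀ ℕ | d.degree = K}.Finite := Finsupp.finite_of_degree_eq K
  let t : (σ →₀ ℕ) → MvPowerSeries σ ℂ :=
    fun m e => if c (e + m) = m then coeff (e + m) f else 0
  refine ⟨hfin.toFinset, t, fun d hd => by simpa using hd, ?_⟩
  ext d
  rw [map_sum]
  have h1 : ∀ m : σ →₀ ℕ, coeff d (t m * monomial m (1 : ℂ)) =
      if m ≤ d ∧ c d = m then coeff d f else 0 := by
    intro m
    rw [coeff_mul_monomial]
    by_cases h : m ≤ d
    · rw [if_pos h, mul_one]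
      change (if c (d - m + m) = m then coeff (d - m + m) f else 0) = _
      rw [tsub_add_cancel_of_le h]
      by_cases h2 : c d = m
      · rw [if_pos h2, if_pos ⟨h, h2⟩]
      · rw [if_neg h2, if_neg fun h3 => h2 h3.2]
    · rw [if_neg h, if_neg fun h3 => h h3.1]
  rw [Finset.sum_congr rfl fun m _ => h1 m]
  by_cases h : K ≤ d.degree
  · obtain ⟨h2, h3⟩ := hc d h
    rw [Finset.sum_eq_single (c d)]
    · rw [if_pos ⟨h2, rfl⟩]
    · intro m _ hm
      rw [if_neg fun h4 => hm h4.2.symm]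
    · intro h4
      exact absurd (by simpa using h3) h4
  · rw [HO_iff.1 hf d (not_le.1 h), Finset.sum_eq_zero]
    intro m _
    split_ifs <;> rfl

end CA1492.PA
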