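import Mathlib
import Pool.Agent.Lib.MP_ca1492_al.PA.Ord

/-!
# MP_ca1492_al, PA/Bas: equivariant maps out of a cofree module (replaces the complete Nakayama lemma)

`T : MvPowerSeries σ ℂ →ₐ End I` is an action by equivariant maps, every element of I is killed by the
monomials of large degree, and I is cofree over its socle `I0 T`. If the restrictions of the equivariant
maps `b j : I → W` form a basis of the equivariant maps `I0 T → W`, then every equivariant map `I → W` is a
unique sum `∑ b j ∘ T (g j)`.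

PROOF. For N let `I[N]` be the set of the x killed by all `T (monomial d 1)`, d.degree = N (equivalently
≥ N); `I[0] = 0`, `I[1] = I0 T`, `I = ⋃ I[N]`.
(1) `step`: f equivariant, f = 0 on `I[N]`. For d0 of degree N and x in I0 choose (cof) e with
`T (monomial d 1) e = if d = d0 then x else 0` (degree N); then e ∈ I[N+1] (degree N + 1: X k * monomial) and
`f e` is independent of the choice (two choices differ by an element of I[N]); so g_d0 x := f e is linear and
equivariant (`gI g e` is a choice for `gI g x`). By (bas) g_d0 = ∑ j, c j d0 • b j on I0. For every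
e ∈ I[N+1]: e = sum of the chosen elements for x_d = T (monomial d 1) e ∈ I0 modulo I[N], so
`f e = ∑ d, ∑ j, c j d • b j (T (monomial d 1) e)` (the sum over the finitely many d of degree N).
(2) existence: recursively c^(N); f_N = f - ∑ (M < N) ∑ (degree d = M) ∑ j, c j d • b j ∘ T (monomial d 1)
vanishes on I[N]. g j := power series with coefficients `c j d`. On I[N]: T (g j) x = T (truncation of g j
to degrees < N) x, because `T t x = 0` for HO N t (`HO_decomp`).
(3) uniqueness: if ∑ j, b j (T (g j) x) = 0 for all x and some g j ≠ 0, take N = minimal degree of a nonzero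
coefficient, d0 of degree N with `coeff d0 (g j0) ≠ 0`; for x in I0 choose e as above for d0;
`T (g j) e = coeff d0 (g j) • x` (g j = homogeneous part of degree N + HO (N+1)); so
∑ j, coeff d0 (g j) • b j x = 0 for all x in I0 and all coefficients are 0 by bind.
-/

set_option autoImplicit false

namespace CA1492.PA

open MvPowerSeries

variable {σ : Type} [Finite σ] {I W Γ J : Type*} [AddCommGroup I] [Module ℂ I] [AddCommGroup W]
  [Module ℂ W] [Fintype J]

/-- the socle -/
noncomputable def I0 (T : MvPowerSeries σ ℂ →ₐ[ℂ] Module.End ℂ I) : Submodule ℂ I := ⨅ k, LinearMap.ker (T (X k))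

/-- elements killed by the monomials of degree N -/
noncomputable def IN (T : MvPowerSeries σ ℂ →ₐ[ℂ] Module.End ℂ I) (N : ℕ) : Submodule ℂ I where
  carrier := {x | ∀ d : σ →₀ ℕ, d.degree = N → T (monomial d (1 : ℂ)) x = 0}
  zero_mem' := fun d _ => map_zero _
  add_mem' := by
    intro x y hx hy d hd
    rw [map_add, hx d hd, hy d hd, add_zero]
  smul_mem' := by
    intro c x hx d hd
    rw [map_smul, hx d hd, smul_zero]

theorem mem_I0 {T : MvPowerSeries σ ℂ →ₐ[ℂ] Module.End ℂ I} {x : I} :
    x ∈ I0 T ↔ ∀ k, T (X k) x = 0 := by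
  simp only [I0, Submodule.mem_iInf, LinearMap.mem_ker]

theorem Bas_mul {T : MvPowerSeries σ ℂ →ₐ[ℂ] Module.End ℂ I} (f g : MvPowerSeries σ ℂ) (x : I) :
    T (f * g) x = T f (T g x) := by
  rw [map_mul, Module.End.mul_apply]

theorem Bas_smul {T : MvPowerSeries σ ℂ →ₐ[ℂ] Module.End ℂ I} (c : ℂ) (f : MvPowerSeries σ ℂ)
    (x : I) : T (c • f) x = c • T f x := by
  rw [map_smul, LinearMap.smul_apply]

/-- power series without terms of degree < N kill `IN T N` -/
theorem HO_IN {T : MvPowerSeries σ ℂ →ₐ[ℂ] Module.End ℂ I} {N : ℕ} {t : MvPowerSeries σ ℂ}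
    (ht : HO N t) {x : I} (hx : x ∈ IN T N) : T t x = 0 := by
  obtain ⟨s, u, hs, hu⟩ := HO_decomp N ht
  rw [hu, map_sum, LinearMap.sum_apply]
  refine Finset.sum_eq_zero fun d hd => ?_
  rw [Bas_mul, hx d (hs d hd), map_zero]

theorem Bas_HO_monomial {N : ℕ} (d : σ →₀ ℕ) (h : N ≤ d.degree) (c : ℂ) :
    HO N (monomial d c : MvPowerSeries σ ℂ) := by
  classical
  rw [HO_iff]
  intro e he
  rw [coeff_monomial, if_neg]
  rintro rfl
  omega

theorem IN_mono {T : MvPowerSeries σ ℂ →ₐ[ℂ] Module.End ℂ I} {N M : ℕ} (h : N ≤ M) : IN T N ≤ IN T M := by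
  intro x hx d hd
  exact HO_IN (Bas_HO_monomial d (by omega) 1) hx

theorem IN_zero (T : MvPowerSeries σ ℂ →ₐ[ℂ] Module.End ℂ I) : IN T 0 = ⊥ := by
  rw [eq_bot_iff]
  intro x hx
  have h := hx 0 (by simp)
  rw [monomial_zero_one, map_one, Module.End.one_apply] at h
  exact h

/-- the monomials of degree N map `IN T (N + 1)` to the socle -/
theorem IN_succ {T : MvPowerSeries σ ℂ →ₐ[ℂ] Module.End ℂ I} {N : ℕ} {x : I} :
    x ∈ IN T (N + 1) ↔ ∀ d : σ →₀ ℕ, d.degree = N → T (monomial d (1 : ℂ)) x ∈ I0 T := by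
  constructor
  · intro hx d hd
    rw [mem_I0]
    intro k
    rw [← Bas_mul, X_def, monomial_mul_monomial, one_mul]
    exact hx _ (by rw [map_add, Finsupp.degree_single, hd, add_comm])
  · intro hx d hd
    have hne : d ≠ 0 := by
      rintro rfl
      simp at hd
    obtain ⟨k, hk⟩ := Finsupp.ne_iff.1 hne
    have hk' : Finsupp.single k 1 ≤ d := by
      rw [Finsupp.single_le_iff]
      simp only [Finsupp.coe_zero, Pi.zero_apply] at hk
      omega
    have hde : Finsupp.single k 1 + (d - Finsupp.single k 1) = d := add_tsub_cancel_of_le hk'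
    have hdeg : (d - Finsupp.single k 1).degree = N := by
      have h2 := congrArg Finsupp.degree hde
      rw [map_add, Finsupp.degree_single, hd] at h2
      omega
    have h1 : (monomial d (1 : ℂ) : MvPowerSeries σ ℂ)
        = X k * monomial (d - Finsupp.single k 1) (1 : ℂ) := by
      rw [X_def, monomial_mul_monomial, one_mul, hde]
    rw [h1, Bas_mul]
    exact mem_I0.1 (hx _ hdeg) k

/-- the finitely many exponents of degree N -/
noncomputable def BasD (σ : Type) [Finite σ] (N : ℕ) : Finset (σ →₀ ℕ) :=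
  (Finsupp.finite_of_degree_eq (σ := σ) N).toFinset

theorem mem_BasD {N : ℕ} {d : σ →₀ ℕ} : d ∈ BasD σ N ↔ d.degree = N := by
  simp [BasD]

/-- the step: an equivariant map which vanishes on `IN T N` -/
theorem Bas_step (gI : Γ → Module.End ℂ I) (gW : Γ → Module.End ℂ W)
    (T : MvPowerSeries σ ℂ →ₐ[ℂ] Module.End ℂ I) (hT : ∀ f g x, T f (gI g x) = gI g (T f x))
    (cof : ∀ (K : ℕ) (x : (σ →₀ ℕ) → I), (∀ d, x d ∈ I0 T) →
      ∃ e : I, ∀ d : σ →₀ ℕ, d.degree = K → T (monomial d (1 : ℂ)) e = x d)
    (b : J → (I →ₗ[ℂ] W))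
    (bsp : ∀ f : I0 T →ₗ[ℂ] W,
      (∀ (g : Γ) (x : I0 T) (hx : gI g x ∈ I0 T), f ⟨gI g x, hx⟩ = gW g (f x)) →
        ∃ c : J → ℂ, ∀ x : I0 T, f x = ∑ j, c j • b j x)
    (N : ℕ) (f : I →ₗ[ℂ] W) (hf : ∀ g x, f (gI g x) = gW g (f x))
    (hf0 : ∀ x ∈ IN T N, f x = 0) :
    ∃ c : J → (σ →₀ ℕ) → ℂ, ∀ x ∈ IN T (N + 1),
      f x = ∑ d ∈ BasD σ N, ∑ j, c j d • b j (T (monomial d (1 : ℂ)) x) := by
  classical
  have key : ∀ (d0 : σ →₀ ℕ) (x : I0 T), ∃ e : I, ∀ d : σ →₀ ℕ, d.degree = N →
      T (monomial d (1 : ℂ)) e = if d = d0 then (x : I) else 0 := by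
    intro d0 x
    refine cof N (fun d => if d = d0 then (x : I) else 0) fun d => ?_
    split_ifs
    · exact x.2
    · exact zero_mem _
  choose E hE using key
  -- linear maps on the socle
  have hlin : ∀ d0 : σ →₀ ℕ, ∃ F : I0 T →ₗ[ℂ] W, ∀ x, F x = f (E d0 x) := by
    intro d0
    refine ⟨{ toFun := fun x => f (E d0 x), map_add' := ?_, map_smul' := ?_ }, fun x => rfl⟩
    · intro x y
      have h := hf0 (E d0 (x + y) - (E d0 x + E d0 y)) (by
        intro d hd
        rw [map_sub, map_add, hE _ _ d hd, hE _ _ d hd, hE _ _ d hd]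
        split_ifs
        · simp
        · simp)
      rw [map_sub, map_add, sub_eq_zero] at h
      exact h
    · intro c x
      have h := hf0 (E d0 (c • x) - c • E d0 x) (by
        intro d hd
        rw [map_sub, map_smul, hE _ _ d hd, hE _ _ d hd]
        split_ifs
        · simp
        · simp)
      rw [map_sub, map_smul, sub_eq_zero] at h
      simpa using h
  choose F hF using hlin
  have hc : ∀ d0 : σ →₀ ℕ, ∃ c : J → ℂ, ∀ x : I0 T, F d0 x = ∑ j, c j • b j x := by
    intro d0
    refine bsp (F d0) ?_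
    intro g x hx
    rw [hF, hF, ← hf]
    have h := hf0 (E d0 ⟨gI g x, hx⟩ - gI g (E d0 x)) (by
      intro d hd
      rw [map_sub, hT, hE _ _ d hd, hE _ _ d hd]
      split_ifs
      · simp
      · simp)
    rw [map_sub, sub_eq_zero] at h
    exact h
  choose c hc using hc
  refine ⟨fun j d => c d j, ?_⟩
  intro x hx
  have hx' : ∀ d : σ →₀ ℕ, d.degree = N → T (monomial d (1 : ℂ)) x ∈ I0 T := IN_succ.1 hx
  have h1 : ∀ d ∈ BasD σ N, ∃ y : I0 T, (y : I) = T (monomial d (1 : ℂ)) x := fun d hd =>
    ⟨⟨_, hx' d (mem_BasD.1 hd)⟩, rfl⟩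
  have h2 : ∀ d : σ →₀ ℕ, ∃ y : I0 T, d ∈ BasD σ N → (y : I) = T (monomial d (1 : ℂ)) x := by
    intro d
    by_cases hd : d ∈ BasD σ N
    · obtain ⟨y, hy⟩ := h1 d hd
      exact ⟨y, fun _ => hy⟩
    · exact ⟨0, fun h => absurd h hd⟩
  choose y hy using h2
  have h3 := hf0 (x - ∑ d ∈ BasD σ N, E d (y d)) (by
    intro d hd
    rw [map_sub, map_sum]
    have h4 : ∀ d' ∈ BasD σ N, T (monomial d (1 : ℂ)) (E d' (y d'))
        = if d = d' then T (monomial d (1 : ℂ)) x else 0 := by
      intro d' hd'
      rw [hE d' (y d') d hd]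
      by_cases hdd : d = d'
      · rw [if_pos hdd, if_pos hdd, hy d' hd', hdd]
      · rw [if_neg hdd, if_neg hdd]
    rw [Finset.sum_congr rfl h4, Finset.sum_ite_eq, if_pos (mem_BasD.2 hd), sub_self])
  rw [map_sub, map_sum, sub_eq_zero] at h3
  rw [h3]
  refine Finset.sum_congr rfl fun d hd => ?_
  rw [← hF, hc]
  refine Finset.sum_congr rfl fun j _ => ?_
  rw [hy d hd]

theorem bas (gI : Γ → Module.End ℂ I) (gW : Γ → Module.End ℂ W)
    (T : MvPowerSeries σ ℂ →ₐ[ℂ] Module.End ℂ I) (hT : ∀ f g x, T f (gI g x) = gI g (T f x))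
    (nil : ∀ x : I, ∃ K : ℕ, ∀ d : σ →₀ ℕ, K ≤ d.degree → T (monomial d (1 : ℂ)) x = 0)
    (cof : ∀ (K : ℕ) (x : (σ →₀ ℕ) → I), (∀ d, x d ∈ I0 T) →
      ∃ e : I, ∀ d : σ →₀ ℕ, d.degree = K → T (monomial d (1 : ℂ)) e = x d)
    (b : J → (I →ₗ[ℂ] W)) (hb : ∀ j g x, b j (gI g x) = gW g (b j x))
    (bsp : ∀ f : I0 T →ₗ[ℂ] W,
      (∀ (g : Γ) (x : I0 T) (hx : gI g x ∈ I0 T), f ⟨gI g x, hx⟩ = gW g (f x)) →
        ∃ c : J → ℂ, ∀ x : I0 T, f x = ∑ j, c j • b j x)
    (bind : ∀ c : J → ℂ, (∀ x ∈ I0 T, ∑ j, c j • b j x = 0) → c = 0) :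
    (∀ f : I →ₗ[ℂ] W, (∀ g x, f (gI g x) = gW g (f x)) →
      ∃ g : J → MvPowerSeries σ ℂ, ∀ x, f x = ∑ j, b j (T (g j) x)) ∧
    (∀ g : J → MvPowerSeries σ ℂ, (∀ x, ∑ j, b j (T (g j) x) = 0) → g = 0) := by
  classical
  constructor
  · intro f hf
    -- the approximations
    have step : ∀ (N : ℕ) (g : {g : J → MvPowerSeries σ ℂ //
        ∀ x ∈ IN T N, f x = ∑ j, b j (T (g j) x)}),
        ∃ g' : {g : J → MvPowerSeries σ ℂ // ∀ x ∈ IN T (N + 1), f x = ∑ j, b j (T (g j) x)},
          ∀ j, HO N (g'.1 j - g.1 j) := by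
      rintro N ⟨g, hg⟩
      obtain ⟨c, hc⟩ := Bas_step gI gW T hT cof b bsp N (f - ∑ j, b j ∘ₗ T (g j)) (by
        intro a x
        simp only [LinearMap.sub_apply, LinearMap.sum_apply, LinearMap.comp_apply]
        rw [hf, map_sub, map_sum]
        congr 1
        refine Finset.sum_congr rfl fun j _ => ?_
        rw [hT, hb]) (by
        intro x hx
        simp only [LinearMap.sub_apply, LinearMap.sum_apply, LinearMap.comp_apply]
        rw [hg x hx, sub_self])
      refine ⟨⟨fun j => g j + ∑ d ∈ BasD σ N, c j d • monomial d (1 : ℂ), ?_⟩, ?_⟩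
      · intro x hx
        have h1 := hc x hx
        simp only [LinearMap.sub_apply, LinearMap.sum_apply, LinearMap.comp_apply] at h1
        rw [sub_eq_iff_eq_add] at h1
        rw [h1, Finset.sum_comm, ← Finset.sum_add_distrib]
        refine Finset.sum_congr rfl fun j _ => ?_
        rw [map_add, LinearMap.add_apply, map_add, map_sum, LinearMap.sum_apply, map_sum, add_comm]
        congr 1
        refine Finset.sum_congr rfl fun d _ => ?_
        rw [Bas_smul, map_smul]
      · intro j
        dsimp only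
        rw [add_sub_cancel_left]
        refine HO_sum _ fun d hd => ?_
        rw [← map_smul, smul_eq_mul]
        exact Bas_HO_monomial d (mem_BasD.1 hd).ge _
    choose nxt hnxt using step
    have base : ∀ x ∈ IN T 0, f x = ∑ j, b j (T ((0 : J → MvPowerSeries σ ℂ) j) x) := by
      intro x hx
      rw [IN_zero, Submodule.mem_bot] at hx
      rw [hx]
      simp
    let G : (N : ℕ) → {g : J → MvPowerSeries σ ℂ //
        ∀ x ∈ IN T N, f x = ∑ j, b j (T (g j) x)} := fun N =>
      Nat.rec ⟨0, base⟩ (fun n g => nxt n g) N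
    have hG : ∀ N j, HO N ((G (N + 1)).1 j - (G N).1 j) := fun N j => hnxt N (G N) j
    have hG2 : ∀ N k j, HO N ((G (N + k)).1 j - (G N).1 j) := by
      intro N k j
      induction k with
      | zero => rw [Nat.add_zero, sub_self]; exact HO_zero N
      | succ k ih =>
        have h1 := HO_add (HO_mono (Nat.le_add_right N k) (hG (N + k) j)) ih
        rw [sub_add_sub_cancel] at h1
        exact h1
    let g : J → MvPowerSeries σ ℂ := fun j d => coeff d ((G (d.degree + 1)).1 j)
    have hg : ∀ j (d : σ →₀ ℕ), coeff d (g j) = coeff d ((G (d.degree + 1)).1 j) := fun j d => rfl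
    have hgN : ∀ N j, HO N (g j - (G N).1 j) := by
      intro N j
      rw [HO_iff]
      intro d hd
      have h1 := HO_iff.1 (hG2 (d.degree + 1) (N - (d.degree + 1)) j) d (Nat.lt_succ_self _)
      rw [Nat.add_sub_cancel' hd] at h1
      rw [map_sub, hg, ← neg_sub, ← map_sub, h1, neg_zero]
    refine ⟨g, ?_⟩
    intro x
    obtain ⟨K, hK⟩ := nil x
    have hx : x ∈ IN T K := fun d hd => hK d hd.ge
    rw [(G K).2 x hx]
    refine Finset.sum_congr rfl fun j _ => ?_
    have h1 := HO_IN (hgN K j) hx
    rw [map_sub, LinearMap.sub_apply, sub_eq_zero] at h1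
    rw [h1]
  · intro g hg
    have main : ∀ N j, HO N (g j) := by
      intro N
      induction N with
      | zero => intro j; exact HO_nat_zero _
      | succ N ih =>
        have hcoef : ∀ (d0 : σ →₀ ℕ), d0.degree = N → (fun j => coeff d0 (g j)) = 0 := by
          intro d0 hd0
          refine bind _ ?_
          intro x hx
          obtain ⟨e, he⟩ := cof N (fun d => if d = d0 then x else 0) (by
            intro d
            split_ifs
            · exact hx
            · exact zero_mem _)
          have heI : e ∈ IN T (N + 1) := by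
            rw [IN_succ]
            intro d hd
            rw [he d hd]
            split_ifs
            · exact hx
            · exact zero_mem _
          have hTe : ∀ j, T (g j) e = coeff d0 (g j) • x := by
            intro j
            have hHO : HO (N + 1) (g j - ∑ d ∈ BasD σ N, coeff d (g j) • monomial d (1 : ℂ)) := by
              rw [HO_iff]
              intro d hd
              rw [map_sub, map_sum]
              have h2 : ∀ d' ∈ BasD σ N, coeff d (coeff d' (g j) • monomial d' (1 : ℂ))
                  = if d = d' then coeff d (g j) else 0 := by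
                intro d' _
                rw [map_smul, coeff_monomial, smul_eq_mul]
                by_cases hdd : d = d'
                · rw [if_pos hdd, if_pos hdd, mul_one, hdd]
                · rw [if_neg hdd, if_neg hdd, mul_zero]
              rw [Finset.sum_congr rfl h2, Finset.sum_ite_eq]
              by_cases hdN : d.degree = N
              · rw [if_pos (mem_BasD.2 hdN), sub_self]
              · rw [if_neg (fun h => hdN (mem_BasD.1 h)), sub_zero]
                exact HO_iff.1 (ih j) d (by omega)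
            have h3 := HO_IN hHO heI
            rw [map_sub, LinearMap.sub_apply, sub_eq_zero, map_sum, LinearMap.sum_apply] at h3
            rw [h3]
            have h4 : ∀ d ∈ BasD σ N, T (coeff d (g j) • monomial d (1 : ℂ)) e
                = if d = d0 then coeff d0 (g j) • x else 0 := by
              intro d hd
              rw [Bas_smul, he d (mem_BasD.1 hd)]
              by_cases hdd : d = d0
              · rw [if_pos hdd, if_pos hdd, hdd]
              · rw [if_neg hdd, if_neg hdd, smul_zero]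
            rw [Finset.sum_congr rfl h4, Finset.sum_ite_eq', if_pos (mem_BasD.2 hd0)]
          have h5 := hg e
          simp only [hTe, map_smul] at h5
          exact h5
        intro j
        rw [HO_iff]
        intro d hd
        by_cases hdN : d.degree = N
        · exact congrFun (hcoef d hdN) j
        · exact HO_iff.1 (ih j) d (by omega)
    funext j
    exact HO_eq_zero fun K => main K j

end CA1492.PA
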