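import Mathlib
import Pool.Agent.Lib.MP_ca1492_al.PA.Bas
import Pool.Agent.Lib.MP_ca1492_al.PA.Defs

/-!
# MP_ca1492_al, PA/BasC: completed KLR algebras from a cofree module

W with operators `gW`, A = the algebra of the equivariant endomorphisms of W (through `act`).
`Soc v` = vectors of the word v killed by all variables, `HomS v` = equivariant maps `Soc v → W`.
-/

set_option autoImplicit false

namespace CA1492.PA

open MvPowerSeries

variable {D : Dat} {n : ℕ} {A : Type*} [Ring A] [Algebra ℂ A]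
  {W : Type*} [AddCommGroup W] [Module ℂ W] {Γ : Type*}

/-- vectors of the word v -/
noncomputable def BasCI (act : A →ₐ[ℂ] Module.End ℂ W) (φ : R D n →ₐ[ℂ] A) (v : Wd D n) :
    Submodule ℂ W := LinearMap.ker (act (φ (ew v)) - 1)

theorem BasC_mem {act : A →ₐ[ℂ] Module.End ℂ W} {φ : R D n →ₐ[ℂ] A} {v : Wd D n} {x : W} :
    x ∈ BasCI act φ v ↔ act (φ (ew v)) x = x := by
  unfold BasCI
  rw [LinearMap.mem_ker, LinearMap.sub_apply, Module.End.one_apply, sub_eq_zero]

theorem BasC_mul {act : A →ₐ[ℂ] Module.End ℂ W} (a b : A) (x : W) :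
    act a (act b x) = act (a * b) x := by
  rw [map_mul, Module.End.mul_apply]

theorem BasC_ew {act : A →ₐ[ℂ] Module.End ℂ W} {φ : R D n →ₐ[ℂ] A} (v : Wd D n) (x : W) :
    act (φ (ew v)) x ∈ BasCI act φ v := by
  rw [BasC_mem, BasC_mul, ← map_mul, ew_facts.1, if_pos rfl]

/-- the socle of the word v -/
noncomputable def Soc (act : A →ₐ[ℂ] Module.End ℂ W) (φ : R D n →ₐ[ℂ] A) (θ : O n →ₐ[ℂ] A)
    (v : Wd D n) : Submodule ℂ W := BasCI act φ v ⊓ ⨅ k, LinearMap.ker (act (θ (X k)))

theorem mem_Soc {act : A →ₐ[ℂ] Module.End ℂ W} {φ : R D n →ₐ[ℂ] A} {θ : O n →ₐ[ℂ] A}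
    {v : Wd D n} {x : W} :
    x ∈ Soc act φ θ v ↔ act (φ (ew v)) x = x ∧ ∀ k, act (θ (X k)) x = 0 := by
  unfold Soc
  rw [Submodule.mem_inf, BasC_mem, Submodule.mem_iInf]
  rfl

/-- equivariant maps from the socle to W -/
noncomputable def HomS (gW : Γ → Module.End ℂ W) (act : A →ₐ[ℂ] Module.End ℂ W)
    (φ : R D n →ₐ[ℂ] A) (θ : O n →ₐ[ℂ] A) (v : Wd D n) :
    Submodule ℂ (Soc act φ θ v →ₗ[ℂ] W) where
  carrier := {f | ∀ (g : Γ) (x : Soc act φ θ v) (hx : gW g x ∈ Soc act φ θ v),
    f ⟨gW g x, hx⟩ = gW g (f x)}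
  zero_mem' := fun g x hx => by simp
  add_mem' := by
    intro a b ha hb g x hx
    rw [LinearMap.add_apply, LinearMap.add_apply, map_add, ha g x hx, hb g x hx]
  smul_mem' := by
    intro c a ha g x hx
    rw [LinearMap.smul_apply, LinearMap.smul_apply, map_smul, ha g x hx]

section
variable (gW : Γ → Module.End ℂ W) (act : A →ₐ[ℂ] Module.End ℂ W)
    (φ : R D n →ₐ[ℂ] A) (θ : O n →ₐ[ℂ] A)

/-- the group on I -/
noncomputable def BasCg (hequi : ∀ a g x, act a (gW g x) = gW g (act a x)) (v : Wd D n) (g : Γ) :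
    Module.End ℂ (BasCI act φ v) :=
  (gW g).restrict (p := BasCI act φ v) (q := BasCI act φ v) (by
    intro x hx
    rw [BasC_mem] at hx ⊢
    rw [hequi, hx])

/-- the power series on I -/
noncomputable def BasCT (θ_E : ∀ f w, θ f * φ (ew w) = φ (ew w) * θ f) (v : Wd D n) :
    O n →ₐ[ℂ] Module.End ℂ (BasCI act φ v) where
  toFun f := (act (θ f)).restrict (p := BasCI act φ v) (q := BasCI act φ v) (by
    intro x hx
    rw [BasC_mem] at hx ⊢
    rw [BasC_mul, ← θ_E, ← BasC_mul, hx])
  map_one' := by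
    refine LinearMap.ext fun x => Subtype.ext ?_
    show act (θ 1) (x : W) = x
    rw [map_one, map_one]
    rfl
  map_mul' f g := by
    refine LinearMap.ext fun x => Subtype.ext ?_
    show act (θ (f * g)) (x : W) = act (θ f) (act (θ g) (x : W))
    rw [map_mul, BasC_mul]
  map_zero' := by
    refine LinearMap.ext fun x => Subtype.ext ?_
    show act (θ 0) (x : W) = 0
    rw [map_zero, map_zero]
    rfl
  map_add' f g := by
    refine LinearMap.ext fun x => Subtype.ext ?_
    show act (θ (f + g)) (x : W) = act (θ f) (x : W) + act (θ g) (x : W)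
    rw [map_add, map_add]
    rfl
  commutes' c := by
    refine LinearMap.ext fun x => Subtype.ext ?_
    show act (θ (algebraMap ℂ _ c)) (x : W) = c • (x : W)
    rw [AlgHom.commutes, AlgHom.commutes]
    rfl

theorem BasCT_coe (θ_E : ∀ f w, θ f * φ (ew w) = φ (ew w) * θ f) (v : Wd D n) (f : O n)
    (x : BasCI act φ v) : ((BasCT act φ θ θ_E v f x : BasCI act φ v) : W) = act (θ f) (x : W) := rfl

theorem BasC_I0 (θ_E : ∀ f w, θ f * φ (ew w) = φ (ew w) * θ f) (v : Wd D n)
    (x : BasCI act φ v) : x ∈ I0 (BasCT act φ θ θ_E v) ↔ (x : W) ∈ Soc act φ θ v := by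
  rw [mem_I0, mem_Soc]
  constructor
  · intro h
    refine ⟨BasC_mem.1 x.2, fun k => ?_⟩
    rw [← BasCT_coe act φ θ θ_E v, h k]
    rfl
  · rintro ⟨-, h⟩ k
    exact Subtype.ext (h k)

end

theorem cklr_of_bas (gW : Γ → Module.End ℂ W) (act : A →ₐ[ℂ] Module.End ℂ W)
    (hinj : Function.Injective act)
    (hequi : ∀ a g x, act a (gW g x) = gW g (act a x))
    (φ : R D n →ₐ[ℂ] A) (θ : O n →ₐ[ℂ] A) (Ws : Set (Wd D n))
    (θ_X : ∀ k, θ (X k) = φ (yk k))
    (θ_E : ∀ f w, θ f * φ (ew w) = φ (ew w) * θ f)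
    (comm : SComm D n (fun w => φ (ew w)) θ (fun r => φ (ps r)))
    (Ws_sw : ∀ w ∈ Ws, ∀ r, w ∘ sw n r ∈ Ws)
    (E_out : ∀ w, w ∉ Ws → φ (ew w) = 0)
    (nil : ∀ x : W, ∃ K : ℕ, ∀ d : Fin n →₀ ℕ, K ≤ d.degree → act (θ (monomial d (1 : ℂ))) x = 0)
    (cof : ∀ v ∈ Ws, ∀ (K : ℕ) (x : (Fin n →₀ ℕ) → W), (∀ d, x d ∈ Soc act φ θ v) →
      ∃ e : W, ∀ d : Fin n →₀ ℕ, d.degree = K → act (θ (monomial d (1 : ℂ))) e = x d)
    (hdim : ∀ v ∈ Ws, Module.Finite ℂ (HomS gW act φ θ v) ∧
      Module.finrank ℂ (HomS gW act φ θ v) ≤ n.factorial)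
    (bind : ∀ v ∈ Ws, ∀ c : Sq n → ℂ, (∀ x ∈ Soc act φ θ v,
      ∑ p, c p • act (φ (CQ p)) x = 0) → c = 0) :
    CKLR D n φ θ Ws := by
  classical
  have key : ∀ v ∈ Ws,
      (∀ a : A, ∃ g : Sq n → O n, ∀ x ∈ BasCI act φ v,
        act a x = ∑ p, act (φ (CQ p)) (act (θ (g p)) x)) ∧
      (∀ g : Sq n → O n, (∀ x ∈ BasCI act φ v,
        ∑ p, act (φ (CQ p)) (act (θ (g p)) x) = 0) → g = 0) := by
    intro v hv
    have hb := bas (σ := Fin n) (J := Sq n) (BasCg gW act φ hequi v) gW (BasCT act φ θ θ_E v)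
      (fun f g x => Subtype.ext (hequi (θ f) g x))
      (fun x => by
        obtain ⟨K, hK⟩ := nil x
        exact ⟨K, fun d hd => Subtype.ext (hK d hd)⟩)
      (fun K x hx => by
        obtain ⟨e, he⟩ := cof v hv K (fun d => (x d : W)) (fun d => (BasC_I0 act φ θ θ_E v _).1 (hx d))
        refine ⟨⟨act (φ (ew v)) e, BasC_ew v e⟩, fun d hd => Subtype.ext ?_⟩
        show act (θ (monomial d 1)) (act (φ (ew v)) e) = x d
        rw [BasC_mul, θ_E, ← BasC_mul, he d hd]
        exact BasC_mem.1 (x d).2)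
      (fun p => (act (φ (CQ p))).comp (BasCI act φ v).subtype)
      (fun p g x => hequi (φ (CQ p)) g x)
      (by
        intro f hf
        obtain ⟨hfin, hle⟩ := hdim v hv
        -- the family
        let bb : Sq n → HomS gW act φ θ v := fun p =>
          ⟨(act (φ (CQ p))).comp (Soc act φ θ v).subtype, fun g x hx => hequi (φ (CQ p)) g x⟩
        have hli : LinearIndependent ℂ bb := by
          rw [Fintype.linearIndependent_iff]
          intro c hc
          have := bind v hv c (by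
            intro x hx
            have h1 := congrArg (fun F : HomS gW act φ θ v => F.1 ⟨x, hx⟩) hc
            simp only [Submodule.coe_sum, Submodule.coe_smul, LinearMap.sum_apply,
              LinearMap.smul_apply] at h1
            exact h1)
          exact fun p => congrFun this p
        have hcard : Fintype.card (Sq n) = Module.finrank ℂ (HomS gW act φ θ v) := by
          refine le_antisymm hli.fintype_card_le_finrank ?_
          rw [card_Sq]
          exact hle
        have hspan := hli.span_eq_top_of_card_eq_finrank' hcard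
        let e : Soc act φ θ v →ₗ[ℂ] I0 (BasCT act φ θ θ_E v) :=
          { toFun := fun x => ⟨⟨(x : W), BasC_mem.2 (mem_Soc.1 x.2).1⟩,
              (BasC_I0 act φ θ θ_E v _).2 x.2⟩
            map_add' := fun _ _ => rfl
            map_smul' := fun _ _ => rfl }
        have hmem : (⟨f.comp e, by
            intro g x hx
            exact hf g (e x) ((BasC_I0 act φ θ θ_E v _).2 hx)⟩ : HomS gW act φ θ v) ∈
              Submodule.span ℂ (Set.range bb) := by
          rw [hspan]
          trivial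
        obtain ⟨c, hc⟩ := (Submodule.mem_span_range_iff_exists_fun ℂ).1 hmem
        refine ⟨c, fun x => ?_⟩
        have h1 := congrArg (fun F : HomS gW act φ θ v =>
          F.1 ⟨(x.1 : W), (BasC_I0 act φ θ θ_E v _).1 x.2⟩) hc
        simp only [Submodule.coe_sum, Submodule.coe_smul, LinearMap.sum_apply,
              LinearMap.smul_apply] at h1
        exact h1.symm)
      (by
        intro c hc
        refine bind v hv c fun x hx => ?_
        exact hc ⟨x, BasC_mem.2 (mem_Soc.1 hx).1⟩ ((BasC_I0 act φ θ θ_E v _).2 hx))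
    refine ⟨fun a => ?_, fun g hg => ?_⟩
    · obtain ⟨g, hg⟩ := hb.1 ((act a).comp (BasCI act φ v).subtype) (fun g x => hequi a g x)
      exact ⟨g, fun x hx => hg ⟨x, hx⟩⟩
    · exact hb.2 g fun x => hg x x.2
  have hsum : ∀ x : W, x = ∑ w : Wd D n, act (φ (ew w)) x := by
    intro x
    rw [← LinearMap.sum_apply, ← map_sum, ← map_sum, ew_facts.2.1, map_one, map_one,
      Module.End.one_apply]
  refine ⟨θ_X, θ_E, comm, Ws_sw, E_out, ?_, ?_⟩
  · intro a
    have h1 : ∀ v : Wd D n, ∃ g : Sq n → O n, v ∈ Ws → ∀ x ∈ BasCI act φ v,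
        act a x = ∑ p, act (φ (CQ p)) (act (θ (g p)) x) := by
      intro v
      by_cases hv : v ∈ Ws
      · obtain ⟨g, hg⟩ := (key v hv).1 a
        exact ⟨g, fun _ => hg⟩
      · exact ⟨0, fun h => absurd h hv⟩
    choose g hg using h1
    refine ⟨fun p w => g w p, hinj (LinearMap.ext fun x => ?_)⟩
    conv_lhs => rw [hsum x, map_sum]
    rw [Finset.sum_comm, map_sum, LinearMap.sum_apply]
    refine Finset.sum_congr rfl fun w _ => ?_
    rw [map_sum, LinearMap.sum_apply]
    by_cases hw : w ∈ Ws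
    · rw [hg w hw _ (BasC_ew w x)]
      refine Finset.sum_congr rfl fun p _ => ?_
      rw [BasC_mul, BasC_mul, mul_assoc]
    · rw [E_out w hw, map_zero, LinearMap.zero_apply, map_zero]
      refine (Finset.sum_eq_zero fun p _ => ?_).symm
      rw [mul_zero, map_zero, LinearMap.zero_apply]
  · intro f hf p w hw
    have h1 := (key w hw).2 (fun p => f p w) (by
      intro x hx
      have h2 := congrArg (fun a => act a x) hf
      simp only [map_sum, LinearMap.sum_apply, map_zero, LinearMap.zero_apply] at h2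
      rw [← h2]
      refine Finset.sum_congr rfl fun p _ => ?_
      rw [Finset.sum_eq_single w]
      · rw [← BasC_mul, ← BasC_mul, BasC_mem.1 hx]
      · intro w' _ hw'
        rw [← BasC_mul]
        have h3 : act (φ (ew w')) x = 0 := by
          rw [← BasC_mem.1 hx, BasC_mul, ← map_mul, ew_facts.1, if_neg hw', map_zero, map_zero,
            LinearMap.zero_apply]
        rw [h3, map_zero]
      · intro h
        exact absurd (Finset.mem_univ _) h)
    exact congrFun h1 p

end CA1492.PA
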