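import Mathlib
import Pool.Agent.Lib.MP_ca1492_al.PA.WSys

/-!
# MP_ca1492_al, PA/Inv: inversions of permutations and reduced words
-/

set_option autoImplicit false

namespace CA1492.PA

variable {n : ℕ}

/-- inversions -/
def cr (u : Equiv.Perm (Fin n)) : Finset (Fin n × Fin n) :=
  Finset.univ.filter fun p => p.1 < p.2 ∧ u p.2 < u p.1

theorem mem_cr {u : Equiv.Perm (Fin n)} {p : Fin n × Fin n} :
    p ∈ cr u ↔ p.1 < p.2 ∧ u p.2 < u p.1 := by
  unfold cr
  rw [Finset.mem_filter]
  exact ⟨fun h => h.2, fun h => ⟨Finset.mem_univ _, h⟩⟩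

theorem cr_one : cr (1 : Equiv.Perm (Fin n)) = ∅ := by
  refine Finset.eq_empty_of_forall_notMem fun p hp => ?_
  rw [mem_cr] at hp
  exact absurd hp.1 (not_lt.2 (le_of_lt hp.2))

/-- the permutation of a word -/
def wp (n : ℕ) (L : List ℕ) : Equiv.Perm (Fin n) := (L.map (sw n)).prod

theorem wp_nil : wp n [] = 1 := rfl

theorem wp_cons (r : ℕ) (L : List ℕ) : wp n (r :: L) = sw n r * wp n L := by
  unfold wp
  rw [List.map_cons, List.prod_cons]

theorem wp_append (L L' : List ℕ) : wp n (L ++ L') = wp n L * wp n L' := by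
  unfold wp
  rw [List.map_append, List.prod_append]

/-- a step which increases the number of inversions -/
def Up (u : Equiv.Perm (Fin n)) (r : ℕ) (h : r + 1 < n) : Prop :=
  u.symm ⟨r, by omega⟩ < u.symm ⟨r + 1, h⟩

theorem cr_up (u : Equiv.Perm (Fin n)) (r : ℕ) (h : r + 1 < n) (hr : Up u r h) :
    (u.symm ⟨r, by omega⟩, u.symm ⟨r + 1, h⟩) ∉ cr u ∧
      cr (sw n r * u) = insert (u.symm ⟨r, by omega⟩, u.symm ⟨r + 1, h⟩) (cr u) := by
  have hr' : u.symm ⟨r, by omega⟩ < u.symm ⟨r + 1, h⟩ := hr
  constructor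
  · intro hm
    rw [mem_cr] at hm
    have := hm.2
    simp only [Equiv.apply_symm_apply] at this
    have h2 : r + 1 < r := this
    omega
  · ext ⟨i, j⟩
    rw [Finset.mem_insert, mem_cr, mem_cr]
    simp only [Equiv.Perm.mul_apply, Prod.mk.injEq]
    have hi := sw_val h (u i)
    have hj := sw_val h (u j)
    have hval : ∀ (k : Fin n) (c : ℕ) (hc : c < n), (u k : ℕ) = c ↔ k = u.symm ⟨c, hc⟩ := by
      intro k c hc
      rw [Equiv.eq_symm_apply]
      exact ⟨fun e => Fin.ext e, fun e => congrArg Fin.val e⟩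
    have hne : (i : ℕ) ≠ j → (u i : ℕ) ≠ u j := fun e e' => e (congrArg Fin.val
      (u.injective (Fin.ext e')))
    have h1 := hval i r (by omega)
    have h2 := hval j (r + 1) h
    have h3 := hval i (r + 1) h
    have h4 := hval j r (by omega)
    rw [← h1, ← h2]
    simp only [Fin.lt_def] at hr' ⊢
    rw [hi, hj]
    constructor
    · rintro ⟨hij, hs⟩
      have hne' := hne (by omega)
      split_ifs at hs <;> omega
    · rintro (⟨e1, e2⟩ | ⟨hij, hs⟩)
      · refine ⟨?_, ?_⟩
        · rw [h1.1 e1, h2.1 e2]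
          exact hr'
        · rw [if_pos e1, if_neg (by omega), if_pos e2]
          omega
      · refine ⟨hij, ?_⟩
        by_cases c1 : (u j : ℕ) = r
        · by_cases c2 : (u i : ℕ) = r + 1
          · exfalso
            have e1 := h3.1 c2
            have e2 := h4.1 c1
            rw [e1, e2] at hij
            omega
          · split_ifs <;> omega
        · split_ifs <;> omega

theorem cr_card_up (u : Equiv.Perm (Fin n)) (r : ℕ) (h : r + 1 < n) (hr : Up u r h) :
    (cr (sw n r * u)).card = (cr u).card + 1 := by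
  obtain ⟨h1, h2⟩ := cr_up u r h hr
  rw [h2, Finset.card_insert_of_notMem h1]

theorem sw_mul_sym (u : Equiv.Perm (Fin n)) (r : ℕ) (h : r + 1 < n) :
    (sw n r * u).symm ⟨r, by omega⟩ = u.symm ⟨r + 1, h⟩ ∧
      (sw n r * u).symm ⟨r + 1, h⟩ = u.symm ⟨r, by omega⟩ := by
  constructor
  · rw [Equiv.symm_apply_eq, Equiv.Perm.mul_apply, Equiv.apply_symm_apply, sw_r h]
  · rw [Equiv.symm_apply_eq, Equiv.Perm.mul_apply, Equiv.apply_symm_apply, sw_l h]

theorem cr_card_down (u : Equiv.Perm (Fin n)) (r : ℕ) (h : r + 1 < n) (hr : ¬ Up u r h) :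
    (cr u).card = (cr (sw n r * u)).card + 1 := by
  obtain ⟨h1, h2⟩ := sw_mul_sym u r h
  have h3 : Up (sw n r * u) r h := by
    unfold Up at hr ⊢
    rw [h1, h2]
    refine lt_of_le_of_ne (not_lt.1 hr) fun e => ?_
    have := u.symm.injective e
    rw [Fin.mk.injEq] at this
    omega
  have h4 := cr_card_up (sw n r * u) r h h3
  rwa [← mul_assoc, sw_sq, one_mul] at h4

theorem cr_card_le (u : Equiv.Perm (Fin n)) (r : ℕ) :
    (cr (sw n r * u)).card ≤ (cr u).card + 1 := by
  by_cases h : r + 1 < n
  · by_cases hr : Up u r h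
    · exact le_of_eq (cr_card_up u r h hr)
    · have := cr_card_down u r h hr
      omega
  · have : sw n r = 1 := by
      unfold sw
      rw [dif_neg h]
    rw [this, one_mul]
    omega

theorem cr_wp_le (L : List ℕ) : (cr (wp n L)).card ≤ L.length := by
  induction L with
  | nil => rw [wp_nil, cr_one, Finset.card_empty]; exact Nat.zero_le _
  | cons r L ih =>
    rw [wp_cons, List.length_cons]
    exact (cr_card_le _ r).trans (by omega)

/-- reduced words -/
def Red (n : ℕ) (L : List ℕ) : Prop := (∀ r ∈ L, r + 1 < n) ∧ (cr (wp n L)).card = L.length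

theorem Red.cons {r : ℕ} {L : List ℕ} (hL : Red n (r :: L)) :
    Red n L ∧ ∃ h : r + 1 < n, Up (wp n L) r h := by
  have h : r + 1 < n := hL.1 r List.mem_cons_self
  have h1 := hL.2
  rw [wp_cons, List.length_cons] at h1
  have h2 := cr_wp_le (n := n) L
  by_cases hr : Up (wp n L) r h
  · have h3 := cr_card_up (wp n L) r h hr
    exact ⟨⟨fun s hs => hL.1 s (List.mem_cons_of_mem _ hs), by omega⟩, h, hr⟩
  · have h3 := cr_card_down (wp n L) r h hr
    omega

/-- the longest element -/
theorem cr_le_rev (u : Equiv.Perm (Fin n)) :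
    (cr u).card ≤ (cr (Fin.revPerm : Equiv.Perm (Fin n))).card := by
  refine Finset.card_le_card fun p hp => ?_
  rw [mem_cr] at hp ⊢
  refine ⟨hp.1, ?_⟩
  rw [Fin.revPerm_apply, Fin.revPerm_apply, Fin.rev_lt_rev]
  exact hp.1

theorem ex_Up (u : Equiv.Perm (Fin n)) (hu : u ≠ Fin.revPerm) : ∃ r h, Up u r h := by
  by_contra hcon
  push Not at hcon
  apply hu
  have hanti : ∀ d (i j : Fin n), (j : ℕ) = i + d + 1 → u.symm j < u.symm i := by
    intro d
    induction d with
    | zero =>
      intro i j e
      have h1 : (i : ℕ) + 1 < n := by omega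
      have h2 := hcon i h1
      unfold Up at h2
      have e1 : (⟨i, by omega⟩ : Fin n) = i := rfl
      have e2 : (⟨(i : ℕ) + 1, h1⟩ : Fin n) = j := Fin.ext (show (i : ℕ) + 1 = j by omega)
      rw [e1, e2] at h2
      refine lt_of_le_of_ne (not_lt.1 h2) fun e' => ?_
      have := congrArg Fin.val (u.symm.injective e')
      omega
    | succ d ih =>
      intro i j e
      have h1 : (i : ℕ) + 1 < n := by omega
      have h3 := ih ⟨i + 1, h1⟩ j (by simp only []; omega)
      have h2 := hcon i h1
      unfold Up at h2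
      exact h3.trans_le (not_lt.1 h2)
  have hmono : StrictMono (fun i : Fin n => Fin.rev (u.symm i)) := by
    intro i j hij
    rw [Fin.rev_lt_rev]
    exact hanti ((j : ℕ) - i - 1) i j (by have : (i : ℕ) < j := hij; omega)
  have hid : (fun i : Fin n => Fin.rev (u.symm i)) = id := by
    refine (StrictMono.range_inj hmono strictMono_id).1 ?_
    rw [Set.range_id]
    exact Set.range_eq_univ.2 (Fin.rev_surjective.comp u.symm.surjective)
  refine Equiv.ext fun k => ?_
  have h1 := congrFun hid (u k)
  simp only [Equiv.symm_apply_apply, id_eq] at h1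
  rw [Fin.revPerm_apply, h1]

theorem ex_word : ∀ (d : ℕ) (u : Equiv.Perm (Fin n)),
    (cr u).card + d = (cr (Fin.revPerm : Equiv.Perm (Fin n))).card →
    ∃ L : List ℕ, (∀ r ∈ L, r + 1 < n) ∧ wp n L * u = Fin.revPerm ∧ L.length = d := by
  intro d
  induction d with
  | zero =>
    intro u hu
    refine ⟨[], by simp, ?_, rfl⟩
    rw [wp_nil, one_mul]
    by_contra hne
    obtain ⟨r, h, hr⟩ := ex_Up u hne
    have h1 := cr_card_up u r h hr
    have h2 := cr_le_rev (sw n r * u)
    omega
  | succ d ih =>
    intro u hu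
    have hne : u ≠ Fin.revPerm := by
      rintro rfl
      omega
    obtain ⟨r, h, hr⟩ := ex_Up u hne
    have h1 := cr_card_up u r h hr
    obtain ⟨L, hL, hw, hl⟩ := ih (sw n r * u) (by omega)
    refine ⟨L ++ [r], ?_, ?_, ?_⟩
    · intro s hs
      rw [List.mem_append, List.mem_singleton] at hs
      rcases hs with hs | rfl
      · exact hL s hs
      · exact h
    · rw [wp_append, wp_cons, wp_nil, mul_one, mul_assoc]
      exact hw
    · rw [List.length_append, hl]
      rfl

/-- the words of the elements `CS 0 k p` -/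
def wq (p : ℕ → ℕ) : ℕ → List ℕ
  | 0 => []
  | k + 1 => List.range' (p k) (k - p k) ++ wq p k

theorem CS_wq {D : Dat} (p : ℕ → ℕ) (k : ℕ) :
    (CS 0 k p : R D n) = ((wq p k).map fun r => (ps r : R D n)).prod := by
  induction k with
  | zero => rfl
  | succ k ih =>
    show Cc (p k) (0 + k) * CS 0 k p = _
    rw [ih]
    show _ = ((List.range' (p k) (k - p k) ++ wq p k).map fun r => (ps r : R D n)).prod
    rw [List.map_append, List.prod_append]
    congr 1
    unfold Cc
    rw [zero_add]

theorem cyc_val : ∀ (d a : ℕ), a + d < n → ∀ j : Fin n,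
    ((wp n (List.range' a d) j : Fin n) : ℕ) =
      if (j : ℕ) = a + d then a else if a ≤ j ∧ (j : ℕ) < a + d then j + 1 else j := by
  intro d
  induction d with
  | zero =>
    intro a ha j
    show ((1 : Equiv.Perm (Fin n)) j : ℕ) = _
    rw [Equiv.Perm.one_apply]
    split_ifs <;> omega
  | succ d ih =>
    intro a ha j
    rw [List.range'_succ, wp_cons, Equiv.Perm.mul_apply, sw_val (by omega),
      ih (a + 1) (by omega) j]
    split_ifs <;> omega

theorem wq_fix (p : ℕ → ℕ) (k : ℕ) (hk : k ≤ n) (hp : ∀ j < k, p j ≤ j) (j : Fin n)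
    (hj : k ≤ (j : ℕ)) : wp n (wq p k) j = j := by
  induction k with
  | zero => rfl
  | succ k ih =>
    show wp n (List.range' (p k) (k - p k) ++ wq p k) j = j
    rw [wp_append, Equiv.Perm.mul_apply, ih (by omega) (fun i hi => hp i (by omega)) (by omega)]
    refine Fin.ext ?_
    have := hp k (by omega)
    rw [cyc_val _ _ (by omega)]
    split_ifs <;> omega

theorem fix_lt (u : Equiv.Perm (Fin n)) (k : ℕ) (hu : ∀ j : Fin n, k ≤ (j : ℕ) → u j = j)
    (j : Fin n) (hj : (j : ℕ) < k) : ((u.symm j : Fin n) : ℕ) < k := by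
  by_contra hcon
  have h1 := hu (u.symm j) (by omega)
  rw [Equiv.apply_symm_apply] at h1
  rw [← h1] at hcon
  omega

theorem cyc_card (u : Equiv.Perm (Fin n)) (k : ℕ) (hk : k < n)
    (hu : ∀ j : Fin n, k ≤ (j : ℕ) → u j = j) : ∀ d, d ≤ k →
    (cr (wp n (List.range' (k - d) d) * u)).card = (cr u).card + d := by
  intro d
  induction d with
  | zero =>
    intro _
    show (cr (1 * u)).card = _
    rw [one_mul]
    rfl
  | succ d ih =>
    intro hd
    have e1 : k - (d + 1) + 1 = k - d := by omega
    have h0 : k - (d + 1) + 1 < n := by omega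
    have h3 : Up (wp n (List.range' (k - d) d) * u) (k - (d + 1)) h0 := by
      unfold Up
      have h1 : (wp n (List.range' (k - d) d) * u).symm ⟨k - (d + 1) + 1, h0⟩ = ⟨k, hk⟩ := by
        rw [Equiv.symm_apply_eq, Equiv.Perm.mul_apply, hu ⟨k, hk⟩ le_rfl]
        refine Fin.ext ?_
        rw [cyc_val _ _ (by omega)]
        rw [if_pos (by simp only []; omega)]
        exact e1
      rw [h1]
      have h2 : ((wp n (List.range' (k - d) d) * u).symm ⟨k - (d + 1), by omega⟩ : Fin n) =
          u.symm ⟨k - (d + 1), by omega⟩ := by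
        rw [Equiv.symm_apply_eq, Equiv.Perm.mul_apply, Equiv.apply_symm_apply]
        refine Fin.ext ?_
        rw [cyc_val _ _ (by omega)]
        rw [if_neg (by simp only []; omega), if_neg (by simp only []; omega)]
      rw [h2]
      exact fix_lt u k hu _ (by simp only []; omega)
    have h4 := cr_card_up _ _ h0 h3
    rw [List.range'_succ, wp_cons, mul_assoc, e1, h4, ih (by omega)]
    rfl

theorem wq_red (p : ℕ → ℕ) (k : ℕ) (hk : k ≤ n) (hp : ∀ j < k, p j ≤ j) : Red n (wq p k) := by
  induction k with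
  | zero =>
    refine ⟨?_, ?_⟩
    · intro r hr
      exact absurd hr (List.not_mem_nil)
    · show (cr (1 : Equiv.Perm (Fin n))).card = 0
      rw [cr_one, Finset.card_empty]
  | succ k ih =>
    have ih' := ih (by omega) (fun i hi => hp i (by omega))
    have hpk := hp k (by omega)
    refine ⟨?_, ?_⟩
    · intro r hr
      rcases List.mem_append.1 hr with hr | hr
      · rw [List.mem_range'_1] at hr
        omega
      · exact ih'.1 r hr
    · show (cr (wp n (List.range' (p k) (k - p k) ++ wq p k))).card =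
        (List.range' (p k) (k - p k) ++ wq p k).length
      rw [wp_append, List.length_append, List.length_range', ← ih'.2]
      have h1 := cyc_card (wp n (wq p k)) k (by omega)
        (wq_fix p k (by omega) (fun i hi => hp i (by omega))) (k - p k) (by omega)
      rw [show k - (k - p k) = p k by omega] at h1
      rw [h1, add_comm]

theorem wq_inj (p p' : ℕ → ℕ) (k : ℕ) (hk : k ≤ n) (hp : ∀ j < k, p j ≤ j)
    (hp' : ∀ j < k, p' j ≤ j) (e : wp n (wq p k) = wp n (wq p' k)) : ∀ j < k, p j = p' j := by
  induction k with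
  | zero => intro j hj; omega
  | succ k ih =>
    have hpk := hp k (by omega)
    have hpk' := hp' k (by omega)
    change wp n (List.range' (p k) (k - p k) ++ wq p k) =
      wp n (List.range' (p' k) (k - p' k) ++ wq p' k) at e
    rw [wp_append, wp_append] at e
    have h1 := congrArg (fun u : Equiv.Perm (Fin n) => ((u ⟨k, by omega⟩ : Fin n) : ℕ)) e
    simp only [Equiv.Perm.mul_apply] at h1
    rw [wq_fix p k (by omega) (fun i hi => hp i (by omega)) ⟨k, by omega⟩ le_rfl,
      wq_fix p' k (by omega) (fun i hi => hp' i (by omega)) ⟨k, by omega⟩ le_rfl,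
      cyc_val _ _ (by omega), cyc_val _ _ (by omega), if_pos (by simp only []; omega),
      if_pos (by simp only []; omega)] at h1
    rw [h1] at e
    have h2 := mul_left_cancel e
    have h3 := ih (by omega) (fun i hi => hp i (by omega)) (fun i hi => hp' i (by omega)) h2
    intro j hj
    by_cases hjk : j = k
    · rw [hjk, h1]
    · exact h3 j (by omega)

end CA1492.PA
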