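import Mathlib
import Pool.Agent.Lib.MP_ca1492_al.Alg.PBW

/-!
# MP_ca1492_al, PA/Anti: the anti-involution of `R D n` and the left basis

`anti` fixes the generators and reverses products; `LQ p = anti (CQ p)`.
-/

set_option autoImplicit false

namespace CA1492.PA

open MvPolynomial MulOpposite

variable {D : Dat} {n : ℕ}

theorem Anti_sw_sw (w : Wd D n) (r : ℕ) : (w ∘ sw n r) ∘ sw n r = w := by
  funext x
  simp only [Function.comp_apply]
  congr 1
  unfold sw
  split_ifs with h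
  · rw [Equiv.swap_apply_self]
  · rfl

theorem Anti_swk (r : ℕ) (k : Fin n) : sw n r (sw n r k) = k := by
  unfold sw
  split_ifs with h
  · rw [Equiv.swap_apply_self]
  · rfl

theorem Anti_ew_ps (r : ℕ) (w : Wd D n) : (ew w * ps r : R D n) = ps r * ew (w ∘ sw n r) := by
  rw [(isRep_R D n).S_E r (w ∘ sw n r), Anti_sw_sw]

theorem Anti_c (r : ℕ) (h : r + 1 < n) (k : Fin n) :
    (if sw n r k = (⟨r, by omega⟩ : Fin n) then (1 : ℂ) else if sw n r k = ⟨r + 1, h⟩ then -1 else 0) =
      -(if k = (⟨r, by omega⟩ : Fin n) then (1 : ℂ) else if k = ⟨r + 1, h⟩ then -1 else 0) := by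
  have hne : (⟨r + 1, h⟩ : Fin n) ≠ ⟨r, by omega⟩ := by
    intro h'
    have := congrArg Fin.val h'
    simp only at this
    omega
  unfold sw
  rw [dif_pos h]
  by_cases h1 : k = ⟨r, by omega⟩
  · subst h1
    rw [Equiv.swap_apply_left, if_neg hne, if_pos rfl, if_pos rfl]
  · by_cases h2 : k = ⟨r + 1, h⟩
    · subst h2
      rw [Equiv.swap_apply_right, if_pos rfl, if_neg hne, if_pos rfl, neg_neg]
    · rw [Equiv.swap_apply_of_ne_of_ne h1 h2, if_neg h1, if_neg h2, neg_zero]

theorem Anti_SY (r : ℕ) (h : r + 1 < n) (k : Fin n) (w : Wd D n) :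
    (ew w * (yk k * ps r) : R D n) = ew w * (ps r * yk (sw n r k)) +
      (if w ⟨r, by omega⟩ = w ⟨r + 1, h⟩ then
        (if k = ⟨r, by omega⟩ then (1 : ℂ) else if k = ⟨r + 1, h⟩ then -1 else 0) else 0) • ew w := by
  have h1 := (isRep_R D n).S_Y r h (sw n r k) (w ∘ sw n r)
  rw [Anti_swk] at h1
  have h2 : (ps r * yk (sw n r k) * ew (w ∘ sw n r) : R D n) =
      ew w * (ps r * yk (sw n r k)) := by
    rw [mul_assoc, (isRep_R D n).Y_E, ← mul_assoc, ← Anti_ew_ps, mul_assoc]
  have h3 : (yk k * ps r * ew (w ∘ sw n r) : R D n) = ew w * (yk k * ps r) := by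
    rw [mul_assoc, ← Anti_ew_ps, ← mul_assoc, (isRep_R D n).Y_E, mul_assoc]
  rw [h2, h3, Anti_c r h k] at h1
  rw [h1, add_assoc]
  have hl : sw n r ⟨r, by omega⟩ = ⟨r + 1, h⟩ := by
    unfold sw
    rw [dif_pos h, Equiv.swap_apply_left]
  have hr : sw n r ⟨r + 1, h⟩ = ⟨r, by omega⟩ := by
    unfold sw
    rw [dif_pos h, Equiv.swap_apply_right]
  simp only [Function.comp_apply, hl, hr]
  by_cases hw : w ⟨r, by omega⟩ = w ⟨r + 1, h⟩
  · rw [if_pos hw.symm, if_pos hw]
    have hww : w ∘ sw n r = w := by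
      funext x
      simp only [Function.comp_apply]
      by_cases hx1 : x = ⟨r, by omega⟩
      · rw [hx1, hl]
        exact hw.symm
      · by_cases hx2 : x = ⟨r + 1, h⟩
        · rw [hx2, hr]
          exact hw
        · unfold sw
          rw [dif_pos h, Equiv.swap_apply_of_ne_of_ne hx1 hx2]
    rw [hww, neg_smul, neg_add_cancel, add_zero]
  · rw [if_neg (Ne.symm hw), if_neg hw, zero_smul, zero_smul, add_zero, add_zero]

theorem Anti_SS (r : ℕ) (w : Wd D n) :
    (ew w * (ps r * ps r) : R D n) = ps r * ps r * ew w := by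
  rw [← mul_assoc, Anti_ew_ps, mul_assoc, Anti_ew_ps, Anti_sw_sw, mul_assoc]

theorem Anti_word (r : ℕ) (h : r + 2 < n) (w : Wd D n) :
    ((w ∘ sw n (r + 1)) ∘ sw n r) ∘ sw n (r + 1) = w ∘ Equiv.swap (⟨r, by omega⟩ : Fin n) ⟨r + 2, h⟩ ∧
    ((w ∘ sw n r) ∘ sw n (r + 1)) ∘ sw n r = w ∘ Equiv.swap (⟨r, by omega⟩ : Fin n) ⟨r + 2, h⟩ := by
  have hs1 : sw n r = Equiv.swap (⟨r, by omega⟩ : Fin n) ⟨r + 1, by omega⟩ := by
    unfold sw
    rw [dif_pos (by omega)]
  have hs2 : sw n (r + 1) = Equiv.swap (⟨r + 1, by omega⟩ : Fin n) ⟨r + 2, h⟩ := by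
    unfold sw
    rw [dif_pos (by omega)]
  have h01 : (⟨r, by omega⟩ : Fin n) ≠ ⟨r + 1, by omega⟩ := by
    intro h'
    have := congrArg Fin.val h'
    simp only at this
    omega
  have h02 : (⟨r, by omega⟩ : Fin n) ≠ ⟨r + 2, h⟩ := by
    intro h'
    have := congrArg Fin.val h'
    simp only at this
    omega
  have h12 : (⟨r + 1, by omega⟩ : Fin n) ≠ ⟨r + 2, h⟩ := by
    intro h'
    have := congrArg Fin.val h'
    simp only at this
    omega
  rw [hs1, hs2]
  constructor
  · funext x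
    simp only [Function.comp_apply]
    congr 1
    by_cases hx0 : x = ⟨r, by omega⟩
    · subst hx0
      rw [Equiv.swap_apply_of_ne_of_ne h01 h02, Equiv.swap_apply_left, Equiv.swap_apply_left,
        Equiv.swap_apply_left]
    · by_cases hx1 : x = ⟨r + 1, by omega⟩
      · subst hx1
        rw [Equiv.swap_apply_left, Equiv.swap_apply_of_ne_of_ne h02.symm h12.symm,
          Equiv.swap_apply_right, Equiv.swap_apply_of_ne_of_ne h01.symm h12]
      · by_cases hx2 : x = ⟨r + 2, h⟩
        · subst hx2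
          rw [Equiv.swap_apply_right, Equiv.swap_apply_right, Equiv.swap_apply_of_ne_of_ne h01 h02,
            Equiv.swap_apply_right]
        · rw [Equiv.swap_apply_of_ne_of_ne hx1 hx2, Equiv.swap_apply_of_ne_of_ne hx0 hx1,
            Equiv.swap_apply_of_ne_of_ne hx1 hx2, Equiv.swap_apply_of_ne_of_ne hx0 hx2]
  · funext x
    simp only [Function.comp_apply]
    congr 1
    by_cases hx0 : x = ⟨r, by omega⟩
    · subst hx0
      rw [Equiv.swap_apply_left, Equiv.swap_apply_left,
        Equiv.swap_apply_of_ne_of_ne h02.symm h12.symm, Equiv.swap_apply_left]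
    · by_cases hx1 : x = ⟨r + 1, by omega⟩
      · subst hx1
        rw [Equiv.swap_apply_right, Equiv.swap_apply_of_ne_of_ne h01 h02, Equiv.swap_apply_left,
          Equiv.swap_apply_of_ne_of_ne h01.symm h12]
      · by_cases hx2 : x = ⟨r + 2, h⟩
        · subst hx2
          rw [Equiv.swap_apply_of_ne_of_ne h02.symm h12.symm, Equiv.swap_apply_right,
            Equiv.swap_apply_right, Equiv.swap_apply_right]
        · rw [Equiv.swap_apply_of_ne_of_ne hx0 hx1, Equiv.swap_apply_of_ne_of_ne hx1 hx2,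
            Equiv.swap_apply_of_ne_of_ne hx0 hx1, Equiv.swap_apply_of_ne_of_ne hx0 hx2]

theorem Anti_3 (r s t : ℕ) (w : Wd D n) :
    (ew w * (ps r * ps s * ps t) : R D n) =
      ps r * ps s * ps t * ew (((w ∘ sw n r) ∘ sw n s) ∘ sw n t) := by
  rw [← mul_assoc, ← mul_assoc, Anti_ew_ps, mul_assoc (ps r), Anti_ew_ps, ← mul_assoc,
    mul_assoc (ps r * ps s), Anti_ew_ps, ← mul_assoc]

theorem Anti_braid (r : ℕ) (h : r + 2 < n) (w : Wd D n) :
    (ew w * (ps (r + 1) * ps r * ps (r + 1) - ps r * ps (r + 1) * ps r) : R D n) =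
      (if w ⟨r, by omega⟩ = w ⟨r + 2, h⟩ then
        (if D.arr (w ⟨r, by omega⟩) (w ⟨r + 1, by omega⟩) = true then (-1 : ℂ)
         else if D.arr (w ⟨r + 1, by omega⟩) (w ⟨r, by omega⟩) = true then 1 else 0) else 0) • ew w := by
  have h1 := (isRep_R D n).S_braid r h (w ∘ Equiv.swap (⟨r, by omega⟩ : Fin n) ⟨r + 2, h⟩)
  have h01 : (⟨r, by omega⟩ : Fin n) ≠ ⟨r + 1, by omega⟩ := by
    intro h'
    have := congrArg Fin.val h'
    simp only at this
    omega
  have h12 : (⟨r + 1, by omega⟩ : Fin n) ≠ ⟨r + 2, h⟩ := by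
    intro h'
    have := congrArg Fin.val h'
    simp only at this
    omega
  rw [mul_sub, Anti_3, Anti_3, (Anti_word r h w).1, (Anti_word r h w).2, ← sub_mul, h1]
  simp only [Function.comp_apply, Equiv.swap_apply_left, Equiv.swap_apply_right,
    Equiv.swap_apply_of_ne_of_ne h01.symm h12]
  by_cases hw : w ⟨r, by omega⟩ = w ⟨r + 2, h⟩
  · have hww : w ∘ Equiv.swap (⟨r, by omega⟩ : Fin n) ⟨r + 2, h⟩ = w := by
      funext x
      simp only [Function.comp_apply]
      by_cases hx1 : x = ⟨r, by omega⟩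
      · rw [hx1, Equiv.swap_apply_left]
        exact hw.symm
      · by_cases hx2 : x = ⟨r + 2, h⟩
        · rw [hx2, Equiv.swap_apply_right]
          exact hw
        · rw [Equiv.swap_apply_of_ne_of_ne hx1 hx2]
    rw [if_pos hw.symm, if_pos hw, hww, hw]
  · rw [if_neg (Ne.symm hw), if_neg hw, zero_smul, zero_smul]

/-- The relations are stable under reversal. PROOF: `isRep_R`, `MulOpposite.op_mul`; for `S_Y`: in
`R D n` we need `ew w * yk k * ps r = ps r * yk (sw k) * ...`, i.e. move `ew w` through `ps r`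
(`S_E` with w ∘ sw, `w ∘ sw ∘ sw = w`) and use `S_Y` for `sw n r k` and the word w ∘ sw:
`ps r * yk (s k) * ew w' = yk k * ps r * ew w' + [w'_r = w'_(r+1)] c(s k) ew w'` with
`c(s k) = - c(k)`. `S_S` and `S_braid`: the idempotent commutes with `ps r * ps r`; the braid term
moves the word w to w with the positions r and r + 2 exchanged, which is the same word if
w_r = w_(r+2) and otherwise both sides are 0. -/
theorem isRep_op (D : Dat) (n : ℕ) :
    IsRep D n (A := (R D n)ᵐᵒᵖ) (fun w => op (ew w)) (fun k => op (yk k)) (fun r => op (ps r)) where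
  S_out r h := by
    rw [(isRep_R D n).S_out r h, op_zero]
  E_mul w w' := by
    rw [← op_mul, (isRep_R D n).E_mul w' w]
    by_cases h : w = w'
    · rw [if_pos h, if_pos h.symm, h]
    · rw [if_neg h, if_neg (Ne.symm h), op_zero]
  E_sum := by
    rw [← Finset.op_sum, (isRep_R D n).E_sum, op_one]
  Y_E k w := by
    rw [← op_mul, ← op_mul, (isRep_R D n).Y_E]
  Y_Y k l := by
    rw [← op_mul, ← op_mul, (isRep_R D n).Y_Y]
  S_E r w := by
    rw [← op_mul, ← op_mul, Anti_ew_ps]
  S_far r s h := by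
    rw [← op_mul, ← op_mul, (isRep_R D n).S_far r s h]
  S_Y r h k w := by
    rw [← op_mul, ← op_mul, ← op_mul, ← op_mul, ← op_smul, ← op_add, Anti_SY r h k w]
  S_S r h w := by
    rw [← op_mul, ← op_mul, Anti_SS, (isRep_R D n).S_S r h w]
    split_ifs with h1 h2 h3
    · rw [op_zero]
    · rw [op_mul, op_sub, ← op_sub, ← op_mul, ← op_mul, sub_mul, mul_sub, (isRep_R D n).Y_E,
        (isRep_R D n).Y_E]
    · rw [op_mul, op_sub, ← op_sub, ← op_mul, ← op_mul, sub_mul, mul_sub, (isRep_R D n).Y_E,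
        (isRep_R D n).Y_E]
    · rfl
  S_braid r h w := by
    rw [← op_mul, ← op_mul, ← op_mul, ← op_mul, ← op_sub, ← op_mul, ← op_smul, ← mul_assoc,
      ← mul_assoc, Anti_braid r h w]

/-- the anti-involution -/
noncomputable def anti (D : Dat) (n : ℕ) : R D n →ₐ[ℂ] (R D n)ᵐᵒᵖ := liftR (isRep_op D n)

/-- the anti-involution as a map `R D n → R D n` -/
noncomputable def at' (x : R D n) : R D n := (anti D n x).unop

theorem at_mul (x y : R D n) : at' (x * y) = at' y * at' x := by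
  unfold at'
  rw [map_mul, unop_mul]

theorem at_add (x y : R D n) : at' (x + y) = at' x + at' y := by
  unfold at'
  rw [map_add, unop_add]

theorem Anti_sum {ι : Type*} (s : Finset ι) (f : ι → R D n) :
    at' (∑ i ∈ s, f i) = ∑ i ∈ s, at' (f i) := by
  unfold at'
  rw [map_sum, Finset.unop_sum]

theorem Anti_alg (c : ℂ) : at' (algebraMap ℂ (R D n) c) = algebraMap ℂ (R D n) c := by
  unfold at'
  rw [AlgHom.commutes]
  rfl

theorem at_gen : (∀ w : Wd D n, at' (ew w) = ew w) ∧ (∀ k : Fin n, at' (yk k : R D n) = yk k) ∧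
    (∀ r : ℕ, at' (ps r : R D n) = ps r) ∧ at' (1 : R D n) = 1 ∧
    (∀ f : MvPolynomial (Fin n) ℂ, at' (pol f : R D n) = pol f) := by
  have hy : ∀ k : Fin n, at' (yk k : R D n) = yk k := by
    intro k
    unfold at' anti
    rw [liftR_yk]
    rfl
  refine ⟨fun w => ?_, hy, fun r => ?_, ?_, fun f => ?_⟩
  · unfold at' anti
    rw [liftR_ew]
    rfl
  · unfold at' anti
    rw [liftR_ps]
    rfl
  · unfold at'
    rw [map_one]
    rfl
  · induction f using MvPolynomial.induction_on with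
    | C a => rw [← MvPolynomial.algebraMap_eq, AlgHom.commutes, Anti_alg]
    | add p q hp hq => rw [map_add, at_add, hp, hq]
    | mul_X p k hp =>
      rw [map_mul, at_mul, hp, pol_X, hy, ← pol_X, ← map_mul, ← map_mul, mul_comm]

theorem at_at (x : R D n) : at' (at' x) = x := by
  obtain ⟨he, hy, hs, _, _⟩ := at_gen (D := D) (n := n)
  induction x using R_induction with
  | hc c => rw [Anti_alg, Anti_alg]
  | he w => rw [he, he]
  | hy k => rw [hy, hy]
  | hs r => rw [hs, hs]
  | ha x y hx hy' => rw [at_add, at_add, hx, hy']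
  | hm x y hx hy' => rw [at_mul, at_mul, hx, hy']

/-- the left basis elements -/
noncomputable def LQ (p : Sq n) : R D n := at' (CQ p)

/-- PROOF: `pbw_span (at' x)`, apply `at'`, `pol_ew`. -/
theorem lpbw_span (x : R D n) : ∃ f : Sq n → Wd D n → MvPolynomial (Fin n) ℂ,
    x = ∑ p, ∑ w, pol (f p w) * (ew w * LQ p) := by
  obtain ⟨he, _, _, _, hp⟩ := at_gen (D := D) (n := n)
  obtain ⟨f, hf⟩ := pbw_span (at' x)
  refine ⟨f, ?_⟩
  have h := congrArg at' hf
  rw [at_at, Anti_sum] at h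
  rw [h]
  refine Finset.sum_congr rfl fun p _ => ?_
  rw [Anti_sum]
  refine Finset.sum_congr rfl fun w _ => ?_
  rw [at_mul, at_mul, he, hp, ← mul_assoc, ← mul_assoc, pol_ew]
  rfl

theorem lpbw_unique (f g : Sq n → Wd D n → MvPolynomial (Fin n) ℂ)
    (h : (∑ p, ∑ w, pol (f p w) * (ew w * LQ p) : R D n) = ∑ p, ∑ w, pol (g p w) * (ew w * LQ p)) :
    f = g := by
  obtain ⟨he, _, _, _, hp⟩ := at_gen (D := D) (n := n)
  have key : ∀ f : Sq n → Wd D n → MvPolynomial (Fin n) ℂ,
      at' (∑ p, ∑ w, pol (f p w) * (ew w * LQ p) : R D n) =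
        ∑ p, ∑ w, CQ p * pol (f p w) * ew w := by
    intro f
    rw [Anti_sum]
    refine Finset.sum_congr rfl fun p _ => ?_
    rw [Anti_sum]
    refine Finset.sum_congr rfl fun w _ => ?_
    unfold LQ
    rw [at_mul, at_mul, he, hp, at_at, mul_assoc, mul_assoc, pol_ew]
  have h' := congrArg at' h
  rw [key, key] at h'
  exact pbw_unique f g h'

/-- the sequence of the unit element: `CQ one' = 1` -/
def sqOne (n : ℕ) : Sq n := fun j => Fin.last j.val

theorem Anti_CS (k : ℕ) (hk : k ≤ n) : (CS 0 k (sqFun (sqOne n)) : R D n) = 1 := by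
  induction k with
  | zero => rfl
  | succ k ih =>
    change Cc (sqFun (sqOne n) k) (0 + k) * CS 0 k (sqFun (sqOne n)) = 1
    have h1 : sqFun (sqOne n) k = k := by
      unfold sqFun
      rw [dif_pos (by omega)]
      rfl
    rw [ih (by omega), h1, mul_one, Nat.zero_add]
    unfold Cc
    rw [Nat.sub_self]
    rfl

/-- PROOF: `Span_CS_one` (CS 0 n (fun j => 0 + j) = 1) and `CS_congr`. -/
theorem CQ_one : (CQ (sqOne n) : R D n) = 1 := Anti_CS n le_rfl

theorem LQ_one : (LQ (sqOne n) : R D n) = 1 := by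
  unfold LQ
  rw [CQ_one]
  exact (at_gen (D := D) (n := n)).2.2.2.1

end CA1492.PA
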