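import Mathlib
import Pool.Agent.Lib.MP_ca1492_al.PA.Anti
import Pool.Agent.Lib.MP_ca1492_al.PA.Coll
import Pool.Agent.Lib.MP_ca1492_al.PA.Defs

/-!
# MP_ca1492_al, PA/LSpan: the left spanning set of a completed KLR algebra, noetherian property
-/

set_option autoImplicit false

namespace CA1492.PA

open MvPowerSeries

variable {D : Dat} {n : ℕ} {A : Type*} [Ring A] [Algebra ℂ A]
  {φ : R D n →ₐ[ℂ] A} {θ : O n →ₐ[ℂ] A} {Ws : Set (Wd D n)}

/-- θ on polynomials. PROOF: both sides are algebra homomorphisms on `MvPolynomial (Fin n) ℂ`,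
`MvPolynomial.algHom_ext`, `MvPolynomial.coeToMvPowerSeries.algHom`. -/
theorem θ_pol (h : CKLR D n φ θ Ws) (f : MvPolynomial (Fin n) ℂ) : θ (f : O n) = φ (pol f) := by
  have key : θ.comp (MvPolynomial.coeToMvPowerSeries.algHom (σ := Fin n) (R := ℂ) ℂ) =
      φ.comp pol := by
    apply MvPolynomial.algHom_ext
    intro k
    rw [AlgHom.comp_apply, AlgHom.comp_apply, MvPolynomial.coeToMvPowerSeries.algHom_apply,
      MvPolynomial.coe_X, pol_X, ← h.θ_X k]
    simp
  have h1 := DFunLike.congr_fun key f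
  rw [AlgHom.comp_apply, AlgHom.comp_apply, MvPolynomial.coeToMvPowerSeries.algHom_apply] at h1
  rw [← h1]
  simp

/-- existence of the divided difference -/
theorem dd_exists (r : ℕ) (h : r + 1 < n) (f : O n) :
    ∃ f' : O n, (X ⟨r, by omega⟩ - X ⟨r + 1, h⟩) * f' = f - rs n r f := by
  obtain ⟨g, hg⟩ := dvd_sub_swap (⟨r, by omega⟩ : Fin n) ⟨r + 1, h⟩ f
  refine ⟨g, ?_⟩
  rw [← hg]
  have h1 : sw n r = Equiv.swap ⟨r, by omega⟩ ⟨r + 1, h⟩ := dif_pos h
  unfold rs
  simp only [h1]

namespace LSpan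

/-- the left span -/
def L (φ : R D n →ₐ[ℂ] A) (θ : O n →ₐ[ℂ] A) : Set A :=
  {a | ∃ f : Sq n → Wd D n → O n, a = ∑ p, ∑ w, θ (f p w) * φ (ew w * LQ p)}

theorem L_zero : (0 : A) ∈ L φ θ :=
  ⟨fun _ _ => 0, by simp⟩

theorem L_add {a b : A} (ha : a ∈ L φ θ) (hb : b ∈ L φ θ) : a + b ∈ L φ θ := by
  obtain ⟨f, rfl⟩ := ha
  obtain ⟨g, rfl⟩ := hb
  refine ⟨fun p w => f p w + g p w, ?_⟩
  rw [← Finset.sum_add_distrib]
  refine Finset.sum_congr rfl fun p _ => ?_
  rw [← Finset.sum_add_distrib]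
  refine Finset.sum_congr rfl fun w _ => ?_
  rw [map_add, add_mul]

theorem L_sum {ι : Type*} (s : Finset ι) (g : ι → A) (hg : ∀ i ∈ s, g i ∈ L φ θ) :
    ∑ i ∈ s, g i ∈ L φ θ := by
  classical
  induction s using Finset.induction_on with
  | empty => rw [Finset.sum_empty]; exact L_zero
  | insert i s his ih =>
    rw [Finset.sum_insert his]
    exact L_add (hg i (Finset.mem_insert_self i s))
      (ih fun j hj => hg j (Finset.mem_insert_of_mem hj))

theorem L_θ (g : O n) {a : A} (ha : a ∈ L φ θ) : θ g * a ∈ L φ θ := by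
  obtain ⟨f, rfl⟩ := ha
  refine ⟨fun p w => g * f p w, ?_⟩
  rw [Finset.mul_sum]
  refine Finset.sum_congr rfl fun p _ => ?_
  rw [Finset.mul_sum]
  refine Finset.sum_congr rfl fun w _ => ?_
  beta_reduce
  rw [map_mul θ g (f p w), mul_assoc]

theorem L_θφ (h : CKLR D n φ θ Ws) (g : O n) (x : R D n) : θ g * φ x ∈ L φ θ := by
  apply L_θ
  obtain ⟨f, hf⟩ := lpbw_span x
  refine ⟨fun p w => (f p w : O n), ?_⟩
  conv_lhs => rw [hf]
  rw [map_sum]
  refine Finset.sum_congr rfl fun p _ => ?_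
  rw [map_sum]
  refine Finset.sum_congr rfl fun w _ => ?_
  rw [map_mul, θ_pol h]

theorem L_mul_of {b : A}
    (hb : ∀ (f : O n) (y : R D n), b * (θ f * φ y) ∈ L φ θ) {a : A} (ha : a ∈ L φ θ) :
    b * a ∈ L φ θ := by
  obtain ⟨f, rfl⟩ := ha
  rw [Finset.mul_sum]
  refine L_sum _ _ fun p _ => ?_
  rw [Finset.mul_sum]
  exact L_sum _ _ fun w _ => hb _ _

theorem L_ps (h : CKLR D n φ θ Ws) (r : ℕ) (f : O n) (y : R D n) :
    φ (ps r) * (θ f * φ y) ∈ L φ θ := by
  by_cases hr : r + 1 < n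
  · have h1 : θ f * φ y = ∑ w : Wd D n, θ f * φ (ew w) * φ y := by
      rw [← Finset.sum_mul, ← Finset.mul_sum, ← map_sum, (isRep_R D n).E_sum, map_one, mul_one]
    rw [h1, Finset.mul_sum]
    refine L_sum _ _ fun w _ => ?_
    obtain ⟨f', hf'⟩ := dd_exists r hr f
    have h2 := h.comm r hr f f' hf' w
    beta_reduce at h2
    rw [← mul_assoc, ← mul_assoc, h2, add_mul]
    refine L_add ?_ ?_
    · rw [mul_assoc, mul_assoc, ← map_mul, ← map_mul]
      exact L_θφ h _ _
    · split_ifs with hw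
      · rw [mul_assoc, ← map_mul]
        exact L_θφ h _ _
      · rw [zero_mul]
        exact L_zero
  · have h1 : (ps r : R D n) = 0 := (isRep_R D n).S_out r hr
    rw [h1, map_zero, zero_mul]
    exact L_zero

theorem L_φ (h : CKLR D n φ θ Ws) (x : R D n) : ∀ a ∈ L φ θ, φ x * a ∈ L φ θ := by
  induction x using R_induction with
  | hc c =>
    intro a ha
    refine L_mul_of (fun f y => ?_) ha
    rw [AlgHom.commutes, ← AlgHom.commutes θ c, ← mul_assoc, ← map_mul]
    exact L_θφ h _ _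
  | he w =>
    intro a ha
    refine L_mul_of (fun f y => ?_) ha
    rw [← mul_assoc, ← h.θ_E, mul_assoc, ← map_mul]
    exact L_θφ h _ _
  | hy k =>
    intro a ha
    rw [← h.θ_X k]
    exact L_θ _ ha
  | hs r =>
    intro a ha
    exact L_mul_of (L_ps h r) ha
  | ha x y hx hy =>
    intro a ha
    rw [map_add, add_mul]
    exact L_add (hx a ha) (hy a ha)
  | hm x y hx hy =>
    intro a ha
    rw [map_mul, mul_assoc]
    exact hx _ (hy a ha)

end LSpan

open LSpan in
/-- PROOF: let L be the set of the elements `∑ θ (f p w) * φ (ew w * LQ p)`.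
(1) L is an additive subgroup, stable under left multiplication by `θ f`; it contains `φ x` for all
x (`lpbw_span`, `θ_pol`), hence all `θ f * φ x`; by construction every element of L is a sum of elements
`θ f * φ x`.
(2) L is stable under left multiplication by `φ (ew w)`, `φ (yk k)`, scalars, and by `φ (ps r)`:
`φ (ps r) * θ f * φ x = ∑ w, φ (ps r) * θ f * φ (ew w) * φ x` (∑ ew = 1), and by `comm` and `dd_exists`
this is `∑ w, θ (rs f) * φ (ps r * ew w * x) + (θ f' * φ (ew w * x) or 0)`. For r + 1 ≥ n: ps r = 0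
(`isRep_R`). So L is stable under left multiplication by `φ x`, all x (`R_induction`).
(3) `φ (CQ p) * θ f * φ (ew w) = φ (CQ p) * (θ f * φ (ew w))` is in L; use `span`. -/
theorem lspan (h : CKLR D n φ θ Ws) (a : A) :
    ∃ f : Sq n → Wd D n → O n, a = ∑ p, ∑ w, θ (f p w) * φ (ew w * LQ p) := by
  obtain ⟨f, hf⟩ := h.span a
  have h1 : a ∈ L φ θ := by
    rw [hf]
    refine L_sum _ _ fun p _ => L_sum _ _ fun w _ => ?_
    rw [mul_assoc]
    exact L_φ h _ _ (L_θφ h _ _)
  exact h1

/-- PROOF: A is a module over the noetherian commutative ring `O n` through θ by left multiplication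
(`Module.compHom A θ.toRingHom`), finitely generated by `lspan`, so noetherian; left ideals are submodules. -/
theorem noeth (h : CKLR D n φ θ Ws) : IsNoetherianRing A := by
  classical
  let _ : Module (O n) A := Module.compHom A θ.toRingHom
  have hsmul : ∀ (f : O n) (a : A), f • a = θ f * a := fun f a => rfl
  have hfin : Module.Finite (O n) A := by
    refine ⟨⟨(Finset.univ : Finset (Sq n × Wd D n)).image
      (fun i => φ (ew i.2 * LQ i.1)), ?_⟩⟩
    rw [eq_top_iff]
    intro a _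
    obtain ⟨f, hf⟩ := lspan h a
    rw [hf]
    refine Submodule.sum_mem _ fun p _ => Submodule.sum_mem _ fun w _ => ?_
    rw [← hsmul]
    refine Submodule.smul_mem _ _ (Submodule.subset_span ?_)
    rw [Finset.coe_image]
    exact ⟨(p, w), Finset.mem_coe.mpr (Finset.mem_univ _), rfl⟩
  have htower : IsScalarTower (O n) A A := ⟨fun f a b => by
    rw [smul_eq_mul, smul_eq_mul, hsmul, hsmul, mul_assoc]⟩
  exact isNoetherian_of_tower (O n) inferInstance

end CA1492.PA
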