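import Mathlib
import Pool.Agent.Lib.MP_ca1492_al.PA.Defs

/-!
# MP_ca1492_al, PA/PhiA: from normalised intertwiners to the KLR relations

Notation: δ a b = θ (X a - X b); s_r = sw n r.
For equal letters w_r = w_(r+1) let `z` be the element of `div`; ψ_r E w := z (unique by `cancel`), it has
ψ_r = ψ_r E w. Different letters: ψ_r E w := Φ r * E w. `S r := ∑ w, ψ_r E w`.

CONSEQUENCES for equal letters (all on `E w`, w_r = w_(r+1), δ = δ r (r+1)):
 (e1) ψ δ = 1 - Φ, (e2) ψ Φ = ψ (multiply by δ: ψ Φ δ = - ψ δ Φ = - (1 - Φ) Φ = 1 - Φ, as Φ Φ = 1; cancel),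
 (e3) ψ θ f = θ (s f) ψ + θ f' where (X r - X (r+1)) f' = f - s f: multiply by δ on the right:
      ψ δ θ f = (1 - Φ) θ f = θ f - θ (s f) Φ, and θ (s f) ψ δ + θ f' δ = θ (s f) (1 - Φ) + θ f - θ (s f);
 (e4) δ ψ = Φ + 1 (e3 with f = X r - X (r+1), f' = 2, s f = - f, and e1), (e5) ψ ψ = 0: ψ ψ δ = ψ (1 - Φ) = 0
      by (e2).
BRAID, letters (i, i, i) at r, r+1, r+2, a = r, b = r+1, c = r+2: multiply
ψ_r ψ_(r+1) ψ_r by δab δac δbc on the right: it becomes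
1 - Φ_r - Φ_(r+1) + Φ_r Φ_(r+1) + Φ_(r+1) Φ_r - Φ_r Φ_(r+1) Φ_r
[ψ_r ψ_(r+1) ψ_r δab δac δbc = ψ_r ψ_(r+1) (1-Φ_r) δac δbc = ψ_r ψ_(r+1) δbc δac (1-Φ_r)
 = ψ_r (1 - Φ_(r+1)) δac (1-Φ_r) = ψ_r δac (1-Φ_r) - ψ_r δab Φ_(r+1) (1-Φ_r)
 = ψ_r (δac - Φ_r δbc) - (1-Φ_r) Φ_(r+1) (1-Φ_r), and ψ_r Φ_r δbc = ψ_r δbc, ψ_r (δac - δbc) = ψ_r δab = 1-Φ_r],
and the same for ψ_(r+1) ψ_r ψ_(r+1) by symmetry; cancel δab δac δbc ≠ 0.
BRAID, letters (i, j, i), i ≠ j: multiply by δac: Φ_(r+1) ψ_r Φ_(r+1) δac = Φ_(r+1) ψ_r δab Φ_(r+1) =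
Φ_(r+1) (1 - Φ_r) Φ_(r+1) and Φ_r ψ_(r+1) Φ_r δac = Φ_r (1 - Φ_(r+1)) Φ_r; the difference is
Φ_(r+1)^2 - Φ_r^2 on E w, which is - δac, + δac or 0 by `Φ_Φ` (arr i j: Φ_(r+1)^2 = δcb [word (.., j, i)],
Φ_r^2 = δab, difference - δac).
BRAID, letters (i, i, k), (k, i, i) (one equal pair, k ≠ i), and similarly for far relations with one or two equal
pairs: both sides contain exactly one ψ for the equal pair; multiply by the δ of the two equal strands
(δab for (i,i,k), δbc for (k,i,i); different letters Φ moves δ), both sides become Φ Φ (1 - Φ) type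
expressions, equal by the braid relation for Φ; cancel.
BRAID, letters (i,j,k) pairwise different: `Φ_braid`.
-/

set_option autoImplicit false

namespace CA1492.PA

open MvPowerSeries

variable {D : Dat} {n : ℕ} {A : Type*} [Ring A] [Algebra ℂ A]
  {E : Wd D n → A} {θ : O n →ₐ[ℂ] A} {Φ : ℕ → A}

theorem PhiA_delta_ne {a b : Fin n} (hab : a ≠ b) : (X a - X b : O n) ≠ 0 := by
  intro h
  have h1 := congrArg (MvPowerSeries.coeff (Finsupp.single a 1)) h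
  rw [map_sub, MvPowerSeries.coeff_index_single_self_X, MvPowerSeries.coeff_index_single_X,
    if_neg hab, sub_zero, map_zero] at h1
  exact one_ne_zero h1

theorem PhiA_ne (r : ℕ) (hr : r + 1 < n) :
    (⟨r, by omega⟩ : Fin n) ≠ ⟨r + 1, hr⟩ := by
  intro h
  have := congrArg Fin.val h
  simp only at this
  omega

theorem PhiA_sw (r : ℕ) (hr : r + 1 < n) :
    sw n r = Equiv.swap ⟨r, by omega⟩ ⟨r + 1, hr⟩ := by
  unfold sw
  rw [dif_pos hr]

theorem PhiA_comp_eq (r : ℕ) (hr : r + 1 < n) (w : Wd D n)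
    (hw : w ⟨r, by omega⟩ = w ⟨r + 1, hr⟩) : w ∘ sw n r = w := by
  rw [PhiA_sw r hr]
  funext k
  rw [Function.comp_apply]
  by_cases h1 : k = ⟨r, by omega⟩
  · rw [h1, Equiv.swap_apply_left, hw]
  · by_cases h2 : k = ⟨r + 1, hr⟩
    · rw [h2, Equiv.swap_apply_right, hw]
    · rw [Equiv.swap_apply_of_ne_of_ne h1 h2]

theorem PhiA_sw_sw (r : ℕ) (w : Wd D n) : (w ∘ sw n r) ∘ sw n r = w := by
  funext k
  rw [Function.comp_apply, Function.comp_apply]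
  by_cases hr : r + 1 < n
  · rw [PhiA_sw r hr, Equiv.swap_apply_self]
  · unfold sw
    rw [dif_neg hr]
    rfl

theorem PhiA_comp_left (r : ℕ) (hr : r + 1 < n) (w : Wd D n) :
    (w ∘ sw n r) ⟨r, by omega⟩ = w ⟨r + 1, hr⟩ := by
  rw [Function.comp_apply, PhiA_sw r hr, Equiv.swap_apply_left]

theorem PhiA_comp_right (r : ℕ) (hr : r + 1 < n) (w : Wd D n) :
    (w ∘ sw n r) ⟨r + 1, hr⟩ = w ⟨r, by omega⟩ := by
  rw [Function.comp_apply, PhiA_sw r hr, Equiv.swap_apply_right]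

theorem PhiA_rs_delta (r : ℕ) (hr : r + 1 < n) :
    rs n r (X ⟨r, by omega⟩ - X ⟨r + 1, hr⟩ : O n) =
      -(X ⟨r, by omega⟩ - X ⟨r + 1, hr⟩) := by
  rw [map_sub, MvPowerSeries.rename_X, MvPowerSeries.rename_X, PhiA_sw r hr,
    Equiv.swap_apply_left, Equiv.swap_apply_right, neg_sub]

theorem PhiA_cancel (h : PhiSys D n E θ Φ) {a b : Fin n} (hab : a ≠ b) {x y : A}
    (hxy : x * θ (X a - X b) = y * θ (X a - X b)) : x = y := by
  refine sub_eq_zero.1 (h.cancel (X a - X b) (x - y) (PhiA_delta_ne hab) ?_)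
  rw [sub_mul, hxy, sub_self]

theorem PhiA_EE (h : PhiSys D n E θ Φ) (w : Wd D n) : E w * E w = E w := by
  rw [h.E_mul, if_pos rfl]

/-- The elements S r. PROOF: for every r with r + 1 < n and every w choose z w (`div`) if w_r = w_(r+1) and
z w = Φ r * E w otherwise, replace z w by z w * E w (`θ_E`), S r = ∑ w, z w * E w. The last statement is (e3),
for different letters `Φ_θ`. `E (w ∘ sw) * S r = S r * E w`: for equal letters w ∘ sw = w and
`E w * z δ = z δ` by `Φ_E`, cancel. -/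
theorem exists_S (h : PhiSys D n E θ Φ) : ∃ S : ℕ → A,
    (∀ r, ¬ (r + 1 < n) → S r = 0) ∧
    (∀ (r : ℕ) (hr : r + 1 < n) (w : Wd D n), w ⟨r, by omega⟩ ≠ w ⟨r + 1, hr⟩ →
      S r * E w = Φ r * E w) ∧
    (∀ (r : ℕ) (hr : r + 1 < n) (w : Wd D n), w ⟨r, by omega⟩ = w ⟨r + 1, hr⟩ →
      S r * θ (X ⟨r, by omega⟩ - X ⟨r + 1, hr⟩) * E w = (1 - Φ r) * E w) ∧
    (∀ r w, S r * E w = E (w ∘ sw n r) * S r) := by
  classical
  -- the local elements
  have hz : ∀ (r : ℕ) (w : Wd D n), ∃ z : A, z * E w = z ∧ E (w ∘ sw n r) * z = z ∧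
      (¬ (r + 1 < n) → z = 0) ∧
      (∀ hr : r + 1 < n, w ⟨r, by omega⟩ ≠ w ⟨r + 1, hr⟩ → z = Φ r * E w) ∧
      (∀ hr : r + 1 < n, w ⟨r, by omega⟩ = w ⟨r + 1, hr⟩ →
        z * θ (X ⟨r, by omega⟩ - X ⟨r + 1, hr⟩) = (1 - Φ r) * E w) := by
    intro r w
    by_cases hr : r + 1 < n
    · by_cases hw : w ⟨r, by omega⟩ = w ⟨r + 1, hr⟩
      · obtain ⟨z, hz⟩ := h.div r hr w hw
        have h1 : z * E w * θ (X ⟨r, by omega⟩ - X ⟨r + 1, hr⟩) = (1 - Φ r) * E w := by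
          rw [mul_assoc, ← h.θ_E, ← mul_assoc, hz, mul_assoc, PhiA_EE h]
        refine ⟨z * E w, ?_, ?_, fun h0 => absurd hr h0, fun _ h0 => absurd hw h0,
          fun _ _ => h1⟩
        · rw [mul_assoc, PhiA_EE h]
        · rw [PhiA_comp_eq r hr w hw]
          refine PhiA_cancel h (PhiA_ne r hr) ?_
          rw [mul_assoc, h1, sub_mul, one_mul, mul_sub, PhiA_EE h, h.Φ_E,
            PhiA_comp_eq r hr w hw, ← mul_assoc, PhiA_EE h]
      · refine ⟨Φ r * E w, ?_, ?_, fun h0 => absurd hr h0, fun _ _ => rfl,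
          fun _ h0 => absurd h0 hw⟩
        · rw [mul_assoc, PhiA_EE h]
        · rw [h.Φ_E, ← mul_assoc, PhiA_EE h]
    · exact ⟨0, zero_mul _, mul_zero _, fun _ => rfl, fun h0 => absurd h0 hr,
        fun h0 => absurd h0 hr⟩
  choose z hz1 hz2 hz3 hz4 hz5 using hz
  have hzE : ∀ r (v w : Wd D n), z r v * E w = if v = w then z r v else 0 := by
    intro r v w
    rw [← hz1 r v, mul_assoc, h.E_mul]
    split_ifs with h0
    · rfl
    · rw [mul_zero]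
  have hEz : ∀ r (u v : Wd D n), E u * z r v = if u = v ∘ sw n r then z r v else 0 := by
    intro r u v
    rw [← hz2 r v, ← mul_assoc, h.E_mul]
    split_ifs with h0
    · rw [h0]
    · rw [zero_mul]
  have hS : ∀ r (w : Wd D n), (∑ v, z r v) * E w = z r w := by
    intro r w
    rw [Finset.sum_mul, Finset.sum_congr rfl (fun v _ => hzE r v w), Finset.sum_ite_eq',
      if_pos (Finset.mem_univ _)]
  refine ⟨fun r => ∑ v, z r v, ?_, ?_, ?_, ?_⟩
  · intro r hr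
    exact Finset.sum_eq_zero fun v _ => hz3 r v hr
  · intro r hr w hw
    rw [hS, hz4 r w hr hw]
  · intro r hr w hw
    rw [mul_assoc, h.θ_E, ← mul_assoc, hS, hz5 r w hr hw]
  · intro r w
    rw [hS, Finset.mul_sum, Finset.sum_congr rfl (fun v _ => hEz r (w ∘ sw n r) v)]
    have h1 : ∀ v : Wd D n, (if w ∘ sw n r = v ∘ sw n r then z r v else 0) =
        if v = w then z r v else 0 := by
      intro v
      by_cases h0 : v = w
      · rw [if_pos h0, if_pos (by rw [h0])]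
      · rw [if_neg h0, if_neg]
        intro h2
        apply h0
        rw [← PhiA_sw_sw r v, ← h2, PhiA_sw_sw]
    rw [Finset.sum_congr rfl (fun v _ => h1 v), Finset.sum_ite_eq', if_pos (Finset.mem_univ _)]

/-- hypotheses on S -/
structure SSys (D : Dat) (n : ℕ) {A : Type*} [Ring A] [Algebra ℂ A]
    (E : Wd D n → A) (θ : O n →ₐ[ℂ] A) (Φ S : ℕ → A) : Prop where
  base : PhiSys D n E θ Φ
  out : ∀ r, ¬ (r + 1 < n) → S r = 0
  ne : ∀ (r : ℕ) (hr : r + 1 < n) (w : Wd D n), w ⟨r, by omega⟩ ≠ w ⟨r + 1, hr⟩ →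
      S r * E w = Φ r * E w
  eq : ∀ (r : ℕ) (hr : r + 1 < n) (w : Wd D n), w ⟨r, by omega⟩ = w ⟨r + 1, hr⟩ →
      S r * θ (X ⟨r, by omega⟩ - X ⟨r + 1, hr⟩) * E w = (1 - Φ r) * E w
  SE : ∀ r w, S r * E w = E (w ∘ sw n r) * S r

variable {S : ℕ → A}

/-- (e3) and `Φ_θ`. -/
theorem scomm (h : SSys D n E θ Φ S) : SComm D n E θ S := by
  intro r hr f f' hf w
  have hb := h.base
  have hr0 : r < n := by omega
  by_cases hw : w ⟨r, by omega⟩ = w ⟨r + 1, hr⟩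
  · rw [if_pos hw]
    refine PhiA_cancel hb (PhiA_ne r hr) ?_
    have e1 : ∀ g : O n, S r * θ g * E w * θ (X ⟨r, by omega⟩ - X ⟨r + 1, hr⟩) =
        (1 - Φ r) * θ g * E w := by
      intro g
      calc S r * θ g * E w * θ (X ⟨r, hr0⟩ - X ⟨r + 1, hr⟩)
          = S r * (θ g * (E w * θ (X ⟨r, hr0⟩ - X ⟨r + 1, hr⟩))) := by
            simp only [mul_assoc]
        _ = S r * (θ (X ⟨r, hr0⟩ - X ⟨r + 1, hr⟩) * (θ g * E w)) := by
            rw [← hb.θ_E, ← mul_assoc (θ g), ← map_mul, mul_comm g, map_mul, mul_assoc]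
        _ = S r * θ (X ⟨r, hr0⟩ - X ⟨r + 1, hr⟩) * E w * θ g := by
            rw [hb.θ_E g w]
            simp only [mul_assoc]
        _ = (1 - Φ r) * θ g * E w := by
            rw [h.eq r hr w hw, mul_assoc, ← hb.θ_E, mul_assoc]
    have e2 : S r * E w * θ (X ⟨r, by omega⟩ - X ⟨r + 1, hr⟩) = (1 - Φ r) * E w := by
      rw [mul_assoc, ← hb.θ_E, ← mul_assoc, h.eq r hr w hw]
    have e3 : θ f' * E w * θ (X ⟨r, by omega⟩ - X ⟨r + 1, hr⟩) =
        θ f * E w - θ (rs n r f) * E w := by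
      rw [mul_assoc, ← hb.θ_E, ← mul_assoc, ← map_mul, mul_comm f', hf, map_sub, sub_mul]
    rw [e1, add_mul, e3, mul_assoc (θ (rs n r f)) (S r) (E w), mul_assoc (θ (rs n r f)), e2,
      sub_mul, one_mul, hb.Φ_θ r hr, sub_mul, sub_mul, one_mul, mul_sub, mul_assoc]
    abel
  · rw [if_neg hw, add_zero, mul_assoc, hb.θ_E, ← mul_assoc, h.ne r hr w hw, mul_assoc,
      ← hb.θ_E, ← mul_assoc, hb.Φ_θ r hr, mul_assoc, ← h.ne r hr w hw, ← mul_assoc]

/-- (e2): for equal letters. -/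
theorem S_Phi (h : SSys D n E θ Φ S) (r : ℕ) (hr : r + 1 < n) (w : Wd D n)
    (hw : w ⟨r, by omega⟩ = w ⟨r + 1, hr⟩) : S r * Φ r * E w = S r * E w := by
  have hb := h.base
  have hr0 : r < n := by omega
  have hc := PhiA_comp_eq r hr w hw
  refine PhiA_cancel hb (PhiA_ne r hr) ?_
  have e2 : S r * E w * θ (X ⟨r, by omega⟩ - X ⟨r + 1, hr⟩) = (1 - Φ r) * E w := by
    rw [mul_assoc, ← hb.θ_E, ← mul_assoc, h.eq r hr w hw]
  have hPE : Φ r * E w = E w * Φ r := by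
    have := hb.Φ_E r w
    rwa [hc] at this
  calc S r * Φ r * E w * θ (X ⟨r, hr0⟩ - X ⟨r + 1, hr⟩)
      = S r * (Φ r * (E w * θ (X ⟨r, hr0⟩ - X ⟨r + 1, hr⟩))) := by
        simp only [mul_assoc]
    _ = S r * (Φ r * θ (X ⟨r, hr0⟩ - X ⟨r + 1, hr⟩) * E w) := by
        rw [← hb.θ_E, mul_assoc]
    _ = -(S r * θ (X ⟨r, hr0⟩ - X ⟨r + 1, hr⟩) * E w * Φ r) := by
        rw [hb.Φ_θ r hr, PhiA_rs_delta r hr, map_neg, mul_assoc, hPE]
        simp only [mul_assoc, neg_mul, mul_neg]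
    _ = -((1 - Φ r) * (Φ r * E w)) := by
        rw [h.eq r hr w hw, mul_assoc, ← hPE]
    _ = (1 - Φ r) * E w := by
        have hΦ := hb.Φ_Φ r hr w
        rw [if_pos hw] at hΦ
        rw [sub_mul, one_mul, ← mul_assoc, hΦ, sub_mul, one_mul, neg_sub]
    _ = S r * E w * θ (X ⟨r, by omega⟩ - X ⟨r + 1, hr⟩) := e2.symm

/-- `S_S` of `IsRep`. -/
theorem S_sq (h : SSys D n E θ Φ S) (r : ℕ) (hr : r + 1 < n) (w : Wd D n) :
    S r * S r * E w =
      if w ⟨r, by omega⟩ = w ⟨r + 1, hr⟩ then 0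
      else if D.arr (w ⟨r, by omega⟩) (w ⟨r + 1, hr⟩) = true then
        (θ (X ⟨r, by omega⟩) - θ (X ⟨r + 1, hr⟩)) * E w
      else if D.arr (w ⟨r + 1, hr⟩) (w ⟨r, by omega⟩) = true then
        (θ (X ⟨r + 1, hr⟩) - θ (X ⟨r, by omega⟩)) * E w
      else E w := by
  have hb := h.base
  have hr0 : r < n := by omega
  by_cases hw : w ⟨r, by omega⟩ = w ⟨r + 1, hr⟩
  · rw [if_pos hw]
    refine PhiA_cancel hb (PhiA_ne r hr) ?_
    rw [zero_mul]
    calc S r * S r * E w * θ (X ⟨r, hr0⟩ - X ⟨r + 1, hr⟩)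
        = S r * (S r * θ (X ⟨r, hr0⟩ - X ⟨r + 1, hr⟩) * E w) := by
          simp only [mul_assoc]
          rw [← hb.θ_E]
      _ = 0 := by
          rw [h.eq r hr w hw, sub_mul, one_mul, mul_sub, ← mul_assoc, S_Phi h r hr w hw,
            sub_self]
  · rw [if_neg hw]
    have hw' : (w ∘ sw n r) ⟨r, by omega⟩ ≠ (w ∘ sw n r) ⟨r + 1, hr⟩ := by
      rw [PhiA_comp_left r hr w, PhiA_comp_right r hr w]
      exact fun h0 => hw h0.symm
    have e : S r * S r * E w = Φ r * Φ r * E w := by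
      calc S r * S r * E w = S r * (Φ r * E w) := by rw [mul_assoc, h.ne r hr w hw]
        _ = S r * E (w ∘ sw n r) * Φ r := by rw [hb.Φ_E, mul_assoc]
        _ = Φ r * (E (w ∘ sw n r) * Φ r) := by rw [h.ne r hr _ hw', mul_assoc]
        _ = Φ r * Φ r * E w := by rw [← hb.Φ_E, mul_assoc]
    rw [e, hb.Φ_Φ r hr w, if_neg hw, map_sub, map_sub]

end CA1492.PA
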