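import Mathlib
import Pool.Agent.Lib.MP_ca1492_al.PA.WSys

/-!
# MP_ca1492_al, PA/WPhi: the crossings on the words form a `PhiSys`
-/

set_option autoImplicit false

namespace CA1492.PA

open MvPowerSeries

universe u
variable {D : Dat} {n : ℕ}
variable {Γ : Type*} {I : Equiv.Perm (Fin n) → Type u} [∀ σ, AddCommGroup (I σ)]
  [∀ σ, Module ℂ (I σ)]
variable {ℓ : Wd D n} {g : Γ → ∀ σ, I σ →ₗ[ℂ] I σ} {op : ∀ σ, O n →ₐ[ℂ] Module.End ℂ (I σ)}
  {T S : ∀ σ σ', I σ →ₗ[ℂ] I σ'}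

/-- extensionality -/
theorem EqE_ext (h : WSys D n ℓ g op T S) {a b : EqE h}
    (e : ∀ (F : WT ℓ S) (σ : Equiv.Perm (Fin n)), fam (a.1 F) σ = fam (b.1 F) σ) : a = b :=
  Subtype.ext (LinearMap.ext fun F => fam_ext fun σ => e F σ)

theorem EqE_mul (h : WSys D n ℓ g op T S) (a b : EqE h) (F : WT ℓ S) :
    (a * b).1 F = a.1 (b.1 F) := rfl

theorem EqE_add (h : WSys D n ℓ g op T S) (a b : EqE h) (F : WT ℓ S) :
    (a + b).1 F = a.1 F + b.1 F := rfl

theorem EqE_sub (h : WSys D n ℓ g op T S) (a b : EqE h) (F : WT ℓ S) :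
    (a - b).1 F = a.1 F - b.1 F := rfl

theorem EqE_one (h : WSys D n ℓ g op T S) (F : WT ℓ S) : (1 : EqE h).1 F = F := rfl

theorem EqE_zero (h : WSys D n ℓ g op T S) (F : WT ℓ S) : (0 : EqE h).1 F = 0 := rfl

theorem EqE_sum (h : WSys D n ℓ g op T S) {α : Type*} (s : Finset α) (a : α → EqE h)
    (F : WT ℓ S) : (∑ i ∈ s, a i).1 F = ∑ i ∈ s, (a i).1 F := by
  classical
  induction s using Finset.induction_on with
  | empty => rfl
  | insert i s hi ih => rw [Finset.sum_insert hi, Finset.sum_insert hi, EqE_add, ih]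

theorem fam_sum {α : Type*} (s : Finset α) (a : α → WT ℓ S) (σ : Equiv.Perm (Fin n)) :
    fam (∑ i ∈ s, a i) σ = ∑ i ∈ s, fam (a i) σ := by
  classical
  induction s using Finset.induction_on with
  | empty => rfl
  | insert i s hi ih => rw [Finset.sum_insert hi, Finset.sum_insert hi, fam_add, ih]

/-- transport of a value of a family along an equality of orders -/
theorem T_tr (τ τ' : Equiv.Perm (Fin n)) (e : τ' = τ) (σ : Equiv.Perm (Fin n))
    (F : ∀ σ, I σ) : T τ' σ (F τ') = T τ σ (F τ) := by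
  subst e
  rfl

theorem stab_of (σ τ : Equiv.Perm (Fin n)) (e : ℓ ∘ τ = ℓ ∘ σ) : ℓ ∘ (σ * τ⁻¹) = ℓ := by
  funext k
  have h1 := congrFun e (τ⁻¹ k)
  have h2 : τ (τ⁻¹ k) = k := by
    rw [← Equiv.Perm.mul_apply, mul_inv_cancel]
    rfl
  simp only [Function.comp_apply] at h1
  rw [h2] at h1
  exact h1.symm

theorem stab_mul (σ τ : Equiv.Perm (Fin n)) : σ = σ * τ⁻¹ * τ := by
  rw [mul_assoc, inv_mul_cancel, mul_one]

/-- a family is determined by its values on representatives of the words -/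
theorem rep_ex (h : WSys D n ℓ g op T S) (x : ∀ σ, I σ) :
    ∃ (rep : (Fin n → D.J) → Equiv.Perm (Fin n)) (F : WT ℓ S),
      (∀ σ : Equiv.Perm (Fin n), ℓ ∘ (rep (ℓ ∘ σ)) = ℓ ∘ σ) ∧
      ∀ σ : Equiv.Perm (Fin n), fam F (rep (ℓ ∘ σ)) = x (rep (ℓ ∘ σ)) := by
  classical
  let rep : (Fin n → D.J) → Equiv.Perm (Fin n) := fun v =>
    if hv : ∃ σ : Equiv.Perm (Fin n), ℓ ∘ σ = v then hv.choose else Equiv.refl _
  have h1 : ∀ σ : Equiv.Perm (Fin n), ℓ ∘ (rep (ℓ ∘ σ)) = ℓ ∘ σ := by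
    intro σ
    have hv : ∃ σ' : Equiv.Perm (Fin n), ℓ ∘ σ' = ℓ ∘ σ := ⟨σ, rfl⟩
    show ℓ ∘ (if hv : ∃ σ' : Equiv.Perm (Fin n), ℓ ∘ σ' = ℓ ∘ σ then hv.choose
      else Equiv.refl _ : Equiv.Perm (Fin n)) = ℓ ∘ σ
    rw [dif_pos hv]
    exact hv.choose_spec
  refine ⟨rep, mkW (fun σ => S (rep (ℓ ∘ σ)) σ (x (rep (ℓ ∘ σ)))) ?_, h1, ?_⟩
  · intro t ht σ σ' hσ
    have e : ℓ ∘ σ' = ℓ ∘ σ := by
      rw [hσ]
      funext k
      exact congrFun ht (σ k)
    show S σ σ' (S (rep (ℓ ∘ σ)) σ (x (rep (ℓ ∘ σ)))) =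
      S (rep (ℓ ∘ σ')) σ' (x (rep (ℓ ∘ σ')))
    rw [e]
    exact h.S_S (σ * (rep (ℓ ∘ σ))⁻¹) t (stab_of _ _ (h1 σ)) ht _ _ _ (stab_mul _ _) hσ _
  · intro σ
    show S (rep (ℓ ∘ (rep (ℓ ∘ σ)))) (rep (ℓ ∘ σ)) (x (rep (ℓ ∘ (rep (ℓ ∘ σ))))) = _
    rw [h1]
    exact h.S_one _ _

theorem fam_S' (F : WT ℓ S) (σ τ : Equiv.Perm (Fin n)) (e : ℓ ∘ τ = ℓ ∘ σ) :
    fam F σ = S τ σ (fam F τ) :=
  (fam_S F (σ * τ⁻¹) (stab_of σ τ e) τ σ (stab_mul σ τ)).symm

/-- nonzero power series act surjectively -/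
theorem wθ_surj (h : WSys D n ℓ g op T S) (f : O n) (hf : f ≠ 0) :
    Function.Surjective (wθ h f).1 := by
  intro G
  have hs : ∀ σ, ∃ x : I σ, op σ (rn σ f) x = fam G σ := fun σ =>
    h.surj σ (rn σ f) (fun e => hf (rn_inj σ e)) (fam G σ)
  choose x hx using hs
  obtain ⟨rep, F, h1, h3⟩ := rep_ex h x
  refine ⟨F, fam_ext fun σ => ?_⟩
  rw [fam_S' ((wθ h f).1 F) σ (rep (ℓ ∘ σ)) (h1 σ), fam_S' G σ (rep (ℓ ∘ σ)) (h1 σ), wθ_apply,
    h3, hx]

theorem w_cancel (h : WSys D n ℓ g op T S) (f : O n) (a : EqE h) (hf : f ≠ 0)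
    (e : a * wθ h f = 0) : a = 0 := by
  refine Subtype.ext (LinearMap.ext fun F => ?_)
  obtain ⟨G, rfl⟩ := wθ_surj h f hf F
  rw [← EqE_mul, e]
  rfl

/-- factorisation -/
theorem w_fac (h : WSys D n ℓ g op T S) (f : O n) (a : EqE h) (hf : f ≠ 0)
    (e : ∀ F : WT ℓ S, (wθ h f).1 F = 0 → a.1 F = 0) : ∃ z : EqE h, z * wθ h f = a := by
  have hs := wθ_surj h f hf
  have hk : ∀ F F' : WT ℓ S, (wθ h f).1 F = (wθ h f).1 F' → a.1 F = a.1 F' := by
    intro F F' hF
    have h1 : (wθ h f).1 (F - F') = 0 := by rw [map_sub, hF, sub_self]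
    have h2 := e _ h1
    rwa [map_sub, sub_eq_zero] at h2
  choose s hs' using hs
  refine ⟨⟨{ toFun := fun F => a.1 (s F)
             map_add' := ?_
             map_smul' := ?_ }, ?_⟩, ?_⟩
  · intro F F'
    rw [← map_add]
    refine hk _ _ ?_
    rw [map_add, hs', hs', hs']
  · intro c F
    rw [RingHom.id_apply, ← map_smul]
    refine hk _ _ ?_
    rw [map_smul, hs', hs']
  · intro γ F
    show a.1 (s (gW h γ F)) = gW h γ (a.1 (s F))
    rw [← a.2 γ]
    refine hk _ _ ?_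
    rw [hs', (wθ h f).2 γ, hs']
  · refine Subtype.ext (LinearMap.ext fun F => ?_)
    show a.1 (s ((wθ h f).1 F)) = a.1 F
    refine hk _ _ ?_
    rw [hs']

theorem l_sw (σ : Equiv.Perm (Fin n)) (r : ℕ) :
    ℓ ∘ (σ * sw n r) = (ℓ ∘ σ) ∘ sw n r := rfl

theorem X_ne {a b : Fin n} (hab : a ≠ b) : (X a - X b : O n) ≠ 0 := by
  intro e
  have h1 := congrArg (coeff (Finsupp.single a 1)) e
  rw [map_sub, coeff_X, coeff_X, if_pos rfl, if_neg (fun e' => hab ?_), sub_zero, map_zero] at h1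
  · exact one_ne_zero h1
  · exact (Finsupp.single_left_inj one_ne_zero).1 e'

/-- **The crossings on the words.** -/
theorem phiSys_w (h : WSys D n ℓ g op T S) : PhiSys D n (wE h) (wθ h) (wΦ h) where
  Φ_out r hr := by
    unfold wΦ
    rw [dif_neg hr]
  E_mul w w' := by
    by_cases e : w = w'
    · rw [if_pos e, ← e]
      refine EqE_ext h fun F σ => ?_
      rw [EqE_mul, wE_apply, wE_apply]
      split_ifs <;> rfl
    · rw [if_neg e]
      refine EqE_ext h fun F σ => ?_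
      rw [EqE_mul, wE_apply, wE_apply, EqE_zero]
      show _ = (0 : I σ)
      split_ifs with h1 h2
      · exact absurd (h1.symm.trans h2) e
      · rfl
      · rfl
  E_sum := by
    refine EqE_ext h fun F σ => ?_
    rw [EqE_sum, fam_sum, EqE_one]
    rw [Finset.sum_eq_single (ℓ ∘ σ)]
    · rw [wE_apply, if_pos rfl]
    · intro w _ hw
      rw [wE_apply, if_neg (fun e => hw e.symm)]
    · intro hw
      exact absurd (Finset.mem_univ _) hw
  θ_E f w := by
    refine EqE_ext h fun F σ => ?_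
    rw [EqE_mul, EqE_mul, wθ_apply, wE_apply, wE_apply, wθ_apply]
    split_ifs
    · rfl
    · rw [map_zero]
  Φ_E r w := by
    by_cases hr : r + 1 < n
    · refine EqE_ext h fun F σ => ?_
      rw [EqE_mul, EqE_mul, wΦ_apply h r hr, wE_apply, wE_apply, wΦ_apply h r hr]
      have e : (ℓ ∘ (σ * sw n r) = w) ↔ (ℓ ∘ σ = w ∘ sw n r) := by
        constructor
        · intro e
          rw [← e]
          funext k
          simp [swj]
        · intro e
          rw [l_sw, e]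
          funext k
          simp [swj]
      by_cases e1 : ℓ ∘ σ = w ∘ sw n r
      · rw [if_pos e1, if_pos (e.2 e1)]
      · rw [if_neg e1, if_neg (fun e2 => e1 (e.1 e2)), map_zero]
    · have : wΦ h r = 0 := by
        unfold wΦ
        rw [dif_neg hr]
      rw [this, zero_mul, mul_zero]
  Φ_θ r hr f := by
    refine EqE_ext h fun F σ => ?_
    rw [EqE_mul, EqE_mul, wΦ_apply h r hr, wθ_apply, wθ_apply, wΦ_apply h r hr,
      h.T_op r hr (σ * sw n r) σ (by rw [mul_assoc, sw_sq, mul_one]), ← rn_rn]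
  Φ_Φ r hr w := by
    have key : ∀ (F : WT ℓ S) (σ : Equiv.Perm (Fin n)), fam ((wΦ h r * wΦ h r).1 F) σ =
        op σ (QQ D (ℓ (σ ⟨r, by omega⟩)) (ℓ (σ ⟨r + 1, hr⟩)) (σ ⟨r, by omega⟩) (σ ⟨r + 1, hr⟩))
          (fam F σ) := by
      intro F σ
      rw [EqE_mul, wΦ_apply h r hr, wΦ_apply h r hr]
      rw [T_tr (T := T) σ (σ * sw n r * sw n r) (by rw [mul_assoc, sw_sq, mul_one]) (σ * sw n r) (fam F)]
      exact h.T_T r hr σ (σ * sw n r) rfl (fam F σ)
    have hθ : ∀ (a b : Fin n) (F : WT ℓ S) (σ : Equiv.Perm (Fin n)),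
        fam ((wθ h (X a - X b)).1 F) σ = op σ (X (σ a) - X (σ b)) (fam F σ) := by
      intro a b F σ
      rw [wθ_apply, map_sub (rn σ), rn_X, rn_X]
    have hval : ∀ σ : Equiv.Perm (Fin n), ℓ ∘ σ = w → ∀ k, ℓ (σ k) = w k := fun σ e k =>
      congrFun e k
    refine EqE_ext h fun F σ => ?_
    rw [EqE_mul, key, wE_apply]
    by_cases e : ℓ ∘ σ = w
    · rw [if_pos e, hval σ e, hval σ e]
      unfold QQ
      split_ifs with h1 h2 h3
      · rw [map_one, wE_apply, if_pos e]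
        rfl
      · rw [EqE_mul, hθ, wE_apply, if_pos e]
      · rw [EqE_mul, hθ, wE_apply, if_pos e]
      · rw [map_one, wE_apply, if_pos e]
        rfl
    · rw [if_neg e, map_zero]
      split_ifs with h1 h2 h3
      · rw [wE_apply, if_neg e]
      · rw [EqE_mul, hθ, wE_apply, if_neg e, map_zero]
      · rw [EqE_mul, hθ, wE_apply, if_neg e, map_zero]
      · rw [wE_apply, if_neg e]
  Φ_far r s hrs := by
    by_cases hs : s + 1 < n
    · have hr : r + 1 < n := by omega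
      refine EqE_ext h fun F σ => ?_
      rw [EqE_mul, EqE_mul, wΦ_apply h r hr, wΦ_apply h s hs, wΦ_apply h s hs, wΦ_apply h r hr]
      have e1 : σ * sw n s * sw n r = σ * sw n r * sw n s := by
        rw [mul_assoc, mul_assoc, sw_far hrs hs]
      rw [T_tr (T := T) (σ * sw n r * sw n s) (σ * sw n s * sw n r) e1 (σ * sw n s) (fam F)]
      have e2 : ∀ (τ : Equiv.Perm (Fin n)) (q : ℕ), τ = τ * sw n q * sw n q := by
        intro τ q
        rw [mul_assoc, sw_sq, mul_one]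
      refine (h.far r s hrs hs (σ * sw n r * sw n s) (σ * sw n s) (σ * sw n r) σ ?_ (e2 σ s)
        (e2 _ s) (e2 σ r) (fam F (σ * sw n r * sw n s))).symm
      rw [← e1]
      exact e2 _ r
    · have : wΦ h s = 0 := by
        unfold wΦ
        rw [dif_neg hs]
      rw [this, zero_mul, mul_zero]
  Φ_braid r hr := by
    have hr0 : r + 1 < n := by omega
    have hr1 : r + 1 + 1 < n := by omega
    refine EqE_ext h fun F σ => ?_
    rw [EqE_mul, EqE_mul, EqE_mul, EqE_mul, wΦ_apply h (r + 1) hr1, wΦ_apply h r hr0,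
      wΦ_apply h (r + 1) hr1, wΦ_apply h r hr0, wΦ_apply h (r + 1) hr1, wΦ_apply h r hr0]
    have e1 : σ * sw n (r + 1) * sw n r * sw n (r + 1) =
        σ * sw n r * sw n (r + 1) * sw n r := by
      rw [mul_assoc, mul_assoc, mul_assoc, mul_assoc, ← mul_assoc (sw n (r + 1)),
        ← mul_assoc (sw n r), sw_braid hr]
    have e2 : ∀ (τ : Equiv.Perm (Fin n)) (q : ℕ), τ = τ * sw n q * sw n q := by
      intro τ q
      rw [mul_assoc, sw_sq, mul_one]
    rw [T_tr (T := T) _ _ e1 (σ * sw n (r + 1) * sw n r) (fam F)]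
    refine (h.braid r hr (σ * sw n r * sw n (r + 1) * sw n r) (σ * sw n r * sw n (r + 1))
      (σ * sw n r) (σ * sw n (r + 1) * sw n r) (σ * sw n (r + 1)) σ (e2 _ r) (e2 _ (r + 1))
      (e2 _ r) ?_ (e2 _ r) (e2 _ (r + 1)) _).symm
    rw [← e1]
    exact e2 _ (r + 1)
  cancel f a hf e := w_cancel h f a hf e
  div r hr w hw := by
    refine w_fac h _ _ (X_ne (fun e => by
      have := congrArg Fin.val e
      simp at this)) ?_
    intro F hF
    refine fam_ext fun σ => ?_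
    rw [EqE_mul, EqE_sub, EqE_one, fam_sub, fam_zero]
    rw [wΦ_apply h r hr, wE_apply, wE_apply]
    have hw' : w ∘ sw n r = w := by
      funext k
      rw [Function.comp_apply, sw_at hr]
      by_cases h1 : k = ⟨r, by omega⟩
      · rw [h1, Equiv.swap_apply_left, hw]
      · by_cases h2 : k = ⟨r + 1, hr⟩
        · rw [h2, Equiv.swap_apply_right, hw]
        · rw [Equiv.swap_apply_of_ne_of_ne h1 h2]
    by_cases e : ℓ ∘ σ = w
    · rw [if_pos e, if_pos (by rw [l_sw, e, hw'])]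
      have hl : ∀ k, ℓ (σ k) = w k := fun k => congrFun e k
      have hl' : ∀ k, ℓ ((σ * sw n r) k) = w k := fun k =>
        (hl (sw n r k)).trans (congrFun hw' k)
      have hF' := congrArg (fun G : WT ℓ S => fam G (σ * sw n r)) hF
      simp only [wθ_apply] at hF'
      rw [map_sub (rn (σ * sw n r)), rn_X, rn_X] at hF'
      rw [h.ker r hr (σ * sw n r) σ (by rw [mul_assoc, sw_sq, mul_one])
        (by rw [hl', hl', hw]) (fam F (σ * sw n r)) hF']
      rw [← fam_S' F σ (σ * sw n r) (by rw [l_sw, e, hw'])]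
      exact sub_self _
    · rw [if_neg e, if_neg, map_zero, sub_zero]
      intro e1
      apply e
      rw [← hw', ← e1, l_sw]
      funext k
      simp [swj]

end CA1492.PA
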