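import Mathlib
import Pool.Agent.Lib.MP_ca1492_al.PA.Inv
import Pool.Agent.Lib.MP_ca1492_al.PA.LSpan
import Pool.Agent.Lib.MP_ca1492_al.PA.PhiA
import Pool.Agent.Lib.MP_ca1492_al.PA.WPhi

/-!
# MP_ca1492_al, PA/Mon: products of the operators `S r`, `Φ r` and functionals on them

`IsM k u w a`: `a` is a product of `k` factors `S r` or `Φ r` with permutation `u`, applied to `θ f * E w`.
`GG k` = span of the products with fewer than `k` factors.
-/

set_option autoImplicit false

namespace CA1492.PA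

open MvPowerSeries

variable {D : Dat} {n : ℕ} {A : Type*} [Ring A] [Algebra ℂ A]
  {E : Wd D n → A} {θ : O n →ₐ[ℂ] A} {Φ S : ℕ → A}

/-- products -/
inductive IsM (E : Wd D n → A) (θ : O n →ₐ[ℂ] A) (Φ S : ℕ → A) :
    ℕ → Equiv.Perm (Fin n) → Wd D n → A → Prop
  | base (f : O n) (w : Wd D n) : IsM E θ Φ S 0 1 w (θ f * E w)
  | sS (r k : ℕ) (u : Equiv.Perm (Fin n)) (w : Wd D n) (a : A) :
    r + 1 < n → IsM E θ Φ S k u w a → IsM E θ Φ S (k + 1) (sw n r * u) w (S r * a)
  | sΦ (r k : ℕ) (u : Equiv.Perm (Fin n)) (w : Wd D n) (a : A) :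
    r + 1 < n → IsM E θ Φ S k u w a → IsM E θ Φ S (k + 1) (sw n r * u) w (Φ r * a)

/-- products with fewer than k factors -/
def GG (E : Wd D n → A) (θ : O n →ₐ[ℂ] A) (Φ S : ℕ → A) (k : ℕ) : Submodule ℂ A :=
  Submodule.span ℂ {a | ∃ j < k, ∃ u w, IsM E θ Φ S j u w a}

theorem IsM.mem {k : ℕ} {u : Equiv.Perm (Fin n)} {w : Wd D n} {a : A}
    (h : IsM E θ Φ S k u w a) {m : ℕ} (hm : k < m) : a ∈ GG E θ Φ S m :=
  Submodule.subset_span ⟨k, hm, u, w, h⟩

theorem GG_mono {k m : ℕ} (h : k ≤ m) : GG E θ Φ S k ≤ GG E θ Φ S m := by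
  refine Submodule.span_mono ?_
  rintro a ⟨j, hj, u, w, ha⟩
  exact ⟨j, by omega, u, w, ha⟩

theorem GG_ind {k : ℕ} (p : A → Prop) (h0 : p 0) (hadd : ∀ a b, p a → p b → p (a + b))
    (hs : ∀ (c : ℂ) a, p a → p (c • a))
    (hm : ∀ j < k, ∀ u w a, IsM E θ Φ S j u w a → p a) {a : A} (ha : a ∈ GG E θ Φ S k) : p a := by
  unfold GG at ha
  induction ha using Submodule.span_induction with
  | mem a ha =>
    obtain ⟨j, hj, u, w, ha⟩ := ha
    exact hm j hj u w a ha
  | zero => exact h0
  | add a b _ _ ha hb => exact hadd a b ha hb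
  | smul c a _ ha => exact hs c a ha

theorem GG_S {k r : ℕ} (hr : r + 1 < n) {a : A} (ha : a ∈ GG E θ Φ S k) :
    S r * a ∈ GG E θ Φ S (k + 1) := by
  refine GG_ind (k := k) (fun a => S r * a ∈ GG E θ Φ S (k + 1)) ?_ ?_ ?_ ?_ ha
  · rw [mul_zero]
    exact Submodule.zero_mem _
  · intro a b ha hb
    rw [mul_add]
    exact Submodule.add_mem _ ha hb
  · intro c a ha
    rw [mul_smul_comm]
    exact Submodule.smul_mem _ _ ha
  · intro j hj u w a ha
    exact (IsM.sS r j u w a hr ha).mem (by omega)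

theorem GG_Φ {k r : ℕ} (hr : r + 1 < n) {a : A} (ha : a ∈ GG E θ Φ S k) :
    Φ r * a ∈ GG E θ Φ S (k + 1) := by
  refine GG_ind (k := k) (fun a => Φ r * a ∈ GG E θ Φ S (k + 1)) ?_ ?_ ?_ ?_ ha
  · rw [mul_zero]
    exact Submodule.zero_mem _
  · intro a b ha hb
    rw [mul_add]
    exact Submodule.add_mem _ ha hb
  · intro c a ha
    rw [mul_smul_comm]
    exact Submodule.smul_mem _ _ ha
  · intro j hj u w a ha
    exact (IsM.sΦ r j u w a hr ha).mem (by omega)

theorem M_E (h : SSys D n E θ Φ S) {k : ℕ} {u : Equiv.Perm (Fin n)} {w : Wd D n} {a : A}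
    (ha : IsM E θ Φ S k u w a) : E (w ∘ u.symm) * a = a := by
  induction ha with
  | base f w =>
    show E w * (θ f * E w) = θ f * E w
    rw [← mul_assoc, ← h.base.θ_E, mul_assoc, h.base.E_mul, if_pos rfl]
  | sS r k u w a hr _ ih =>
    have e : (w ∘ (sw n r * u).symm : Wd D n) = (w ∘ u.symm) ∘ sw n r := by
      funext j
      show w ((sw n r * u).symm j) = w (u.symm (sw n r j))
      congr 1
      rw [Equiv.symm_apply_eq, Equiv.Perm.mul_apply, Equiv.apply_symm_apply, swj]
    rw [e, ← mul_assoc, ← h.SE, mul_assoc, ih]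
  | sΦ r k u w a hr _ ih =>
    have e : (w ∘ (sw n r * u).symm : Wd D n) = (w ∘ u.symm) ∘ sw n r := by
      funext j
      show w ((sw n r * u).symm j) = w (u.symm (sw n r j))
      congr 1
      rw [Equiv.symm_apply_eq, Equiv.Perm.mul_apply, Equiv.apply_symm_apply, swj]
    rw [e, ← mul_assoc, ← h.base.Φ_E, mul_assoc, ih]

theorem M_right (h : SSys D n E θ Φ S) {k : ℕ} {u : Equiv.Perm (Fin n)} {w : Wd D n} {a : A}
    (ha : IsM E θ Φ S k u w a) (f : O n) : IsM E θ Φ S k u w (a * θ f) := by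
  induction ha with
  | base f0 w =>
    rw [mul_assoc, ← h.base.θ_E, ← mul_assoc, ← map_mul]
    exact IsM.base _ w
  | sS r k u w a hr _ ih =>
    rw [mul_assoc]
    exact IsM.sS r k u w _ hr ih
  | sΦ r k u w a hr _ ih =>
    rw [mul_assoc]
    exact IsM.sΦ r k u w _ hr ih

theorem GG_right (h : SSys D n E θ Φ S) {k : ℕ} {a : A} (ha : a ∈ GG E θ Φ S k) (f : O n) :
    a * θ f ∈ GG E θ Φ S k := by
  refine GG_ind (k := k) (fun a => a * θ f ∈ GG E θ Φ S k) ?_ ?_ ?_ ?_ ha
  · rw [zero_mul]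
    exact Submodule.zero_mem _
  · intro a b ha hb
    rw [add_mul]
    exact Submodule.add_mem _ ha hb
  · intro c a ha
    rw [smul_mul_assoc]
    exact Submodule.smul_mem _ _ ha
  · intro j hj u w a ha
    exact (M_right h ha f).mem hj

theorem rs_rs (n r : ℕ) (f : O n) : rs n r (rs n r f) = f := by
  show rn (sw n r) (rn (sw n r) f) = f
  rw [rn_rn, sw_sq, rn_one]

/-- θ f * S r * a for a with target word w -/
theorem θ_S (h : SSys D n E θ Φ S) (r : ℕ) (hr : r + 1 < n) (w : Wd D n) (f : O n) :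
    ∃ f' : O n, ∀ a : A, E w * a = a →
      θ f * (S r * a) = S r * (θ (rs n r f) * a) - θ f' * a := by
  obtain ⟨f1, hf1⟩ := dd_exists r hr (rs n r f)
  have hc := scomm h r hr (rs n r f) f1 hf1 w
  rw [rs_rs] at hc
  by_cases hw : w ⟨r, by omega⟩ = w ⟨r + 1, hr⟩
  · refine ⟨f1, fun a ha => ?_⟩
    rw [if_pos hw] at hc
    have h1 := congrArg (fun x => x * a) hc
    simp only [add_mul, mul_assoc, ha] at h1
    rw [h1]
    abel
  · refine ⟨0, fun a ha => ?_⟩
    rw [if_neg hw, add_zero] at hc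
    have h1 := congrArg (fun x => x * a) hc
    simp only [mul_assoc, ha] at h1
    rw [h1, map_zero, zero_mul, sub_zero]

theorem θ_Φ (h : SSys D n E θ Φ S) (r : ℕ) (hr : r + 1 < n) (f : O n) (a : A) :
    θ f * (Φ r * a) = Φ r * (θ (rs n r f) * a) := by
  have h1 := h.base.Φ_θ r hr (rs n r f)
  rw [rs_rs] at h1
  rw [← mul_assoc, ← h1, mul_assoc]

theorem M_left (h : SSys D n E θ Φ S) {k : ℕ} {u : Equiv.Perm (Fin n)} {w : Wd D n} {a : A}
    (ha : IsM E θ Φ S k u w a) : ∀ f : O n, θ f * a ∈ GG E θ Φ S (k + 1) := by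
  induction ha with
  | base f0 w =>
    intro f
    rw [← mul_assoc, ← map_mul]
    exact (IsM.base (θ := θ) (Φ := Φ) (S := S) (E := E) (f * f0) w).mem (Nat.lt_succ_self _)
  | sS r k u w a hr ha ih =>
    intro f
    obtain ⟨f', hf'⟩ := θ_S h r hr (w ∘ u.symm) f
    rw [hf' a (M_E h ha)]
    refine Submodule.sub_mem _ (GG_S hr (ih _)) (GG_mono (by omega) (ih _))
  | sΦ r k u w a hr ha ih =>
    intro f
    rw [θ_Φ h r hr]
    exact GG_Φ hr (ih _)

theorem GG_left (h : SSys D n E θ Φ S) {k : ℕ} {a : A} (ha : a ∈ GG E θ Φ S k) (f : O n) :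
    θ f * a ∈ GG E θ Φ S k := by
  refine GG_ind (k := k) (fun a => θ f * a ∈ GG E θ Φ S k) ?_ ?_ ?_ ?_ ha
  · rw [mul_zero]
    exact Submodule.zero_mem _
  · intro a b ha hb
    rw [mul_add]
    exact Submodule.add_mem _ ha hb
  · intro c a ha
    rw [mul_smul_comm]
    exact Submodule.smul_mem _ _ ha
  · intro j hj u w a ha
    exact GG_mono (by omega) (M_left h ha f)

theorem symm_rn (u : Equiv.Perm (Fin n)) (r : ℕ) (f : O n) :
    rn (sw n r * u).symm f = rn u.symm (rs n r f) := by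
  show _ = rn u.symm (rn (sw n r) f)
  rw [rn_rn]
  congr 1
  congr 1
  refine Equiv.ext fun k => ?_
  rw [Equiv.symm_apply_eq]
  show k = sw n r (u (u.symm (sw n r k)))
  rw [Equiv.apply_symm_apply, swj]

theorem M_comm (h : SSys D n E θ Φ S) {k : ℕ} {u : Equiv.Perm (Fin n)} {w : Wd D n} {a : A}
    (ha : IsM E θ Φ S k u w a) : ∀ f : O n,
    θ f * a - a * θ (rn u.symm f) ∈ GG E θ Φ S k := by
  induction ha with
  | base f0 w =>
    intro f
    have e : θ f * (θ f0 * E w) - θ f0 * E w * θ (rn (1 : Equiv.Perm (Fin n)).symm f) = 0 := by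
      rw [show rn (1 : Equiv.Perm (Fin n)).symm f = f from rn_one f, mul_assoc, ← h.base.θ_E,
        ← mul_assoc, ← mul_assoc, ← map_mul, ← map_mul, mul_comm f f0, sub_self]
    rw [e]
    exact Submodule.zero_mem _
  | sS r k u w a hr ha ih =>
    intro f
    obtain ⟨f', hf'⟩ := θ_S h r hr (w ∘ u.symm) f
    rw [hf' a (M_E h ha), symm_rn]
    have e : S r * (θ (rs n r f) * a) - θ f' * a - S r * a * θ (rn u.symm (rs n r f)) =
        S r * (θ (rs n r f) * a - a * θ (rn u.symm (rs n r f))) - θ f' * a := by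
      rw [mul_sub, mul_assoc (S r) a]
      abel
    rw [e]
    exact Submodule.sub_mem _ (GG_S hr (ih _)) (M_left h ha f')
  | sΦ r k u w a hr ha ih =>
    intro f
    rw [θ_Φ h r hr, symm_rn]
    have e : Φ r * (θ (rs n r f) * a) - Φ r * a * θ (rn u.symm (rs n r f)) =
        Φ r * (θ (rs n r f) * a - a * θ (rn u.symm (rs n r f))) := by
      rw [mul_sub, mul_assoc (Φ r) a]
    rw [e]
    exact GG_Φ hr (ih _)

theorem M_card {k : ℕ} {u : Equiv.Perm (Fin n)} {w : Wd D n} {a : A}
    (ha : IsM E θ Φ S k u w a) : (cr u).card ≤ k := by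
  induction ha with
  | base f w => rw [cr_one, Finset.card_empty]
  | sS r k u w a hr ha ih => exact (cr_card_le u r).trans (by omega)
  | sΦ r k u w a hr ha ih => exact (cr_card_le u r).trans (by omega)

theorem M_listS (L : List ℕ) (hL : ∀ r ∈ L, r + 1 < n) (w : Wd D n) :
    IsM E θ Φ S L.length (wp n L) w ((L.map S).prod * E w) := by
  induction L with
  | nil =>
    have := IsM.base (E := E) (θ := θ) (Φ := Φ) (S := S) 1 w
    rw [map_one] at this
    exact this
  | cons r L ih =>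
    have h1 := IsM.sS r _ _ w _ (hL r List.mem_cons_self)
      (ih fun s hs => hL s (List.mem_cons_of_mem _ hs))
    rw [List.map_cons, List.prod_cons, mul_assoc]
    exact h1

theorem M_listΦ (L : List ℕ) (hL : ∀ r ∈ L, r + 1 < n) (w : Wd D n) :
    IsM E θ Φ S L.length (wp n L) w ((L.map Φ).prod * E w) := by
  induction L with
  | nil =>
    have := IsM.base (E := E) (θ := θ) (Φ := Φ) (S := S) 1 w
    rw [map_one] at this
    exact this
  | cons r L ih =>
    have h1 := IsM.sΦ r _ _ w _ (hL r List.mem_cons_self)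
      (ih fun s hs => hL s (List.mem_cons_of_mem _ hs))
    rw [List.map_cons, List.prod_cons, mul_assoc]
    exact h1

theorem Φ_list (h : SSys D n E θ Φ S) (L : List ℕ) (hL : ∀ r ∈ L, r + 1 < n) (f : O n) :
    (L.map Φ).prod * θ f = θ (rn (wp n L) f) * (L.map Φ).prod := by
  induction L with
  | nil =>
    show 1 * θ f = θ (rn 1 f) * 1
    rw [rn_one, one_mul, mul_one]
  | cons r L ih =>
    rw [List.map_cons, List.prod_cons, mul_assoc, ih fun s hs => hL s (List.mem_cons_of_mem _ hs),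
      ← mul_assoc, h.base.Φ_θ r (hL r List.mem_cons_self), wp_cons, ← rn_rn, mul_assoc]

/-- the product of the differences of the variables of the crossing strands with equal letters -/
noncomputable def dl (u : Equiv.Perm (Fin n)) (w : Wd D n) : O n :=
  ∏ p ∈ cr u, if w p.1 = w p.2 then X p.2 - X p.1 else 1

theorem top_lem (h : SSys D n E θ Φ S) (w : Wd D n) : ∀ L : List ℕ, Red n L →
    (L.map S).prod * θ (dl (wp n L) w) * E w - (L.map Φ).prod * E w ∈ GG E θ Φ S L.length := by
  intro L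
  induction L with
  | nil =>
    intro _
    have e : dl (wp n []) w = 1 := by
      unfold dl
      rw [wp_nil, cr_one, Finset.prod_empty]
    rw [e, map_one, mul_one]
    show (1 : A) * E w - 1 * E w ∈ _
    rw [sub_self]
    exact Submodule.zero_mem _
  | cons r L ih =>
    intro hred
    obtain ⟨hL, hr, hup⟩ := hred.cons
    have ih' := ih hL
    obtain ⟨hu1, hu2⟩ := cr_up (wp n L) r hr hup
    set i := (wp n L).symm ⟨r, by omega⟩ with hi
    set j := (wp n L).symm ⟨r + 1, hr⟩ with hj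
    set d : O n := if w i = w j then X j - X i else 1 with hd
    have e1 : dl (wp n (r :: L)) w = d * dl (wp n L) w := by
      unfold dl
      rw [wp_cons, hu2, Finset.prod_insert hu1]
    have eM := M_listΦ (E := E) (θ := θ) (Φ := Φ) (S := S) L hL.1 w
    have eE := M_E h eM
    rw [List.map_cons, List.map_cons, List.prod_cons, List.prod_cons, List.length_cons, e1]
    obtain ⟨g, hg⟩ : ∃ g, g = (L.map S).prod * θ (dl (wp n L) w) * E w - (L.map Φ).prod * E w :=
      ⟨_, rfl⟩
    rw [← hg] at ih'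
    have e2 : S r * (L.map S).prod * θ (d * dl (wp n L) w) * E w =
        S r * ((L.map Φ).prod * E w) * θ d + S r * g * θ d := by
      rw [← add_mul, ← mul_add, hg]
      rw [add_sub_cancel]
      rw [mul_comm d, map_mul]
      simp only [mul_assoc]
      rw [h.base.θ_E d w]
    have e3 : (L.map Φ).prod * E w * θ d = θ (rn (wp n L) d) * ((L.map Φ).prod * E w) := by
      rw [mul_assoc, ← h.base.θ_E, ← mul_assoc, Φ_list h L hL.1, mul_assoc]
    have e4 : S r * ((L.map Φ).prod * E w) * θ d - Φ r * (L.map Φ).prod * E w ∈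
        GG E θ Φ S (L.length + 1) := by
      have e5 : (w ∘ (wp n L).symm) ⟨r, by omega⟩ = w i := rfl
      have e6 : (w ∘ (wp n L).symm) ⟨r + 1, hr⟩ = w j := rfl
      rw [mul_assoc (S r), e3]
      by_cases hw : w i = w j
      · have e7 : rn (wp n L) d = X ⟨r + 1, hr⟩ - X ⟨r, by omega⟩ := by
          rw [hd, if_pos hw, map_sub (rn (wp n L)), rn_X, rn_X, hi, hj, Equiv.apply_symm_apply,
            Equiv.apply_symm_apply]
        have e8 := h.eq r hr (w ∘ (wp n L).symm) (by rw [e5, e6, hw])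
        have e9 : S r * (θ (X ⟨r + 1, hr⟩ - X ⟨r, by omega⟩) * ((L.map Φ).prod * E w)) =
            - ((1 - Φ r) * ((L.map Φ).prod * E w)) := by
          have h1 := congrArg (fun x => x * ((L.map Φ).prod * E w)) e8
          simp only [mul_assoc] at h1
          rw [eE] at h1
          rw [← h1, ← mul_neg, ← neg_mul, ← map_neg, neg_sub]
        rw [e7, e9]
        have e10 : -((1 - Φ r) * ((L.map Φ).prod * E w)) - Φ r * (L.map Φ).prod * E w =
            - ((L.map Φ).prod * E w) := by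
          rw [sub_mul, one_mul, mul_assoc (Φ r)]
          abel
        rw [e10]
        exact Submodule.neg_mem _ (eM.mem (Nat.lt_succ_self _))
      · have e8 := h.ne r hr (w ∘ (wp n L).symm) (by rw [e5, e6]; exact hw)
        have e9 : S r * ((L.map Φ).prod * E w) = Φ r * ((L.map Φ).prod * E w) := by
          have h1 := congrArg (fun x => x * ((L.map Φ).prod * E w)) e8
          simp only [mul_assoc] at h1
          rwa [eE] at h1
        rw [hd, if_neg hw, map_one, map_one, one_mul, e9, mul_assoc (Φ r), sub_self]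
        exact Submodule.zero_mem _
    rw [e2]
    have e11 : S r * ((L.map Φ).prod * E w) * θ d + S r * g * θ d - Φ r * (L.map Φ).prod * E w =
        (S r * ((L.map Φ).prod * E w) * θ d - Φ r * (L.map Φ).prod * E w) + S r * g * θ d := by
      abel
    rw [e11]
    exact Submodule.add_mem _ e4 (GG_right h (GG_S hr ih') d)

section
variable {σ : Equiv.Perm (Fin n)} (Λ : A →ₗ[ℂ] O n)
  (h1 : ∀ a f, Λ (a * θ f) = rn σ f * Λ a)
  (h2 : ∀ a f, Λ (θ f * a) = rn (σ * Fin.revPerm) f * Λ a)

include h1 h2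

theorem Lam_zero (h : SSys D n E θ Φ S) : ∀ k ≤ (cr (Fin.revPerm : Equiv.Perm (Fin n))).card,
    (∀ a ∈ GG E θ Φ S k, Λ a = 0) ∧ ∀ u w a, IsM E θ Φ S k u w a → u ≠ Fin.revPerm →
      Λ a = 0 := by
  intro k
  induction k using Nat.strong_induction_on with
  | _ k ih =>
    intro hk
    have hG : ∀ a ∈ GG E θ Φ S k, Λ a = 0 := by
      intro a ha
      refine GG_ind (k := k) (fun a => Λ a = 0) (map_zero _) ?_ ?_ ?_ ha
      · intro a b ha hb
        rw [map_add, ha, hb, add_zero]
      · intro c a ha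
        rw [map_smul, ha, smul_zero]
      · intro j hj u w a ha
        refine (ih j hj (by omega)).2 u w a ha ?_
        rintro rfl
        have := M_card ha
        omega
    refine ⟨hG, ?_⟩
    intro u w a ha hu
    obtain ⟨j, hj⟩ : ∃ j, Fin.rev (u j) ≠ j := by
      by_contra hcon
      push Not at hcon
      apply hu
      refine Equiv.ext fun j => ?_
      rw [Fin.revPerm_apply, ← hcon j, Fin.rev_rev, hcon j]
    have h3 := hG _ (M_comm h ha (X (u j)))
    rw [map_sub, h1, h2, rn_X, rn_rn, rn_X, ← sub_mul] at h3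
    rcases mul_eq_zero.1 h3 with h4 | h4
    · exfalso
      refine X_ne ?_ h4
      intro e
      apply hj
      have e2 := σ.injective (show σ (Fin.rev (u j)) = σ (u.symm (u j)) from e)
      rwa [Equiv.symm_apply_apply] at e2
    · exact h4

theorem Lam_top (h : SSys D n E θ Φ S) (L : List ℕ) (hL : Red n L)
    (hw : wp n L = Fin.revPerm) (w : Wd D n) :
    Λ ((L.map S).prod * E w) * rn σ (dl Fin.revPerm w) = Λ ((L.map Φ).prod * E w) := by
  have e1 : L.length = (cr (Fin.revPerm : Equiv.Perm (Fin n))).card := by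
    rw [← hL.2, hw]
  have e2 := (Lam_zero Λ h1 h2 h L.length (by omega)).1 _ (top_lem h w L hL)
  rw [map_sub, sub_eq_zero, mul_assoc, h.base.θ_E, ← mul_assoc, h1, hw] at e2
  rw [← e2, mul_comm]

/-- the top coefficient -/
theorem Lam_bind (h : SSys D n E θ Φ S) (w : Wd D n)
    (htop : ∀ L : List ℕ, Red n L → wp n L = Fin.revPerm →
      constantCoeff (Λ ((L.map S).prod * E w)) ≠ 0) (c : Sq n → ℂ) (hc : c ≠ 0) :
    ∃ L : List ℕ, constantCoeff (Λ ((L.map S).prod *
      ((∑ p, c p • ((wq (sqFun p) n).map S).prod) * E w))) ≠ 0 := by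
  classical
  have hsq : ∀ p : Sq n, ∀ j < n, sqFun p j ≤ j := by
    intro p j hj
    unfold sqFun
    rw [dif_pos hj]
    exact Nat.lt_succ_iff.1 (p ⟨j, hj⟩).2
  have hne : (Finset.univ.filter fun p => c p ≠ 0).Nonempty := by
    obtain ⟨p, hp⟩ := Function.ne_iff.1 hc
    exact ⟨p, Finset.mem_filter.2 ⟨Finset.mem_univ _, hp⟩⟩
  obtain ⟨p0, hp0, hmax⟩ := Finset.exists_max_image _
    (fun p : Sq n => (wq (sqFun p) n).length) hne
  have hred : ∀ p : Sq n, Red n (wq (sqFun p) n) := fun p => wq_red _ n le_rfl (hsq p)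
  obtain ⟨L, hL, hLw, hLl⟩ := ex_word
    ((cr (Fin.revPerm : Equiv.Perm (Fin n))).card - (cr (wp n (wq (sqFun p0) n))).card)
    (wp n (wq (sqFun p0) n)) (by have := cr_le_rev (wp n (wq (sqFun p0) n)); omega)
  refine ⟨L, ?_⟩
  have e1 : ∀ p : Sq n, (L.map S).prod * (((wq (sqFun p) n).map S).prod * E w) =
      ((L ++ wq (sqFun p) n).map S).prod * E w := by
    intro p
    rw [List.map_append, List.prod_append, mul_assoc]
  have e2 : (L.map S).prod * ((∑ p, c p • ((wq (sqFun p) n).map S).prod) * E w) =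
      ∑ p, c p • (((L ++ wq (sqFun p) n).map S).prod * E w) := by
    rw [Finset.sum_mul, Finset.mul_sum]
    refine Finset.sum_congr rfl fun p _ => ?_
    rw [smul_mul_assoc, mul_smul_comm, e1]
  have hwp : ∀ p : Sq n, wp n (L ++ wq (sqFun p) n) = wp n L * wp n (wq (sqFun p) n) :=
    fun p => wp_append _ _
  have e3 : ∀ p : Sq n, p ≠ p0 → Λ (c p • (((L ++ wq (sqFun p) n).map S).prod * E w)) = 0 := by
    intro p hp
    by_cases hcp : c p = 0
    · rw [hcp, zero_smul, map_zero]
    · have h3 := hmax p (Finset.mem_filter.2 ⟨Finset.mem_univ _, hcp⟩)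
      have h4 := (hred p0).2
      have h5 := cr_le_rev (wp n (wq (sqFun p0) n))
      have hrg : ∀ r ∈ L ++ wq (sqFun p) n, r + 1 < n := by
        intro r hr
        rcases List.mem_append.1 hr with hr | hr
        · exact hL r hr
        · exact (hred p).1 r hr
      rw [map_smul, (Lam_zero Λ h1 h2 h (L ++ wq (sqFun p) n).length (by
        rw [List.length_append, hLl]
        omega)).2 _ w _ (M_listS _ hrg w), smul_zero]
      intro e
      rw [hwp, ← hLw] at e
      have e' := mul_left_cancel e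
      apply hp
      funext j
      have := wq_inj _ _ n le_rfl (hsq p) (hsq p0) e' j j.2
      unfold sqFun at this
      rw [dif_pos j.2, dif_pos j.2] at this
      exact Fin.ext this
  rw [e2, map_sum, Finset.sum_eq_single p0 (fun p _ hp => e3 p hp)
    (fun hp => absurd (Finset.mem_univ _) hp), map_smul, MvPowerSeries.smul_eq_C_mul, map_mul,
    MvPowerSeries.constantCoeff_C]
  refine mul_ne_zero (Finset.mem_filter.1 hp0).2 (htop _ ⟨?_, ?_⟩ ?_)
  · intro r hr
    rcases List.mem_append.1 hr with hr | hr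
    · exact hL r hr
    · exact (hred p0).1 r hr
  · rw [hwp, hLw, List.length_append, hLl, ← (hred p0).2]
    have := cr_le_rev (wp n (wq (sqFun p0) n))
    omega
  · rw [hwp, hLw]

end

end CA1492.PA
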