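import Mathlib
import Pool.Agent.Lib.MP_ca1492_al.PA.PhiA

/-!
# MP_ca1492_al, PA/PhiB: far relations, braid relations with w_r ≠ w_(r+2) (proofs: docstring of PA/PhiA.lean)
-/

set_option autoImplicit false

namespace CA1492.PA

open MvPowerSeries

variable {D : Dat} {n : ℕ} {A : Type*} [Ring A] [Algebra ℂ A]
  {E : Wd D n → A} {θ : O n →ₐ[ℂ] A} {Φ : ℕ → A} {S : ℕ → A}

theorem PhiB_sw1 (n r : ℕ) (hr : r + 1 < n) : sw n r ⟨r, by omega⟩ = ⟨r + 1, hr⟩ := by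
  simp [sw, hr]

theorem PhiB_sw2 (n r : ℕ) (hr : r + 1 < n) : sw n r ⟨r + 1, hr⟩ = ⟨r, by omega⟩ := by
  simp [sw, hr]

theorem PhiB_sw3 (n r : ℕ) (j : Fin n) (h1 : j.val ≠ r) (h2 : j.val ≠ r + 1) : sw n r j = j := by
  unfold sw
  split_ifs with hr
  · apply Equiv.swap_apply_of_ne_of_ne
    · intro h
      exact h1 (congrArg Fin.val h)
    · intro h
      exact h2 (congrArg Fin.val h)
  · rfl

theorem PhiB_sw_eq (n r : ℕ) (hr : r + 1 < n) (w : Wd D n)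
    (hw : w ⟨r, by omega⟩ = w ⟨r + 1, hr⟩) : w ∘ sw n r = w := by
  funext j
  by_cases h1 : j.val = r
  · have e : j = ⟨r, by omega⟩ := Fin.ext h1
    rw [Function.comp_apply, e, PhiB_sw1 n r hr]
    exact hw.symm
  · by_cases h2 : j.val = r + 1
    · have e : j = ⟨r + 1, hr⟩ := Fin.ext h2
      rw [Function.comp_apply, e, PhiB_sw2 n r hr]
      exact hw
    · rw [Function.comp_apply, PhiB_sw3 n r j h1 h2]

theorem PhiB_X_ne (a b : Fin n) (hab : a ≠ b) : (X a - X b : O n) ≠ 0 := by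
  intro h
  exact hab ((MvPowerSeries.X_inj (R := ℂ)).1 (sub_eq_zero.1 h))

theorem PhiB_rs (n r : ℕ) (a b : Fin n) : rs n r (X a - X b) = X (sw n r a) - X (sw n r b) := by
  rw [map_sub, MvPowerSeries.rename_X, MvPowerSeries.rename_X]

/-- the divisor for the letters at `r, r + 1` -/
noncomputable def PhiB_d (n r : ℕ) (hr : r + 1 < n) (w : Wd D n) : O n :=
  if w ⟨r, by omega⟩ = w ⟨r + 1, hr⟩ then X ⟨r, by omega⟩ - X ⟨r + 1, hr⟩ else 1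

/-- the product of `S r` with the divisor -/
def PhiB_P (Φ : ℕ → A) (r : ℕ) (hr : r + 1 < n) (w : Wd D n) : A :=
  if w ⟨r, by omega⟩ = w ⟨r + 1, hr⟩ then 1 - Φ r else Φ r

theorem PhiB_d_ne (r : ℕ) (hr : r + 1 < n) (w : Wd D n) : PhiB_d n r hr w ≠ 0 := by
  unfold PhiB_d
  split_ifs with h
  · apply PhiB_X_ne
    intro h'
    have := congrArg Fin.val h'
    simp at this
  · exact one_ne_zero

theorem PhiB_S (h : SSys D n E θ Φ S) (r : ℕ) (hr : r + 1 < n) (w : Wd D n) :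
    S r * θ (PhiB_d n r hr w) * E w = PhiB_P Φ r hr w * E w := by
  unfold PhiB_d PhiB_P
  split_ifs with hw
  · exact h.eq r hr w hw
  · rw [map_one, mul_one, h.ne r hr w hw]

theorem PhiB_PE (h : SSys D n E θ Φ S) (r : ℕ) (hr : r + 1 < n) (w : Wd D n) :
    PhiB_P Φ r hr w * E w = E (w ∘ sw n r) * PhiB_P Φ r hr w := by
  unfold PhiB_P
  split_ifs with hw
  · rw [sub_mul, one_mul, h.base.Φ_E, PhiB_sw_eq n r hr w hw, mul_sub, mul_one]
  · exact h.base.Φ_E r w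

theorem PhiB_Pθ (h : SSys D n E θ Φ S) (r : ℕ) (hr : r + 1 < n) (w : Wd D n) (f : O n)
    (hf : rs n r f = f) : PhiB_P Φ r hr w * θ f = θ f * PhiB_P Φ r hr w := by
  unfold PhiB_P
  split_ifs with hw
  · rw [sub_mul, one_mul, h.base.Φ_θ r hr, hf, mul_sub, mul_one]
  · rw [h.base.Φ_θ r hr, hf]

theorem PhiB_two (h : SSys D n E θ Φ S) (r s : ℕ) (hr : r + 1 < n) (hs : s + 1 < n) (w : Wd D n)
    (hd : rs n s (PhiB_d n r hr w) = PhiB_d n r hr w)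
    (hd' : PhiB_d n r hr (w ∘ sw n s) = PhiB_d n r hr w)
    (hP' : PhiB_P Φ r hr (w ∘ sw n s) = PhiB_P Φ r hr w) :
    S r * S s * E w * (θ (PhiB_d n s hs w) * θ (PhiB_d n r hr w)) =
      PhiB_P Φ r hr w * PhiB_P Φ s hs w * E w := by
  calc S r * S s * E w * (θ (PhiB_d n s hs w) * θ (PhiB_d n r hr w))
      = S r * (S s * (E w * θ (PhiB_d n s hs w))) * θ (PhiB_d n r hr w) := by
        simp only [mul_assoc]
    _ = S r * (S s * θ (PhiB_d n s hs w) * E w) * θ (PhiB_d n r hr w) := by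
        rw [← h.base.θ_E, ← mul_assoc (S s)]
    _ = S r * (PhiB_P Φ s hs w * (E w * θ (PhiB_d n r hr w))) := by
        rw [PhiB_S h]
        simp only [mul_assoc]
    _ = S r * ((PhiB_P Φ s hs w * θ (PhiB_d n r hr w)) * E w) := by
        rw [← h.base.θ_E, ← mul_assoc (PhiB_P Φ s hs w)]
    _ = S r * (θ (PhiB_d n r hr w) * (PhiB_P Φ s hs w * E w)) := by
        rw [PhiB_Pθ h s hs w _ hd]
        simp only [mul_assoc]
    _ = (S r * θ (PhiB_d n r hr (w ∘ sw n s)) * E (w ∘ sw n s)) * PhiB_P Φ s hs w := by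
        rw [PhiB_PE h, hd']
        simp only [mul_assoc]
    _ = PhiB_P Φ r hr w * (E (w ∘ sw n s) * PhiB_P Φ s hs w) := by
        rw [PhiB_S h, hP']
        simp only [mul_assoc]
    _ = PhiB_P Φ r hr w * PhiB_P Φ s hs w * E w := by
        rw [← PhiB_PE h, mul_assoc]

theorem PhiB_far (r s : ℕ) (hr : r + 1 < n) (w : Wd D n) (hrs : r + 1 < s ∨ s + 1 < r) :
    rs n s (PhiB_d n r hr w) = PhiB_d n r hr w ∧
    PhiB_d n r hr (w ∘ sw n s) = PhiB_d n r hr w ∧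
    PhiB_P Φ r hr (w ∘ sw n s) = PhiB_P Φ r hr w := by
  have e1 : sw n s ⟨r, by omega⟩ = ⟨r, by omega⟩ :=
    PhiB_sw3 n s _ (by simp only; omega) (by simp only; omega)
  have e2 : sw n s ⟨r + 1, hr⟩ = ⟨r + 1, hr⟩ :=
    PhiB_sw3 n s _ (by simp only; omega) (by simp only; omega)
  refine ⟨?_, ?_, ?_⟩
  · unfold PhiB_d
    split_ifs
    · rw [PhiB_rs, e1, e2]
    · rw [map_one]
  · unfold PhiB_d
    rw [Function.comp_apply, Function.comp_apply, e1, e2]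
  · unfold PhiB_P
    rw [Function.comp_apply, Function.comp_apply, e1, e2]

theorem PhiB_E3 (h : PhiSys D n E θ Φ) (a b c : ℕ) (w : Wd D n) :
    Φ a * Φ b * Φ c * E w = E (((w ∘ sw n c) ∘ sw n b) ∘ sw n a) * (Φ a * (Φ b * Φ c)) := by
  calc Φ a * Φ b * Φ c * E w = Φ a * (Φ b * (Φ c * E w)) := by simp only [mul_assoc]
    _ = Φ a * ((Φ b * E (w ∘ sw n c)) * Φ c) := by rw [h.Φ_E c w, ← mul_assoc (Φ b)]
    _ = (Φ a * E ((w ∘ sw n c) ∘ sw n b)) * (Φ b * Φ c) := by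
        rw [h.Φ_E b]
        simp only [mul_assoc]
    _ = _ := by rw [h.Φ_E a, mul_assoc]

theorem PhiB_sum (h : PhiSys D n E θ Φ) (x : A) (hx : ∀ w, x * E w = 0) : x = 0 := by
  have h1 : x * ∑ w, E w = 0 := by
    rw [Finset.mul_sum]
    exact Finset.sum_eq_zero fun w _ => hx w
  rwa [h.E_sum, mul_one] at h1

/-- `S_far` of `IsRep`: r + 1 < s, s + 1 < n, all cases of letters. -/
theorem S_farr (h : SSys D n E θ Φ S) (r s : ℕ) (hrs : r + 1 < s) : S r * S s = S s * S r := by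
  by_cases hs : s + 1 < n
  · have hr : r + 1 < n := by omega
    refine sub_eq_zero.1 (PhiB_sum h.base _ fun w => ?_)
    obtain ⟨a1, a2, a3⟩ := PhiB_far (Φ := Φ) r s hr w (Or.inl hrs)
    obtain ⟨b1, b2, b3⟩ := PhiB_far (Φ := Φ) s r hs w (Or.inr hrs)
    refine h.base.cancel (PhiB_d n s hs w * PhiB_d n r hr w) _
      (mul_ne_zero (PhiB_d_ne s hs w) (PhiB_d_ne r hr w)) ?_
    have h1 := PhiB_two h r s hr hs w a1 a2 a3
    have h2 := PhiB_two h s r hs hr w b1 b2 b3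
    have h3 : θ (PhiB_d n r hr w) * θ (PhiB_d n s hs w) =
        θ (PhiB_d n s hs w) * θ (PhiB_d n r hr w) := by
      rw [← map_mul, ← map_mul, mul_comm]
    rw [h3] at h2
    rw [map_mul, sub_mul, sub_mul, h1, h2, ← sub_mul]
    have h4 : PhiB_P Φ r hr w * PhiB_P Φ s hs w = PhiB_P Φ s hs w * PhiB_P Φ r hr w := by
      have h5 := h.base.Φ_far r s hrs
      unfold PhiB_P
      split_ifs
      · simp only [sub_mul, mul_sub, one_mul, mul_one, h5]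
        abel
      · rw [sub_mul, mul_sub, h5, one_mul, mul_one]
      · rw [sub_mul, mul_sub, h5, one_mul, mul_one]
      · exact h5
    rw [h4, sub_self, zero_mul]
  · rw [h.out s hs, mul_zero, zero_mul]

theorem PhiB_ne (h : SSys D n E θ Φ S) (r : ℕ) (hr : r + 1 < n) (w : Wd D n)
    (hw : w ⟨r, by omega⟩ ≠ w ⟨r + 1, hr⟩) (x : A) :
    S r * (E w * x) = E (w ∘ sw n r) * (Φ r * x) := by
  rw [← mul_assoc, h.ne r hr w hw, h.base.Φ_E, mul_assoc]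

theorem PhiB_one (h : SSys D n E θ Φ S) (r : ℕ) (hr : r + 1 < n) (w : Wd D n)
    (hw : w ⟨r, by omega⟩ = w ⟨r + 1, hr⟩) (x : A) :
    S r * (θ (X ⟨r, by omega⟩ - X ⟨r + 1, hr⟩) * (E w * x)) = E w * ((1 - Φ r) * x) := by
  rw [← mul_assoc, ← mul_assoc, h.eq r hr w hw, sub_mul, one_mul, h.base.Φ_E,
    PhiB_sw_eq n r hr w hw, sub_mul, sub_mul, one_mul, mul_sub, mul_assoc]

/-- letters `(i, i, k)` -/
theorem PhiB_iik (h : SSys D n E θ Φ S) (r : ℕ) (hr : r + 2 < n) (w : Wd D n)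
    (h1 : w ⟨r, by omega⟩ ≠ w ⟨r + 2, hr⟩)
    (h2 : w ⟨r, by omega⟩ = w ⟨r + 1, by omega⟩) :
    (S (r + 1) * S r * S (r + 1) - S r * S (r + 1) * S r) * E w = 0 := by
  have hr1 : r + 1 < n := by omega
  have hr2 : r + 1 + 1 < n := hr
  refine h.base.cancel (X ⟨r, by omega⟩ - X ⟨r + 1, hr1⟩) _ (by
    apply PhiB_X_ne
    intro h'
    have := congrArg Fin.val h'
    simp at this) ?_
  -- the words
  have a1 : (w ∘ sw n (r + 1)) ⟨r, by omega⟩ = w ⟨r, by omega⟩ := by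
    rw [Function.comp_apply, PhiB_sw3 n (r + 1) _ (by simp only; omega) (by simp only; omega)]
  have a2 : (w ∘ sw n (r + 1)) ⟨r + 1, hr1⟩ = w ⟨r + 2, hr⟩ := by
    rw [Function.comp_apply, PhiB_sw1 n (r + 1) hr2]
  have a3 : (w ∘ sw n (r + 1)) ⟨r + 1 + 1, hr2⟩ = w ⟨r + 1, hr1⟩ := by
    rw [Function.comp_apply, PhiB_sw2 n (r + 1) hr2]
  have b2 : ((w ∘ sw n (r + 1)) ∘ sw n r) ⟨r + 1, hr1⟩ = w ⟨r, by omega⟩ := by
    rw [Function.comp_apply, PhiB_sw2 n r hr1, a1]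
  have b3 : ((w ∘ sw n (r + 1)) ∘ sw n r) ⟨r + 1 + 1, hr2⟩ = w ⟨r + 1, hr1⟩ := by
    rw [Function.comp_apply, PhiB_sw3 n r _ (by simp only; omega) (by simp only; omega), a3]
  have hE : E w * θ (X ⟨r, by omega⟩ - X ⟨r + 1, hr1⟩) =
      θ (X ⟨r, by omega⟩ - X ⟨r + 1, hr1⟩) * E w := (h.base.θ_E _ _).symm
  have hne1 : w ⟨r + 1, hr1⟩ ≠ w ⟨r + 1 + 1, hr2⟩ := fun h' => h1 (h2.trans h')
  -- first path
  have p1 : S (r + 1) * S r * S (r + 1) * E w * θ (X ⟨r, by omega⟩ - X ⟨r + 1, hr1⟩) =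
      E ((w ∘ sw n (r + 1)) ∘ sw n r) * ((1 - Φ (r + 1)) * (Φ r * Φ (r + 1))) := by
    have c1 : S (r + 1) * S r * S (r + 1) * E w * θ (X ⟨r, by omega⟩ - X ⟨r + 1, hr1⟩) =
        S (r + 1) * (S r * (S (r + 1) * (E w * θ (X ⟨r, by omega⟩ - X ⟨r + 1, hr1⟩)))) := by
      simp only [mul_assoc]
    have c2 : Φ (r + 1) * θ (X ⟨r, by omega⟩ - X ⟨r + 1, hr1⟩) =
        θ (X ⟨r, by omega⟩ - X ⟨r + 1 + 1, hr2⟩) * Φ (r + 1) := by
      rw [h.base.Φ_θ (r + 1) hr2, PhiB_rs, PhiB_sw1 n (r + 1) hr2,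
        PhiB_sw3 n (r + 1) _ (by simp only; omega) (by simp only; omega)]
    have c3 : Φ r * θ (X ⟨r, by omega⟩ - X ⟨r + 1 + 1, hr2⟩) =
        θ (X ⟨r + 1, hr1⟩ - X ⟨r + 1 + 1, hr2⟩) * Φ r := by
      rw [h.base.Φ_θ r hr1, PhiB_rs, PhiB_sw1 n r hr1, PhiB_sw3 n r _ (by simp only; omega) (by simp only; omega)]
    rw [c1, PhiB_ne h (r + 1) hr2 w hne1, PhiB_ne h r hr1 _ (by rw [a1, a2]; exact h1), c2,
      ← mul_assoc (Φ r), c3, mul_assoc, ← mul_assoc (E _), ← h.base.θ_E, mul_assoc,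
      PhiB_one h (r + 1) hr2 _ (by rw [b2, b3]; exact h2)]
  have p2 : S r * S (r + 1) * S r * E w * θ (X ⟨r, by omega⟩ - X ⟨r + 1, hr1⟩) =
      E ((w ∘ sw n (r + 1)) ∘ sw n r) * (Φ r * (Φ (r + 1) * (1 - Φ r))) := by
    have c1 : S r * S (r + 1) * S r * E w * θ (X ⟨r, by omega⟩ - X ⟨r + 1, hr1⟩) =
        S r * (S (r + 1) * (S r * (θ (X ⟨r, by omega⟩ - X ⟨r + 1, hr1⟩) * (E w * 1)))) := by
      rw [mul_one, ← hE]
      simp only [mul_assoc]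
    rw [c1, PhiB_one h r hr1 w h2, PhiB_ne h (r + 1) hr2 w hne1,
      PhiB_ne h r hr1 _ (by rw [a1, a2]; exact h1), mul_one]
  have h5 : (1 - Φ (r + 1)) * (Φ r * Φ (r + 1)) = Φ r * (Φ (r + 1) * (1 - Φ r)) := by
    have h6 := h.base.Φ_braid r hr
    rw [sub_mul, one_mul, mul_sub, mul_sub, mul_one, ← mul_assoc, ← mul_assoc (Φ r), h6]
  rw [sub_mul, sub_mul, p1, p2, h5, sub_self]

/-- letters `(i, k, k)` -/
theorem PhiB_ikk (h : SSys D n E θ Φ S) (r : ℕ) (hr : r + 2 < n) (w : Wd D n)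
    (h1 : w ⟨r, by omega⟩ ≠ w ⟨r + 2, hr⟩)
    (h2 : w ⟨r + 1, by omega⟩ = w ⟨r + 2, hr⟩) :
    (S (r + 1) * S r * S (r + 1) - S r * S (r + 1) * S r) * E w = 0 := by
  have hr1 : r + 1 < n := by omega
  have hr2 : r + 1 + 1 < n := hr
  refine h.base.cancel (X ⟨r + 1, hr1⟩ - X ⟨r + 1 + 1, hr2⟩) _ (by
    apply PhiB_X_ne
    intro h'
    have := congrArg Fin.val h'
    simp at this) ?_
  have a1 : (w ∘ sw n r) ⟨r, by omega⟩ = w ⟨r + 1, hr1⟩ := by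
    rw [Function.comp_apply, PhiB_sw1 n r hr1]
  have a2 : (w ∘ sw n r) ⟨r + 1, hr1⟩ = w ⟨r, by omega⟩ := by
    rw [Function.comp_apply, PhiB_sw2 n r hr1]
  have a3 : (w ∘ sw n r) ⟨r + 1 + 1, hr2⟩ = w ⟨r + 2, hr⟩ := by
    rw [Function.comp_apply, PhiB_sw3 n r _ (by simp only; omega) (by simp only; omega)]
  have b1 : ((w ∘ sw n r) ∘ sw n (r + 1)) ⟨r, by omega⟩ = w ⟨r + 1, hr1⟩ := by
    rw [Function.comp_apply, PhiB_sw3 n (r + 1) _ (by simp only; omega) (by simp only; omega), a1]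
  have b2 : ((w ∘ sw n r) ∘ sw n (r + 1)) ⟨r + 1, hr1⟩ = w ⟨r + 2, hr⟩ := by
    rw [Function.comp_apply, PhiB_sw1 n (r + 1) hr2, a3]
  have hE : E w * θ (X ⟨r + 1, hr1⟩ - X ⟨r + 1 + 1, hr2⟩) =
      θ (X ⟨r + 1, hr1⟩ - X ⟨r + 1 + 1, hr2⟩) * E w := (h.base.θ_E _ _).symm
  have hne1 : w ⟨r, by omega⟩ ≠ w ⟨r + 1, hr1⟩ := fun h' => h1 (h'.trans h2)
  have p1 : S r * S (r + 1) * S r * E w * θ (X ⟨r + 1, hr1⟩ - X ⟨r + 1 + 1, hr2⟩) =
      E ((w ∘ sw n r) ∘ sw n (r + 1)) * ((1 - Φ r) * (Φ (r + 1) * Φ r)) := by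
    have c1 : S r * S (r + 1) * S r * E w * θ (X ⟨r + 1, hr1⟩ - X ⟨r + 1 + 1, hr2⟩) =
        S r * (S (r + 1) * (S r * (E w * θ (X ⟨r + 1, hr1⟩ - X ⟨r + 1 + 1, hr2⟩)))) := by
      simp only [mul_assoc]
    have c2 : Φ r * θ (X ⟨r + 1, hr1⟩ - X ⟨r + 1 + 1, hr2⟩) =
        θ (X ⟨r, by omega⟩ - X ⟨r + 1 + 1, hr2⟩) * Φ r := by
      rw [h.base.Φ_θ r hr1, PhiB_rs, PhiB_sw2 n r hr1, PhiB_sw3 n r _ (by simp only; omega) (by simp only; omega)]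
    have c3 : Φ (r + 1) * θ (X ⟨r, by omega⟩ - X ⟨r + 1 + 1, hr2⟩) =
        θ (X ⟨r, by omega⟩ - X ⟨r + 1, hr1⟩) * Φ (r + 1) := by
      rw [h.base.Φ_θ (r + 1) hr2, PhiB_rs, PhiB_sw2 n (r + 1) hr2,
        PhiB_sw3 n (r + 1) _ (by simp only; omega) (by simp only; omega)]
    rw [c1, PhiB_ne h r hr1 w hne1, PhiB_ne h (r + 1) hr2 _ (by rw [a2, a3]; exact h1), c2,
      ← mul_assoc (Φ (r + 1)), c3, mul_assoc, ← mul_assoc (E _), ← h.base.θ_E, mul_assoc,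
      PhiB_one h r hr1 _ (by rw [b1, b2]; exact h2)]
  have p2 : S (r + 1) * S r * S (r + 1) * E w * θ (X ⟨r + 1, hr1⟩ - X ⟨r + 1 + 1, hr2⟩) =
      E ((w ∘ sw n r) ∘ sw n (r + 1)) * (Φ (r + 1) * (Φ r * (1 - Φ (r + 1)))) := by
    have c1 : S (r + 1) * S r * S (r + 1) * E w * θ (X ⟨r + 1, hr1⟩ - X ⟨r + 1 + 1, hr2⟩) =
        S (r + 1) * (S r * (S (r + 1) * (θ (X ⟨r + 1, hr1⟩ - X ⟨r + 1 + 1, hr2⟩) *
          (E w * 1)))) := by
      rw [mul_one, ← hE]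
      simp only [mul_assoc]
    rw [c1, PhiB_one h (r + 1) hr2 w h2, PhiB_ne h r hr1 w hne1,
      PhiB_ne h (r + 1) hr2 _ (by rw [a2, a3]; exact h1), mul_one]
  have h5 : (1 - Φ r) * (Φ (r + 1) * Φ r) = Φ (r + 1) * (Φ r * (1 - Φ (r + 1))) := by
    have h6 := h.base.Φ_braid r hr
    rw [sub_mul, one_mul, mul_sub, mul_sub, mul_one, ← mul_assoc, ← mul_assoc (Φ (r + 1)), h6]
  rw [sub_mul, sub_mul, p1, p2, h5, sub_self]

/-- braid, the other cases: w_r ≠ w_(r+2) -/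
theorem braid_other (h : SSys D n E θ Φ S) (r : ℕ) (hr : r + 2 < n) (w : Wd D n)
    (h1 : w ⟨r, by omega⟩ ≠ w ⟨r + 2, hr⟩) :
    (S (r + 1) * S r * S (r + 1) - S r * S (r + 1) * S r) * E w = 0 := by
  by_cases h2 : w ⟨r, by omega⟩ = w ⟨r + 1, by omega⟩
  · exact PhiB_iik h r hr w h1 h2
  · by_cases h3 : w ⟨r + 1, by omega⟩ = w ⟨r + 2, hr⟩
    · exact PhiB_ikk h r hr w h1 h3
    · have hr1 : r + 1 < n := by omega
      have hr2 : r + 1 + 1 < n := hr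
      have a1 : (w ∘ sw n (r + 1)) ⟨r, by omega⟩ = w ⟨r, by omega⟩ := by
        rw [Function.comp_apply, PhiB_sw3 n (r + 1) _ (by simp only; omega) (by simp only; omega)]
      have a2 : (w ∘ sw n (r + 1)) ⟨r + 1, hr1⟩ = w ⟨r + 2, hr⟩ := by
        rw [Function.comp_apply, PhiB_sw1 n (r + 1) hr2]
      have a3 : (w ∘ sw n (r + 1)) ⟨r + 1 + 1, hr2⟩ = w ⟨r + 1, hr1⟩ := by
        rw [Function.comp_apply, PhiB_sw2 n (r + 1) hr2]
      have b2 : ((w ∘ sw n (r + 1)) ∘ sw n r) ⟨r + 1, hr1⟩ = w ⟨r, by omega⟩ := by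
        rw [Function.comp_apply, PhiB_sw2 n r hr1, a1]
      have b3 : ((w ∘ sw n (r + 1)) ∘ sw n r) ⟨r + 1 + 1, hr2⟩ = w ⟨r + 1, hr1⟩ := by
        rw [Function.comp_apply, PhiB_sw3 n r _ (by simp only; omega) (by simp only; omega), a3]
      have c1 : (w ∘ sw n r) ⟨r, by omega⟩ = w ⟨r + 1, hr1⟩ := by
        rw [Function.comp_apply, PhiB_sw1 n r hr1]
      have c2 : (w ∘ sw n r) ⟨r + 1, hr1⟩ = w ⟨r, by omega⟩ := by
        rw [Function.comp_apply, PhiB_sw2 n r hr1]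
      have c3 : (w ∘ sw n r) ⟨r + 1 + 1, hr2⟩ = w ⟨r + 2, hr⟩ := by
        rw [Function.comp_apply, PhiB_sw3 n r _ (by simp only; omega) (by simp only; omega)]
      have d1 : ((w ∘ sw n r) ∘ sw n (r + 1)) ⟨r, by omega⟩ = w ⟨r + 1, hr1⟩ := by
        rw [Function.comp_apply, PhiB_sw3 n (r + 1) _ (by simp only; omega) (by simp only; omega), c1]
      have d2 : ((w ∘ sw n r) ∘ sw n (r + 1)) ⟨r + 1, hr1⟩ = w ⟨r + 2, hr⟩ := by
        rw [Function.comp_apply, PhiB_sw1 n (r + 1) hr2, c3]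
      have p1 : S (r + 1) * S r * S (r + 1) * E w = Φ (r + 1) * Φ r * Φ (r + 1) * E w := by
        have q1 : S (r + 1) * S r * S (r + 1) * E w =
            S (r + 1) * (S r * (S (r + 1) * (E w * 1))) := by
          rw [mul_one]
          simp only [mul_assoc]
        rw [q1, PhiB_ne h (r + 1) hr2 w h3, PhiB_ne h r hr1 _ (by rw [a1, a2]; exact h1),
          PhiB_ne h (r + 1) hr2 _ (by rw [b2, b3]; exact h2), mul_one, PhiB_E3 h.base]
      have p2 : S r * S (r + 1) * S r * E w = Φ r * Φ (r + 1) * Φ r * E w := by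
        have q1 : S r * S (r + 1) * S r * E w = S r * (S (r + 1) * (S r * (E w * 1))) := by
          rw [mul_one]
          simp only [mul_assoc]
        rw [q1, PhiB_ne h r hr1 w h2, PhiB_ne h (r + 1) hr2 _ (by rw [c2, c3]; exact h1),
          PhiB_ne h r hr1 _ (by rw [d1, d2]; exact h3), mul_one, PhiB_E3 h.base]
      rw [sub_mul, p1, p2, h.base.Φ_braid r hr, sub_self]

end CA1492.PA
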