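import Mathlib
import Pool.Agent.Lib.MP_ca1492_al.PA.PhiA

/-!
# MP_ca1492_al, PA/PhiC: braid relations with w_r = w_(r+2) (proofs: docstring of PA/PhiA.lean)
-/

set_option autoImplicit false

namespace CA1492.PA

open MvPowerSeries

/-! ### Computations in a ring -/

section

variable {A : Type*} [Ring A]

theorem PhiC_pm {x y e : A} (ee : e * e = e) (hy : y * e = e * y) :
    x * e * (y * e) = x * y * e := by
  rw [mul_assoc x e, ← mul_assoc e y e, ← hy, mul_assoc y e e, ee, ← mul_assoc]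

/-- one side of the braid relation for equal letters -/
theorem PhiC_half (e s t p q a b c : A) (se : s * e = s) (ce : c * e = c)
    (eb : e * b = b) (H1 : s * a = e - p) (H2 : t * b = e - q) (Pb : p * b = c * p)
    (Pc : p * c = b * p) (Qc : q * c = a * q) (Sp : s * p = s) (habc : c = a + b)
    (bc : b * c = c * b) :
    s * t * s * (a * (b * c)) = (e - p) - (e - p) * q * (e - p) := by
  have k1 : (e - p) * (b * c) = b * (c * (e - p)) := by
    rw [sub_mul, mul_sub, mul_sub, ← mul_assoc e, eb, ce, ← mul_assoc p b c, Pb, mul_assoc c p c,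
      Pc, ← mul_assoc c b p, ← bc, mul_assoc b c p]
  have k2 : s * (e - q) * c = s * c - (e - p) * q := by
    rw [mul_sub, sub_mul, se, mul_assoc s q c, Qc, ← mul_assoc, H1]
  have k3 : s * c * (e - p) = e - p := by
    rw [mul_sub, mul_assoc s c e, ce, mul_assoc s c p, ← Pb, ← mul_assoc, Sp, ← mul_sub]
    have : c - b = a := by rw [habc]; abel
    rw [this, H1]
  calc s * t * s * (a * (b * c)) = s * t * ((s * a) * (b * c)) := by simp only [mul_assoc]
    _ = s * t * (b * (c * (e - p))) := by rw [H1, k1]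
    _ = s * (t * b) * c * (e - p) := by simp only [mul_assoc]
    _ = s * c * (e - p) - (e - p) * q * (e - p) := by rw [H2, k2, sub_mul]
    _ = _ := by rw [k3]

/-- braid relation for equal letters -/
theorem PhiC_full (e s t p q a b c : A) (se : s * e = s) (te : t * e = t)
    (pe : p * e = p) (ep : e * p = p) (qe : q * e = q) (eq : e * q = q)
    (ce : c * e = c) (eb : e * b = b) (ea : e * a = a) (H1 : s * a = e - p) (H2 : t * b = e - q)
    (Pb : p * b = c * p) (Pc : p * c = b * p) (Qa : q * a = c * q) (Qc : q * c = a * q)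
    (Sp : s * p = s) (Tq : t * q = t) (habc : c = a + b) (ab : a * b = b * a)
    (bc : b * c = c * b) (ac : a * c = c * a) (br : q * p * q = p * q * p) :
    (t * s * t - s * t * s) * (a * (b * c)) = 0 := by
  have h1 := PhiC_half e s t p q a b c se ce eb H1 H2 Pb Pc Qc Sp habc bc
  have h2 := PhiC_half e t s q p b a c te ce ea H2 H1 Qa Qc Pc Tq (by rw [habc]; abel) ac
  have h3 : a * (b * c) = b * (a * c) := by rw [← mul_assoc, ab, mul_assoc]
  rw [sub_mul, h1, h3, h2]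
  have e1 : (e - q) * p * (e - q) = p - q * p - (p * q - q * p * q) := by
    simp only [sub_mul, mul_sub, ep, mul_assoc, pe]
  have e2 : (e - p) * q * (e - p) = q - p * q - (q * p - p * q * p) := by
    simp only [sub_mul, mul_sub, eq, mul_assoc, qe]
  rw [e1, e2, br]
  abel

/-- one side of the braid relation for the letters (i,j,i) -/
theorem PhiC_iji (e e1 s t P Q c a : A) (te : t * e = Q * e) (Qe : Q * e = e1 * Q)
    (Qc : Q * c = a * Q) (ce : e * c = c * e) (sa : s * a * e1 = (1 - P) * e1)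
    (Pe1 : P * e1 = e1 * P) (te1 : t * e1 = Q * e1) :
    t * s * t * e * c = Q * (1 - P) * Q * e := by
  have k : (1 - P) * e1 = e1 * (1 - P) := by rw [sub_mul, mul_sub, one_mul, mul_one, Pe1]
  calc t * s * t * e * c = t * s * (t * e) * c := by simp only [mul_assoc]
    _ = t * s * (Q * (e * c)) := by rw [te]; simp only [mul_assoc]
    _ = t * s * (Q * c * e) := by rw [ce]; simp only [mul_assoc]
    _ = t * s * (a * (Q * e)) := by rw [Qc]; simp only [mul_assoc]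
    _ = t * (s * a * e1) * Q := by rw [Qe]; simp only [mul_assoc]
    _ = t * e1 * (1 - P) * Q := by rw [sa, k]; simp only [mul_assoc]
    _ = Q * (e1 * (1 - P)) * Q := by rw [te1]; simp only [mul_assoc]
    _ = Q * (1 - P) * (e1 * Q) := by rw [← k]; simp only [mul_assoc]
    _ = Q * (1 - P) * Q * e := by rw [← Qe]; simp only [mul_assoc]

end

variable {D : Dat} {n : ℕ} {A : Type*} [Ring A] [Algebra ℂ A]
  {E : Wd D n → A} {θ : O n →ₐ[ℂ] A} {Φ : ℕ → A} {S : ℕ → A}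

theorem PhiC_sw_left (r : ℕ) (h : r + 1 < n) : sw n r ⟨r, by omega⟩ = ⟨r + 1, h⟩ := by
  rw [sw, dif_pos h, Equiv.swap_apply_left]

theorem PhiC_sw_right (r : ℕ) (h : r + 1 < n) : sw n r ⟨r + 1, h⟩ = ⟨r, by omega⟩ := by
  rw [sw, dif_pos h, Equiv.swap_apply_right]

theorem PhiC_sw_ne (r : ℕ) (k : Fin n) (h1 : k.1 ≠ r) (h2 : k.1 ≠ r + 1) : sw n r k = k := by
  by_cases h : r + 1 < n
  · rw [sw, dif_pos h, Equiv.swap_apply_of_ne_of_ne]
    · intro hk
      exact h1 (congrArg Fin.val hk)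
    · intro hk
      exact h2 (congrArg Fin.val hk)
  · rw [sw, dif_neg h]
    rfl

theorem PhiC_X_ne {i j : Fin n} (h : i ≠ j) : (X i - X j : O n) ≠ 0 := by
  rw [sub_ne_zero]
  intro h'
  exact h (MvPowerSeries.X_inj.1 h')

theorem PhiC_comp (r : ℕ) (hr : r + 1 < n) (w : Wd D n)
    (hw : w ⟨r, by omega⟩ = w ⟨r + 1, hr⟩) : w ∘ sw n r = w := by
  funext k
  change w (sw n r k) = w k
  by_cases h1 : k.1 = r
  · have : k = ⟨r, by omega⟩ := Fin.ext h1
    rw [this, PhiC_sw_left r hr]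
    exact hw.symm
  · by_cases h2 : k.1 = r + 1
    · have : k = ⟨r + 1, hr⟩ := Fin.ext h2
      rw [this, PhiC_sw_right r hr]
      exact hw
    · rw [PhiC_sw_ne r k h1 h2]

theorem PhiC_ee (h : PhiSys D n E θ Φ) (w : Wd D n) : E w * E w = E w := by
  rw [h.E_mul, if_pos rfl]

/-- braid, letters (i,i,i) -/
theorem braid_iii (h : SSys D n E θ Φ S) (r : ℕ) (hr : r + 2 < n) (w : Wd D n)
    (h1 : w ⟨r, by omega⟩ = w ⟨r + 1, by omega⟩) (h2 : w ⟨r + 1, by omega⟩ = w ⟨r + 2, hr⟩) :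
    (S (r + 1) * S r * S (r + 1) - S r * S (r + 1) * S r) * E w = 0 := by
  have hr1 : r + 1 < n := by omega
  have hr2 : r + 1 + 1 < n := hr
  have c1 := PhiC_comp r hr1 w h1
  have c2 := PhiC_comp (r + 1) hr2 w h2
  have ee := PhiC_ee h.base w
  have Se : S r * E w = E w * S r := by rw [h.SE r w, c1]
  have Te : S (r + 1) * E w = E w * S (r + 1) := by rw [h.SE (r + 1) w, c2]
  have Pe : Φ r * E w = E w * Φ r := by rw [h.base.Φ_E r w, c1]
  have Qe : Φ (r + 1) * E w = E w * Φ (r + 1) := by rw [h.base.Φ_E (r + 1) w, c2]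
  have θe : ∀ f, θ f * E w = E w * θ f := fun f => h.base.θ_E f w
  set a : O n := X ⟨r, by omega⟩ - X ⟨r + 1, hr1⟩ with ha
  set b : O n := X ⟨r + 1, hr1⟩ - X ⟨r + 2, hr⟩ with hb
  set c : O n := X ⟨r, by omega⟩ - X ⟨r + 2, hr⟩ with hc
  have hne : ∀ x : A, x * E w * (E w) = x * E w := fun x => by rw [mul_assoc, ee]
  have hen : ∀ x : A, x * E w = E w * x → E w * (x * E w) = x * E w := fun x hx => by
    rw [← mul_assoc, ← hx, mul_assoc, ee]
  have rsb : rs n r b = c := by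
    rw [hb, hc, map_sub, MvPowerSeries.rename_X, MvPowerSeries.rename_X, PhiC_sw_right r hr1,
      PhiC_sw_ne r ⟨r + 2, hr⟩ (by dsimp only; omega) (by dsimp only; omega)]
  have rsc : rs n r c = b := by
    rw [hb, hc, map_sub, MvPowerSeries.rename_X, MvPowerSeries.rename_X, PhiC_sw_left r hr1,
      PhiC_sw_ne r ⟨r + 2, hr⟩ (by dsimp only; omega) (by dsimp only; omega)]
  have rsa' : rs n (r + 1) a = c := by
    rw [ha, hc, map_sub, MvPowerSeries.rename_X, MvPowerSeries.rename_X,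
      PhiC_sw_left (r + 1) hr2, PhiC_sw_ne (r + 1) ⟨r, by omega⟩ (by dsimp only; omega) (by dsimp only; omega)]
  have rsc' : rs n (r + 1) c = a := by
    rw [ha, hc, map_sub, MvPowerSeries.rename_X, MvPowerSeries.rename_X]
    have := PhiC_sw_right (r + 1) hr2
    rw [show (⟨r + 2, hr⟩ : Fin n) = ⟨r + 1 + 1, hr2⟩ from rfl, this,
      PhiC_sw_ne (r + 1) ⟨r, by omega⟩ (by dsimp only; omega) (by dsimp only; omega)]
  have habc : c = a + b := by
    rw [ha, hb, hc]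
    ring
  have key := PhiC_full (E w) (S r * E w) (S (r + 1) * E w) (Φ r * E w) (Φ (r + 1) * E w)
    (θ a * E w) (θ b * E w) (θ c * E w) (hne _) (hne _) (hne _) (hen _ Pe) (hne _)
    (hen _ Qe) (hne _) (hen _ (θe b)) (hen _ (θe a))
    (by rw [PhiC_pm ee (θe a), h.eq r hr1 w h1, sub_mul, one_mul])
    (by rw [PhiC_pm ee (θe b), h.eq (r + 1) hr2 w h2, sub_mul, one_mul])
    (by rw [PhiC_pm ee (θe b), PhiC_pm ee Pe, h.base.Φ_θ r hr1, rsb])
    (by rw [PhiC_pm ee (θe c), PhiC_pm ee Pe, h.base.Φ_θ r hr1, rsc])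
    (by rw [PhiC_pm ee (θe a), PhiC_pm ee Qe, h.base.Φ_θ (r + 1) hr2, rsa'])
    (by rw [PhiC_pm ee (θe c), PhiC_pm ee Qe, h.base.Φ_θ (r + 1) hr2, rsc'])
    (by rw [PhiC_pm ee Pe, S_Phi h r hr1 w h1])
    (by rw [PhiC_pm ee Qe, S_Phi h (r + 1) hr2 w h2])
    (by rw [habc, map_add, add_mul])
    (by rw [PhiC_pm ee (θe b), PhiC_pm ee (θe a), ← map_mul, ← map_mul, mul_comm])
    (by rw [PhiC_pm ee (θe b), PhiC_pm ee (θe c), ← map_mul, ← map_mul, mul_comm])
    (by rw [PhiC_pm ee (θe c), PhiC_pm ee (θe a), ← map_mul, ← map_mul, mul_comm])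
    (by rw [PhiC_pm ee Pe, PhiC_pm ee Qe, PhiC_pm ee Qe, PhiC_pm ee Pe, h.base.Φ_braid r hr])
  rw [PhiC_pm ee Se, PhiC_pm ee Te, PhiC_pm ee Te, PhiC_pm ee Se, PhiC_pm ee (θe c), ← sub_mul]
    at key
  rw [PhiC_pm ee (by rw [mul_assoc, θe c, ← mul_assoc, θe b, mul_assoc]), ] at key
  set x := (S (r + 1) * S r * S (r + 1) - S r * S (r + 1) * S r) * E w with hx
  refine h.base.cancel a x (PhiC_X_ne (by simp [Fin.ext_iff])) ?_
  refine h.base.cancel b _ (PhiC_X_ne (by simp [Fin.ext_iff])) ?_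
  refine h.base.cancel c _ (PhiC_X_ne (by simp [Fin.ext_iff])) ?_
  have e1 : θ a * (θ b * θ c) * E w = E w * (θ a * (θ b * θ c)) := by
    rw [← map_mul, ← map_mul, θe]
  rw [e1, ← mul_assoc x, hx, hne, ← hx] at key
  rw [← key]
  simp only [mul_assoc]

/-- braid, letters (i,j,i) -/
theorem braid_iji (h : SSys D n E θ Φ S) (r : ℕ) (hr : r + 2 < n) (w : Wd D n)
    (h1 : w ⟨r, by omega⟩ ≠ w ⟨r + 1, by omega⟩) (h2 : w ⟨r, by omega⟩ = w ⟨r + 2, hr⟩) :
    (S (r + 1) * S r * S (r + 1) - S r * S (r + 1) * S r) * E w =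
      (if D.arr (w ⟨r, by omega⟩) (w ⟨r + 1, by omega⟩) = true then (-1 : ℂ)
         else if D.arr (w ⟨r + 1, by omega⟩) (w ⟨r, by omega⟩) = true then 1 else 0) • E w := by
  have hr1 : r + 1 < n := by omega
  have hr2 : r + 1 + 1 < n := hr
  have θe : ∀ f, θ f * E w = E w * θ f := fun f => h.base.θ_E f w
  set a : O n := X ⟨r, by omega⟩ - X ⟨r + 1, hr1⟩ with ha
  set b : O n := X ⟨r + 1, hr1⟩ - X ⟨r + 2, hr⟩ with hb
  set c : O n := X ⟨r, by omega⟩ - X ⟨r + 2, hr⟩ with hc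
  have sl := PhiC_sw_left (n := n) r hr1
  have sr := PhiC_sw_right (n := n) r hr1
  have sn := PhiC_sw_ne (n := n) r ⟨r + 2, hr⟩ (by dsimp only; omega) (by dsimp only; omega)
  have sl' : sw n (r + 1) ⟨r + 1, hr1⟩ = ⟨r + 2, hr⟩ := PhiC_sw_left (n := n) (r + 1) hr2
  have sr' : sw n (r + 1) ⟨r + 2, hr⟩ = ⟨r + 1, hr1⟩ := PhiC_sw_right (n := n) (r + 1) hr2
  have sn' := PhiC_sw_ne (n := n) (r + 1) ⟨r, by omega⟩ (by dsimp only; omega)
    (by dsimp only; omega)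
  have rsc : rs n r c = b := by
    rw [hb, hc, map_sub, MvPowerSeries.rename_X, MvPowerSeries.rename_X, sl, sn]
  have rsc' : rs n (r + 1) c = a := by
    rw [ha, hc, map_sub, MvPowerSeries.rename_X, MvPowerSeries.rename_X, sr', sn']
  have habc : c = a + b := by
    rw [ha, hb, hc]
    ring
  set w1 : Wd D n := w ∘ sw n (r + 1) with hw1
  set w2 : Wd D n := w ∘ sw n r with hw2
  have a1 : w1 ⟨r, by omega⟩ = w ⟨r, by omega⟩ := congrArg w sn'
  have b1 : w1 ⟨r + 1, hr1⟩ = w ⟨r + 2, hr⟩ := congrArg w sl'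
  have c1 : w1 ⟨r + 2, hr⟩ = w ⟨r + 1, hr1⟩ := congrArg w sr'
  have a2 : w2 ⟨r, by omega⟩ = w ⟨r + 1, hr1⟩ := congrArg w sl
  have b2 : w2 ⟨r + 1, hr1⟩ = w ⟨r, by omega⟩ := congrArg w sr
  have c2 : w2 ⟨r + 2, hr⟩ = w ⟨r + 2, hr⟩ := congrArg w sn
  have h3 : w ⟨r + 1, hr1⟩ ≠ w ⟨r + 2, hr⟩ := by
    rw [← h2]
    exact h1.symm
  have e1 : w1 ⟨r, by omega⟩ = w1 ⟨r + 1, hr1⟩ := by rw [a1, b1, h2]
  have e2 : w2 ⟨r + 1, hr1⟩ = w2 ⟨r + 2, hr⟩ := by rw [b2, c2, h2]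
  have A1 := PhiC_iji (E w) (E w1) (S r) (S (r + 1)) (Φ r) (Φ (r + 1)) (θ c) (θ a)
    (h.ne (r + 1) hr2 w h3) (h.base.Φ_E (r + 1) w)
    (by rw [h.base.Φ_θ (r + 1) hr2, rsc']) (θe c).symm (h.eq r hr1 w1 e1)
    (by rw [h.base.Φ_E r w1, PhiC_comp r hr1 w1 e1])
    (h.ne (r + 1) hr2 w1 (by
      change w1 ⟨r + 1, hr1⟩ ≠ w1 ⟨r + 2, hr⟩
      rw [b1, c1]
      exact h3.symm))
  have A2 := PhiC_iji (E w) (E w2) (S (r + 1)) (S r) (Φ (r + 1)) (Φ r) (θ c) (θ b)
    (h.ne r hr1 w h1) (h.base.Φ_E r w)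
    (by rw [h.base.Φ_θ r hr1, rsc]) (θe c).symm (h.eq (r + 1) hr2 w2 e2)
    (by rw [h.base.Φ_E (r + 1) w2, PhiC_comp (r + 1) hr2 w2 e2])
    (h.ne r hr1 w2 (by
      rw [a2, b2]
      exact h1.symm))
  have hPP := h.base.Φ_Φ r hr1 w
  have hQQ := h.base.Φ_Φ (r + 1) hr2 w
  have hdiff : (S (r + 1) * S r * S (r + 1) - S r * S (r + 1) * S r) * E w * θ c =
      Φ (r + 1) * Φ (r + 1) * E w - Φ r * Φ r * E w := by
    rw [sub_mul, sub_mul, A1, A2, mul_sub, mul_sub, mul_one, mul_one, sub_mul, sub_mul, sub_mul,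
      sub_mul, h.base.Φ_braid r hr]
    abel
  rw [if_neg h1] at hPP
  rw [if_neg h3] at hQQ
  rw [← sub_eq_zero]
  refine h.base.cancel c _ (PhiC_X_ne (by simp [Fin.ext_iff])) ?_
  rw [sub_mul, hdiff, smul_mul_assoc, ← θe c]
  change Φ (r + 1) * Φ (r + 1) * E w = (if D.arr (w ⟨r + 1, hr1⟩) (w ⟨r + 2, hr⟩) = true then
        θ b * E w
      else if D.arr (w ⟨r + 2, hr⟩) (w ⟨r + 1, hr1⟩) = true then
        θ (X ⟨r + 2, hr⟩ - X ⟨r + 1, hr1⟩) * E w
      else E w) at hQQ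
  rw [← h2] at hQQ
  have hb' : (X ⟨r + 2, hr⟩ - X ⟨r + 1, hr1⟩ : O n) = -b := by rw [hb]; ring
  have ha' : (X ⟨r + 1, hr1⟩ - X ⟨r, by omega⟩ : O n) = -a := by rw [ha]; ring
  rw [hb'] at hQQ
  rw [ha'] at hPP
  by_cases g1 : D.arr (w ⟨r, by omega⟩) (w ⟨r + 1, hr1⟩) = true
  · have g2 := D.asym _ _ g1
    rw [if_pos g1] at hPP
    rw [if_neg (by rw [g2]; exact Bool.false_ne_true), if_pos g1] at hQQ
    rw [if_pos g1, hPP, hQQ, habc, map_neg, map_add, add_mul, neg_one_smul, neg_mul]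
    abel
  · rw [if_neg g1] at hPP ⊢
    by_cases g2 : D.arr (w ⟨r + 1, hr1⟩) (w ⟨r, by omega⟩) = true
    · rw [if_pos g2] at hPP hQQ ⊢
      rw [hPP, hQQ, habc, map_neg, map_add, add_mul, one_smul, neg_mul]
      abel
    · rw [if_neg g2] at hPP hQQ ⊢
      rw [if_neg g1] at hQQ
      rw [hPP, hQQ, zero_smul]
      abel

end CA1492.PA
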