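import Mathlib
import Pool.Agent.Lib.MP_ca1492_al.PA.PhiB
import Pool.Agent.Lib.MP_ca1492_al.PA.PhiC

/-!
# MP_ca1492_al, PA/PhiKLR: the KLR relations (proofs: docstring of PA/PhiA.lean)
-/

set_option autoImplicit false

namespace CA1492.PA

open MvPowerSeries

variable {D : Dat} {n : ℕ} {A : Type*} [Ring A] [Algebra ℂ A]
  {E : Wd D n → A} {θ : O n →ₐ[ℂ] A} {Φ : ℕ → A} {S : ℕ → A}

/-- the values of the divided difference on the variables -/
theorem PhiKLR_X (r : ℕ) (h : r + 1 < n) (k : Fin n) :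
    ((X ⟨r, by omega⟩ - X ⟨r + 1, h⟩) *
      C (if k = ⟨r, by omega⟩ then (1 : ℂ) else if k = ⟨r + 1, h⟩ then -1 else 0) : O n) =
      X k - rs n r (X k) := by
  have h1 : rs n r (X k : O n) = X (sw n r k) := by
    rw [rs, rename_X]
  have hsw : sw n r = Equiv.swap ⟨r, by omega⟩ ⟨r + 1, h⟩ := by
    unfold sw
    rw [dif_pos h]
  rw [h1, hsw]
  by_cases h2 : k = ⟨r, by omega⟩
  · rw [if_pos h2, h2, Equiv.swap_apply_left, map_one, mul_one]
  · rw [if_neg h2]
    by_cases h3 : k = ⟨r + 1, h⟩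
    · rw [if_pos h3, h3, Equiv.swap_apply_right, map_neg, map_one]
      ring
    · rw [if_neg h3, Equiv.swap_apply_of_ne_of_ne h2 h3, map_zero, mul_zero, sub_self]

/-- **PhiToKLR.** -/
theorem phi_to_klr (h : PhiSys D n E θ Φ) : ∃ S : ℕ → A,
    IsRep D n E (fun k => θ (X k)) S ∧ SComm D n E θ S ∧ SSys D n E θ Φ S := by
  obtain ⟨S, h1, h2, h3, h4⟩ := exists_S h
  have hS : SSys D n E θ Φ S := ⟨h, h1, h2, h3, h4⟩
  have hc := scomm hS
  refine ⟨S, ?_, hc, hS⟩
  refine { S_out := h1, E_mul := h.E_mul, E_sum := h.E_sum, Y_E := fun k w => h.θ_E _ w,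
           Y_Y := fun k l => ?_, S_E := h4, S_far := fun r s hrs => S_farr hS r s hrs,
           S_Y := fun r hr k w => ?_, S_S := fun r hr w => S_sq hS r hr w,
           S_braid := fun r hr w => ?_ }
  · rw [← map_mul, ← map_mul, mul_comm]
  · have h5 := hc r hr (X k) _ (PhiKLR_X r hr k) w
    have h6 : rs n r (X k : O n) = X (sw n r k) := by
      rw [rs, rename_X]
    rw [h6] at h5
    rw [h5]
    congr 1
    have h7 : ∀ c : ℂ, θ (C c : O n) = algebraMap ℂ A c := by
      intro c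
      exact θ.commutes c
    rw [h7, ← Algebra.smul_def]
    split_ifs <;> simp
  · by_cases hac : w ⟨r, by omega⟩ = w ⟨r + 2, hr⟩
    · by_cases hab : w ⟨r, by omega⟩ = w ⟨r + 1, by omega⟩
      · rw [braid_iii hS r hr w hab (hab.symm.trans hac), if_pos hac, if_neg, if_neg, zero_smul]
        · rw [hab, D.irr]
          exact Bool.false_ne_true
        · rw [hab, D.irr]
          exact Bool.false_ne_true
      · rw [braid_iji hS r hr w hab hac, if_pos hac]
    · rw [braid_other hS r hr w hac, if_neg hac, zero_smul]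

end CA1492.PA
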