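import Mathlib
import Pool.Agent.Lib.MP_ca1492_al.PA.BasC
import Pool.Agent.Lib.MP_ca1492_al.PA.Mon
import Pool.Agent.Lib.MP_ca1492_al.PA.PhiKLR

/-!
# MP_ca1492_al, PA/WBas: the completed KLR algebra from a system of orders

`WBas`: the remaining hypotheses on a `WSys` (nilpotence, cofreeness, the bound for the homomorphisms from
the socle, the coefficient of the open cell). `wbas_cklr`: then the algebra `EqE` of the equivariant
endomorphisms of the module of the words is a completed KLR algebra.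
-/

set_option autoImplicit false

namespace CA1492.PA

open MvPowerSeries

universe u

section
variable {n : ℕ} {Γ : Type*} {I : Equiv.Perm (Fin n) → Type u} [∀ σ, AddCommGroup (I σ)]
  [∀ σ, Module ℂ (I σ)]

/-- the socle -/
def SocW (op : ∀ σ, O n →ₐ[ℂ] Module.End ℂ (I σ)) (σ : Equiv.Perm (Fin n)) :
    Submodule ℂ (I σ) where
  carrier := {x | ∀ k, op σ (X k) x = 0}
  zero_mem' := fun k => map_zero _
  add_mem' := by
    intro a b ha hb k
    rw [map_add, ha k, hb k, add_zero]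
  smul_mem' := by
    intro c a ha k
    rw [map_smul, ha k, smul_zero]

/-- equivariant maps from the socle -/
def HomW (g : Γ → ∀ σ, I σ →ₗ[ℂ] I σ) (op : ∀ σ, O n →ₐ[ℂ] Module.End ℂ (I σ))
    (σ σ' : Equiv.Perm (Fin n)) : Submodule ℂ (SocW op σ →ₗ[ℂ] I σ') where
  carrier := {f | ∀ (γ : Γ) (x : SocW op σ) (hx : g γ σ x.1 ∈ SocW op σ),
    f ⟨g γ σ x.1, hx⟩ = g γ σ' (f x)}
  zero_mem' := fun γ x hx => by simp
  add_mem' := by
    intro a b ha hb γ x hx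
    rw [LinearMap.add_apply, LinearMap.add_apply, map_add, ha γ x hx, hb γ x hx]
  smul_mem' := by
    intro c a ha γ x hx
    rw [LinearMap.smul_apply, LinearMap.smul_apply, map_smul, ha γ x hx]

/-- equivariant maps -/
def HG (g : Γ → ∀ σ, I σ →ₗ[ℂ] I σ) (σ σ' : Equiv.Perm (Fin n)) :
    Submodule ℂ (I σ →ₗ[ℂ] I σ') where
  carrier := {f | ∀ (γ : Γ) (x : I σ), f (g γ σ x) = g γ σ' (f x)}
  zero_mem' := fun γ x => by simp
  add_mem' := by
    intro a b ha hb γ x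
    rw [LinearMap.add_apply, LinearMap.add_apply, map_add, ha γ x, hb γ x]
  smul_mem' := by
    intro c a ha γ x
    rw [LinearMap.smul_apply, LinearMap.smul_apply, map_smul, ha γ x]

end

/-- The remaining hypotheses. -/
structure WBas (D : Dat) (n : ℕ) (ℓ : Wd D n) {Γ : Type*}
    {I : Equiv.Perm (Fin n) → Type u} [∀ σ, AddCommGroup (I σ)] [∀ σ, Module ℂ (I σ)]
    (g : Γ → ∀ σ, I σ →ₗ[ℂ] I σ)
    (op : ∀ σ, O n →ₐ[ℂ] Module.End ℂ (I σ))
    (T : ∀ σ σ', I σ →ₗ[ℂ] I σ') (e : Fin n → Fin n → O n) : Prop where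
  nil : ∀ σ (x : I σ), ∃ K : ℕ, ∀ d : Fin n →₀ ℕ, K ≤ d.degree →
    op σ (monomial d (1 : ℂ)) x = 0
  cof : ∀ σ (K : ℕ) (x : (Fin n →₀ ℕ) → I σ), (∀ d, x d ∈ SocW op σ) →
    ∃ e : I σ, ∀ d : Fin n →₀ ℕ, d.degree = K → op σ (monomial d (1 : ℂ)) e = x d
  hdim : ∀ σ σ', Module.Finite ℂ (HomW g op σ σ') ∧ Module.finrank ℂ (HomW g op σ σ') ≤
    (Finset.univ.filter fun t : Equiv.Perm (Fin n) => ℓ ∘ t = ℓ).card
  T_self : ∀ σ x, T σ σ x = x
  T_step : ∀ (σ σ' σ'' : Equiv.Perm (Fin n)) (r : ℕ) (h : r + 1 < n), σ'' = σ' * sw n r →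
    σ.symm (σ' ⟨r, by omega⟩) < σ.symm (σ' ⟨r + 1, h⟩) → ∀ x,
    T σ' σ'' (T σ σ' x) = T σ σ'' x
  eu : ∀ a b, a ≠ b → ℓ a ≠ ℓ b → IsUnit (e a b)
  eq : ∀ a b, a ≠ b → ℓ a = ℓ b → ∃ u : O n, IsUnit u ∧ e a b = u * (X a - X b)
  lam : ∀ σ σ', σ' = σ * Fin.revPerm → ∃ Λ : HG g σ σ' →ₗ[ℂ] O n,
    (∀ (Φ Ψ : HG g σ σ') (f : O n), (∀ x, Ψ.1 x = Φ.1 (op σ f x)) → Λ Ψ = f * Λ Φ) ∧
    (∀ (Φ Ψ : HG g σ σ') (f : O n), (∀ x, Ψ.1 x = op σ' f (Φ.1 x)) → Λ Ψ = f * Λ Φ) ∧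
    (∀ Φ : HG g σ σ', (∀ x, Φ.1 x = T σ σ' x) → Λ Φ =
      ∏ p ∈ Finset.univ.filter (fun p : Fin n × Fin n => σ.symm p.1 < σ.symm p.2),
        e p.1 p.2) ∧
    (∀ Φ : HG g σ σ', (∀ x ∈ SocW op σ, Φ.1 x = 0) → constantCoeff (Λ Φ) = 0)

variable {D : Dat} {n : ℕ}
variable {Γ : Type*} {I : Equiv.Perm (Fin n) → Type u} [∀ σ, AddCommGroup (I σ)]
  [∀ σ, Module ℂ (I σ)]
variable {ℓ : Wd D n} {g : Γ → ∀ σ, I σ →ₗ[ℂ] I σ} {op : ∀ σ, O n →ₐ[ℂ] Module.End ℂ (I σ)}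
  {T S : ∀ σ σ', I σ →ₗ[ℂ] I σ'} {e : Fin n → Fin n → O n}

/-- the embedding of `I σ` -/
noncomputable def emb (h : WSys D n ℓ g op T S) (σ : Equiv.Perm (Fin n)) :
    I σ →ₗ[ℂ] WT ℓ S where
  toFun x := mkW (fun τ => if ℓ ∘ τ = ℓ ∘ σ then S σ τ x else 0) (by
    intro t ht τ τ' hτ
    have e1 : ℓ ∘ τ' = ℓ ∘ τ := by
      rw [hτ]
      funext k
      exact congrFun ht (τ k)
    by_cases e2 : ℓ ∘ τ = ℓ ∘ σ
    · rw [if_pos e2, if_pos (e1.trans e2)]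
      exact h.S_S (τ * σ⁻¹) t (stab_of τ σ e2.symm) ht σ τ τ' (stab_mul τ σ) hτ x
    · rw [if_neg e2, if_neg (fun e3 => e2 (e1.symm.trans e3)), map_zero])
  map_add' x y := fam_ext fun τ => by
    show (if ℓ ∘ τ = ℓ ∘ σ then S σ τ (x + y) else 0) =
      (if ℓ ∘ τ = ℓ ∘ σ then S σ τ x else 0) + (if ℓ ∘ τ = ℓ ∘ σ then S σ τ y else 0)
    split_ifs
    · exact map_add _ _ _
    · rw [add_zero]
  map_smul' c x := fam_ext fun τ => by
    show (if ℓ ∘ τ = ℓ ∘ σ then S σ τ (c • x) else 0) =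
      c • (if ℓ ∘ τ = ℓ ∘ σ then S σ τ x else 0)
    split_ifs
    · exact map_smul _ _ _
    · rw [smul_zero]

theorem fam_emb (h : WSys D n ℓ g op T S) (σ τ : Equiv.Perm (Fin n)) (x : I σ) :
    fam (emb h σ x) τ = if ℓ ∘ τ = ℓ ∘ σ then S σ τ x else 0 := rfl

theorem fam_emb_self (h : WSys D n ℓ g op T S) (σ : Equiv.Perm (Fin n)) (x : I σ) :
    fam (emb h σ x) σ = x := by
  rw [fam_emb, if_pos rfl, h.S_one]

theorem wE_emb (h : WSys D n ℓ g op T S) (σ : Equiv.Perm (Fin n)) (x : I σ) :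
    (wE h (ℓ ∘ σ)).1 (emb h σ x) = emb h σ x := by
  refine fam_ext fun τ => ?_
  rw [wE_apply, fam_emb]
  split_ifs <;> rfl

theorem emb_fam (h : WSys D n ℓ g op T S) (σ : Equiv.Perm (Fin n)) (F : WT ℓ S)
    (hF : (wE h (ℓ ∘ σ)).1 F = F) : emb h σ (fam F σ) = F := by
  refine fam_ext fun τ => ?_
  rw [fam_emb]
  by_cases e1 : ℓ ∘ τ = ℓ ∘ σ
  · rw [if_pos e1, ← fam_S' F τ σ e1.symm]
  · rw [if_neg e1, ← hF, wE_apply, if_neg e1]

theorem gW_emb (h : WSys D n ℓ g op T S) (γ : Γ) (σ : Equiv.Perm (Fin n)) (x : I σ) :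
    gW h γ (emb h σ x) = emb h σ (g γ σ x) := by
  refine fam_ext fun τ => ?_
  rw [gW_apply, fam_emb, fam_emb]
  by_cases e1 : ℓ ∘ τ = ℓ ∘ σ
  · rw [if_pos e1, if_pos e1,
      h.g_S γ (τ * σ⁻¹) (stab_of τ σ e1.symm) σ τ (stab_mul τ σ)]
  · rw [if_neg e1, if_neg e1, map_zero]

theorem θ_emb (h : WSys D n ℓ g op T S) (f : O n) (σ : Equiv.Perm (Fin n)) (x : I σ) :
    (wθ h f).1 (emb h σ x) = emb h σ (op σ (rn σ f) x) := by
  refine fam_ext fun τ => ?_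
  rw [wθ_apply, fam_emb, fam_emb]
  by_cases e1 : ℓ ∘ τ = ℓ ∘ σ
  · rw [if_pos e1, if_pos e1,
      h.S_op (τ * σ⁻¹) (stab_of τ σ e1.symm) σ τ (stab_mul τ σ), rn_rn, ← stab_mul]
  · rw [if_neg e1, if_neg e1, map_zero]

/-- components of the endomorphisms -/
noncomputable def homA (h : WSys D n ℓ g op T S) (σ σ' : Equiv.Perm (Fin n)) :
    EqE h →ₗ[ℂ] HG g σ σ' where
  toFun a := ⟨{ toFun := fun x => fam (a.1 (emb h σ x)) σ'
                map_add' := fun x y => by rw [map_add, map_add]; rfl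
                map_smul' := fun c x => by rw [map_smul, map_smul]; rfl }, by
    intro γ x
    show fam (a.1 (emb h σ (g γ σ x))) σ' = g γ σ' (fam (a.1 (emb h σ x)) σ')
    rw [← gW_emb, a.2 γ, gW_apply]⟩
  map_add' a b := Subtype.ext (LinearMap.ext fun x => rfl)
  map_smul' c a := Subtype.ext (LinearMap.ext fun x => rfl)

theorem homA_apply (h : WSys D n ℓ g op T S) (σ σ' : Equiv.Perm (Fin n)) (a : EqE h) (x : I σ) :
    (homA h σ σ' a).1 x = fam (a.1 (emb h σ x)) σ' := rfl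

theorem Φ_fam (h : WSys D n ℓ g op T S) (b : WBas D n ℓ g op T e)
    (σ : Equiv.Perm (Fin n)) (x : I σ) : ∀ L : List ℕ, Red n L → ∀ σ', σ' = σ * (wp n L)⁻¹ →
    fam (((L.map (wΦ h)).prod).1 (emb h σ x)) σ' = T σ σ' x := by
  intro L
  induction L with
  | nil =>
    intro _ σ' hσ'
    rw [wp_nil, inv_one, mul_one] at hσ'
    subst hσ'
    show fam (emb h σ' x) σ' = _
    rw [fam_emb_self, b.T_self]
  | cons r L ih =>
    intro hred σ' hσ'
    obtain ⟨hL, hr, hup⟩ := hred.cons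
    have e1 : σ' * sw n r = σ * (wp n L)⁻¹ := by
      rw [hσ', wp_cons, mul_inv_rev, mul_assoc, mul_assoc, inv_mul_cancel, mul_one]
    rw [List.map_cons, List.prod_cons]
    show fam ((wΦ h r).1 (((L.map (wΦ h)).prod).1 (emb h σ x))) σ' = _
    rw [wΦ_apply h r hr, ih hL _ e1]
    refine b.T_step σ (σ' * sw n r) σ' r hr (ssq σ' r) ?_ x
    rw [e1]
    have e2 : ∀ k, σ.symm ((σ * (wp n L)⁻¹) k) = (wp n L).symm k := by
      intro k
      rw [Equiv.Perm.mul_apply, Equiv.symm_apply_apply]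
      rfl
    rw [e2, e2]
    exact hup

theorem dl_ne (w : Wd D n) (u : Equiv.Perm (Fin n)) : dl u w ≠ 0 := by
  unfold dl
  rw [Finset.prod_ne_zero_iff]
  intro p hp
  rw [mem_cr] at hp
  split_ifs
  · exact X_ne hp.1.ne'
  · exact one_ne_zero

theorem prod_e (b : WBas D n ℓ g op T e) (σ : Equiv.Perm (Fin n)) :
    ∃ U : O n, IsUnit U ∧
      ∏ p ∈ Finset.univ.filter (fun p : Fin n × Fin n => σ.symm p.1 < σ.symm p.2),
        e p.1 p.2 = U * rn σ (dl Fin.revPerm (ℓ ∘ σ)) := by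
  have h1 : ∀ p : Fin n × Fin n, ∃ u : O n, IsUnit u ∧ (p.1 < p.2 →
      e (σ p.1) (σ p.2) = u * rn σ (if (ℓ ∘ σ) p.1 = (ℓ ∘ σ) p.2 then X p.2 - X p.1 else 1)) := by
    intro p
    by_cases hp : p.1 < p.2
    · by_cases hl : ℓ (σ p.1) = ℓ (σ p.2)
      · obtain ⟨u, hu, hu'⟩ := b.eq (σ p.1) (σ p.2) (fun e' => hp.ne (σ.injective e')) hl
        refine ⟨-u, hu.neg, fun _ => ?_⟩
        rw [if_pos (show (ℓ ∘ σ) p.1 = (ℓ ∘ σ) p.2 from hl), hu', map_sub (rn σ), rn_X, rn_X]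
        ring
      · refine ⟨e (σ p.1) (σ p.2), b.eu _ _ (fun e' => hp.ne (σ.injective e')) hl, fun _ => ?_⟩
        rw [if_neg (show ¬ (ℓ ∘ σ) p.1 = (ℓ ∘ σ) p.2 from hl), map_one, mul_one]
    · exact ⟨1, isUnit_one, fun h => absurd h hp⟩
  choose u hu hu' using h1
  refine ⟨∏ p ∈ cr (Fin.revPerm : Equiv.Perm (Fin n)), u p, ?_, ?_⟩
  · rw [IsUnit.prod_iff]
    exact fun p _ => hu p
  · unfold dl
    rw [map_prod, ← Finset.prod_mul_distrib]
    refine Finset.prod_nbij' (fun p => (σ.symm p.1, σ.symm p.2)) (fun p => (σ p.1, σ p.2))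
      ?_ ?_ ?_ ?_ ?_
    · intro p hp
      rw [Finset.mem_filter] at hp
      rw [mem_cr, Fin.revPerm_apply, Fin.revPerm_apply, Fin.rev_lt_rev]
      exact ⟨hp.2, hp.2⟩
    · intro p hp
      rw [mem_cr] at hp
      rw [Finset.mem_filter, Equiv.symm_apply_apply, Equiv.symm_apply_apply]
      exact ⟨Finset.mem_univ _, hp.1⟩
    · intro p _
      rw [Equiv.apply_symm_apply, Equiv.apply_symm_apply]
    · intro p _
      rw [Equiv.symm_apply_apply, Equiv.symm_apply_apply]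
    · intro p hp
      rw [Finset.mem_filter] at hp
      rw [← hu' (σ.symm p.1, σ.symm p.2) hp.2, Equiv.apply_symm_apply, Equiv.apply_symm_apply]

/-- linear independence on the socle -/
theorem w_bind (h : WSys D n ℓ g op T S) (b : WBas D n ℓ g op T e) {Sr : ℕ → EqE h}
    (hS : SSys D n (wE h) (wθ h) (wΦ h) Sr) (σ : Equiv.Perm (Fin n)) (c : Sq n → ℂ)
    (hc : ∀ x ∈ SocW op σ,
      ((∑ p, c p • ((wq (sqFun p) n).map Sr).prod : EqE h)).1 (emb h σ x) = 0) : c = 0 := by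
  by_contra hne
  obtain ⟨Λ, l1, l2, l3, l4⟩ := b.lam σ (σ * Fin.revPerm) rfl
  have h1 : ∀ (a : EqE h) (f : O n), (Λ ∘ₗ homA h σ (σ * Fin.revPerm)) (a * wθ h f) =
      rn σ f * (Λ ∘ₗ homA h σ (σ * Fin.revPerm)) a := by
    intro a f
    refine l1 _ _ (rn σ f) fun x => ?_
    rw [homA_apply, homA_apply, EqE_mul, θ_emb]
  have h2 : ∀ (a : EqE h) (f : O n), (Λ ∘ₗ homA h σ (σ * Fin.revPerm)) (wθ h f * a) =
      rn (σ * Fin.revPerm) f * (Λ ∘ₗ homA h σ (σ * Fin.revPerm)) a := by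
    intro a f
    refine l2 _ _ (rn (σ * Fin.revPerm) f) fun x => ?_
    rw [homA_apply, homA_apply, EqE_mul, wθ_apply]
  have hEv : ∀ (a : EqE h) (x : I σ), (a * wE h (ℓ ∘ σ)).1 (emb h σ x) = a.1 (emb h σ x) := by
    intro a x
    rw [EqE_mul, wE_emb]
  obtain ⟨U, hU, hU'⟩ := prod_e b σ
  obtain ⟨L, hL⟩ := Lam_bind (Λ ∘ₗ homA h σ (σ * Fin.revPerm)) h1 h2 hS (ℓ ∘ σ) (by
    intro L hred hw
    have e1 := Lam_top (Λ ∘ₗ homA h σ (σ * Fin.revPerm)) h1 h2 hS L hred hw (ℓ ∘ σ)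
    have e2 : (Λ ∘ₗ homA h σ (σ * Fin.revPerm)) ((L.map (wΦ h)).prod * wE h (ℓ ∘ σ)) =
        U * rn σ (dl Fin.revPerm (ℓ ∘ σ)) := by
      rw [← hU']
      refine l3 _ fun x => ?_
      rw [homA_apply, hEv]
      refine Φ_fam h b σ x L hred _ ?_
      rw [hw]
      rfl
    rw [e2] at e1
    have e3 := mul_right_cancel₀ (fun e' => dl_ne (ℓ ∘ σ) Fin.revPerm (rn_inj σ e')) e1
    rw [e3]
    exact (hU.map constantCoeff).ne_zero) c hne
  apply hL
  refine l4 _ fun x hx => ?_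
  rw [homA_apply, EqE_mul, hEv, hc x hx, map_zero]
  rfl

theorem deg_map (σ : Equiv.Perm (Fin n)) (d : Fin n →₀ ℕ) :
    (Finsupp.mapDomain σ d).degree = d.degree := Finsupp.degree_mapDomain _ _

theorem rn_mono (σ : Equiv.Perm (Fin n)) (d : Fin n →₀ ℕ) :
    rn σ (monomial d (1 : ℂ)) = monomial (Finsupp.mapDomain σ d) 1 := by
  unfold rn
  rw [rename_monomial]

/-- the number of words times the order of the stabiliser -/
theorem card_words (ℓ : Wd D n) : (Finset.univ.image fun τ : Equiv.Perm (Fin n) => ℓ ∘ τ).card *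
    (Finset.univ.filter fun t : Equiv.Perm (Fin n) => ℓ ∘ t = ℓ).card = n.factorial := by
  have h1 : (Finset.univ : Finset (Equiv.Perm (Fin n))).card = n.factorial := by
    rw [Finset.card_univ, Fintype.card_perm, Fintype.card_fin]
  rw [← h1, Finset.card_eq_sum_card_image (fun τ : Equiv.Perm (Fin n) => ℓ ∘ τ) Finset.univ,
    ← smul_eq_mul, ← Finset.sum_const]
  refine Finset.sum_congr rfl fun v hv => ?_
  obtain ⟨τ, -, rfl⟩ := Finset.mem_image.1 hv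
  refine Finset.card_nbij' (fun t => t * τ) (fun s => s * τ⁻¹) ?_ ?_ ?_ ?_
  · intro t ht
    have ht' := (Finset.mem_filter.1 ht).2
    refine Finset.mem_coe.2 (Finset.mem_filter.2 ⟨Finset.mem_univ _, ?_⟩)
    funext k
    exact congrFun ht' (τ k)
  · intro s hs
    have hs' := (Finset.mem_filter.1 hs).2
    refine Finset.mem_coe.2 (Finset.mem_filter.2 ⟨Finset.mem_univ _, ?_⟩)
    exact stab_of s τ hs'.symm
  · intro t _
    simp
  · intro s _
    simp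

/-- nilpotence -/
theorem w_nil (h : WSys D n ℓ g op T S) (b : WBas D n ℓ g op T e) (x : WT ℓ S) :
    ∃ K : ℕ, ∀ d : Fin n →₀ ℕ, K ≤ d.degree → (wθ h (monomial d (1 : ℂ))).1 x = 0 := by
  choose K hK using fun σ => b.nil σ (fam x σ)
  refine ⟨Finset.univ.sup K, fun d hd => fam_ext fun σ => ?_⟩
  rw [wθ_apply, rn_mono, hK σ _ ?_, fam_zero]
  rw [deg_map]
  exact (Finset.le_sup (f := K) (Finset.mem_univ σ)).trans hd

/-- membership in the socle of a word -/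
theorem w_soc (h : WSys D n ℓ g op T S) (φ : R D n →ₐ[ℂ] EqE h)
    (hw : ∀ w, φ (ew w) = wE h w) (σ : Equiv.Perm (Fin n)) (x : WT ℓ S) :
    x ∈ Soc (EqE h).val φ (wθ h) (ℓ ∘ σ) ↔ ∃ y ∈ SocW op σ, emb h σ y = x := by
  rw [mem_Soc, hw]
  constructor
  · rintro ⟨h1, h2⟩
    refine ⟨fam x σ, fun k => ?_, emb_fam h σ x h1⟩
    have h3 := congrArg (fun F : WT ℓ S => fam F σ) (h2 (σ.symm k))
    simp only [Subalgebra.coe_val] at h3
    rw [wθ_apply, rn_X, Equiv.apply_symm_apply, fam_zero] at h3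
    exact h3
  · rintro ⟨y, hy, rfl⟩
    refine ⟨wE_emb h σ y, fun k => ?_⟩
    show (wθ h (X k)).1 (emb h σ y) = 0
    rw [θ_emb, rn_X, hy, map_zero]

/-- cofreeness -/
theorem w_cof (h : WSys D n ℓ g op T S) (b : WBas D n ℓ g op T e) (φ : R D n →ₐ[ℂ] EqE h)
    (hw : ∀ w, φ (ew w) = wE h w) (σ : Equiv.Perm (Fin n)) (K : ℕ) (x : (Fin n →₀ ℕ) → WT ℓ S)
    (hx : ∀ d, x d ∈ Soc (EqE h).val φ (wθ h) (ℓ ∘ σ)) :
    ∃ F : WT ℓ S, ∀ d : Fin n →₀ ℕ, d.degree = K → (wθ h (monomial d (1 : ℂ))).1 F = x d := by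
  choose y hy hy' using fun d => (w_soc h φ hw σ (x d)).1 (hx d)
  obtain ⟨z, hz⟩ := b.cof σ K (fun d => y (Finsupp.mapDomain σ.symm d)) (fun d => hy _)
  refine ⟨emb h σ z, fun d hd => ?_⟩
  rw [θ_emb, rn_mono, hz _ (by rw [deg_map, hd]), ← hy' d, ← Finsupp.mapDomain_comp]
  congr 2
  have : (σ.symm ∘ σ : Fin n → Fin n) = id := by
    funext k
    simp
  rw [this, Finsupp.mapDomain_id]

open Classical in
/-- the dimension of the homomorphisms from the socle -/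
theorem w_dim (h : WSys D n ℓ g op T S) (b : WBas D n ℓ g op T e) (φ : R D n →ₐ[ℂ] EqE h)
    (hw : ∀ w, φ (ew w) = wE h w) (σ : Equiv.Perm (Fin n)) :
    Module.Finite ℂ (HomS (gW h) (EqE h).val φ (wθ h) (ℓ ∘ σ)) ∧
      Module.finrank ℂ (HomS (gW h) (EqE h).val φ (wθ h) (ℓ ∘ σ)) ≤ n.factorial := by
  let Ws : Finset (Wd D n) := Finset.univ.image fun τ : Equiv.Perm (Fin n) => ℓ ∘ τ
  have hrep : ∀ v : Ws, ∃ τ : Equiv.Perm (Fin n), ℓ ∘ τ = v.1 := by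
    rintro ⟨v, hv⟩
    obtain ⟨τ, -, e1⟩ := Finset.mem_image.1 hv
    exact ⟨τ, e1⟩
  choose rep hrep using hrep
  have hsoc : ∀ y : SocW op σ, emb h σ y.1 ∈ Soc (EqE h).val φ (wθ h) (ℓ ∘ σ) := fun y =>
    (w_soc h φ hw σ _).2 ⟨y.1, y.2, rfl⟩
  let J : HomS (gW h) (EqE h).val φ (wθ h) (ℓ ∘ σ) →ₗ[ℂ] (∀ v : Ws, HomW g op σ (rep v)) :=
    { toFun := fun f v => ⟨{ toFun := fun y => fam (f.1 ⟨emb h σ y.1, hsoc y⟩) (rep v)
                             map_add' := fun y z => by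
                              rw [← fam_add, ← map_add]
                              congr 2
                              exact Subtype.ext (map_add (emb h σ) y.1 z.1)
                             map_smul' := fun c y => by
                              rw [RingHom.id_apply, ← fam_smul, ← map_smul]
                              congr 2
                              exact Subtype.ext (map_smul (emb h σ) c y.1) }, by
        intro γ y hy
        have h1 := f.2 γ ⟨emb h σ y.1, hsoc y⟩ (by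
          rw [gW_emb]
          exact hsoc ⟨_, hy⟩)
        show fam (f.1 ⟨emb h σ (g γ σ y.1), _⟩) (rep v) = g γ _ (fam (f.1 ⟨emb h σ y.1, _⟩) _)
        rw [← gW_apply h, ← h1]
        congr 2
        exact Subtype.ext (gW_emb h γ σ y.1).symm⟩
      map_add' := fun f f' => rfl
      map_smul' := fun c f => rfl }
  have hJ : Function.Injective J := by
    intro f f' hff
    refine Subtype.ext (LinearMap.ext fun x => fam_ext fun τ => ?_)
    obtain ⟨y, hy, hy'⟩ := (w_soc h φ hw σ x.1).1 x.2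
    have hx : x = ⟨emb h σ y, hsoc ⟨y, hy⟩⟩ := Subtype.ext hy'.symm
    have hτ : ℓ ∘ τ ∈ Ws := Finset.mem_image.2 ⟨τ, Finset.mem_univ _, rfl⟩
    have h1 := LinearMap.congr_fun (congrArg Subtype.val (congrFun hff ⟨ℓ ∘ τ, hτ⟩)) ⟨y, hy⟩
    have h2 : fam (f.1 x) (rep ⟨ℓ ∘ τ, hτ⟩) = fam (f'.1 x) (rep ⟨ℓ ∘ τ, hτ⟩) := by
      rw [hx]
      exact h1
    rw [fam_S' (f.1 x) τ (rep ⟨ℓ ∘ τ, hτ⟩) (hrep ⟨ℓ ∘ τ, hτ⟩),
      fam_S' (f'.1 x) τ (rep ⟨ℓ ∘ τ, hτ⟩) (hrep ⟨ℓ ∘ τ, hτ⟩), h2]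
  have hfin : ∀ v : Ws, Module.Finite ℂ (HomW g op σ (rep v)) := fun v => (b.hdim σ (rep v)).1
  have hF : Module.Finite ℂ (HomS (gW h) (EqE h).val φ (wθ h) (ℓ ∘ σ)) :=
    Module.Finite.of_injective J hJ
  refine ⟨hF, (LinearMap.finrank_le_finrank_of_injective hJ).trans ?_⟩
  rw [Module.finrank_pi_fintype]
  calc ∑ v : Ws, Module.finrank ℂ (HomW g op σ (rep v))
      ≤ ∑ v : Ws, (Finset.univ.filter fun t : Equiv.Perm (Fin n) => ℓ ∘ t = ℓ).card :=
        Finset.sum_le_sum fun v _ => by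
          refine ((b.hdim σ (rep v)).2).trans (le_of_eq ?_)
          congr 1
    _ = n.factorial := by
        rw [Finset.sum_const, Finset.card_univ, Fintype.card_coe, smul_eq_mul]
        have h3 := card_words ℓ
        rw [← h3]

/-- **Completed KLR algebras from orders.** -/
theorem wbas_cklr (h : WSys D n ℓ g op T S) (b : WBas D n ℓ g op T e) :
    ∃ φ : R D n →ₐ[ℂ] EqE h, (∀ w, φ (ew w) = wE h w) ∧ (∀ k, φ (yk k) = wθ h (X k)) ∧
      SSys D n (wE h) (wθ h) (wΦ h) (fun r => φ (ps r)) ∧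
      CKLR D n φ (wθ h) {w | ∃ σ : Equiv.Perm (Fin n), ℓ ∘ σ = w} := by
  obtain ⟨Sr, hrep, hcomm, hsys⟩ := phi_to_klr (phiSys_w h)
  have e1 : ∀ w, liftR hrep (ew w) = wE h w := liftR_ew hrep
  have e2 : ∀ k, liftR hrep (yk k) = wθ h (X k) := liftR_yk hrep
  have e3 : (fun r => liftR hrep (ps r)) = Sr := funext fun r => liftR_ps hrep r
  have e3' : ∀ r, liftR hrep (ps r) = Sr r := fun r => liftR_ps hrep r
  have eE : (fun w : Wd D n => liftR hrep (ew w)) = wE h := funext e1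
  refine ⟨liftR hrep, e1, e2, ?_, ?_⟩
  · rw [e3]
    exact hsys
  · refine cklr_of_bas (gW h) (EqE h).val Subtype.val_injective ?_ (liftR hrep) (wθ h) _ ?_ ?_ ?_
      ?_ ?_ ?_ ?_ ?_ ?_
    · intro a γ x
      exact a.2 γ x
    · intro k
      rw [e2]
    · intro f w
      rw [e1]
      exact (phiSys_w h).θ_E f w
    · rw [eE, e3]
      exact hcomm
    · rintro w ⟨σ, rfl⟩ r
      exact ⟨σ * sw n r, l_sw σ r⟩
    · intro w hw
      rw [e1]
      refine EqE_ext h fun F σ => ?_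
      rw [wE_apply, if_neg (fun e' => hw ⟨σ, e'⟩), EqE_zero, fam_zero]
    · exact w_nil h b
    · rintro v ⟨σ, rfl⟩ K x hx
      exact w_cof h b _ e1 σ K x hx
    · rintro v ⟨σ, rfl⟩
      exact w_dim h b _ e1 σ
    · rintro v ⟨σ, rfl⟩ c hc
      refine w_bind h b hsys σ c fun x hx => ?_
      have h1 := hc (emb h σ x) ((w_soc h _ e1 σ _).2 ⟨x, hx, rfl⟩)
      have e4 : ∀ p : Sq n, liftR hrep (CQ p) = ((wq (sqFun p) n).map Sr).prod := by
        intro p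
        show liftR hrep (CS 0 n (sqFun p)) = _
        rw [CS_wq, map_list_prod, List.map_map]
        exact congrArg List.prod (List.map_congr_left fun r _ => e3' r)
      simp only [e4] at h1
      rw [← h1]
      simp only [Subalgebra.coe_val]
      rw [EqE_sum]
      rfl

end CA1492.PA
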