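import Mathlib
import Pool.Agent.Lib.MP_ca1492_al.Cat.Transfer

/-!
# MP_ca1492_al, PA/ExtAdj: Ext groups along an exact functor which preserves projectives

F : C ⥤ D exact, F preserves projectives, C has enough projectives, and `Hom_D(F X, Y') ≃ Hom_C(X, Y)`
naturally in X. Then `Ext_D^i(F X, Y') = 0` iff `Ext_C^i(X, Y) = 0`.
-/

set_option autoImplicit false

namespace CA1492.PA

open CategoryTheory CategoryTheory.Abelian CategoryTheory.Limits CA1492.Cat

universe w w' v v' u u'

/-- PROOF. Induction on i, for all X. i = 0: `Ext.homEquiv₀` on both sides and e.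
For i + 1 choose a projective presentation of X: p : Q ⟶ X epi, Q projective, S = (kernel p, Q, X) short exact;
S.map F is short exact with projective middle term. i + 1 = 1: `ext_one_right` (Cat/Transfer.lean) for S and
for S.map F: all g : S.X₁ ⟶ Y extend along S.f iff all g : F S.X₁ ⟶ Y' extend along F S.f, by e and nat.
i + 1 = j + 2: `ext_succ_right` for both and the induction hypothesis for S.X₁. -/
theorem ext_adj {C : Type u} [Category.{v} C] [Abelian C] [HasExt.{w} C] [EnoughProjectives C]
    {D : Type u'} [Category.{v'} D] [Abelian D] [HasExt.{w'} D]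
    (F : C ⥤ D) [F.PreservesZeroMorphisms]
    (hF : ∀ S : ShortComplex C, S.ShortExact → (S.map F).ShortExact)
    (hP : ∀ Q : C, Projective Q → Projective (F.obj Q))
    (Y : C) (Y' : D) (e : ∀ X : C, (F.obj X ⟶ Y') ≃ (X ⟶ Y))
    (nat : ∀ (X X' : C) (f : X ⟶ X') (g : F.obj X' ⟶ Y'), e X (F.map f ≫ g) = f ≫ e X' g)
    (i : ℕ) : ∀ X : C, Subsingleton (Ext.{w'} (F.obj X) Y' i) ↔ Subsingleton (Ext.{w} X Y i) := by
  induction i with
  | zero =>
    intro X
    have e1 : Subsingleton (Ext.{w} X Y 0) ↔ Subsingleton (X ⟶ Y) :=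
      (Ext.homEquiv₀ (X := X) (Y := Y)).subsingleton_congr
    have e2 : Subsingleton (Ext.{w'} (F.obj X) Y' 0) ↔ Subsingleton (F.obj X ⟶ Y') :=
      (Ext.homEquiv₀ (X := F.obj X) (Y := Y')).subsingleton_congr
    rw [e1, e2]
    exact (e X).subsingleton_congr
  | succ i ih =>
    intro X
    let S : ShortComplex C :=
      ShortComplex.mk (kernel.ι (Projective.π X)) (Projective.π X) (kernel.condition _)
    have hf : Mono S.f := inferInstanceAs (Mono (kernel.ι (Projective.π X)))
    have hg : Epi S.g := inferInstanceAs (Epi (Projective.π X))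
    have hS : S.ShortExact :=
      { exact := ShortComplex.exact_of_f_is_kernel S (kernelIsKernel (Projective.π X))
        mono_f := hf
        epi_g := hg }
    have hp : Projective S.X₂ := inferInstanceAs (Projective (Projective.over X))
    have hp' : Projective (S.map F).X₂ := hP _ hp
    have hS' := hF S hS
    cases i with
    | zero =>
      have h1 := ext_one_right.{w'} hS' hp' Y'
      have h2 := ext_one_right.{w} hS hp Y
      refine (h1.trans ?_).trans h2.symm
      constructor
      · intro h g
        obtain ⟨f, hf⟩ := h ((e S.X₁).symm g)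
        let f' : F.obj S.X₂ ⟶ Y' := f
        have hf' : F.map S.f ≫ f' = (e S.X₁).symm g := hf
        refine ⟨e S.X₂ f', ?_⟩
        rw [← nat S.X₁ S.X₂ S.f f', hf', (e S.X₁).apply_symm_apply g]
      · intro h g
        obtain ⟨f, hf⟩ := h (e S.X₁ g)
        refine ⟨(e S.X₂).symm f, ?_⟩
        apply (e S.X₁).injective
        have h3 := nat S.X₁ S.X₂ S.f ((e S.X₂).symm f)
        rw [(e S.X₂).apply_symm_apply, hf] at h3
        exact h3
    | succ j =>
      have h1 := ext_succ_right.{w'} hS' hp' Y' j
      have h2 := ext_succ_right.{w} hS hp Y j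
      exact (h1.trans (ih S.X₁)).trans h2.symm

end CA1492.PA
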