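import Mathlib
import Pool.Agent.Lib.MP_ca1492_al.PA.LSpan
import Pool.Agent.Lib.MP_ca1492_al.PA.Ord

/-!
# MP_ca1492_al, PA/LUniqA: filtrations of a completed KLR algebra

`FR K` = additive subgroup of A generated by the products `a * θ t`, HO K t.
`FL K` = additive subgroup of `R D n` generated by the products `pol g * z`, HO K g.
-/

set_option autoImplicit false

namespace CA1492.PA

open MvPowerSeries

variable {D : Dat} {n : ℕ} {A : Type*} [Ring A] [Algebra ℂ A]
  {φ : R D n →ₐ[ℂ] A} {θ : O n →ₐ[ℂ] A} {Ws : Set (Wd D n)}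

/-- right filtration -/
noncomputable def FR (θ : O n →ₐ[ℂ] A) (K : ℕ) : AddSubgroup A :=
  AddSubgroup.closure {x | ∃ (a : A) (t : O n), HO K t ∧ x = a * θ t}

/-- left filtration of `R D n` -/
noncomputable def FL (D : Dat) (n : ℕ) (K : ℕ) : AddSubgroup (R D n) :=
  AddSubgroup.closure {x | ∃ (g : MvPolynomial (Fin n) ℂ) (z : R D n), HO K (g : O n) ∧ x = pol g * z}

theorem FR_mono {K L : ℕ} (h : K ≤ L) : FR θ L ≤ FR (A := A) θ K := by
  refine AddSubgroup.closure_mono ?_
  rintro x ⟨a, t, ht, rfl⟩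
  exact ⟨a, t, HO_mono h ht, rfl⟩

theorem FL_mono {K L : ℕ} (h : K ≤ L) : FL D n L ≤ FL D n K := by
  refine AddSubgroup.closure_mono ?_
  rintro x ⟨a, t, ht, rfl⟩
  exact ⟨a, t, HO_mono h ht, rfl⟩

theorem FR_mul_left {K : ℕ} (b : A) {x : A} (hx : x ∈ FR θ K) : b * x ∈ FR θ K := by
  induction hx using AddSubgroup.closure_induction with
  | mem x hx =>
    obtain ⟨a, t, ht, rfl⟩ := hx
    exact AddSubgroup.subset_closure ⟨b * a, t, ht, by rw [mul_assoc]⟩
  | zero => rw [mul_zero]; exact AddSubgroup.zero_mem _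
  | add x y _ _ hx hy => rw [mul_add]; exact AddSubgroup.add_mem _ hx hy
  | neg x _ hx => rw [mul_neg]; exact AddSubgroup.neg_mem _ hx

private theorem LUniqA_mem {K : ℕ} (a : A) {t : O n} (ht : HO K t) : a * θ t ∈ FR θ K :=
  AddSubgroup.subset_closure ⟨a, t, ht, rfl⟩

private theorem LUniqA_memL {K : ℕ} (g : MvPolynomial (Fin n) ℂ) (z : R D n) (hg : HO K (g : O n)) :
    pol g * z ∈ FL D n K :=
  AddSubgroup.subset_closure ⟨g, z, hg, rfl⟩

private theorem LUniqA_coe_sub (f g : MvPolynomial (Fin n) ℂ) :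
    ((f - g : MvPolynomial (Fin n) ℂ) : O n) = (f : O n) - (g : O n) :=
  map_sub MvPolynomial.coeToMvPowerSeries.ringHom f g

private theorem LUniqA_coe_neg (f : MvPolynomial (Fin n) ℂ) :
    ((-f : MvPolynomial (Fin n) ℂ) : O n) = -(f : O n) :=
  map_neg MvPolynomial.coeToMvPowerSeries.ringHom f

private theorem LUniqA_rs_rs (r : ℕ) (t : O n) : rs n r (rs n r t) = t := by
  have h1 : (sw n r : Fin n → Fin n) ∘ (sw n r) = id := by
    funext k
    unfold sw
    split_ifs <;> simp
  have h2 : rs n r (rs n r t) = MvPowerSeries.rename ((sw n r : Fin n → Fin n) ∘ (sw n r)) t := by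
    rw [MvPowerSeries.rename_rename]
  rw [h2]
  have h3 : ∀ (e : Fin n → Fin n) [Filter.TendstoCofinite e], e = id →
      MvPowerSeries.rename e t = t := by
    intro e _ he
    subst he
    exact MvPowerSeries.rename_id_apply t
  exact h3 _ h1

private theorem LUniqA_split (x : A) (hE : ∑ w, φ (ew w) = 1) : x = ∑ w, x * φ (ew w) := by
  rw [← Finset.mul_sum, hE, mul_one]

/-- PROOF: `R_induction` on b. Scalars, ew, yk: c = 0 (`θ_E`, `θ_X`, commutativity of O n). `ps r`: c = 1:
`θ t * φ (ps r) = ∑ w, θ t * φ (ps r) * φ (ew w)` and by `comm` for f = rs t (rs (rs t) = t)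
`θ t * φ (ps r) * φ (ew w) = φ (ps r) * θ (rs t) * φ (ew w) - (θ f' * φ (ew w) or 0)` with
`HO K f'` if `HO (K + 1) t` (`HO_div`, `HO_rename`), then move θ to the right. Sum: max. Product: add the
constants, `θ t * φ b ∈ FR (K + c')`, closure induction, `FR_mul_left`. -/
theorem FR_comm (h : CKLR D n φ θ Ws) (b : R D n) :
    ∃ c : ℕ, ∀ (K : ℕ) (t : O n), HO (K + c) t → θ t * φ b ∈ FR θ K := by
  have hE : ∑ w, φ (ew w) = 1 := by
    rw [← map_sum, (isRep_R D n).E_sum, map_one]
  induction b using R_induction with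
  | hc c =>
    refine ⟨0, fun K t ht => ?_⟩
    rw [AlgHom.commutes, ← Algebra.commutes]
    exact LUniqA_mem _ ht
  | he w =>
    refine ⟨0, fun K t ht => ?_⟩
    rw [h.θ_E]
    exact LUniqA_mem _ ht
  | hy k =>
    refine ⟨0, fun K t ht => ?_⟩
    rw [← h.θ_X, ← map_mul, mul_comm, map_mul]
    exact LUniqA_mem _ ht
  | hs r =>
    refine ⟨1, fun K t ht => ?_⟩
    by_cases hr : r + 1 < n
    · rw [LUniqA_split (φ := φ) (θ t * φ (ps r)) hE]
      refine AddSubgroup.sum_mem _ fun w _ => ?_
      obtain ⟨f', hf'⟩ := dd_exists r hr (rs n r t)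
      have h1 := h.comm r hr (rs n r t) f' hf' w
      rw [LUniqA_rs_rs] at h1
      have h2 : θ t * φ (ps r) * φ (ew w) = φ (ps r) * θ (rs n r t) * φ (ew w) -
          (if w ⟨r, by omega⟩ = w ⟨r + 1, hr⟩ then θ f' * φ (ew w) else 0) := by
        simp only at h1
        rw [h1]
        abel
      have ht' : HO (K + 1) (rs n r t) := HO_rename (sw n r) ht
      have hK : K ≤ K + 1 := Nat.le_succ K
      rw [h2]
      refine AddSubgroup.sub_mem _ ?_ ?_
      · rw [mul_assoc, h.θ_E, ← mul_assoc]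
        exact LUniqA_mem _ (HO_mono hK ht')
      · split_ifs
        · rw [h.θ_E]
          refine LUniqA_mem _ (HO_div (a := (⟨r, by omega⟩ : Fin n)) (b := ⟨r + 1, hr⟩) ?_ ?_)
          · intro hh
            have := congrArg Fin.val hh
            simp at this
          · rw [hf', LUniqA_rs_rs]
            exact HO_sub ht' ht
        · exact AddSubgroup.zero_mem _
    · rw [(isRep_R D n).S_out r hr, map_zero, mul_zero]
      exact AddSubgroup.zero_mem _
  | ha x y hx hy =>
    obtain ⟨c, hc⟩ := hx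
    obtain ⟨c', hc'⟩ := hy
    refine ⟨c + c', fun K t ht => ?_⟩
    rw [map_add, mul_add]
    exact AddSubgroup.add_mem _ (hc K t (HO_mono (by omega) ht)) (hc' K t (HO_mono (by omega) ht))
  | hm x y hx hy =>
    obtain ⟨c, hc⟩ := hx
    obtain ⟨c', hc'⟩ := hy
    refine ⟨c' + c, fun K t ht => ?_⟩
    rw [map_mul, ← mul_assoc]
    have h1 : θ t * φ x ∈ FR θ (K + c') := hc (K + c') t (by rwa [add_assoc])
    generalize θ t * φ x = z at h1
    induction h1 using AddSubgroup.closure_induction with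
    | mem z hz =>
      obtain ⟨a, s, hs, rfl⟩ := hz
      rw [mul_assoc]
      exact FR_mul_left a (hc' K s hs)
    | zero => rw [zero_mul]; exact AddSubgroup.zero_mem _
    | add z z' _ _ hz hz' => rw [add_mul]; exact AddSubgroup.add_mem _ hz hz'
    | neg z _ hz => rw [neg_mul]; exact AddSubgroup.neg_mem _ hz

private theorem LUniqA_FL_mul_right {K : ℕ} (b : R D n) {x : R D n} (hx : x ∈ FL D n K) :
    x * b ∈ FL D n K := by
  induction hx using AddSubgroup.closure_induction with
  | mem x hx =>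
    obtain ⟨a, t, ht, rfl⟩ := hx
    exact AddSubgroup.subset_closure ⟨a, t * b, ht, by rw [mul_assoc]⟩
  | zero => rw [zero_mul]; exact AddSubgroup.zero_mem _
  | add x y _ _ hx hy => rw [add_mul]; exact AddSubgroup.add_mem _ hx hy
  | neg x _ hx => rw [neg_mul]; exact AddSubgroup.neg_mem _ hx

/-- PROOF: the same for polynomials on the right of elements of `R D n`, with `ps_pol`. -/
theorem FL_comm (b : R D n) :
    ∃ c : ℕ, ∀ (K : ℕ) (f : MvPolynomial (Fin n) ℂ), HO (K + c) (f : O n) → b * pol f ∈ FL D n K := by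
  induction b using R_induction with
  | hc c =>
    refine ⟨0, fun K f hf => ?_⟩
    rw [Algebra.commutes]
    exact LUniqA_memL _ _ hf
  | he w =>
    refine ⟨0, fun K f hf => ?_⟩
    rw [← pol_ew]
    exact LUniqA_memL _ _ hf
  | hy k =>
    refine ⟨0, fun K f hf => ?_⟩
    rw [← pol_X, ← map_mul, mul_comm, map_mul]
    exact LUniqA_memL _ _ hf
  | hs r =>
    refine ⟨1, fun K f hf => ?_⟩
    by_cases hr : r + 1 < n
    · rw [ew_facts.2.2.1 (ps r * pol f)]
      refine AddSubgroup.sum_mem _ fun w _ => ?_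
      obtain ⟨f', hf', hw⟩ := ps_pol (D := D) r hr f
      rw [hw]
      have ht' : HO (K + 1) ((MvPolynomial.rename (sw n r) f : MvPolynomial (Fin n) ℂ) : O n) := by
        rw [← MvPowerSeries.rename_coe]
        exact HO_rename (sw n r) hf
      refine AddSubgroup.add_mem _ ?_ ?_
      · rw [mul_assoc]
        exact LUniqA_memL _ _ (HO_mono (Nat.le_succ K) ht')
      · split_ifs
        · refine LUniqA_memL _ _ (HO_div (a := (⟨r, by omega⟩ : Fin n)) (b := ⟨r + 1, hr⟩) ?_ ?_)
          · intro hh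
            have := congrArg Fin.val hh
            simp at this
          · have e := congrArg (fun g : MvPolynomial (Fin n) ℂ => (g : O n)) hf'
            simp only [MvPolynomial.coe_mul, LUniqA_coe_sub, MvPolynomial.coe_X] at e
            rw [e]
            exact HO_sub hf ht'
        · exact AddSubgroup.zero_mem _
    · rw [(isRep_R D n).S_out r hr, zero_mul]
      exact AddSubgroup.zero_mem _
  | ha x y hx hy =>
    obtain ⟨c, hc⟩ := hx
    obtain ⟨c', hc'⟩ := hy
    refine ⟨c + c', fun K f hf => ?_⟩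
    rw [add_mul]
    exact AddSubgroup.add_mem _ (hc K f (HO_mono (by omega) hf)) (hc' K f (HO_mono (by omega) hf))
  | hm x y hx hy =>
    obtain ⟨c, hc⟩ := hx
    obtain ⟨c', hc'⟩ := hy
    refine ⟨c + c', fun K f hf => ?_⟩
    rw [mul_assoc]
    have h1 : y * pol f ∈ FL D n (K + c) := hc' (K + c) f (by rwa [add_assoc])
    generalize y * pol f = z at h1
    induction h1 using AddSubgroup.closure_induction with
    | mem z hz =>
      obtain ⟨g, s, hs, rfl⟩ := hz
      rw [← mul_assoc]
      exact LUniqA_FL_mul_right s (hc K g hs)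
    | zero => rw [mul_zero]; exact AddSubgroup.zero_mem _
    | add z z' _ _ hz hz' => rw [mul_add]; exact AddSubgroup.add_mem _ hz hz'
    | neg z _ hz => rw [mul_neg]; exact AddSubgroup.neg_mem _ hz

private theorem LUniqA_ex (h : CKLR D n φ θ Ws) {K : ℕ} {x : A} (hx : x ∈ FR θ K) :
    ∃ f : Sq n → Wd D n → O n, x = ∑ p, ∑ w, φ (CQ p) * θ (f p w) * φ (ew w) ∧
      ∀ p w, HO K (f p w) := by
  induction hx using AddSubgroup.closure_induction with
  | mem x hx =>
    obtain ⟨a, t, ht, rfl⟩ := hx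
    obtain ⟨g, hg⟩ := h.span a
    refine ⟨fun p w => g p w * t, ?_, fun p w => HO_mul_left _ ht⟩
    rw [hg, Finset.sum_mul]
    refine Finset.sum_congr rfl fun p _ => ?_
    rw [Finset.sum_mul]
    refine Finset.sum_congr rfl fun w _ => ?_
    rw [map_mul, mul_assoc, ← h.θ_E]
    simp only [mul_assoc]
  | zero =>
    refine ⟨fun _ _ => 0, ?_, fun _ _ => HO_zero K⟩
    simp
  | add x y _ _ hx hy =>
    obtain ⟨f, hf, hf'⟩ := hx
    obtain ⟨g, hg, hg'⟩ := hy
    refine ⟨fun p w => f p w + g p w, ?_, fun p w => HO_add (hf' p w) (hg' p w)⟩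
    rw [hf, hg, ← Finset.sum_add_distrib]
    refine Finset.sum_congr rfl fun p _ => ?_
    rw [← Finset.sum_add_distrib]
    refine Finset.sum_congr rfl fun w _ => ?_
    rw [map_add, mul_add, add_mul]
  | neg x _ hx =>
    obtain ⟨f, hf, hf'⟩ := hx
    refine ⟨fun p w => - f p w, ?_, fun p w => HO_neg (hf' p w)⟩
    rw [hf, ← Finset.sum_neg_distrib]
    refine Finset.sum_congr rfl fun p _ => ?_
    rw [← Finset.sum_neg_distrib]
    refine Finset.sum_congr rfl fun w _ => ?_
    rw [map_neg, mul_neg, neg_mul]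

/-- The right coordinates of elements of `FR K`. PROOF: closure induction gives such f for every
element of FR K (write a = ∑ φ (CQ p) θ (g p w) φ (ew w), multiply by θ t on the right, `θ_E`), and `uniq`
applied to the difference. -/
theorem FR_coord (h : CKLR D n φ θ Ws) {K : ℕ} (f : Sq n → Wd D n → O n)
    (hf : ∑ p, ∑ w, φ (CQ p) * θ (f p w) * φ (ew w) ∈ FR θ K) : ∀ p, ∀ w ∈ Ws, HO K (f p w) := by
  obtain ⟨g, hg, hg'⟩ := LUniqA_ex h hf
  have h1 : ∑ p, ∑ w, φ (CQ p) * θ (f p w - g p w) * φ (ew w) = 0 := by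
    have h2 : ∀ p w, φ (CQ p) * θ (f p w - g p w) * φ (ew w) =
        φ (CQ p) * θ (f p w) * φ (ew w) - φ (CQ p) * θ (g p w) * φ (ew w) := by
      intro p w
      rw [map_sub, mul_sub, sub_mul]
    simp only [h2, Finset.sum_sub_distrib]
    rw [hg, sub_self]
  intro p w hw
  have h3 := h.uniq (fun p w => f p w - g p w) h1 p w hw
  have h4 : f p w = g p w := sub_eq_zero.1 h3
  rw [h4]
  exact hg' p w

private theorem LUniqA_exL {K : ℕ} {x : R D n} (hx : x ∈ FL D n K) :
    ∃ f : Sq n → Wd D n → MvPolynomial (Fin n) ℂ, x = ∑ p, ∑ w, pol (f p w) * (ew w * LQ p) ∧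
      ∀ p w, HO K (f p w : O n) := by
  induction hx using AddSubgroup.closure_induction with
  | mem x hx =>
    obtain ⟨g, z, hg, rfl⟩ := hx
    obtain ⟨f, hf⟩ := lpbw_span z
    refine ⟨fun p w => g * f p w, ?_, fun p w => ?_⟩
    · rw [hf, Finset.mul_sum]
      refine Finset.sum_congr rfl fun p _ => ?_
      rw [Finset.mul_sum]
      refine Finset.sum_congr rfl fun w _ => ?_
      rw [map_mul, mul_assoc]
    · rw [MvPolynomial.coe_mul]
      exact HO_mul_right _ hg
  | zero =>
    refine ⟨fun _ _ => 0, ?_, fun _ _ => ?_⟩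
    · simp
    · rw [MvPolynomial.coe_zero]
      exact HO_zero K
  | add x y _ _ hx hy =>
    obtain ⟨f, hf, hf'⟩ := hx
    obtain ⟨g, hg, hg'⟩ := hy
    refine ⟨fun p w => f p w + g p w, ?_, fun p w => ?_⟩
    · rw [hf, hg, ← Finset.sum_add_distrib]
      refine Finset.sum_congr rfl fun p _ => ?_
      rw [← Finset.sum_add_distrib]
      refine Finset.sum_congr rfl fun w _ => ?_
      rw [map_add, add_mul]
    · rw [MvPolynomial.coe_add]
      exact HO_add (hf' p w) (hg' p w)
  | neg x _ hx =>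
    obtain ⟨f, hf, hf'⟩ := hx
    refine ⟨fun p w => - f p w, ?_, fun p w => ?_⟩
    · rw [hf, ← Finset.sum_neg_distrib]
      refine Finset.sum_congr rfl fun p _ => ?_
      rw [← Finset.sum_neg_distrib]
      refine Finset.sum_congr rfl fun w _ => ?_
      rw [map_neg, neg_mul]
    · rw [LUniqA_coe_neg]
      exact HO_neg (hf' p w)

/-- The left coordinates of elements of `FL K`. PROOF: closure induction, `lpbw_span`, `lpbw_unique`,
`HO_mul_right`. -/
theorem FL_coord {K : ℕ} (f : Sq n → Wd D n → MvPolynomial (Fin n) ℂ)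
    (hf : (∑ p, ∑ w, pol (f p w) * (ew w * LQ p) : R D n) ∈ FL D n K) :
    ∀ p w, HO K (f p w : O n) := by
  obtain ⟨g, hg, hg'⟩ := LUniqA_exL hf
  have := lpbw_unique f g hg
  subst this
  exact hg'

/-- `∑ w ∈ Ws, ew w` is central. PROOF: `R_induction`; `ps r * ew w = ew (w ∘ sw) * ps r`, Ws is closed
under `w ↦ w ∘ sw n r`, an involution. -/
theorem eW_central [DecidablePred (· ∈ Ws)] (hW : ∀ w ∈ Ws, ∀ r, w ∘ sw n r ∈ Ws) (x : R D n) :
    (∑ w with w ∈ Ws, ew w) * x = x * ∑ w with w ∈ Ws, ew w := by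
  induction x using R_induction with
  | hc c => exact (Algebra.commutes _ _).symm
  | he w =>
    rw [Finset.sum_mul, Finset.mul_sum]
    refine Finset.sum_congr rfl fun u _ => ?_
    rw [ew_facts.1, ew_facts.1]
    by_cases huw : u = w
    · rw [if_pos huw, if_pos huw.symm, huw]
    · rw [if_neg huw, if_neg (Ne.symm huw)]
  | hy k =>
    rw [Finset.sum_mul, Finset.mul_sum]
    refine Finset.sum_congr rfl fun u _ => ?_
    exact ((isRep_R D n).Y_E k u).symm
  | hs r =>
    have hinv : ∀ w : Wd D n, (w ∘ sw n r) ∘ sw n r = w := by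
      intro w
      funext j
      simp only [Function.comp_apply]
      congr 1
      unfold sw
      split_ifs <;> simp
    rw [Finset.sum_mul, Finset.mul_sum]
    refine Finset.sum_bij' (fun w _ => w ∘ sw n r) (fun w _ => w ∘ sw n r) ?_ ?_ ?_ ?_ ?_
    · intro w hw
      simp only [Finset.mem_filter, Finset.mem_univ, true_and] at hw ⊢
      exact hW w hw r
    · intro w hw
      simp only [Finset.mem_filter, Finset.mem_univ, true_and] at hw ⊢
      exact hW w hw r
    · intro w _
      exact hinv w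
    · intro w _
      exact hinv w
    · intro w _
      have h1 := (isRep_R D n).S_E r (w ∘ sw n r)
      rw [h1, hinv]
  | ha x y hx hy => rw [mul_add, add_mul, hx, hy]
  | hm x y hx hy => rw [← mul_assoc, hx, mul_assoc, hy, mul_assoc]

end CA1492.PA
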