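import Mathlib
import Pool.Agent.Lib.MP_ca1492_al.PA.LUniqA

/-!
# MP_ca1492_al, PA/LUniq: the left basis of a completed KLR algebra
-/

set_option autoImplicit false

namespace CA1492.PA

open MvPowerSeries

variable {D : Dat} {n : ℕ} {A : Type*} [Ring A] [Algebra ℂ A]
  {φ : R D n →ₐ[ℂ] A} {θ : O n →ₐ[ℂ] A} {Ws : Set (Wd D n)}

theorem LUniq_FL_mul_right {K : ℕ} (b : R D n) {x : R D n} (hx : x ∈ FL D n K) : x * b ∈ FL D n K := by
  refine AddSubgroup.closure_induction (p := fun x _ => x * b ∈ FL D n K) ?_ ?_ ?_ ?_ hx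
  · rintro x ⟨g, z, hg, rfl⟩
    exact AddSubgroup.subset_closure ⟨g, z * b, hg, by rw [mul_assoc]⟩
  · show (0 : R D n) * b ∈ FL D n K
    rw [zero_mul]
    exact AddSubgroup.zero_mem _
  · intro x y _ _ hx hy
    show (x + y) * b ∈ FL D n K
    rw [add_mul]
    exact AddSubgroup.add_mem _ hx hy
  · intro x _ hx
    show (-x) * b ∈ FL D n K
    rw [neg_mul]
    exact AddSubgroup.neg_mem _ hx

theorem LUniq_eW_mul [DecidablePred (· ∈ Ws)] (w : Wd D n) :
    ((∑ v with v ∈ Ws, ew v) * ew w : R D n) = if w ∈ Ws then ew w else 0 := by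
  rw [Finset.sum_mul]
  by_cases hw : w ∈ Ws
  · rw [if_pos hw, Finset.sum_eq_single w]
    · rw [ew_facts.1, if_pos rfl]
    · intro v _ hv
      rw [ew_facts.1, if_neg hv]
    · intro h1
      exact absurd (Finset.mem_filter.mpr ⟨Finset.mem_univ w, hw⟩) h1
  · rw [if_neg hw]
    refine Finset.sum_eq_zero fun v hv => ?_
    rw [ew_facts.1, if_neg]
    rintro rfl
    exact hw (Finset.mem_filter.mp hv).2

theorem LUniq_mul_eW [DecidablePred (· ∈ Ws)] (w : Wd D n) :
    (ew w * (∑ v with v ∈ Ws, ew v) : R D n) = if w ∈ Ws then ew w else 0 := by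
  rw [Finset.mul_sum]
  by_cases hw : w ∈ Ws
  · rw [if_pos hw, Finset.sum_eq_single w]
    · rw [ew_facts.1, if_pos rfl]
    · intro v _ hv
      rw [ew_facts.1, if_neg (Ne.symm hv)]
    · intro h1
      exact absurd (Finset.mem_filter.mpr ⟨Finset.mem_univ w, hw⟩) h1
  · rw [if_neg hw]
    refine Finset.sum_eq_zero fun v hv => ?_
    rw [ew_facts.1, if_neg]
    rintro rfl
    exact hw (Finset.mem_filter.mp hv).2

/-- PROOF. Put c1 p = constant of `FR_comm` for LQ p (and ew w * LQ p), c2 p = constant of `FL_comm` for CQ p,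
C = sum of all these constants. Given K write `f p w = h p w + t p w`, `HO (K + C) (t p w)`
(`HO_trunc`; take h = 0 = t for w ∉ Ws and replace f by 0 there: these terms vanish in A by `E_out`).
z = ∑ pol (h p w) * (ew w * LQ p). φ z = - ∑ θ (t p w) * φ (ew w * LQ p) ∈ FR (K + C2).
By `pbw_span` z = ∑ CQ p * pol (g p w) * ew w, so by `FR_coord` HO (K + C2) (g p w) for w ∈ Ws.
z = e_W z = z e_W (`eW_central`), so z = ∑ (w ∈ Ws) CQ p * pol (g p w) * ew w ∈ FL K (`FL_comm`), and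
`FL_coord` gives HO K (h p w), so HO K (f p w). For all K: f p w = 0 (`HO_eq_zero`). -/
theorem luniq (h : CKLR D n φ θ Ws) (f : Sq n → Wd D n → O n)
    (h0 : ∑ p, ∑ w, θ (f p w) * φ (ew w * LQ p) = 0) : ∀ p, ∀ w ∈ Ws, f p w = 0 := by
  classical
  choose c1 hc1 using fun q : Sq n × Wd D n => FR_comm h (ew q.2 * LQ q.1)
  choose c2 hc2 using fun p : Sq n => FL_comm (D := D) (CQ p)
  have hout : ∀ (p : Sq n) (w : Wd D n), w ∉ Ws → φ (ew w * LQ p) = 0 := by
    intro p w hw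
    rw [map_mul, h.E_out w hw, zero_mul]
  suffices H : ∀ K : ℕ, ∀ p, ∀ w ∈ Ws, HO K (f p w) from
    fun p w hw => HO_eq_zero fun K => H K p w hw
  intro K
  obtain ⟨C1, hC1⟩ : ∃ C1 : ℕ, ∀ q, c1 q ≤ C1 :=
    ⟨∑ q, c1 q, fun q => Finset.single_le_sum (fun _ _ => Nat.zero_le _) (Finset.mem_univ q)⟩
  obtain ⟨C2, hC2⟩ : ∃ C2 : ℕ, ∀ p, c2 p ≤ C2 :=
    ⟨∑ p, c2 p, fun p => Finset.single_le_sum (fun _ _ => Nat.zero_le _) (Finset.mem_univ p)⟩
  choose g0 hg0 using fun q : Sq n × Wd D n => HO_trunc (K + C2 + C1) (f q.1 q.2)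
  obtain ⟨P, hP⟩ : ∃ P : Sq n → Wd D n → MvPolynomial (Fin n) ℂ,
      ∀ p w, P p w = if w ∈ Ws then g0 (p, w) else 0 := ⟨_, fun _ _ => rfl⟩
  have hPin : ∀ p w, w ∈ Ws → HO (K + C2 + C1) (f p w - (P p w : O n)) := by
    intro p w hw
    rw [hP, if_pos hw]
    exact hg0 (p, w)
  obtain ⟨z, hz⟩ : ∃ z : R D n, z = ∑ p, ∑ w, pol (P p w) * (ew w * LQ p) := ⟨_, rfl⟩
  have hφz : φ z = ∑ p, ∑ w, θ (P p w : O n) * φ (ew w * LQ p) := by
    rw [hz, map_sum]
    refine Finset.sum_congr rfl fun p _ => ?_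
    rw [map_sum]
    refine Finset.sum_congr rfl fun w _ => ?_
    rw [map_mul, θ_pol h]
  have hmem : φ z ∈ FR θ (K + C2) := by
    have h1 : φ z = ∑ p, ∑ w, θ ((P p w : O n) - f p w) * φ (ew w * LQ p) := by
      have h2 : φ z - ∑ p, ∑ w, θ (f p w) * φ (ew w * LQ p) =
          ∑ p, ∑ w, θ ((P p w : O n) - f p w) * φ (ew w * LQ p) := by
        rw [hφz, ← Finset.sum_sub_distrib]
        refine Finset.sum_congr rfl fun p _ => ?_
        rw [← Finset.sum_sub_distrib]
        refine Finset.sum_congr rfl fun w _ => ?_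
        rw [map_sub, sub_mul]
      rw [h0, sub_zero] at h2
      exact h2
    rw [h1]
    refine AddSubgroup.sum_mem _ fun p _ => AddSubgroup.sum_mem _ fun w _ => ?_
    by_cases hw : w ∈ Ws
    · have h3 : HO (K + C2 + C1) ((P p w : O n) - f p w) := by
        have := HO_neg (hPin p w hw)
        rwa [neg_sub] at this
      exact hc1 (p, w) (K + C2) _ (HO_mono (Nat.add_le_add_left (hC1 (p, w)) _) h3)
    · rw [hout p w hw, mul_zero]
      exact AddSubgroup.zero_mem _
  obtain ⟨g, hg⟩ := pbw_span z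
  have hgHO : ∀ p, ∀ w ∈ Ws, HO (K + C2) (g p w : O n) := by
    refine FR_coord h (fun p w => (g p w : O n)) ?_
    have h4 : ∑ p, ∑ w, φ (CQ p) * θ (g p w : O n) * φ (ew w) = φ z := by
      rw [hg, map_sum]
      refine Finset.sum_congr rfl fun p _ => ?_
      rw [map_sum]
      refine Finset.sum_congr rfl fun w _ => ?_
      rw [map_mul, map_mul, θ_pol h]
    rw [h4]
    exact hmem
  have hez : (∑ v with v ∈ Ws, ew v) * z = z := by
    rw [hz, Finset.mul_sum]
    refine Finset.sum_congr rfl fun p _ => ?_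
    rw [Finset.mul_sum]
    refine Finset.sum_congr rfl fun w _ => ?_
    by_cases hw : w ∈ Ws
    · rw [← mul_assoc (pol _), pol_ew, mul_assoc (ew w), ← mul_assoc, LUniq_eW_mul, if_pos hw]
    · rw [hP, if_neg hw, map_zero, zero_mul, mul_zero]
  have hze : z = ∑ p, ∑ w, (if w ∈ Ws then CQ p * pol (g p w) * ew w else 0) := by
    have h5 : z = z * ∑ v with v ∈ Ws, ew v := by
      rw [← eW_central h.Ws_sw z, hez]
    rw [h5]
    conv_lhs => rw [hg]
    rw [Finset.sum_mul]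
    refine Finset.sum_congr rfl fun p _ => ?_
    rw [Finset.sum_mul]
    refine Finset.sum_congr rfl fun w _ => ?_
    rw [mul_assoc, LUniq_mul_eW]
    split_ifs
    · rfl
    · rw [mul_zero]
  have hzFL : z ∈ FL D n K := by
    rw [hze]
    refine AddSubgroup.sum_mem _ fun p _ => AddSubgroup.sum_mem _ fun w _ => ?_
    split_ifs with hw
    · exact LUniq_FL_mul_right _ (hc2 p K _ (HO_mono (Nat.add_le_add_left (hC2 p) _) (hgHO p w hw)))
    · exact AddSubgroup.zero_mem _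
  intro p w hw
  have h6 : HO K (P p w : O n) := FL_coord P (hz ▸ hzFL) p w
  have h7 : HO K (f p w - (P p w : O n)) := HO_mono (by omega) (hPin p w hw)
  have h8 := HO_add h7 h6
  rwa [sub_add_cancel] at h8

end CA1492.PA
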