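import Mathlib

/-!
# MP_ca1492_al, PA/Ten: extension of scalars for noncommutative rings

`TT φ X` = `A ⊗_R X` for a ring homomorphism `φ : R → A`, as a quotient of `A ⊗[ℤ] X`.
-/

set_option autoImplicit false

namespace CA1492.PA

open TensorProduct CategoryTheory

variable {R A : Type} [Ring R] [Ring A] (φ : R →+* A)

/-- the relations `a φ(r) ⊗ x = a ⊗ r x` -/
def relT (X : Type) [AddCommGroup X] [Module R X] : Submodule A (A ⊗[ℤ] X) :=
  Submodule.span A {z | ∃ (a : A) (r : R) (x : X), z = (a * φ r) ⊗ₜ[ℤ] x - a ⊗ₜ[ℤ] (r • x)}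

/-- `A ⊗_R X` -/
def TT (X : Type) [AddCommGroup X] [Module R X] : Type := (A ⊗[ℤ] X) ⧸ relT φ X

section
variable (X : Type) [AddCommGroup X] [Module R X]

noncomputable instance : AddCommGroup (TT φ X) :=
  inferInstanceAs (AddCommGroup ((A ⊗[ℤ] X) ⧸ relT φ X))
noncomputable instance : Module A (TT φ X) :=
  inferInstanceAs (Module A ((A ⊗[ℤ] X) ⧸ relT φ X))

variable {X}

/-- pure tensors -/
noncomputable def tm (a : A) (x : X) : TT φ X := (relT φ X).mkQ (a ⊗ₜ[ℤ] x)

variable (X) in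
/-- the projection -/
noncomputable def Ten_mk : A ⊗[ℤ] X →ₗ[A] TT φ X := (relT φ X).mkQ

theorem Ten_tm (a : A) (x : X) : tm φ a x = Ten_mk φ X (a ⊗ₜ[ℤ] x) := rfl

theorem Ten_surj : Function.Surjective (Ten_mk φ X) := (relT φ X).mkQ_surjective

theorem Ten_zero {z : A ⊗[ℤ] X} (hz : z ∈ relT φ X) : Ten_mk φ X z = 0 :=
  (Submodule.Quotient.mk_eq_zero _).2 hz

theorem tm_add_left (a b : A) (x : X) : tm φ (a + b) x = tm φ a x + tm φ b x := by
  rw [Ten_tm, Ten_tm, Ten_tm, TensorProduct.add_tmul, map_add]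
theorem tm_add_right (a : A) (x y : X) : tm φ a (x + y) = tm φ a x + tm φ a y := by
  rw [Ten_tm, Ten_tm, Ten_tm, TensorProduct.tmul_add, map_add]
theorem tm_zero_left (x : X) : tm φ 0 x = 0 := by
  rw [Ten_tm, TensorProduct.zero_tmul, map_zero]
theorem tm_zero_right (a : A) : tm φ a (0 : X) = 0 := by
  rw [Ten_tm, TensorProduct.tmul_zero, map_zero]
theorem tm_sum_left {ι : Type*} (s : Finset ι) (a : ι → A) (x : X) :
    tm φ (∑ i ∈ s, a i) x = ∑ i ∈ s, tm φ (a i) x := by
  rw [Ten_tm, TensorProduct.sum_tmul, map_sum]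
  rfl
theorem smul_tm (a b : A) (x : X) : a • tm φ b x = tm φ (a * b) x := by
  rw [Ten_tm, Ten_tm, ← smul_eq_mul, ← TensorProduct.smul_tmul', map_smul]
theorem tm_mul (a : A) (r : R) (x : X) : tm φ (a * φ r) x = tm φ a (r • x) := by
  rw [Ten_tm, Ten_tm, ← sub_eq_zero, ← map_sub]
  exact Ten_zero φ (Submodule.subset_span ⟨a, r, x, rfl⟩)

theorem TT_induction {p : TT φ X → Prop} (h0 : p 0) (h1 : ∀ a x, p (tm φ a x))
    (h2 : ∀ z z', p z → p z' → p (z + z')) (z : TT φ X) : p z := by
  obtain ⟨t, rfl⟩ := Ten_surj φ z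
  induction t using TensorProduct.induction_on with
  | zero =>
    rw [map_zero]
    exact h0
  | tmul a x => exact h1 a x
  | add t t' ht ht' =>
    rw [map_add]
    exact h2 _ _ ht ht'

/-- Universal property for additive maps: a biadditive map which is balanced.
PROOF: `TensorProduct.liftAddHom` or `TensorProduct.lift` over ℤ, then the quotient: the kernel contains
the additive group generated by the `c • (a φ r ⊗ x - a ⊗ r x)`, c ∈ A. -/
theorem exists_liftAdd {M : Type*} [AddCommGroup M] (B : A → X → M)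
    (hl : ∀ a b x, B (a + b) x = B a x + B b x) (hr : ∀ a x y, B a (x + y) = B a x + B a y)
    (hb : ∀ a r x, B (a * φ r) x = B a (r • x)) : ∃ F : TT φ X →+ M, ∀ a x, F (tm φ a x) = B a x := by
  let B' : A →+ X →+ M :=
    AddMonoidHom.mk' (fun a => AddMonoidHom.mk' (fun x => B a x) (hr a))
      (fun a b => AddMonoidHom.ext fun x => hl a b x)
  let F₀ : A ⊗[ℤ] X →+ M := TensorProduct.liftAddHom B' (fun n a x => by
    rw [map_zsmul, map_zsmul, AddMonoidHom.smul_apply])
  have hF₀ : ∀ a x, F₀ (a ⊗ₜ[ℤ] x) = B a x := fun a x => rfl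
  have hker : ∀ z ∈ relT φ X, ∀ c : A, F₀ (c • z) = 0 := by
    intro z hz
    unfold relT at hz
    induction hz using Submodule.span_induction with
    | mem z hz =>
      obtain ⟨a, r, x, rfl⟩ := hz
      intro c
      rw [smul_sub, TensorProduct.smul_tmul', TensorProduct.smul_tmul', map_sub, hF₀, hF₀,
        smul_eq_mul, smul_eq_mul, ← mul_assoc, hb, sub_self]
    | zero =>
      intro c
      rw [smul_zero, map_zero]
    | add x y _ _ hx hy =>
      intro c
      rw [smul_add, map_add, hx, hy, add_zero]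
    | smul b x _ hx =>
      intro c
      rw [smul_smul]
      exact hx _
  refine ⟨QuotientAddGroup.lift (relT φ X).toAddSubgroup F₀ (fun z hz => ?_), fun a x => rfl⟩
  have := hker z hz 1
  rw [one_smul] at this
  exact this

/-- Universal property. -/
theorem exists_lift {Y : Type} [AddCommGroup Y] [Module A Y] (f : X →+ Y)
    (hf : ∀ (r : R) x, f (r • x) = φ r • f x) :
    ∃ F : TT φ X →ₗ[A] Y, ∀ a x, F (tm φ a x) = a • f x := by
  obtain ⟨F, hF⟩ := exists_liftAdd φ (fun (a : A) (x : X) => a • f x)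
    (fun a b x => add_smul _ _ _) (fun a x y => by rw [map_add, smul_add])
    (fun a r x => by rw [hf, smul_smul])
  refine ⟨{ F with map_smul' := ?_ }, hF⟩
  intro c z
  change F (c • z) = c • F z
  refine TT_induction φ (p := fun z => F (c • z) = c • F z) ?_ ?_ ?_ z
  · rw [smul_zero, map_zero, smul_zero]
  · intro a x
    rw [smul_tm, hF, hF, smul_smul]
  · intro z z' h h'
    rw [smul_add, map_add, map_add, smul_add, h, h']

theorem TT_hom_ext {Y : Type} [AddCommGroup Y] [Module A Y] {F G : TT φ X →ₗ[A] Y}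
    (h : ∀ x, F (tm φ 1 x) = G (tm φ 1 x)) : F = G := by
  refine LinearMap.ext fun z => ?_
  refine TT_induction φ (p := fun z => F z = G z) ?_ ?_ ?_ z
  · rw [map_zero, map_zero]
  · intro a x
    have h1 : tm φ a x = a • tm φ 1 x := by rw [smul_tm, mul_one]
    rw [h1, map_smul, map_smul, h]
  · intro z z' h h'
    rw [map_add, map_add, h, h']

variable {X' : Type} [AddCommGroup X'] [Module R X']

theorem exists_map (f : X →ₗ[R] X') : ∃ F : TT φ X →ₗ[A] TT φ X', ∀ a x, F (tm φ a x) = tm φ a (f x) := by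
  obtain ⟨F, hF⟩ := exists_lift φ (Y := TT φ X')
    (AddMonoidHom.mk' (fun x => tm φ 1 (f x)) (fun x y => by rw [map_add, tm_add_right]))
    (fun r x => by
      change tm φ 1 (f (r • x)) = φ r • tm φ 1 (f x)
      rw [map_smul, smul_tm, mul_one, ← tm_mul, one_mul])
  refine ⟨F, fun a x => ?_⟩
  rw [hF]
  change a • tm φ 1 (f x) = _
  rw [smul_tm, mul_one]

/-- functoriality -/
noncomputable def TTm (f : X →ₗ[R] X') : TT φ X →ₗ[A] TT φ X' := (exists_map φ f).choose

theorem TTm_tm (f : X →ₗ[R] X') (a : A) (x : X) : TTm φ f (tm φ a x) = tm φ a (f x) :=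
  (exists_map φ f).choose_spec a x

theorem TTm_surj (f : X →ₗ[R] X') (hf : Function.Surjective f) : Function.Surjective (TTm φ f) := by
  intro z
  refine TT_induction φ (p := fun z => ∃ y, TTm φ f y = z) ?_ ?_ ?_ z
  · exact ⟨0, map_zero _⟩
  · intro a x'
    obtain ⟨x, rfl⟩ := hf x'
    exact ⟨tm φ a x, TTm_tm φ f a x⟩
  · rintro _ _ ⟨y, rfl⟩ ⟨y', rfl⟩
    exact ⟨y + y', map_add _ _ _⟩

end

end CA1492.PA
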