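import Mathlib
import Pool.Agent.Lib.MP_ca1492_al.PA.LUniq
import Pool.Agent.Lib.MP_ca1492_al.PA.Ten

/-!
# MP_ca1492_al, PA/TenEx: `A ⊗_R -` is exact for a completed KLR algebra
-/

set_option autoImplicit false

namespace CA1492.PA

open MvPowerSeries TensorProduct

variable {D : Dat} {n : ℕ} {A : Type} [Ring A] [Algebra ℂ A]
  {φ : R D n →ₐ[ℂ] A} {θ : O n →ₐ[ℂ] A} {Ws : Set (Wd D n)}

/-- PROOF: `MvPowerSeries.toAdicCompletionAlgEquiv` (Mathlib/RingTheory/MvPowerSeries/Equiv.lean) and
`AdicCompletion.flat_of_isNoetherian`. The algebra structure is `MvPowerSeries.algebraMvPolynomial`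
(or whatever instance is found: `algebraMap` is the coercion). -/
theorem flat_O (n : ℕ) : Module.Flat (MvPolynomial (Fin n) ℂ) (MvPowerSeries (Fin n) ℂ) := by
  have h : Module.Flat (MvPolynomial (Fin n) ℂ)
      (AdicCompletion (MvPolynomial.idealOfVars (Fin n) ℂ) (MvPolynomial (Fin n) ℂ)) :=
    AdicCompletion.flat_of_isNoetherian _
  exact Module.Flat.of_linearEquiv (toAdicCompletionAlgEquiv (Fin n) ℂ).toLinearEquiv

/-- X as a module over the polynomial ring -/
def TenExP (_D : Dat) (_n : ℕ) (X : Type) : Type := X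

section
variable {X : Type} [AddCommGroup X] [Module (R D n) X]

instance : AddCommGroup (TenExP D n X) := inferInstanceAs (AddCommGroup X)

noncomputable instance : Module (MvPolynomial (Fin n) ℂ) (TenExP D n X) :=
  Module.compHom X (pol : MvPolynomial (Fin n) ℂ →ₐ[ℂ] R D n).toRingHom

/-- from X -/
def TenExi (x : X) : TenExP D n X := x

omit [Module (R D n) X] in
theorem TenExi_add (x y : X) : (TenExi (x + y) : TenExP D n X) = TenExi x + TenExi y := rfl

theorem TenExi_smul (f : MvPolynomial (Fin n) ℂ) (x : X) :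
    f • (TenExi x : TenExP D n X) = TenExi ((pol f : R D n) • x) := rfl

/-- the base change -/
abbrev TenExG (D : Dat) (n : ℕ) (X : Type) [AddCommGroup X] [Module (R D n) X] : Type :=
  O n ⊗[MvPolynomial (Fin n) ℂ] TenExP D n X

theorem TenExG_move (g : O n) (f : MvPolynomial (Fin n) ℂ) (x : X) :
    ((g * (f : O n)) ⊗ₜ[MvPolynomial (Fin n) ℂ] (TenExi x : TenExP D n X) : TenExG D n X) =
      g ⊗ₜ (TenExi ((pol f : R D n) • x) : TenExP D n X) := by
  rw [← TenExi_smul, ← TensorProduct.smul_tmul]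
  congr 1
  rw [Algebra.smul_def, mul_comm]
  rfl

end

open Classical in
/-- the coordinates -/
noncomputable def TenExc (h : CKLR D n φ θ Ws) (a : A) (p : Sq n) (w : Wd D n) : O n :=
  if w ∈ Ws then (lspan h a).choose p w else 0

theorem TenEx_out (h : CKLR D n φ θ Ws) {w : Wd D n} (hw : w ∉ Ws) (x : R D n) :
    φ (ew w * x) = 0 := by
  rw [map_mul, h.E_out w hw, zero_mul]

theorem TenExc_spec (h : CKLR D n φ θ Ws) (a : A) :
    a = ∑ p, ∑ w, θ (TenExc h a p w) * φ (ew w * LQ p) := by
  conv_lhs => rw [(lspan h a).choose_spec]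
  refine Finset.sum_congr rfl fun p _ => Finset.sum_congr rfl fun w _ => ?_
  by_cases hw : w ∈ Ws
  · unfold TenExc
    rw [if_pos hw]
  · rw [TenEx_out h hw, mul_zero, mul_zero]

theorem TenExc_out (h : CKLR D n φ θ Ws) (a : A) (p : Sq n) {w : Wd D n} (hw : w ∉ Ws) :
    TenExc h a p w = 0 := by
  unfold TenExc
  rw [if_neg hw]

theorem TenExc_uniq (h : CKLR D n φ θ Ws) {a : A} {f : Sq n → Wd D n → O n}
    (h0 : ∀ p w, w ∉ Ws → f p w = 0) (h1 : a = ∑ p, ∑ w, θ (f p w) * φ (ew w * LQ p)) (p : Sq n)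
    (w : Wd D n) : TenExc h a p w = f p w := by
  by_cases hw : w ∈ Ws
  · have h2 : ∑ p, ∑ w, θ (TenExc h a p w - f p w) * φ (ew w * LQ p) = 0 := by
      have e : ∀ p w, θ (TenExc h a p w - f p w) * φ (ew w * LQ p) =
          θ (TenExc h a p w) * φ (ew w * LQ p) - θ (f p w) * φ (ew w * LQ p) := by
        intro p w
        rw [map_sub, sub_mul]
      simp only [e, Finset.sum_sub_distrib]
      rw [← TenExc_spec h a, ← h1, sub_self]
    exact sub_eq_zero.1 (luniq h _ h2 p w hw)
  · rw [TenExc_out h a p hw, h0 p w hw]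

theorem TenExc_add (h : CKLR D n φ θ Ws) (a b : A) (p : Sq n) (w : Wd D n) :
    TenExc h (a + b) p w = TenExc h a p w + TenExc h b p w := by
  refine TenExc_uniq h (f := fun p w => TenExc h a p w + TenExc h b p w) ?_ ?_ p w
  · intro p w hw
    show TenExc h a p w + TenExc h b p w = 0
    rw [TenExc_out h a p hw, TenExc_out h b p hw, add_zero]
  · simp only [map_add, add_mul, Finset.sum_add_distrib]
    rw [← TenExc_spec h a, ← TenExc_spec h b]

theorem TenEx_move (p : Sq n) (w : Wd D n) (r : R D n) :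
    ∃ c : Sq n → MvPolynomial (Fin n) ℂ,
      (ew w * LQ p) * r = ∑ p', pol (c p') * (ew w * LQ p') := by
  obtain ⟨f, hf⟩ := lpbw_span ((ew w * LQ p) * r)
  refine ⟨fun p' => f p' w, ?_⟩
  have e1 : (ew w * LQ p) * r = ew w * ((ew w * LQ p) * r) := by
    have : (ew w * ew w : R D n) = ew w := by rw [ew_facts.1, if_pos rfl]
    rw [← mul_assoc, ← mul_assoc, this]
  rw [e1, hf, Finset.mul_sum]
  refine Finset.sum_congr rfl fun p' _ => ?_
  rw [Finset.mul_sum, Finset.sum_eq_single w]
  · rw [← mul_assoc, ← pol_ew, mul_assoc, ← mul_assoc (ew w) (ew w), ew_facts.1, if_pos rfl]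
  · intro w' _ hw'
    rw [← mul_assoc, ← pol_ew, mul_assoc, ← mul_assoc (ew w) (ew w'), ew_facts.1,
      if_neg (Ne.symm hw'), zero_mul, mul_zero]
  · intro hh
    exact absurd (Finset.mem_univ _) hh

/-- the coefficients of `TenEx_move` -/
noncomputable def TenExm (p : Sq n) (w : Wd D n) (r : R D n) : Sq n → MvPolynomial (Fin n) ℂ :=
  (TenEx_move p w r).choose

theorem TenExm_spec (p : Sq n) (w : Wd D n) (r : R D n) :
    (ew w * LQ p) * r = ∑ p', pol (TenExm p w r p') * (ew w * LQ p') :=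
  (TenEx_move p w r).choose_spec

theorem TenExc_mul (h : CKLR D n φ θ Ws) (a : A) (r : R D n) (p' : Sq n) (w : Wd D n) :
    TenExc h (a * φ r) p' w = ∑ p, TenExc h a p w * (TenExm p w r p' : O n) := by
  refine TenExc_uniq h (f := fun p' w => ∑ p, TenExc h a p w * (TenExm p w r p' : O n)) ?_ ?_ p' w
  · intro p' w hw
    refine Finset.sum_eq_zero fun p _ => ?_
    rw [TenExc_out h a p hw, zero_mul]
  · have e1 : a * φ r = ∑ p, ∑ w, ∑ p', θ (TenExc h a p w * (TenExm p w r p' : O n)) *
        φ (ew w * LQ p') := by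
      conv_lhs => rw [TenExc_spec h a, Finset.sum_mul]
      refine Finset.sum_congr rfl fun p _ => ?_
      rw [Finset.sum_mul]
      refine Finset.sum_congr rfl fun w _ => ?_
      rw [mul_assoc, ← map_mul, TenExm_spec, map_sum, Finset.mul_sum]
      refine Finset.sum_congr rfl fun p' _ => ?_
      rw [map_mul φ, map_mul θ, θ_pol h, mul_assoc]
    rw [e1]
    have e2 : ∀ (p' : Sq n) (w : Wd D n),
        θ (∑ p, TenExc h a p w * (TenExm p w r p' : O n)) * φ (ew w * LQ p') =
          ∑ p, θ (TenExc h a p w * (TenExm p w r p' : O n)) * φ (ew w * LQ p') := by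
      intro p' w
      rw [map_sum, Finset.sum_mul]
    simp only [e2]
    have e3 : ∀ p : Sq n, ∑ w, ∑ p', θ (TenExc h a p w * (TenExm p w r p' : O n)) *
        φ (ew w * LQ p') = ∑ p', ∑ w, θ (TenExc h a p w * (TenExm p w r p' : O n)) *
        φ (ew w * LQ p') := fun p => Finset.sum_comm
    simp only [e3]
    rw [Finset.sum_comm]
    refine Finset.sum_congr rfl fun p' _ => ?_
    rw [Finset.sum_comm]

section
variable {X : Type} [AddCommGroup X] [Module (R D n) X]

/-- the biadditive map -/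
noncomputable def TenExB (h : CKLR D n φ θ Ws) (a : A) (x : X) : TenExG D n X :=
  ∑ p, ∑ w, TenExc h a p w ⊗ₜ[MvPolynomial (Fin n) ℂ]
    (TenExi ((ew w * LQ p : R D n) • x) : TenExP D n X)

theorem TenExB_bal (h : CKLR D n φ θ Ws) (a : A) (r : R D n) (x : X) :
    TenExB h (a * φ r) x = TenExB h a (r • x) := by
  unfold TenExB
  have e1 : ∀ (p' : Sq n) (w : Wd D n), (TenExc h (a * φ r) p' w ⊗ₜ[MvPolynomial (Fin n) ℂ]
      (TenExi ((ew w * LQ p' : R D n) • x) : TenExP D n X) : TenExG D n X) =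
      ∑ p, TenExc h a p w ⊗ₜ[MvPolynomial (Fin n) ℂ]
        (TenExi ((pol (TenExm p w r p') * (ew w * LQ p') : R D n) • x) : TenExP D n X) := by
    intro p' w
    rw [TenExc_mul, TensorProduct.sum_tmul]
    refine Finset.sum_congr rfl fun p _ => ?_
    rw [TenExG_move, ← mul_smul]
  have e2 : ∀ (p : Sq n) (w : Wd D n), (TenExc h a p w ⊗ₜ[MvPolynomial (Fin n) ℂ]
      (TenExi ((ew w * LQ p : R D n) • r • x) : TenExP D n X) : TenExG D n X) =
      ∑ p', TenExc h a p w ⊗ₜ[MvPolynomial (Fin n) ℂ]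
        (TenExi ((pol (TenExm p w r p') * (ew w * LQ p') : R D n) • x) : TenExP D n X) := by
    intro p w
    rw [← TensorProduct.tmul_sum]
    congr 1
    rw [← mul_smul, TenExm_spec, Finset.sum_smul]
    rfl
  simp only [e1, e2]
  rw [Finset.sum_comm]
  conv_rhs => rw [Finset.sum_comm]
  refine Finset.sum_congr rfl fun w _ => ?_
  rw [Finset.sum_comm]

/-- the map α -/
theorem TenEx_alpha (h : CKLR D n φ θ Ws) (X : Type) [AddCommGroup X] [Module (R D n) X] :
    ∃ F : TT (φ : R D n →+* A) X →+ TenExG D n X,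
      ∀ a x, F (tm (φ : R D n →+* A) a x) = TenExB h a x := by
  refine exists_liftAdd (φ : R D n →+* A) (TenExB h) ?_ ?_ ?_
  · intro a b x
    unfold TenExB
    simp only [TenExc_add, TensorProduct.add_tmul, Finset.sum_add_distrib]
  · intro a x y
    unfold TenExB
    simp only [smul_add, TenExi_add, TensorProduct.tmul_add, Finset.sum_add_distrib]
  · intro a r x
    exact TenExB_bal h a r x

/-- the map β -/
theorem TenEx_beta (h : CKLR D n φ θ Ws) (X : Type) [AddCommGroup X] [Module (R D n) X] :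
    ∃ F : TenExG D n X →+ TT (φ : R D n →+* A) X,
      ∀ g (x : X), F (g ⊗ₜ[MvPolynomial (Fin n) ℂ] (TenExi x : TenExP D n X)) =
        tm (φ : R D n →+* A) (θ g) x := by
  refine ⟨TensorProduct.liftAddHom
    (AddMonoidHom.mk' (fun g => AddMonoidHom.mk'
      (fun x : TenExP D n X => tm (φ : R D n →+* A) (θ g) (X := X) x) ?_) ?_) ?_, ?_⟩
  · intro x y
    exact tm_add_right _ _ _ _
  · intro g g'
    ext x
    show tm (φ : R D n →+* A) (θ (g + g')) (X := X) x = tm (φ : R D n →+* A) (θ g) (X := X) x +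
      tm (φ : R D n →+* A) (θ g') (X := X) x
    rw [map_add]
    exact tm_add_left (φ : R D n →+* A) (X := X) _ _ _
  · intro f g x
    show tm (φ : R D n →+* A) (θ (f • g)) (X := X) x =
      tm (φ : R D n →+* A) (θ g) (X := X) ((pol f : R D n) • (show X from x))
    rw [← tm_mul]
    congr 1
    rw [Algebra.smul_def, mul_comm, map_mul]
    congr 1
    exact θ_pol h f
  · intro g x
    rfl

theorem TenEx_ba (h : CKLR D n φ θ Ws) {F : TT (φ : R D n →+* A) X →+ TenExG D n X}
    (hF : ∀ a x, F (tm (φ : R D n →+* A) a x) = TenExB h a x)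
    {G : TenExG D n X →+ TT (φ : R D n →+* A) X}
    (hG : ∀ g (x : X), G (g ⊗ₜ[MvPolynomial (Fin n) ℂ] (TenExi x : TenExP D n X)) =
        tm (φ : R D n →+* A) (θ g) x) (z : TT (φ : R D n →+* A) X) : G (F z) = z := by
  induction z using TT_induction with
  | h0 => rw [map_zero, map_zero]
  | h1 a x =>
    rw [hF]
    unfold TenExB
    rw [map_sum]
    simp only [map_sum, hG]
    have e : ∀ (p : Sq n) (w : Wd D n), tm (φ : R D n →+* A) (θ (TenExc h a p w))
        ((ew w * LQ p : R D n) • x) =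
        tm (φ : R D n →+* A) (θ (TenExc h a p w) * φ (ew w * LQ p)) x := by
      intro p w
      exact (tm_mul (φ : R D n →+* A) _ _ _).symm
    simp only [e]
    conv_rhs => rw [TenExc_spec h a, tm_sum_left]
    refine Finset.sum_congr rfl fun p _ => ?_
    rw [tm_sum_left]
  | h2 z z' hz hz' => rw [map_add, map_add, hz, hz']

end

/-- the induced map of P-modules -/
noncomputable def TenExf {X X' : Type} [AddCommGroup X] [Module (R D n) X]
    [AddCommGroup X'] [Module (R D n) X'] (f : X →ₗ[R D n] X') :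
    TenExP D n X →ₗ[MvPolynomial (Fin n) ℂ] TenExP D n X' where
  toFun x := f (show X from x)
  map_add' x y := f.map_add (show X from x) (show X from y)
  map_smul' c x := f.map_smul (pol c : R D n) (show X from x)

theorem TenEx_natb (_h : CKLR D n φ θ Ws) {X X' : Type} [AddCommGroup X] [Module (R D n) X]
    [AddCommGroup X'] [Module (R D n) X'] (f : X →ₗ[R D n] X')
    {G : TenExG D n X →+ TT (φ : R D n →+* A) X}
    (hG : ∀ g (x : X), G (g ⊗ₜ[MvPolynomial (Fin n) ℂ] (TenExi x : TenExP D n X)) =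
        tm (φ : R D n →+* A) (θ g) x)
    {G' : TenExG D n X' →+ TT (φ : R D n →+* A) X'}
    (hG' : ∀ g (x : X'), G' (g ⊗ₜ[MvPolynomial (Fin n) ℂ] (TenExi x : TenExP D n X')) =
        tm (φ : R D n →+* A) (θ g) x) (z : TenExG D n X) :
    G' (LinearMap.lTensor (O n) (TenExf f) z) = TTm (φ : R D n →+* A) f (G z) := by
  induction z using TensorProduct.induction_on with
  | zero => simp only [map_zero]
  | tmul g x =>
    obtain ⟨x, rfl⟩ : ∃ y : X, (TenExi y : TenExP D n X) = x := ⟨x, rfl⟩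
    have e2 : G' (g ⊗ₜ[MvPolynomial (Fin n) ℂ] (TenExf f (TenExi x))) =
      tm (φ : R D n →+* A) (θ g) (f x) := hG' g (f x)
    rw [LinearMap.lTensor_tmul, hG, e2, TTm_tm]
  | add z z' hz hz' => rw [map_add, map_add, map_add, map_add, hz, hz']

theorem TenEx_nata (h : CKLR D n φ θ Ws) {X X' : Type} [AddCommGroup X] [Module (R D n) X]
    [AddCommGroup X'] [Module (R D n) X'] (f : X →ₗ[R D n] X')
    {F : TT (φ : R D n →+* A) X →+ TenExG D n X}
    (hF : ∀ a x, F (tm (φ : R D n →+* A) a x) = TenExB h a x)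
    {F' : TT (φ : R D n →+* A) X' →+ TenExG D n X'}
    (hF' : ∀ a x, F' (tm (φ : R D n →+* A) a x) = TenExB h a x) (z : TT (φ : R D n →+* A) X) :
    F' (TTm (φ : R D n →+* A) f z) = LinearMap.lTensor (O n) (TenExf f) (F z) := by
  induction z using TT_induction with
  | h0 => simp only [map_zero]
  | h1 a x =>
    rw [TTm_tm, hF, hF']
    unfold TenExB
    simp only [map_sum, LinearMap.lTensor_tmul]
    refine Finset.sum_congr rfl fun p _ => Finset.sum_congr rfl fun w _ => ?_
    congr 1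
    rw [← f.map_smul]
    rfl
  | h2 z z' hz hz' => rw [map_add, map_add, map_add, map_add, hz, hz']

/-- Exactness. PROOF. For an `R D n`-module X let `GX = O n ⊗[P] X`, P = MvPolynomial (Fin n) ℂ acting on X
through `pol` (`Module.compHom X (pol : _ →ₐ[ℂ] R D n).toRingHom`).
α : TT X → GX, `tm a x ↦ ∑ p, ∑ (w ∈ Ws), g p w ⊗ (ew w * LQ p) • x` for a = ∑ θ (g p w) φ (ew w * LQ p)
(`lspan`, unique on Ws by `luniq`): biadditive; balanced: for r : R D n write
(ew w * LQ p) * r = ∑ pol (h p' w') (ew w' * LQ p') (`lpbw_span`; only w' = w occurs: multiply by ew w and use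
`lpbw_unique`), then a * φ r has the coordinates `∑ g p w * h` (`θ_pol`), and both sides agree in GX;
`exists_liftAdd`.
β : GX → TT X, `g ⊗ x ↦ tm (θ g) x`, well defined: `θ (g * h) = θ g * φ (pol h)` for polynomials h.
β (α (tm a x)) = ∑ tm (θ (g p w) * φ (ew w * LQ p)) x = tm a x (the terms with w ∉ Ws vanish, `E_out`).
α and β are natural in X. `flat_O` and right exactness of the tensor product: GX' → GX → GX'' is exact
(`Module.Flat.lTensor_exact`). If z ∈ TT X goes to 0 in TT X'' then α z = image of y ∈ GX', so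
z = β (α z) = image of β y. -/
theorem TT_exact (h : CKLR D n φ θ Ws) {X X' X'' : Type} [AddCommGroup X] [Module (R D n) X]
    [AddCommGroup X'] [Module (R D n) X'] [AddCommGroup X''] [Module (R D n) X'']
    (f : X' →ₗ[R D n] X) (g : X →ₗ[R D n] X'') (hfg : Function.Exact f g) :
    Function.Exact (TTm (φ : R D n →+* A) f) (TTm (φ : R D n →+* A) g) := by
  obtain ⟨α, hα⟩ := TenEx_alpha h X
  obtain ⟨β, hβ⟩ := TenEx_beta h X
  obtain ⟨β', hβ'⟩ := TenEx_beta h X'
  obtain ⟨α'', hα''⟩ := TenEx_alpha h X''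
  have hfl := flat_O n
  have hex : Function.Exact (LinearMap.lTensor (O n) (TenExf f)) (LinearMap.lTensor (O n) (TenExf g)) := by
    refine Module.Flat.lTensor_exact (O n) ?_
    intro x
    exact hfg (show X from x)
  intro z
  constructor
  · intro hz
    have h1 : LinearMap.lTensor (O n) (TenExf g) (α z) = 0 := by
      rw [← TenEx_nata h g hα hα'', hz, map_zero]
    obtain ⟨y, hy⟩ := (hex _).1 h1
    refine ⟨β' y, ?_⟩
    rw [← TenEx_natb h f hβ' hβ, hy, TenEx_ba h hα hβ]
  · rintro ⟨y, rfl⟩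
    induction y using TT_induction with
    | h0 => rw [map_zero, map_zero]
    | h1 a x =>
      rw [TTm_tm, TTm_tm, (hfg (f x)).2 ⟨x, rfl⟩, tm_zero_right]
    | h2 z z' hz hz' => rw [map_add, map_add, hz, hz', add_zero]

/-- PROOF: `TT_exact` with the zero map from the zero module. -/
theorem TT_inj (h : CKLR D n φ θ Ws) {X X' : Type} [AddCommGroup X] [Module (R D n) X]
    [AddCommGroup X'] [Module (R D n) X'] (f : X →ₗ[R D n] X') (hf : Function.Injective f) :
    Function.Injective (TTm (φ : R D n →+* A) f) := by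
  have h1 : Function.Exact (0 : X →ₗ[R D n] X) f := by
    intro x
    constructor
    · intro hx
      exact ⟨0, by rw [LinearMap.zero_apply]; exact (hf (hx.trans f.map_zero.symm)).symm⟩
    · rintro ⟨y, rfl⟩
      rw [LinearMap.zero_apply, map_zero]
  have h2 := TT_exact h (0 : X →ₗ[R D n] X) f h1
  rw [injective_iff_map_eq_zero]
  intro z hz
  obtain ⟨y, rfl⟩ := (h2 z).1 hz
  have h3 : ∀ y : TT (φ : R D n →+* A) X, TTm (φ : R D n →+* A) (0 : X →ₗ[R D n] X) y = 0 := by
    intro y
    induction y using TT_induction with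
    | h0 => rw [map_zero]
    | h1 a x => rw [TTm_tm, LinearMap.zero_apply, tm_zero_right]
    | h2 z z' hz hz' => rw [map_add, hz, hz', add_zero]
  exact h3 y

end CA1492.PA
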