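import Mathlib
import Pool.Agent.Lib.MP_ca1492_al.PA.Ten

/-!
# MP_ca1492_al, PA/TenF: extension of scalars for noncommutative rings, the functor
-/

set_option autoImplicit false

namespace CA1492.PA

open TensorProduct CategoryTheory

variable {R A : Type} [Ring R] [Ring A] (φ : R →+* A)

/-- the functor -/
noncomputable def TF : ModuleCat.{0} R ⥤ ModuleCat.{0} A where
  obj X := ModuleCat.of A (TT φ X)
  map f := ModuleCat.ofHom (TTm φ f.hom)
  map_id X := by
    apply ModuleCat.hom_ext
    apply TT_hom_ext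
    intro x
    simp [TTm_tm]
  map_comp f g := by
    apply ModuleCat.hom_ext
    apply TT_hom_ext
    intro x
    simp [TTm_tm]

instance : (TF φ).Additive where
  map_add := by
    intro X Y f g
    apply ModuleCat.hom_ext
    apply TT_hom_ext
    intro x
    show TTm φ (f.hom + g.hom) (tm φ 1 x) = TTm φ f.hom (tm φ 1 x) + TTm φ g.hom (tm φ 1 x)
    rw [TTm_tm, TTm_tm, TTm_tm, ← tm_add_right]
    rfl

/-- The adjunction, with a model Y of the restriction of Y'. PROOF: `exists_lift`, `TT_hom_ext`; the map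
sends F to `x ↦ eY.symm (F (tm 1 x))`. -/
theorem TF_adj (Y : ModuleCat.{0} R) (Y' : ModuleCat.{0} A) (eY : Y ≃+ Y')
    (heY : ∀ (r : R) (y : Y), eY (r • y) = φ r • eY y) :
    ∃ e : ∀ X : ModuleCat.{0} R, ((TF φ).obj X ⟶ Y') ≃ (X ⟶ Y),
      ∀ (X X' : ModuleCat.{0} R) (f : X ⟶ X') (g : (TF φ).obj X' ⟶ Y'),
        e X ((TF φ).map f ≫ g) = f ≫ e X' g := by
  have heS : ∀ (r : R) (y : Y'), eY.symm (φ r • y) = r • eY.symm y := by
    intro r y
    rw [eY.symm_apply_eq, heY, eY.apply_symm_apply]
  have hlin : ∀ (X : ModuleCat.{0} R) (F : TT φ X →ₗ[A] Y') (r : R) (x : X),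
      F (tm φ 1 (r • x)) = φ r • F (tm φ 1 x) := by
    intro X F r x
    rw [← tm_mul, ← map_smul, smul_tm, one_mul, mul_one]
  let toF : ∀ X : ModuleCat.{0} R, (TT φ X →ₗ[A] Y') → (X →ₗ[R] Y) := fun X F =>
    { toFun := fun x => eY.symm (F (tm φ 1 x))
      map_add' := fun x y => by rw [tm_add_right, map_add, map_add]
      map_smul' := fun r x => by rw [hlin, heS]; rfl }
  have toF_apply : ∀ X F x, toF X F x = eY.symm (F (tm φ 1 x)) := fun _ _ _ => rfl
  have hbij : ∀ X, Function.Bijective (toF X) := by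
    intro X
    constructor
    · intro F G h
      apply TT_hom_ext
      intro x
      have := congrArg (fun L : X →ₗ[R] Y => L x) h
      simpa [toF_apply] using this
    · intro f
      obtain ⟨F, hF⟩ := exists_lift φ (X := X) (Y := Y') (eY.toAddMonoidHom.comp f.toAddMonoidHom)
        (by
          intro r x
          show eY (f (r • x)) = φ r • eY (f x)
          rw [map_smul, heY])
      refine ⟨F, ?_⟩
      ext x
      rw [toF_apply, hF, one_smul]
      exact eY.symm_apply_apply _
  refine ⟨fun X => (ModuleCat.homEquiv (R := A)).trans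
    ((Equiv.ofBijective _ (hbij X)).trans (ModuleCat.homEquiv (R := R)).symm), ?_⟩
  intro X X' f g
  apply ModuleCat.hom_ext
  ext x
  show eY.symm (g.hom (TTm φ f.hom (tm φ 1 x))) = eY.symm (g.hom (tm φ 1 (f.hom x)))
  rw [TTm_tm]

/-- PROOF: lifting property: F : TT Q → Z, p : Z' → Z onto. `x ↦ F (tm 1 x)` is R-linear into the restriction
of scalars of Z; Q is a projective module, `Module.projective_lifting_property`; `exists_lift`. -/
theorem TF_proj (Q : ModuleCat.{0} R) (hQ : Projective Q) : Projective ((TF φ).obj Q) := by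
  have hQ' : Module.Projective R Q := (IsProjective.iff_projective (P := Q)).mpr hQ
  constructor
  intro Z' Z f p hp
  have hp' : Function.Surjective p.hom := (ModuleCat.epi_iff_surjective p).mp hp
  let _ : Module R Z := Module.compHom Z φ
  let _ : Module R Z' := Module.compHom Z' φ
  let F : TT φ Q →ₗ[A] Z := f.hom
  let P : Z' →ₗ[A] Z := p.hom
  let f0 : Q →ₗ[R] Z :=
    { toFun := fun x => F (tm φ 1 x)
      map_add' := fun x y => by rw [tm_add_right, map_add]
      map_smul' := fun r x => by
        show F (tm φ 1 (r • x)) = φ r • F (tm φ 1 x)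
        rw [← tm_mul, ← map_smul, smul_tm, one_mul, mul_one] }
  let p0 : Z' →ₗ[R] Z :=
    { toFun := fun x => P x
      map_add' := fun x y => map_add P x y
      map_smul' := fun r x => by
        show P (φ r • x) = φ r • P x
        rw [map_smul] }
  obtain ⟨h, hh⟩ := Module.projective_lifting_property p0 f0 hp'
  obtain ⟨G, hG⟩ := exists_lift φ (X := Q) (Y := Z') h.toAddMonoidHom
    (by
      intro r x
      exact map_smul h r x)
  refine ⟨ModuleCat.ofHom G, ?_⟩
  apply ModuleCat.hom_ext
  apply TT_hom_ext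
  intro x
  have h1 : P (h x) = F (tm φ 1 x) := congrArg (fun L : Q →ₗ[R] Z => L x) hh
  show P (G (tm φ 1 x)) = F (tm φ 1 x)
  rw [hG, one_smul]
  exact h1

end CA1492.PA
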