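import Mathlib
import Pool.Agent.Lib.MP_ca1492_al.PA.ExtAdj
import Pool.Agent.Lib.MP_ca1492_al.PA.TenEx
import Pool.Agent.Lib.MP_ca1492_al.PA.TenF

/-!
# MP_ca1492_al, PA/FBC: Ext over a completed KLR algebra and over `R D n`
-/

set_option autoImplicit false

namespace CA1492.PA

open MvPowerSeries CategoryTheory CategoryTheory.Abelian

universe w w'

variable {D : Dat} {n : ℕ} {A : Type} [Ring A] [Algebra ℂ A]
  {φ : R D n →ₐ[ℂ] A} {θ : O n →ₐ[ℂ] A} {Ws : Set (Wd D n)}

theorem FBC_cc (k : Fin n) (q : Polynomial ℂ) :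
    constantCoeff (Polynomial.aeval (X k : O n) q) = q.coeff 0 := by
  rw [Polynomial.aeval_def, Polynomial.hom_eval₂]
  have h1 : (constantCoeff : O n →+* ℂ).comp (algebraMap ℂ (O n)) = RingHom.id ℂ := by
    ext a
    simp [MvPowerSeries.algebraMap_apply]
  rw [h1, MvPowerSeries.constantCoeff_X, Polynomial.eval₂_at_zero]
  rfl

theorem FBC_nil1 {B : Type*} [Ring B] [Algebra ℂ B] (θ : O n →ₐ[ℂ] B) (V : Type*)
    [AddCommGroup V] [Module ℂ V] [Module B V] [IsScalarTower ℂ B V] [Module.Finite ℂ V]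
    (k : Fin n) : ∃ a : ℕ, ∀ x : V, θ (X k ^ a) • x = 0 := by
  let ψ : O n →ₐ[ℂ] Module.End ℂ V := (Algebra.lsmul ℂ ℂ V).comp θ
  have hψ : ∀ f x, ψ f x = θ f • x := fun f x => rfl
  have hint : IsIntegral ℂ (ψ (X k)) := Algebra.IsIntegral.isIntegral _
  have hne : minpoly ℂ (ψ (X k)) ≠ 0 := minpoly.ne_zero hint
  obtain ⟨q, hq, hq0⟩ := Polynomial.exists_eq_pow_rootMultiplicity_mul_and_not_dvd _ hne 0
  set a := (minpoly ℂ (ψ (X k))).rootMultiplicity 0 with ha
  rw [map_zero, sub_zero] at hq hq0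
  rw [Polynomial.X_dvd_iff] at hq0
  have hu : IsUnit (Polynomial.aeval (X k : O n) q) := by
    rw [MvPowerSeries.isUnit_iff_constantCoeff, FBC_cc]
    exact isUnit_iff_ne_zero.2 hq0
  have h1 : ψ (X k) ^ a * ψ (Polynomial.aeval (X k : O n) q) = 0 := by
    have h2 := minpoly.aeval ℂ (ψ (X k))
    rw [hq, map_mul, map_pow, Polynomial.aeval_X] at h2
    rw [← Polynomial.aeval_algHom_apply]
    exact h2
  have h3 : ψ (X k) ^ a = 0 := (hu.map ψ).mul_left_eq_zero.1 h1
  refine ⟨a, fun x => ?_⟩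
  rw [← hψ, map_pow, h3]
  rfl

/-- PROOF: for a single variable: the endomorphism T of V given by θ (X k) satisfies a polynomial
T^a q(T) = 0 with q(0) ≠ 0 (V is finite dimensional); q(X k) is a unit of O n
(`MvPowerSeries.isUnit_iff_constantCoeff`), so T^a = 0. All variables: a monomial of degree ≥ n a contains
some (X k)^a. -/
theorem nil_of_finite {B : Type*} [Ring B] [Algebra ℂ B] (θ : O n →ₐ[ℂ] B) (V : Type*)
    [AddCommGroup V] [Module ℂ V] [Module B V] [IsScalarTower ℂ B V] [Module.Finite ℂ V] :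
    ∃ K : ℕ, ∀ d : Fin n →₀ ℕ, K ≤ d.degree → ∀ x : V, θ (monomial d (1 : ℂ)) • x = 0 := by
  choose a ha using fun k => FBC_nil1 θ V k
  refine ⟨∑ k, a k + 1, fun d hd x => ?_⟩
  have h1 : ∃ k, a k ≤ d k := by
    by_contra hcon
    push Not at hcon
    have h2 : d.degree ≤ ∑ k, a k := by
      rw [Finsupp.degree_eq_sum]
      exact Finset.sum_le_sum fun k _ => (hcon k).le
    omega
  obtain ⟨k, hk⟩ := h1
  have h3 : monomial d (1 : ℂ) = monomial (d - Finsupp.single k (a k)) (1 : ℂ) * X k ^ a k := by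
    rw [X_pow_eq, monomial_mul_monomial, mul_one, tsub_add_cancel_of_le]
    rw [Finsupp.single_le_iff]
    exact hk
  rw [h3, map_mul, mul_smul, ha, smul_zero]

/-- every tensor is a pure tensor with first factor 1 -/
theorem FBC_pure (h : CKLR D n φ θ Ws) (M : Type) [AddCommGroup M] [Module A M]
    (M' : Type) [AddCommGroup M'] [Module (R D n) M'] (eM : M' ≃+ M)
    (heM : ∀ (r : R D n) (x : M'), eM (r • x) = φ r • eM x)
    (hnil : ∃ K : ℕ, ∀ d : Fin n →₀ ℕ, K ≤ d.degree → ∀ x : M, θ (monomial d (1 : ℂ)) • x = 0)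
    (z : TT (φ : R D n →+* A) M') : ∃ x : M', z = tm (φ : R D n →+* A) 1 x := by
  obtain ⟨K, hK⟩ := hnil
  let ι : M' →+ TT (φ : R D n →+* A) M' :=
    { toFun := fun x => tm (φ : R D n →+* A) 1 x
      map_zero' := tm_zero_right _ _
      map_add' := fun x y => tm_add_right _ _ x y }
  have hpol : ∀ (m : Fin n →₀ ℕ), K ≤ m.degree → ∀ x : M',
      (pol (MvPolynomial.monomial m (1 : ℂ)) : R D n) • x = 0 := by
    intro m hm x
    apply eM.injective
    rw [heM, map_zero, ← θ_pol h, MvPolynomial.coe_monomial]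
    exact hK m hm _
  have hth : ∀ (g : O n) (x : M'), tm (φ : R D n →+* A) (θ g) x ∈ ι.range := by
    intro g x
    obtain ⟨p, hp⟩ := HO_trunc K g
    obtain ⟨s, t, hs, ht⟩ := HO_decomp K hp
    have h1 : g = (p : O n) + (g - (p : O n)) := by ring
    rw [h1, map_add, tm_add_left]
    refine ι.range.add_mem ?_ ?_
    · refine ⟨(pol p : R D n) • x, ?_⟩
      show tm (φ : R D n →+* A) 1 ((pol p : R D n) • x) = _
      rw [← tm_mul, one_mul, θ_pol h]
      rfl
    · rw [ht, map_sum, tm_sum_left]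
      refine ι.range.sum_mem fun d hd => ?_
      have h2 : θ (t d * monomial d (1 : ℂ)) =
          θ (t d) * (φ : R D n →+* A) (pol (MvPolynomial.monomial d (1 : ℂ))) := by
        rw [map_mul, ← MvPolynomial.coe_monomial, θ_pol h]
        rfl
      rw [h2, tm_mul, hpol d (hs d hd).ge, tm_zero_right]
      exact ι.range.zero_mem
  have hall : z ∈ ι.range := by
    refine TT_induction (φ : R D n →+* A) (p := fun z => z ∈ ι.range) ι.range.zero_mem ?_
      (fun z z' hz hz' => ι.range.add_mem hz hz') z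
    intro a x
    obtain ⟨g, hg⟩ := lspan h a
    rw [hg, tm_sum_left]
    refine ι.range.sum_mem fun p _ => ?_
    rw [tm_sum_left]
    refine ι.range.sum_mem fun w _ => ?_
    have h3 : θ (g p w) * φ (ew w * LQ p) = θ (g p w) * (φ : R D n →+* A) (ew w * LQ p) := rfl
    rw [h3, tm_mul]
    exact hth _ _
  obtain ⟨x, hx⟩ := hall
  exact ⟨x, hx.symm⟩

/-- `A ⊗_R M' → M` is bijective. PROOF: surjective: `tm 1 x ↦ eM x`. Every element of TT M' is of the form
`tm 1 x`: by `lspan` `tm a x = ∑ tm (θ (g p w)) ((ew w * LQ p) • x)`, and `tm (θ g) x = tm 1 (pol h • x)` for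
g = h + t, HO K t (`HO_trunc`): t = ∑ t d * monomial d 1 (`HO_decomp`), θ t = ∑ θ (t d) * φ (pol (monomial d 1)),
`tm (θ (t d) * φ (pol m)) x = tm (θ (t d)) (pol m • x)` and `pol m • x = 0` because eM is injective and hnil.
So the kernel is 0. -/
theorem TT_bij (h : CKLR D n φ θ Ws) (M : Type) [AddCommGroup M] [Module A M]
    (M' : Type) [AddCommGroup M'] [Module (R D n) M'] (eM : M' ≃+ M)
    (heM : ∀ (r : R D n) (x : M'), eM (r • x) = φ r • eM x)
    (hnil : ∃ K : ℕ, ∀ d : Fin n →₀ ℕ, K ≤ d.degree → ∀ x : M, θ (monomial d (1 : ℂ)) • x = 0) :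
    ∃ e : TT (φ : R D n →+* A) M' ≃ₗ[A] M, ∀ a x, e (tm (φ : R D n →+* A) a x) = a • eM x := by
  obtain ⟨F, hF⟩ := exists_lift (φ : R D n →+* A) (eM : M' →+ M) heM
  have hF' : ∀ a x, F (tm (φ : R D n →+* A) a x) = a • eM x := hF
  have hinj : Function.Injective F := by
    rw [injective_iff_map_eq_zero]
    intro z hz
    obtain ⟨x, rfl⟩ := FBC_pure h M M' eM heM hnil z
    rw [hF', one_smul] at hz
    rw [(map_eq_zero_iff eM eM.injective).1 hz, tm_zero_right]
  have hsurj : Function.Surjective F := by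
    intro y
    refine ⟨tm (φ : R D n →+* A) 1 (eM.symm y), ?_⟩
    rw [hF', one_smul, AddEquiv.apply_symm_apply]
  exact ⟨LinearEquiv.ofBijective F ⟨hinj, hsurj⟩, hF'⟩

/-- **Flat base change.** PROOF: `ext_adj` for the functor `TF φ` (`TT_exact`, `TT_inj`, `TTm_surj`,
`ModuleCat.shortComplex_shortExact` as in Cat/Transfer.lean; `TF_proj`, `TF_adj`), and `TT_bij` with
`Cat.ext_iso`. -/
theorem fbc (h : CKLR D n φ θ Ws)
    [HasExt.{w'} (ModuleCat.{0} A)] [HasExt.{w} (ModuleCat.{0} (R D n))]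
    (M N : ModuleCat.{0} A) (M' N' : ModuleCat.{0} (R D n)) (eM : M' ≃+ M) (eN : N' ≃+ N)
    (heM : ∀ (r : R D n) (x : M'), eM (r • x) = φ r • eM x)
    (heN : ∀ (r : R D n) (x : N'), eN (r • x) = φ r • eN x)
    (hnil : ∃ K : ℕ, ∀ d : Fin n →₀ ℕ, K ≤ d.degree → ∀ x : M, θ (monomial d (1 : ℂ)) • x = 0)
    (i : ℕ) : Subsingleton (Ext.{w'} M N i) ↔ Subsingleton (Ext.{w} M' N' i) := by
  obtain ⟨e, -⟩ := TT_bij h M M' eM heM hnil
  obtain ⟨E, hE⟩ := TF_adj (φ : R D n →+* A) N' N eN heN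
  have hF : ∀ S : ShortComplex (ModuleCat.{0} (R D n)), S.ShortExact →
      (S.map (TF (φ : R D n →+* A))).ShortExact := by
    intro S hS
    refine ModuleCat.shortComplex_shortExact _ ?_ ?_ ?_
    · exact TT_exact h S.f.hom S.g.hom
        ((ShortComplex.ShortExact.moduleCat_exact_iff_function_exact S).1 hS.exact)
    · exact TT_inj h S.f.hom hS.moduleCat_injective_f
    · exact TTm_surj (φ : R D n →+* A) S.g.hom hS.moduleCat_surjective_g
  have key := ext_adj.{w, w'} (TF (φ : R D n →+* A)) hF (TF_proj (φ : R D n →+* A)) N' N E hE i M'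
  rw [← key]
  have iso : (TF (φ : R D n →+* A)).obj M' ≅ M := LinearEquiv.toModuleIso (X₁ := TT _ M') e
  exact ⟨fun hs => Cat.ext_iso iso.symm (Iso.refl N) i hs,
    fun hs => Cat.ext_iso iso (Iso.refl N) i hs⟩

end CA1492.PA
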