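import Mathlib
import Pool.Agent.Lib.MP_ca1492_al.Alg.Iota
import Pool.Agent.Lib.MP_ca1492_al.PA.PhiA

/-!
# MP_ca1492_al, PA/WInd: compatibility of two systems with a third one (algebra part of (P2))

`J : M → W`, `M` with commuting actions `α₁`, `α₂` of `A₁`, `A₂`, `W` with an action `act` of `A`.
If `J` intertwines the idempotents, variables and crossings, then it intertwines
`α₁ (φ₁ a) α₂ (φ₂ b)` with `φ (iota (a ⊗ b))`.
-/

set_option autoImplicit false

namespace CA1492.PA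

open MvPowerSeries TensorProduct

variable {D : Dat} {m k : ℕ}
variable {A₁ A₂ A : Type*} [Ring A₁] [Algebra ℂ A₁] [Ring A₂] [Algebra ℂ A₂] [Ring A] [Algebra ℂ A]
variable {M W : Type*} [AddCommGroup M] [Module ℂ M] [AddCommGroup W] [Module ℂ W]

section
variable (φ₁ : R D m →ₐ[ℂ] A₁) (φ₂ : R D k →ₐ[ℂ] A₂) (φ : R D (m + k) →ₐ[ℂ] A)
  (α₁ : A₁ →ₐ[ℂ] Module.End ℂ M) (α₂ : A₂ →ₐ[ℂ] Module.End ℂ M)
  (act : A →ₐ[ℂ] Module.End ℂ W) (J : M →ₗ[ℂ] W)

/-- compatibility on all of `R D m ⊗ R D k` from the generators -/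
theorem iota_act
    (hcomm : ∀ a b x, α₁ a (α₂ b x) = α₂ b (α₁ a x))
    (hE : ∀ (u : Wd D m) (v : Wd D k) (x : M), act (φ (ew (Fin.append u v))) (J x) =
      J (α₁ (φ₁ (ew u)) (α₂ (φ₂ (ew v)) x)))
    (hY1 : ∀ (j : Fin m) (x : M), act (φ (yk (Fin.castAdd k j))) (J x) =
      J (α₁ (φ₁ (yk j)) x))
    (hY2 : ∀ (j : Fin k) (x : M), act (φ (yk (Fin.natAdd m j))) (J x) =
      J (α₂ (φ₂ (yk j)) x))
    (hS1 : ∀ r : ℕ, r + 1 < m → ∀ x : M, act (φ (ps r)) (J x) = J (α₁ (φ₁ (ps r)) x))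
    (hS2 : ∀ r : ℕ, r + 1 < k → ∀ x : M, act (φ (ps (m + r))) (J x) = J (α₂ (φ₂ (ps r)) x))
    (a : R D m) (b : R D k) (x : M) :
    act (φ (iota D m k (a ⊗ₜ[ℂ] b))) (J x) = J (α₁ (φ₁ a) (α₂ (φ₂ b) x)) := by
  have mulact : ∀ (a b : A) (x : W), act (a * b) x = act a (act b x) := by
    intro a b x
    rw [map_mul, Module.End.mul_apply]
  have mul1 : ∀ (a b : A₁) (x : M), α₁ (a * b) x = α₁ a (α₁ b x) := by
    intro a b x
    rw [map_mul, Module.End.mul_apply]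
  have mul2 : ∀ (a b : A₂) (x : M), α₂ (a * b) x = α₂ a (α₂ b x) := by
    intro a b x
    rw [map_mul, Module.End.mul_apply]
  obtain ⟨Le, Ly, Ls⟩ := iotaL_spec D m k
  obtain ⟨Re, Ry, Rs⟩ := iotaR_spec D m k
  have sum1 : ∀ x : M, ∑ u : Wd D m, α₁ (φ₁ (ew u)) x = x := by
    intro x
    have h := (isRep_R D m).E_sum
    have h2 := congrArg (fun y => α₁ (φ₁ y) x) h
    simp only [map_sum, map_one] at h2
    rwa [LinearMap.sum_apply] at h2
  have sum2 : ∀ x : M, ∑ v : Wd D k, α₂ (φ₂ (ew v)) x = x := by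
    intro x
    have h := (isRep_R D k).E_sum
    have h2 := congrArg (fun y => α₂ (φ₂ y) x) h
    simp only [map_sum, map_one] at h2
    rwa [LinearMap.sum_apply] at h2
  have hL : ∀ (a : R D m) (x : M), act (φ (iotaL D m k a)) (J x) = J (α₁ (φ₁ a) x) := by
    intro a
    refine R_induction (p := fun a => ∀ x : M, act (φ (iotaL D m k a)) (J x) =
      J (α₁ (φ₁ a) x)) ?_ ?_ ?_ ?_ ?_ ?_ a
    · intro c x
      rw [AlgHom.commutes, AlgHom.commutes, AlgHom.commutes, AlgHom.commutes, AlgHom.commutes,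
        Module.algebraMap_end_apply, Module.algebraMap_end_apply, map_smul]
    · intro u x
      rw [Le, map_sum, map_sum, LinearMap.sum_apply]
      simp only [hE]
      rw [← map_sum]
      congr 1
      simp only [hcomm]
      exact sum2 _
    · intro j x
      rw [Ly]
      exact hY1 j x
    · intro r x
      by_cases hr : r + 1 < m
      · rw [Ls r hr]
        exact hS1 r hr x
      · rw [iota_ps_out r hr]
        simp
    · intro a b ha hb x
      rw [map_add, map_add, map_add, map_add, map_add, LinearMap.add_apply, LinearMap.add_apply,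
        ha, hb, map_add]
    · intro a b ha hb x
      rw [map_mul, map_mul, mulact, hb, ha, map_mul, mul1]
  have hR : ∀ (b : R D k) (x : M), act (φ (iotaR D m k b)) (J x) = J (α₂ (φ₂ b) x) := by
    intro b
    refine R_induction (p := fun b => ∀ x : M, act (φ (iotaR D m k b)) (J x) =
      J (α₂ (φ₂ b) x)) ?_ ?_ ?_ ?_ ?_ ?_ b
    · intro c x
      rw [AlgHom.commutes, AlgHom.commutes, AlgHom.commutes, AlgHom.commutes, AlgHom.commutes,
        Module.algebraMap_end_apply, Module.algebraMap_end_apply, map_smul]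
    · intro v x
      rw [Re, map_sum, map_sum, LinearMap.sum_apply]
      simp only [hE]
      rw [← map_sum]
      congr 1
      exact sum1 _
    · intro j x
      rw [Ry]
      exact hY2 j x
    · intro r x
      by_cases hr : r + 1 < k
      · rw [Rs r hr]
        exact hS2 r hr x
      · rw [iota_ps_out r hr]
        simp
    · intro a b ha hb x
      rw [map_add, map_add, map_add, map_add, map_add, LinearMap.add_apply, LinearMap.add_apply,
        ha, hb, map_add]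
    · intro a b ha hb x
      rw [map_mul, map_mul, mulact, hb, ha, map_mul, mul2]
  have hi : iota D m k (a ⊗ₜ[ℂ] b) = iotaL D m k a * iotaR D m k b := by
    unfold iota
    rw [Algebra.TensorProduct.lift_tmul]
  rw [hi, map_mul, mulact, hR, hL]

end

section
variable {E₁ : Wd D m → A₁} {θ₁ : O m →ₐ[ℂ] A₁} {Φ₁ S₁ : ℕ → A₁}
  {E₂ : Wd D k → A₂} {θ₂ : O k →ₐ[ℂ] A₂} {Φ₂ S₂ : ℕ → A₂}
  {E : Wd D (m + k) → A} {θ : O (m + k) →ₐ[ℂ] A} {Φ S : ℕ → A}
  (α₁ : A₁ →ₐ[ℂ] Module.End ℂ M) (α₂ : A₂ →ₐ[ℂ] Module.End ℂ M)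
  (act : A →ₐ[ℂ] Module.End ℂ W) (J : M →ₗ[ℂ] W)

/-- compatibility of the `S r` with the left factor -/
theorem S_left (h₁ : SSys D m E₁ θ₁ Φ₁ S₁) (h₂ : SSys D k E₂ θ₂ Φ₂ S₂)
    (h : SSys D (m + k) E θ Φ S)
    (hcomm : ∀ a b x, α₁ a (α₂ b x) = α₂ b (α₁ a x))
    (hE : ∀ (u : Wd D m) (v : Wd D k) (x : M), act (E (Fin.append u v)) (J x) =
      J (α₁ (E₁ u) (α₂ (E₂ v) x)))
    (hθ : ∀ (j : Fin m) (x : M), act (θ (X (Fin.castAdd k j))) (J x) = J (α₁ (θ₁ (X j)) x))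
    (hΦ : ∀ r : ℕ, r + 1 < m → ∀ x : M, act (Φ r) (J x) = J (α₁ (Φ₁ r) x))
    (hs : ∀ (i j : Fin m), i ≠ j → Function.Surjective (α₁ (θ₁ (X i - X j))))
    (r : ℕ) (hr : r + 1 < m) (x : M) : act (S r) (J x) = J (α₁ (S₁ r) x) := by
  have mulact : ∀ (a b : A) (x : W), act (a * b) x = act a (act b x) := by
    intro a b x
    rw [map_mul, Module.End.mul_apply]
  have mul1 : ∀ (a b : A₁) (x : M), α₁ (a * b) x = α₁ a (α₁ b x) := by
    intro a b x
    rw [map_mul, Module.End.mul_apply]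
  have hr' : r + 1 < m + k := by omega
  have sum1 : ∀ x : M, ∑ u : Wd D m, α₁ (E₁ u) x = x := by
    intro x
    have h2 := congrArg (fun y => α₁ y x) h₁.base.E_sum
    simp only [map_sum, map_one] at h2
    rwa [LinearMap.sum_apply] at h2
  have sum2 : ∀ x : M, ∑ v : Wd D k, α₂ (E₂ v) x = x := by
    intro x
    have h2 := congrArg (fun y => α₂ y x) h₂.base.E_sum
    simp only [map_sum, map_one] at h2
    rwa [LinearMap.sum_apply] at h2
  have key : ∀ (u : Wd D m) (v : Wd D k) (x : M),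
      act (S r) (J (α₁ (E₁ u) (α₂ (E₂ v) x))) = J (α₁ (S₁ r) (α₁ (E₁ u) (α₂ (E₂ v) x))) := by
    intro u v x
    have eu1 : (Fin.append u v : Wd D (m + k)) ⟨r, by omega⟩ = u ⟨r, by omega⟩ :=
      Fin.append_left u v ⟨r, by omega⟩
    have eu2 : (Fin.append u v : Wd D (m + k)) ⟨r + 1, hr'⟩ = u ⟨r + 1, hr⟩ :=
      Fin.append_left u v ⟨r + 1, hr⟩
    by_cases hu : u ⟨r, by omega⟩ = u ⟨r + 1, hr⟩
    · obtain ⟨y, rfl⟩ := hs ⟨r, by omega⟩ ⟨r + 1, hr⟩ (by
        intro e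
        have := congrArg Fin.val e
        simp at this) x
      have e1 := h.eq r hr' (Fin.append u v) (by rw [eu1, eu2, hu])
      have e2 := h₁.eq r hr u hu
      have e3 : act (θ (X ⟨r, by omega⟩ - X ⟨r + 1, hr'⟩)) (J y) =
          J (α₁ (θ₁ (X ⟨r, by omega⟩ - X ⟨r + 1, hr⟩)) y) := by
        rw [map_sub, map_sub, map_sub, map_sub, LinearMap.sub_apply, LinearMap.sub_apply, map_sub]
        congr 1
        · exact hθ ⟨r, by omega⟩ y
        · exact hθ ⟨r + 1, hr⟩ y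
      have e4 : act (S r) (J (α₁ (E₁ u) (α₂ (E₂ v)
          (α₁ (θ₁ (X ⟨r, by omega⟩ - X ⟨r + 1, hr⟩)) y)))) =
          act ((1 - Φ r) * E (Fin.append u v)) (J y) := by
        rw [← hE, ← e3, ← mulact, ← mulact, ← e1, mul_assoc (S r), ← h.base.θ_E, ← mul_assoc]
      have e5 : α₁ (S₁ r) (α₁ (E₁ u) (α₂ (E₂ v)
          (α₁ (θ₁ (X ⟨r, by omega⟩ - X ⟨r + 1, hr⟩)) y))) =
          α₁ ((1 - Φ₁ r) * E₁ u) (α₂ (E₂ v) y) := by
        rw [← hcomm (θ₁ _), ← mul1, ← mul1, ← e2, mul_assoc (S₁ r), ← h₁.base.θ_E, ← mul_assoc]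
      have e6 : ∀ z : M, act (1 - Φ r) (J z) = J (α₁ (1 - Φ₁ r) z) := by
        intro z
        rw [map_sub act, map_sub α₁, LinearMap.sub_apply, LinearMap.sub_apply, map_one, map_one,
          Module.End.one_apply, Module.End.one_apply, map_sub J, hΦ r hr]
      rw [e4, e5, mulact, hE, e6, mul1]
    · have e1 := h.ne r hr' (Fin.append u v) (by rw [eu1, eu2]; exact hu)
      have e2 := h₁.ne r hr u hu
      rw [← hE, ← mulact, e1, mulact, hE, hΦ r hr, ← mul1, ← mul1, e2]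
  have e0 : x = ∑ u : Wd D m, ∑ v : Wd D k, α₁ (E₁ u) (α₂ (E₂ v) x) := by
    rw [← sum1 x]
    refine Finset.sum_congr rfl fun u _ => ?_
    rw [← map_sum, sum2, sum1]
  rw [e0]
  simp only [map_sum]
  exact Finset.sum_congr rfl fun u _ => Finset.sum_congr rfl fun v _ => key u v x

/-- compatibility of the `S r` with the right factor -/
theorem S_right (h₁ : SSys D m E₁ θ₁ Φ₁ S₁) (h₂ : SSys D k E₂ θ₂ Φ₂ S₂)
    (h : SSys D (m + k) E θ Φ S)
    (hcomm : ∀ a b x, α₁ a (α₂ b x) = α₂ b (α₁ a x))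
    (hE : ∀ (u : Wd D m) (v : Wd D k) (x : M), act (E (Fin.append u v)) (J x) =
      J (α₁ (E₁ u) (α₂ (E₂ v) x)))
    (hθ : ∀ (j : Fin k) (x : M), act (θ (X (Fin.natAdd m j))) (J x) = J (α₂ (θ₂ (X j)) x))
    (hΦ : ∀ r : ℕ, r + 1 < k → ∀ x : M, act (Φ (m + r)) (J x) = J (α₂ (Φ₂ r) x))
    (hs : ∀ (i j : Fin k), i ≠ j → Function.Surjective (α₂ (θ₂ (X i - X j))))
    (r : ℕ) (hr : r + 1 < k) (x : M) : act (S (m + r)) (J x) = J (α₂ (S₂ r) x) := by
  have mulact : ∀ (a b : A) (x : W), act (a * b) x = act a (act b x) := by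
    intro a b x
    rw [map_mul, Module.End.mul_apply]
  have mul2 : ∀ (a b : A₂) (x : M), α₂ (a * b) x = α₂ a (α₂ b x) := by
    intro a b x
    rw [map_mul, Module.End.mul_apply]
  have hr' : m + r + 1 < m + k := by omega
  have sum1 : ∀ x : M, ∑ u : Wd D m, α₁ (E₁ u) x = x := by
    intro x
    have h2 := congrArg (fun y => α₁ y x) h₁.base.E_sum
    simp only [map_sum, map_one] at h2
    rwa [LinearMap.sum_apply] at h2
  have sum2 : ∀ x : M, ∑ v : Wd D k, α₂ (E₂ v) x = x := by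
    intro x
    have h2 := congrArg (fun y => α₂ y x) h₂.base.E_sum
    simp only [map_sum, map_one] at h2
    rwa [LinearMap.sum_apply] at h2
  have key : ∀ (u : Wd D m) (v : Wd D k) (x : M),
      act (S (m + r)) (J (α₁ (E₁ u) (α₂ (E₂ v) x))) =
        J (α₂ (S₂ r) (α₁ (E₁ u) (α₂ (E₂ v) x))) := by
    intro u v x
    have eu1 : (Fin.append u v : Wd D (m + k)) ⟨m + r, by omega⟩ = v ⟨r, by omega⟩ :=
      Fin.append_right u v ⟨r, by omega⟩
    have eu2 : (Fin.append u v : Wd D (m + k)) ⟨m + r + 1, hr'⟩ = v ⟨r + 1, hr⟩ :=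
      Fin.append_right u v ⟨r + 1, hr⟩
    by_cases hu : v ⟨r, by omega⟩ = v ⟨r + 1, hr⟩
    · obtain ⟨y, rfl⟩ := hs ⟨r, by omega⟩ ⟨r + 1, hr⟩ (by
        intro e
        have := congrArg Fin.val e
        simp at this) x
      have e1 := h.eq (m + r) hr' (Fin.append u v) (by rw [eu1, eu2, hu])
      have e2 := h₂.eq r hr v hu
      have e3 : act (θ (X ⟨m + r, by omega⟩ - X ⟨m + r + 1, hr'⟩)) (J y) =
          J (α₂ (θ₂ (X ⟨r, by omega⟩ - X ⟨r + 1, hr⟩)) y) := by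
        rw [map_sub, map_sub, map_sub, map_sub, LinearMap.sub_apply, LinearMap.sub_apply, map_sub]
        congr 1
        · exact hθ ⟨r, by omega⟩ y
        · exact hθ ⟨r + 1, hr⟩ y
      have e4 : act (S (m + r)) (J (α₁ (E₁ u) (α₂ (E₂ v)
          (α₂ (θ₂ (X ⟨r, by omega⟩ - X ⟨r + 1, hr⟩)) y)))) =
          act ((1 - Φ (m + r)) * E (Fin.append u v)) (J y) := by
        rw [← hE, ← e3, ← mulact, ← mulact, ← e1, mul_assoc (S (m + r)), ← h.base.θ_E,
          ← mul_assoc]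
      have e5 : α₂ (S₂ r) (α₁ (E₁ u) (α₂ (E₂ v)
          (α₂ (θ₂ (X ⟨r, by omega⟩ - X ⟨r + 1, hr⟩)) y))) =
          α₁ (E₁ u) (α₂ ((1 - Φ₂ r) * E₂ v) y) := by
        rw [← hcomm, ← mul2, ← mul2, ← e2, mul_assoc (S₂ r), ← h₂.base.θ_E, ← mul_assoc]
      have e6 : ∀ z : M, act (1 - Φ (m + r)) (J z) = J (α₂ (1 - Φ₂ r) z) := by
        intro z
        rw [map_sub act, map_sub α₂, LinearMap.sub_apply, LinearMap.sub_apply, map_one, map_one,
          Module.End.one_apply, Module.End.one_apply, map_sub J, hΦ r hr]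
      rw [e4, e5, mulact, hE, e6, mul2, ← hcomm (E₁ u) (1 - Φ₂ r)]
    · have e1 := h.ne (m + r) hr' (Fin.append u v) (by rw [eu1, eu2]; exact hu)
      have e2 := h₂.ne r hr v hu
      rw [← hE, ← mulact, e1, mulact, hE, hΦ r hr, ← hcomm, ← hcomm, ← mul2, ← mul2, e2]
  have e0 : x = ∑ u : Wd D m, ∑ v : Wd D k, α₁ (E₁ u) (α₂ (E₂ v) x) := by
    rw [← sum1 x]
    refine Finset.sum_congr rfl fun u _ => ?_
    rw [← map_sum, sum2, sum1]
  rw [e0]
  simp only [map_sum]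
  exact Finset.sum_congr rfl fun u _ => Finset.sum_congr rfl fun v _ => key u v x

end

end CA1492.PA
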